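import Pool.Agent.Lib.ATJ.Defs

/-!
The Beck–Fiala rounding theorem and its version for monomials of bounded degree.
-/

set_option autoImplicit false
set_option linter.unusedSectionVars false

namespace Pool.Agent.ATJ

open Finset Pool.Agent.Flows

variable {V E : Type} [Fintype V] [DecidableEq V] [Fintype E] [DecidableEq E]

/-- Fewer equations than unknowns: a nonzero solution supported on `U`. -/
lemma bf_kernel {R C : Type} [Fintype C] [DecidableEq R] [DecidableEq C] (A : R → C → ℝ)
    (H : Finset R) (U : Finset C) (h : H.card < U.card) :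
    ∃ z : C → ℝ, (∀ c, c ∉ U → z c = 0) ∧ (∃ c, z c ≠ 0) ∧ ∀ r ∈ H, ∑ c, A r c * z c = 0 := by
  let f : (U → ℝ) →ₗ[ℝ] (H → ℝ) := Matrix.mulVecLin (Matrix.of fun (r : H) (c : U) => A r c)
  have hk : LinearMap.ker f ≠ ⊥ := by
    apply LinearMap.ker_ne_bot_of_finrank_lt
    simpa using h
  obtain ⟨z, hz, hz0⟩ := Submodule.exists_mem_ne_zero_of_ne_bot hk
  refine ⟨fun c => if hc : c ∈ U then z ⟨c, hc⟩ else 0, fun c hc => by simp [hc], ?_, ?_⟩
  · by_contra hcon
    push Not at hcon
    apply hz0
    funext c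
    have := hcon c
    simpa using this
  · intro r hr
    have h1 := congrFun (LinearMap.mem_ker.1 hz) ⟨r, hr⟩
    simp only [f, Matrix.mulVecLin_apply, Matrix.mulVec, dotProduct, Matrix.of_apply,
      Pi.zero_apply] at h1
    refine Eq.trans ?_ h1
    rw [← Finset.sum_subset (subset_univ U) (fun c _ hc => by simp [hc]),
      ← Finset.sum_coe_sort U]
    refine sum_congr rfl fun c _ => ?_
    simp

/-- Moving along a direction until a coordinate reaches the boundary of the cube. -/
lemma bf_move {C : Type} [Fintype C] [DecidableEq C] (x z : C → ℝ) (hx : ∀ c, |x c| ≤ 1)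
    (hz : ∃ c, z c ≠ 0) :
    ∃ t : ℝ, (∀ c, |x c + t * z c| ≤ 1) ∧ ∃ c, z c ≠ 0 ∧ |x c + t * z c| = 1 := by
  let f : C → ℝ := fun c => if 0 < z c then (1 - x c) / z c else (-1 - x c) / z c
  obtain ⟨c0, hc0, hmin⟩ := exists_min_image (univ.filter fun c => z c ≠ 0) f
    (by obtain ⟨c, hc⟩ := hz; exact ⟨c, by simpa using hc⟩)
  have hz0 : z c0 ≠ 0 := by simpa using hc0
  have ht : 0 ≤ f c0 := by
    have := abs_le.1 (hx c0)
    simp only [f]
    split_ifs with h
    · exact div_nonneg (by linarith) h.le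
    · exact div_nonneg_of_nonpos (by linarith) (not_lt.1 h)
  refine ⟨f c0, fun c => ?_, c0, hz0, ?_⟩
  · have hc := abs_le.1 (hx c)
    rcases lt_trichotomy (z c) 0 with h | h | h
    · have h1 := hmin c (by simpa using h.ne)
      have h2 : f c = (-1 - x c) / z c := by simp [f, not_lt.2 h.le]
      rw [h2, le_div_iff_of_neg h] at h1
      have h3 : f c0 * z c ≤ 0 := mul_nonpos_of_nonneg_of_nonpos ht h.le
      exact abs_le.2 ⟨by linarith, by linarith⟩
    · simpa [h] using hx c
    · have h1 := hmin c (by simpa using h.ne')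
      have h2 : f c = (1 - x c) / z c := by simp [f, h]
      rw [h2, le_div_iff₀ h] at h1
      have h3 : 0 ≤ f c0 * z c := mul_nonneg ht h.le
      exact abs_le.2 ⟨by linarith, by linarith⟩
  · simp only [f]
    split_ifs with h
    · rw [div_mul_cancel₀ _ hz0]; simp
    · rw [div_mul_cancel₀ _ hz0]; simp

lemma bf_core {R C : Type} [Fintype R] [Fintype C] [DecidableEq R] [DecidableEq C]
    (A : R → C → ℝ) (D : ℝ) (hD0 : 0 ≤ D) (hD : ∀ c, ∑ r, |A r c| ≤ D) (n : ℕ) :
    ∀ U : Finset C, U.card = n → ∀ x : C → ℝ, (∀ c, |x c| ≤ 1) → (∀ c, c ∉ U → |x c| = 1) →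
      ∃ s : C → ℝ, (∀ c, c ∉ U → s c = x c) ∧ (∀ c, |s c| = 1) ∧
        ∀ r, |∑ c, A r c * (s c - x c)| ≤ 2 * D := by
  induction n with
  | zero =>
    intro U hU x _ hx
    rw [card_eq_zero] at hU
    subst hU
    exact ⟨x, fun _ _ => rfl, fun c => hx c (by simp), fun r => by simp [hD0]⟩
  | succ n ih =>
    intro U hU x hx1 hx2
    set H : Finset R := univ.filter fun r => D < ∑ c ∈ U, |A r c| with hH
    have hHU : H.card < U.card := by
      rcases H.eq_empty_or_nonempty with h | h
      · rw [h, hU]; simp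
      · by_contra hcon
        have h1 : ∑ _r ∈ H, D < ∑ r ∈ H, ∑ c ∈ U, |A r c| :=
          sum_lt_sum_of_nonempty h fun r hr => by simpa [hH] using hr
        have h2 : ∑ r ∈ H, ∑ c ∈ U, |A r c| ≤ ∑ _c ∈ U, D := by
          rw [sum_comm]
          refine sum_le_sum fun c _ => le_trans ?_ (hD c)
          exact sum_le_sum_of_subset_of_nonneg (subset_univ _) fun _ _ _ => abs_nonneg _
        simp only [sum_const, nsmul_eq_mul] at h1 h2
        have h3 : (U.card : ℝ) ≤ H.card := by exact_mod_cast not_lt.1 hcon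
        nlinarith
    obtain ⟨z, hz1, hz2, hz3⟩ := bf_kernel A H U hHU
    obtain ⟨t, ht1, c0, hc0, ht2⟩ := bf_move x z hx1 hz2
    have hc0U : c0 ∈ U := by
      by_contra h
      exact hc0 (hz1 c0 h)
    obtain ⟨s, hs1, hs2, hs3⟩ := ih (U.erase c0) (by rw [card_erase_of_mem hc0U, hU]; rfl)
      (fun c => x c + t * z c) ht1 (fun c hc => by
        by_cases h : c = c0
        · rw [h]; exact ht2
        · have hcU : c ∉ U := fun h' => hc (mem_erase.2 ⟨h, h'⟩)
          simpa [hz1 c hcU] using hx2 c hcU)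
    have hoff : ∀ c, c ∉ U → s c = x c := fun c hc => by
      rw [hs1 c (fun h => hc (mem_of_mem_erase h)), hz1 c hc]; simp
    refine ⟨s, hoff, hs2, fun r => ?_⟩
    by_cases hr : r ∈ H
    · have h1 : ∑ c, A r c * (s c - x c) =
          ∑ c, A r c * (s c - (x c + t * z c)) + t * ∑ c, A r c * z c := by
        rw [mul_sum, ← sum_add_distrib]
        exact sum_congr rfl fun c _ => by ring
      rw [h1, hz3 r hr]
      simpa using hs3 r
    · have h1 : ∑ c ∈ U, |A r c| ≤ D := by simpa [hH] using hr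
      rw [← Finset.sum_subset (subset_univ U) (fun c _ hc => by simp [hoff c hc])]
      refine (abs_sum_le_sum_abs _ _).trans ?_
      have h2 : ∑ c ∈ U, |A r c * (s c - x c)| ≤ ∑ c ∈ U, 2 * |A r c| := by
        refine sum_le_sum fun c _ => ?_
        rw [abs_mul, mul_comm]
        refine mul_le_mul_of_nonneg_right ?_ (abs_nonneg _)
        have := abs_sub (s c) (x c)
        linarith [hs2 c, hx1 c]
      rw [← mul_sum] at h2
      linarith

/-- The Beck–Fiala theorem. -/
lemma bf_signs {R C : Type} [Fintype R] [Fintype C] [DecidableEq R] [DecidableEq C]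
    (A : R → C → ℝ) (D : ℝ) (hD0 : 0 ≤ D) (hD : ∀ c, ∑ r, |A r c| ≤ D) :
    ∃ σ : C → ZMod 2, ∀ r, |∑ c, A r c * sg (σ c)| ≤ 2 * D := by
  obtain ⟨s, -, hs2, hs3⟩ := bf_core A D hD0 hD _ univ rfl (fun _ => 0) (by simp) (by simp)
  refine ⟨fun c => if s c = 1 then 0 else 1, fun r => ?_⟩
  have h : ∀ c, sg (if s c = 1 then 0 else 1) = s c := fun c => by
    split_ifs with h
    · simp [h]
    · rcases (abs_eq (by norm_num : (0 : ℝ) ≤ 1)).1 (hs2 c) with h' | h'
      · exact absurd h' h
      · simp [h']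
  simpa [h] using hs3 r

/-- Greedy colouring. -/
lemma bf_colour {W : Type} [Fintype W] [DecidableEq W] (N : W → Finset W) (m : ℕ)
    (hN : ∀ w, (N w).card ≤ m) (hs : ∀ v w, v ∈ N w → w ∈ N v) :
    ∃ col : W → ℕ, (∀ w, col w ≤ m) ∧ ∀ v w, v ∈ N w → v ≠ w → col v ≠ col w := by
  have key : ∀ S : Finset W, ∃ col : W → ℕ, (∀ w, col w ≤ m) ∧
      ∀ v ∈ S, ∀ w ∈ S, v ∈ N w → v ≠ w → col v ≠ col w := by
    intro S
    induction S using Finset.induction_on with
    | empty => exact ⟨fun _ => 0, by simp, by simp⟩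
    | insert a S ha ih =>
      obtain ⟨col, h1, h2⟩ := ih
      have h3 : ((N a).image col).card < (range (m + 1)).card := by
        rw [card_range]
        exact Nat.lt_succ_of_le (card_image_le.trans (hN a))
      obtain ⟨k, hk1, hk2⟩ := exists_mem_notMem_of_card_lt_card h3
      have hk3 : ∀ v ∈ N a, col v ≠ k := fun v hv h => hk2 (mem_image.2 ⟨v, hv, h⟩)
      refine ⟨Function.update col a k, fun w => ?_, fun v hv w hw hvw hne => ?_⟩
      · by_cases h : w = a
        · subst h
          simpa [Nat.lt_succ_iff] using hk1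
        · simpa [h] using h1 w
      · by_cases hva : v = a
        · subst hva
          have : w ≠ v := hne.symm
          simpa [this] using (hk3 w (hs _ _ hvw)).symm
        · by_cases hwa : w = a
          · subst hwa
            simpa [hva] using hk3 v hvw
          · simp only [Function.update_of_ne hva, Function.update_of_ne hwa]
            exact h2 v ((mem_insert.1 hv).resolve_left hva) w
              ((mem_insert.1 hw).resolve_left hwa) hvw hne
  obtain ⟨col, h1, h2⟩ := key univ
  exact ⟨col, h1, fun v w => h2 v (mem_univ _) w (mem_univ _)⟩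

lemma bf_chi_erase {W : Type} [DecidableEq W] {l : Finset W} {w : W} (hw : w ∈ l)
    (s : W → ZMod 2) : chi l s = chi (l.erase w) s * sg (s w) := by
  rw [chi, chi, ← sg_add, sum_erase_add _ _ hw]

/-- Signs chosen colour by colour. -/
lemma bf_layers {R T W : Type} [Fintype R] [Fintype T] [Fintype W] [DecidableEq R]
    [DecidableEq T] [DecidableEq W] (ρ : T → R) (dep : T → Finset W) (c : T → ℝ)
    (hc : ∀ t, |c t| ≤ 1) (M : ℕ) (hM : ∀ w, (univ.filter fun t => w ∈ dep t).card ≤ M)
    (col : W → ℕ) (hcol : ∀ t, ∀ v ∈ dep t, ∀ w ∈ dep t, col v = col w → v = w) (n : ℕ) :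
    ∃ s : W → ZMod 2, ∀ r,
      |∑ t, if ρ t = r ∧ (dep t).Nonempty ∧ ∀ w ∈ dep t, col w < n then c t * chi (dep t) s
        else 0| ≤ 2 * M * n := by
  induction n with
  | zero =>
    refine ⟨0, fun r => ?_⟩
    rw [sum_eq_zero]
    · simp
    · intro t _
      rw [if_neg]
      rintro ⟨-, ⟨w, hw⟩, h⟩
      exact absurd (h w hw) (by simp)
  | succ n ih =>
    obtain ⟨s, hs⟩ := ih
    let A : R → W → ℝ := fun r w => ∑ t,
      if ρ t = r ∧ col w = n ∧ w ∈ dep t ∧ ∀ v ∈ dep t, col v < n + 1 then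
        c t * chi ((dep t).erase w) s else 0
    have hA : ∀ w, ∑ r, |A r w| ≤ M := by
      intro w
      have h1 : ∀ r, |A r w| ≤ ∑ t, if ρ t = r then (if w ∈ dep t then (1 : ℝ) else 0) else 0 := by
        intro r
        refine (abs_sum_le_sum_abs _ _).trans (sum_le_sum fun t _ => ?_)
        by_cases h : ρ t = r ∧ col w = n ∧ w ∈ dep t ∧ ∀ v ∈ dep t, col v < n + 1
        · rw [if_pos h, if_pos h.1, if_pos h.2.2.1, abs_mul, abs_chi, mul_one]
          exact hc t
        · rw [if_neg h, abs_zero]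
          split_ifs <;> norm_num
      refine (sum_le_sum fun r _ => h1 r).trans ?_
      rw [sum_comm]
      simp only [sum_ite_eq, mem_univ, if_true]
      rw [sum_boole]
      exact_mod_cast hM w
    obtain ⟨σ, hσ⟩ := bf_signs A M (Nat.cast_nonneg _) hA
    let s' : W → ZMod 2 := fun w => if col w = n then σ w else s w
    refine ⟨s', fun r => ?_⟩
    have key : (∑ t, if ρ t = r ∧ (dep t).Nonempty ∧ ∀ w ∈ dep t, col w < n + 1 then
          c t * chi (dep t) s' else 0) =
        (∑ t, if ρ t = r ∧ (dep t).Nonempty ∧ ∀ w ∈ dep t, col w < n then c t * chi (dep t) s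
          else 0) + ∑ w, A r w * sg (σ w) := by
      simp only [A, sum_mul]
      rw [sum_comm (s := (univ : Finset W)), ← sum_add_distrib]
      refine sum_congr rfl fun t _ => ?_
      by_cases h1 : ρ t = r ∧ ∀ w ∈ dep t, col w < n + 1
      · by_cases h2 : ∃ w ∈ dep t, col w = n
        · obtain ⟨w, hw, hwn⟩ := h2
          rw [if_pos ⟨h1.1, ⟨w, hw⟩, h1.2⟩, if_neg (fun h => absurd (h.2.2 w hw) (by omega)),
            zero_add, sum_eq_single w, if_pos ⟨h1.1, hwn, hw, h1.2⟩, bf_chi_erase hw]
          · have e1 : chi ((dep t).erase w) s' = chi ((dep t).erase w) s := by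
              refine chi_congr fun v hv => ?_
              have : col v ≠ n := fun h =>
                (mem_erase.1 hv).1 (hcol t v (mem_erase.1 hv).2 w hw (h.trans hwn.symm))
              simp [s', this]
            have e2 : s' w = σ w := by simp [s', hwn]
            rw [e1, e2, mul_assoc]
          · intro v _ hvw
            rw [if_neg, zero_mul]
            rintro ⟨-, h, hv, -⟩
            exact hvw (hcol t v hv w hw (h.trans hwn.symm))
          · simp
        · push Not at h2
          have h3 : ∀ w ∈ dep t, col w < n := fun w hw => by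
            have := h1.2 w hw
            have := h2 w hw
            omega
          rw [sum_eq_zero, add_zero]
          · have e1 : chi (dep t) s' = chi (dep t) s :=
              chi_congr fun v hv => by simp [s', h2 v hv]
            by_cases h4 : (dep t).Nonempty
            · rw [if_pos ⟨h1.1, h4, h1.2⟩, if_pos ⟨h1.1, h4, h3⟩, e1]
            · rw [if_neg (fun h => h4 h.2.1), if_neg (fun h => h4 h.2.1)]
          · intro v _
            rw [if_neg, zero_mul]
            rintro ⟨-, h, hv, -⟩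
            exact h2 v hv h
      · rw [if_neg (fun h => h1 ⟨h.1, h.2.2⟩),
          if_neg (fun h => h1 ⟨h.1, fun w hw => Nat.lt_succ_of_lt (h.2.2 w hw)⟩), zero_add,
          sum_eq_zero]
        intro v _
        rw [if_neg (fun h => h1 ⟨h.1, h.2.2.2⟩), zero_mul]
    rw [key]
    refine (abs_add_le _ _).trans ?_
    have := hs r
    have := hσ r
    push_cast
    linarith

/-- Beck–Fiala for monomials of bounded degree. -/
lemma bf_mono {R T W : Type} [Fintype R] [Fintype T] [Fintype W] [DecidableEq R]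
    [DecidableEq T] [DecidableEq W] (ρ : T → R) (dep : T → Finset W) (c : T → ℝ)
    (hc : ∀ t, |c t| ≤ 1) (M K : ℕ) (hM : ∀ w, (univ.filter fun t => w ∈ dep t).card ≤ M)
    (hK : ∀ t, (dep t).card ≤ K) :
    ∃ s : W → ZMod 2, ∀ r,
      |∑ t, if ρ t = r ∧ (dep t).Nonempty then c t * chi (dep t) s else 0| ≤
        2 * M * (M * K + 1) := by
  obtain ⟨col, h1, h2⟩ := bf_colour
    (fun w => (univ.filter fun t => w ∈ dep t).biUnion dep) (M * K)
    (fun w => (card_biUnion_le_card_mul _ _ K fun t _ => hK t).trans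
      (Nat.mul_le_mul_right _ (hM w)))
    (fun v w h => by
      simp only [mem_biUnion, mem_filter, mem_univ, true_and] at h ⊢
      obtain ⟨t, a, b⟩ := h
      exact ⟨t, b, a⟩)
  obtain ⟨s, hs⟩ := bf_layers ρ dep c hc M hM col (fun t v hv w hw h => by
    by_contra hne
    exact h2 v w (mem_biUnion.2 ⟨t, by simpa using hw, hv⟩) hne h) (M * K + 1)
  refine ⟨s, fun r => ?_⟩
  have h3 := hs r
  have h4 : ∀ t, ∀ w ∈ dep t, col w < M * K + 1 := fun t w _ => Nat.lt_succ_of_le (h1 w)
  simp only [eq_true (h4 _), and_true] at h3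
  push_cast at h3
  exact h3

lemma bf_chi_odd {X Y : Type} [Fintype Y] [DecidableEq Y] (l : Finset X) (κ : X → Y)
    (s : Y → ZMod 2) :
    chi l (fun x => s (κ x)) =
      chi (univ.filter fun y => ¬ Even (l.filter fun x => κ x = y).card) s := by
  unfold chi
  congr 1
  rw [← sum_fiberwise_of_maps_to (s := l) (t := univ) (g := κ) (fun _ _ => mem_univ _),
    sum_filter]
  refine sum_congr rfl fun y _ => ?_
  rw [sum_congr rfl (g := fun _ => s y) (fun x hx => by rw [(mem_filter.1 hx).2]), sum_const,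
    nsmul_eq_mul]
  split_ifs with h
  · rw [(ZMod.natCast_eq_zero_iff_even).2 h, zero_mul]
  · rw [(ZMod.natCast_eq_one_iff_odd).2 (Nat.not_even_iff_odd.1 h), one_mul]

theorem sign_lemma {O X Y : Type} [Fintype O] [DecidableEq O] [Fintype X] [DecidableEq X]
    [Fintype Y] [DecidableEq Y] (RR : Finset (Finset X)) (K A L : ℕ)
    (hK : ∀ r ∈ RR, r.card ≤ K) (hA : ∀ x, (RR.filter fun r => x ∈ r).card ≤ A)
    (Δ : O → Finset X) (κ : O → X → Y)
    (hL : ∀ p y, ((Δ p).filter fun x => κ p x = y).card ≤ L) (c : O → Finset X → ℝ)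
    (hc : ∀ p r, |c p r| ≤ 1) :
    ∃ s : O → Y → ZMod 2, ∀ r ∈ RR,
      |∑ p, c p r * chi (r ∩ Δ p) (fun x => s p (κ p x)) -
        ∑ p ∈ univ.filter (fun p => Bal (r ∩ Δ p) (κ p)), c p r| ≤
        2 * (L * A) * (L * A * K + 1) := by
  let od : O → Finset X → Finset Y := fun p r =>
    univ.filter fun y => ¬ Even ((r ∩ Δ p).filter fun x => κ p x = y).card
  have hod : ∀ p r, ∀ y ∈ od p r, ∃ x ∈ r, x ∈ Δ p ∧ κ p x = y := by
    intro p r y hy
    have h1 : ((r ∩ Δ p).filter fun x => κ p x = y).Nonempty := by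
      rw [nonempty_iff_ne_empty]
      intro h
      simp [od, h] at hy
    obtain ⟨x, hx⟩ := h1
    simp only [mem_filter, mem_inter] at hx
    exact ⟨x, hx.1.1, hx.1.2, hx.2⟩
  let dep : O × Finset X → Finset (O × Y) := fun t =>
    if t.2 ∈ RR then (od t.1 t.2).image (fun y => (t.1, y)) else ∅
  obtain ⟨s, hs⟩ := bf_mono (fun t : O × Finset X => t.2) dep (fun t => c t.1 t.2)
    (fun t => hc _ _) (L * A) K (fun w => by
      obtain ⟨p, y⟩ := w
      have h1 : (univ.filter fun t => (p, y) ∈ dep t) ⊆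
          (((Δ p).filter fun x => κ p x = y).biUnion
            fun x => RR.filter fun r => x ∈ r).image (fun r => (p, r)) := by
        rintro ⟨q, r⟩ ht
        simp only [dep, mem_filter, mem_univ, true_and] at ht
        split_ifs at ht with hr
        · obtain ⟨y', hy', he⟩ := mem_image.1 ht
          obtain ⟨rfl, rfl⟩ := Prod.mk.inj he
          obtain ⟨x, a1, a2, a3⟩ := hod _ _ _ hy'
          exact mem_image.2 ⟨r, mem_biUnion.2 ⟨x, mem_filter.2 ⟨a2, a3⟩,
            mem_filter.2 ⟨hr, a1⟩⟩, rfl⟩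
        · simp at ht
      exact (card_le_card h1).trans (card_image_le.trans
        ((card_biUnion_le_card_mul _ _ A fun x _ => hA x).trans
          (Nat.mul_le_mul_right _ (hL p y)))))
    (fun t => by
      simp only [dep]
      split_ifs with hr
      · have h1 : od t.1 t.2 ⊆ t.2.image (κ t.1) := fun y hy => by
          obtain ⟨x, a1, -, a3⟩ := hod _ _ _ hy
          exact mem_image.2 ⟨x, a1, a3⟩
        exact card_image_le.trans ((card_le_card h1).trans (card_image_le.trans (hK _ hr)))
      · simp)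
  refine ⟨fun p y => s (p, y), fun r hr => ?_⟩
  have h1 := hs r
  have h2 : (∑ t : O × Finset X, if t.2 = r ∧ (dep t).Nonempty then c t.1 t.2 * chi (dep t) s
      else 0) = ∑ p, c p r * chi (r ∩ Δ p) (fun x => s (p, κ p x)) -
        ∑ p ∈ univ.filter (fun p => Bal (r ∩ Δ p) (κ p)), c p r := by
    rw [Fintype.sum_prod_type, sum_filter, ← sum_sub_distrib]
    refine sum_congr rfl fun p _ => ?_
    rw [sum_eq_single r (fun b _ hb => if_neg fun h => hb h.1) (by simp)]
    have e1 : chi (r ∩ Δ p) (fun x => s (p, κ p x)) = chi (od p r) (fun y => s (p, y)) :=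
      bf_chi_odd (r ∩ Δ p) (κ p) (fun y => s (p, y))
    have e2 : dep (p, r) = (od p r).image (fun y => (p, y)) := by simp [dep, hr]
    have e3 : chi (dep (p, r)) s = chi (od p r) (fun y => s (p, y)) := by
      rw [e2, chi, chi, sum_image fun a _ b _ h => (Prod.mk.inj h).2]
    have e4 : Bal (r ∩ Δ p) (κ p) ↔ od p r = ∅ := by
      simp [Bal, od, filter_eq_empty_iff]
    rw [e1, e3]
    by_cases h : od p r = ∅
    · rw [if_neg (by simp [e2, h]), if_pos (e4.2 h), h]
      simp
    · rw [if_pos ⟨rfl, by rw [e2]; exact (nonempty_iff_ne_empty.2 h).image _⟩,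
        if_neg (fun h' => h (e4.1 h')), sub_zero]
  rw [h2] at h1
  push_cast at h1
  exact h1

end Pool.Agent.ATJ
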