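import Pool.Agent.Lib.ATJ.Defs

/-!
Rounding of measures, assignments with prescribed fibres and Fourier inversion.
-/

set_option autoImplicit false
set_option linter.unusedSectionVars false

namespace Pool.Agent.ATJ

open Finset

lemma cnt_round {C : Type} [Fintype C] [DecidableEq C] (w : C → ℝ) (h0 : ∀ c, 0 ≤ w c) (n : ℕ)
    (hn : ∑ c, w c = n) : ∃ m : C → ℕ, ∑ c, m c = n ∧ (∀ c, |(m c : ℝ) - w c| ≤ 1) ∧
      ∀ c, m c ≠ 0 → w c ≠ 0 := by
  have h1 : ∑ c, ⌊w c⌋₊ ≤ n := by
    have : ((∑ c, ⌊w c⌋₊ : ℕ) : ℝ) ≤ n := by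
      rw [← hn]; push_cast; exact sum_le_sum fun c _ => Nat.floor_le (h0 c)
    exact_mod_cast this
  have h2 : n - ∑ c, ⌊w c⌋₊ ≤ (univ.filter fun c => w c ≠ 0).card := by
    have : (n : ℝ) ≤ ((∑ c, ⌊w c⌋₊ : ℕ) : ℝ) + (univ.filter fun c => w c ≠ 0).card := by
      rw [← hn, card_filter]; push_cast
      rw [← sum_add_distrib]
      refine sum_le_sum fun c _ => ?_
      by_cases h : w c = 0
      · simp [h]
      · simp [h, (Nat.lt_floor_add_one (w c)).le]
    have : n ≤ ∑ c, ⌊w c⌋₊ + (univ.filter fun c => w c ≠ 0).card := by exact_mod_cast this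
    omega
  obtain ⟨T, hT, hc⟩ := exists_subset_card_eq h2
  refine ⟨fun c => ⌊w c⌋₊ + if c ∈ T then 1 else 0, ?_, fun c => ?_, fun c hc => ?_⟩
  · rw [sum_add_distrib, sum_ite_mem, univ_inter, sum_const, smul_eq_mul, mul_one, hc]; omega
  · have a := Nat.floor_le (h0 c)
    have b := Nat.lt_floor_add_one (w c)
    rw [abs_le]
    dsimp only
    split_ifs <;> push_cast <;> constructor <;> linarith
  · intro h
    by_cases hT' : c ∈ T
    · simpa [h] using hT hT'
    · simp [h, hT'] at hc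

lemma cnt_fibres {ι C : Type} [Fintype ι] [Fintype C] [DecidableEq C] (m : C → ℕ)
    (hm : ∑ c, m c = Fintype.card ι) :
    ∃ w : ι → C, ∀ g : C → ℝ, ∑ i, g (w i) = ∑ c, m c * g c := by
  let e : ι ≃ Σ c, Fin (m c) := Fintype.equivOfCardEq (by simp [hm])
  refine ⟨fun i => (e i).1, fun g => ?_⟩
  rw [e.sum_comp (fun x => g x.1), Fintype.sum_sigma]
  simp

lemma cnt_sample {ι C : Type} [Fintype ι] [Fintype C] [DecidableEq C] (μ : C → ℝ)
    (h0 : ∀ c, 0 ≤ μ c) (h1 : ∑ c, μ c = 1) :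
    ∃ w : ι → C, (∀ i, μ (w i) ≠ 0) ∧ ∀ g : C → ℝ, (∀ c, |g c| ≤ 1) →
      |∑ i, g (w i) - Fintype.card ι * ∑ c, μ c * g c| ≤ Fintype.card C := by
  obtain ⟨m, m1, m2, m3⟩ := cnt_round (fun c => Fintype.card ι * μ c)
    (fun c => mul_nonneg (Nat.cast_nonneg _) (h0 c)) (Fintype.card ι)
    (by rw [← mul_sum, h1, mul_one])
  obtain ⟨w, hw⟩ := cnt_fibres m m1
  refine ⟨w, fun i hi => ?_, fun g hg => ?_⟩
  · have h2 := hw fun c => if μ c = 0 then 1 else 0
    have h3 : ∑ c, (m c : ℝ) * (if μ c = 0 then 1 else 0) = 0 := by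
      refine sum_eq_zero fun c _ => ?_
      by_cases h : μ c = 0
      · have : m c = 0 := by
          by_contra h'; exact m3 c h' (by simp [h])
        simp [this]
      · simp [h]
    rw [h3, sum_eq_zero_iff_of_nonneg (fun j _ => by positivity)] at h2
    simpa [hi] using h2 i (mem_univ i)
  · rw [hw, mul_sum, ← sum_sub_distrib]
    refine (abs_sum_le_sum_abs _ _).trans ?_
    refine (sum_le_sum (g := fun _ => (1 : ℝ)) fun c _ => ?_).trans (by simp)
    rw [← mul_assoc, ← sub_mul, abs_mul]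
    exact mul_le_one₀ (m2 c) (abs_nonneg _) (hg c)

/-- A balanced labelling: few points get each label. -/
lemma cnt_even (N : ℕ) (C : Type) [Fintype C] [DecidableEq C] [Nonempty C] :
    ∃ w : Fin N → C, ∀ c, ((univ.filter fun i => w i = c).card : ℝ) ≤ N / Fintype.card C + 1 := by
  have hp : (0 : ℝ) < Fintype.card C := by exact_mod_cast Fintype.card_pos
  obtain ⟨m, m1, m2, -⟩ := cnt_round (fun _ : C => (N : ℝ) / Fintype.card C)
    (fun c => by positivity) N (by simp; field_simp)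
  obtain ⟨w, hw⟩ := cnt_fibres (ι := Fin N) m (by simpa using m1)
  refine ⟨w, fun c => ?_⟩
  have := hw fun x => if x = c then 1 else 0
  simp only [sum_boole, mul_ite, mul_one, mul_zero, sum_ite_eq', mem_univ, if_true] at this
  rw [this]
  linarith [(abs_le.1 (m2 c)).2]

/-- Labels that are balanced on every class. -/
lemma cnt_bal {ι A C : Type} [Fintype ι] [DecidableEq A] [Fintype C] [DecidableEq C] [Nonempty C]
    (U : Finset ι) (α : ι → A) : ∃ w : ι → C, ∀ g : A → C → ℝ, (∀ a c, |g a c| ≤ 1) →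
      (∀ a, ∑ c, g a c = 0) →
      |∑ i ∈ U, g (α i) (w i)| ≤ (U.image α).card * Fintype.card C := by
  classical
  have hp : (0 : ℝ) < Fintype.card C := by exact_mod_cast Fintype.card_pos
  have key : ∀ a : A, ∃ w : {i // i ∈ U ∧ α i = a} → C, ∀ g : C → ℝ, (∀ c, |g c| ≤ 1) →
      ∑ c, g c = 0 → |∑ i, g (w i)| ≤ Fintype.card C := by
    intro a
    obtain ⟨w, -, hw⟩ := cnt_sample (ι := {i // i ∈ U ∧ α i = a})
      (fun _ : C => (1 : ℝ) / Fintype.card C) (fun c => by positivity) (by simp)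
    refine ⟨w, fun g hg h0 => ?_⟩
    have := hw g hg
    rwa [← mul_sum, h0, mul_zero, mul_zero, sub_zero] at this
  choose w hw using key
  refine ⟨fun i => if h : i ∈ U then w (α i) ⟨i, h, rfl⟩ else Classical.arbitrary C,
    fun g hg h0 => ?_⟩
  rw [← sum_fiberwise_of_maps_to (g := α) (t := U.image α) (fun i hi => mem_image_of_mem α hi)]
  refine (abs_sum_le_sum_abs _ _).trans ?_
  rw [card_eq_sum_ones]
  push_cast
  rw [sum_mul]
  refine sum_le_sum fun a _ => ?_
  rw [one_mul]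
  refine le_trans (le_of_eq ?_) (hw a (g a) (hg a) (h0 a))
  congr 1
  rw [sum_subtype (p := fun i => i ∈ U ∧ α i = a) (U.filter fun i => α i = a) (by simp)]
  refine sum_congr rfl ?_
  rintro ⟨i, h1, rfl⟩ _
  simp [h1]

/-- An injective choice of colours with prescribed labels. -/
lemma cnt_assign {ι A Φ : Type} [Fintype ι] [DecidableEq A] [Fintype Φ] (α : ι → A) (r : Φ → A)
    (n : Φ → ℕ)
    (h : ∀ x, ∑ φ ∈ univ.filter (fun φ => r φ = x), n φ ≤ (univ.filter fun i => α i = x).card) :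
    ∃ f : (Σ φ, Fin (n φ)) → ι, f.Injective ∧ ∀ m, α (f m) = r m.1 := by
  classical
  have key : ∀ x : A, ∃ f : {m : Σ φ, Fin (n φ) // r m.1 = x} → {i // α i = x}, f.Injective := by
    intro x
    have : Fintype.card {m : Σ φ, Fin (n φ) // r m.1 = x} ≤ Fintype.card {i // α i = x} := by
      rw [Fintype.card_subtype, Fintype.card_subtype]
      refine le_trans (le_of_eq ?_) (h x)
      rw [card_filter, sum_filter, Fintype.sum_sigma]
      refine sum_congr rfl fun φ _ => ?_
      split_ifs <;> simp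
    obtain ⟨e⟩ := Function.Embedding.nonempty_of_card_le this
    exact ⟨e, e.injective⟩
  choose f hf using key
  refine ⟨fun m => (f (r m.1) ⟨m, rfl⟩).1, ?_, fun m => (f (r m.1) ⟨m, rfl⟩).2⟩
  intro m m' hm
  have h1 : r m.1 = r m'.1 := by
    rw [← (f (r m.1) ⟨m, rfl⟩).2, ← (f (r m'.1) ⟨m', rfl⟩).2]
    exact congrArg α hm
  have : ∀ x (hx : r m.1 = x) (y) (hy : r m'.1 = y), x = y → (f x ⟨m, hx⟩).1 = (f y ⟨m', hy⟩).1 →
      m = m' := by
    rintro x hx y hy rfl h
    exact congrArg Subtype.val (hf x (Subtype.ext h))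
  exact this _ rfl _ rfl h1 hm

/-- Fourier inversion on a finite set of coordinates. -/
lemma cnt_fourier {X : Type} [DecidableEq X] (S : Finset X) (γ : X → ZMod 2) :
    ∑ l ∈ S.powerset, chi l γ = if ∀ x ∈ S, γ x = 0 then 2 ^ S.card else 0 := by
  have h1 : ∑ l ∈ S.powerset, chi l γ = ∏ x ∈ S, (1 + sg (γ x)) := by
    rw [prod_one_add]
    exact sum_congr rfl fun l _ => sg_sum l γ
  rw [h1]
  split_ifs with h
  · rw [prod_congr rfl (g := fun _ => (2 : ℝ))]
    · simp
    · intro x hx; rw [h x hx]; norm_num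
  · push Not at h
    obtain ⟨x, hx, h⟩ := h
    exact prod_eq_zero hx (by rw [z2ne.1 h]; norm_num)

/-- The sum of a nontrivial character vanishes. -/
lemma cnt_char {J : Type} [Fintype J] [DecidableEq J] (v : J → ZMod 2) (t : ZMod 2) (j : J)
    (hj : v j = 1) : ∑ c : J → ZMod 2, sg (t + ∑ i, c i * v i) = 0 := by
  let σ : (J → ZMod 2) ≃ (J → ZMod 2) := Equiv.addRight (Pi.single j 1)
  have h1 := σ.sum_comp fun c => sg (t + ∑ i, c i * v i)
  have h2 : ∀ c : J → ZMod 2, sg (t + ∑ i, σ c i * v i) = - sg (t + ∑ i, c i * v i) := by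
    intro c
    have : ∑ i, σ c i * v i = ∑ i, c i * v i + 1 := by
      simp only [σ, Equiv.coe_addRight, Pi.add_apply, add_mul, sum_add_distrib]
      congr 1
      rw [sum_eq_single j] <;> simp +contextual [hj]
    rw [this, ← add_assoc, sg_add, sg_one]; ring
  simp only [h2, sum_neg_distrib] at h1
  linarith

lemma cnt_card {ι : Type} [Fintype ι] (b : ι → ZMod 2) :
    ((univ.filter fun i => b i ≠ 0).card : ℝ) = ∑ i, (1 - sg (b i)) / 2 := by
  rw [card_filter]
  push_cast
  refine sum_congr rfl fun i _ => ?_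
  rcases z2c (b i) with h | h <;> simp [h]

end Pool.Agent.ATJ
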