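import Pool.Agent.Lib.Flows.Trees

/-!
Definitions for the approximate rounding theorem for even subgraphs, and basic chain lemmas.
-/

set_option autoImplicit false
set_option linter.unusedSectionVars false

namespace Pool.Agent.ATJ

open Finset Pool.Agent.Flows

variable {V E : Type} [Fintype V] [DecidableEq V] [Fintype E] [DecidableEq E]

/-- The sign of an element of the field with two elements. -/
def sg (a : ZMod 2) : ℝ := if a = 0 then 1 else -1

/-- The character of a set of coordinates. -/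
def chi {X : Type} (l : Finset X) (β : X → ZMod 2) : ℝ := sg (∑ d ∈ l, β d)

/-- Every class of `κ` meets `l` in an even number of points. -/
def Bal {X Y : Type} [DecidableEq Y] (l : Finset X) (κ : X → Y) : Prop :=
  ∀ y, Even (l.filter fun x => κ x = y).card

instance {X Y : Type} [Fintype Y] [DecidableEq Y] (l : Finset X) (κ : X → Y) :
    Decidable (Bal l κ) := by unfold Bal; infer_instance

/-- The vertex of a dart. -/
def hd (G : MG V E) (d : E × Bool) : V := G.en d.1 d.2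

/-- The other dart of the same edge. -/
def opp (d : E × Bool) : E × Bool := (d.1, !d.2)

/-- The boundary darts of `S`. -/
def B (G : MG V E) (S : Finset V) : Finset (E × Bool) :=
  univ.filter fun d => hd G d ∈ S ∧ hd G (opp d) ∉ S

/-- Both ends in `S`. -/
def In (G : MG V E) (S : Finset V) (e : E) : Prop := G.en e false ∈ S ∧ G.en e true ∈ S

instance (G : MG V E) (S : Finset V) (e : E) : Decidable (In G S e) := by
  unfold In; infer_instance

/-- `S` induces a connected subgraph (or is empty). -/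
def Conn (G : MG V E) (S : Finset V) : Prop :=
  ∀ X ⊆ S, X.Nonempty → X ≠ S → ∃ d, hd G d ∈ X ∧ hd G (opp d) ∈ S ∧ hd G (opp d) ∉ X

/-- Even degree at all vertices of `S`. -/
def EvenOn (G : MG V E) (S : Finset V) (ω : E → ZMod 2) : Prop := ∀ v ∈ S, G.bd ω v = 0

/-- The sum of a dart labelling at a vertex. -/
def dbd (G : MG V E) (β : E × Bool → ZMod 2) (v : V) : ZMod 2 :=
  ∑ d ∈ univ.filter (fun d => hd G d = v), β d

/-- The defect of a dart labelling at an edge. -/
def df (β : E × Bool → ZMod 2) (e : E) : ZMod 2 := β (e, false) + β (e, true)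

/-- Fourier coefficient of a measure on edge labellings at a set of darts. -/
noncomputable def hat (ν : (E → ZMod 2) → ℝ) (l : Finset (E × Bool)) : ℝ :=
  ∑ ω, ν ω * chi l (fun d => ω d.1)

/-- The mean sign of an edge. -/
noncomputable def mg (ν : (E → ZMod 2) → ℝ) (e : E) : ℝ := ∑ ω, ν ω * sg (ω e)

/-- A probability measure on labellings that are even on `S`, with mean signs `y`. -/
structure Meas (G : MG V E) (S : Finset V) (y : E → ℝ) (ν : (E → ZMod 2) → ℝ) : Prop where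
  pos : ∀ ω, 0 ≤ ν ω
  tot : ∑ ω, ν ω = 1
  ev : ∀ ω, ν ω ≠ 0 → EvenOn G S ω
  mar : ∀ e, mg ν e = y e

/-- The invariant linking prescribed boundary states with the hidden measure. -/
def Inv (G : MG V E) (S : Finset V) (δ η : ℝ) (ν : (E → ZMod 2) → ℝ) {ι : Type} [Fintype ι]
    (a : ι → E × Bool → ZMod 2) : Prop :=
  ∀ l ⊆ B G S, (hat ν l = 1 ∧ ∀ i, chi l (a i) = 1) ∨
    |∑ i, chi l (a i) - (1 - δ) * Fintype.card ι * hat ν l| ≤ η * Fintype.card ι

/-- A family of dart labellings of a torso, with hidden measures for the parts. -/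
structure Fam (G : MG V E) (PP : Finset (Finset V)) (F : Finset E) {O : Type} [Fintype O]
    (φ : O → E → ZMod 2) (β : O → E × Bool → ZMod 2) (h : Finset V → (E → ZMod 2) → ℝ)
    (g : (E → ZMod 2) → ℝ) (c u d : ℝ) : Prop where
  fro : ∀ o x, x.1 ∈ F → β o x = φ o x.1
  par : ∀ o, ∀ P ∈ PP, ∑ x ∈ B G P, β o x = 0
  dfc : ∀ e, (∃ P ∈ PP, (e, false) ∈ B G P) → (∃ Q ∈ PP, (e, true) ∈ B G Q) →
    ((univ.filter fun o => df (β o) e ≠ 0).card : ℝ) ≤ d
  pos : ∀ P ∈ PP, ∀ ω, 0 ≤ h P ω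
  ev : ∀ P ∈ PP, ∀ ω, h P ω ≠ 0 → EvenOn G P ω
  mar : ∀ P ∈ PP, ∀ e, mg (h P) e = c * mg g e
  law : ∀ P ∈ PP, ∀ l ⊆ B G P, (∀ x ∈ l, x.1 ∈ F) → hat (h P) l = c * hat g l
  dev : ∀ P ∈ PP, ∀ l ⊆ B G P, |∑ o, chi l (β o) - hat (h P) l| ≤ u

/-- Clusters, cells and systems on a connected set `C`. -/
structure IsHubs {U : Type} [DecidableEq U] (M : MG U E) (C : Finset U) (q W : ℕ) {k : ℕ}
    (cl cell : U → Finset U) (sys : U → Fin k) : Prop where
  mem_cell : ∀ P ∈ C, P ∈ cell P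
  cell_sub : ∀ P ∈ C, cell P ⊆ cl P
  cl_sub : ∀ P ∈ C, cl P ⊆ C
  cl_eq : ∀ P ∈ C, ∀ Q ∈ cl P, cl Q = cl P
  cell_eq : ∀ P ∈ C, ∀ Q ∈ cell P, cell Q = cell P ∧ sys Q = sys P
  cl_card : ∀ P ∈ C, (cl P).card ≤ W
  cell_card : ∀ P ∈ C, q ≤ (cell P).card
  cl_conn : ∀ P ∈ C, Conn M (cl P)
  cell_conn : ∀ P ∈ C, Conn M (cell P)
  all_sys : ∀ P ∈ C, ∀ s, ∃ Q ∈ cl P, sys Q = s

/-- The graph obtained by identifying vertices along a map. -/
def quo {U : Type} (G : MG V E) (f : V → U) : MG U E := ⟨fun e b => f (G.en e b)⟩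

/-- A partition of `S` into at least two connected parts with small boundary. -/
structure IsPart (G : MG V E) (K : ℕ) (S : Finset V) (pt : V → Finset V) : Prop where
  mem : ∀ v ∈ S, v ∈ pt v
  sub : ∀ v ∈ S, pt v ⊂ S
  eq : ∀ v ∈ S, ∀ w ∈ pt v, pt w = pt v
  out : ∀ v, v ∉ S → pt v = ∅
  conn : ∀ v ∈ S, Conn G (pt v)
  deg : ∀ v ∈ S, (B G (pt v)).card ≤ K

/-- The data attached to a piece. -/
structure TD (V : Type) (k : ℕ) where
  pt : V → Finset V
  Z : Finset (Finset V)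
  cl : Finset V → Finset (Finset V)
  cell : Finset V → Finset (Finset V)
  sys : Finset V → Fin k

/-- The properties of the data attached to a piece. -/
structure IsTor (G : MG V E) (K q W z : ℕ) {k : ℕ} (S : Finset V) (T : TD V k) : Prop where
  part : IsPart G K S T.pt
  Z_sub : T.Z ⊆ S.image T.pt
  Z_card : T.Z.card ≤ z
  conn : Conn (quo G T.pt) (S.image T.pt)
  closed : ∀ P ∈ S.image T.pt, ∀ R ⊆ (S.image T.pt).erase P,
    (∀ d, T.pt (hd G d) ∈ R → hd G (opp d) ∈ S →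
      T.pt (hd G (opp d)) ∈ R ∨ T.pt (hd G (opp d)) = P) →
    R ⊆ T.Z ∨ (S.image T.pt).erase P \ R ⊆ T.Z
  hubs : IsHubs (quo G T.pt) (S.image T.pt \ T.Z) q W T.cl T.cell T.sys
  sep : ∀ X ⊆ S, X ≠ S → (B G X).card ≤ K →
    ((S.image T.pt).filter fun P => ¬ Disjoint P X).card ≤ 3 * K

/-- An edge between two different members of `C`. -/
def Btw {U : Type} (M : MG U E) (C : Finset U) (e : E) : Prop :=
  M.en e false ∈ C ∧ M.en e true ∈ C ∧ M.en e false ≠ M.en e true

instance {U : Type} [DecidableEq U] (M : MG U E) (C : Finset U) (e : E) :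
    Decidable (Btw M C e) := by unfold Btw; infer_instance

/-- A terminal edge of system `s`. -/
def Term {U : Type} (M : MG U E) (C : Finset U) {k : ℕ} (cell : U → Finset U) (sys : U → Fin k)
    (s : Fin k) (e : E) : Prop :=
  Btw M C e ∧ cell (M.en e false) = cell (M.en e true) ∧ sys (M.en e false) = s

instance {U : Type} [DecidableEq U] (M : MG U E) (C : Finset U) {k : ℕ} (cell : U → Finset U)
    (sys : U → Fin k) (s : Fin k) (e : E) : Decidable (Term M C cell sys s e) := by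
  unfold Term; infer_instance

/-- The torso of a piece. -/
def TD.M {k : ℕ} (T : TD V k) (G : MG V E) : MG (Finset V) E := quo G T.pt

/-- The main parts of a piece. -/
def TD.C {k : ℕ} (T : TD V k) (S : Finset V) : Finset (Finset V) := S.image T.pt \ T.Z

/-- Terminal edges of a piece. -/
def TD.Tm {k : ℕ} (T : TD V k) (G : MG V E) (S : Finset V) (s : Fin k) (e : E) : Prop :=
  Term (T.M G) (T.C S) T.cell T.sys s e

instance {k : ℕ} (T : TD V k) (G : MG V E) (S : Finset V) (s : Fin k) (e : E) :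
    Decidable (T.Tm G S s e) := by unfold TD.Tm; infer_instance

/-- The laminar family of pieces, the nodes of edges and the overlay sets. -/
structure IsGlob (G : MG V E) (K q W z : ℕ) {k : ℕ} (Pc : Finset V → Prop)
    (T : Finset V → TD V k) (root : V → Finset V)
    (nd : Fin k → E → E ⊕ (Finset V × Finset (Finset V)))
    (Φ : Fin k → Fin (K + 2) → Finset (E × Bool)) : Prop where
  root_mem : ∀ v, v ∈ root v
  root_pc : ∀ v, Pc (root v)
  root_B : ∀ v, B G (root v) = ∅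
  root_eq : ∀ v, ∀ w ∈ root v, root w = root v
  deg : ∀ S, Pc S → (B G S).card ≤ K
  ne : ∀ S, Pc S → S.Nonempty
  tor : ∀ S, Pc S → 2 ≤ S.card → IsTor G K q W z S (T S)
  child : ∀ S, Pc S → 2 ≤ S.card → ∀ v ∈ S, Pc ((T S).pt v)
  nd_tm : ∀ S, Pc S → 2 ≤ S.card → ∀ s e, (T S).Tm G S s e →
    nd s e = Sum.inr (S, (T S).cell ((T S).pt (G.en e false)))
  nd_inr : ∀ S, Pc S → 2 ≤ S.card → ∀ s e c, nd s e = Sum.inr (S, c) → (T S).Tm G S s e
  nd_not : ∀ S, Pc S → 2 ≤ S.card → ∀ s e, Btw ((T S).M G) (S.image (T S).pt) e →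
    ¬ (T S).Tm G S s e → nd s e = Sum.inl e
  nd_inl : ∀ s e f, nd s e = Sum.inl f → e = f
  nd_in : ∀ S, Pc S → ∀ s e f, In G S e → nd s f = nd s e → In G S f
  mult : ∀ s d, (univ.filter fun j => d ∈ Φ s j).card ≤ 4
  ov : ∀ S, Pc S → 2 ≤ S.card → ∀ s j (π : E ⊕ (Finset V × Finset (Finset V)) → ZMod 2),
    (∀ n, π n ≠ 0 → ∃ e, (T S).Tm G S s e ∧ nd s e = n) → ∑ n, π n = 0 →
    ∃ Y : E × Bool → ZMod 2, (∀ d, Y d ≠ 0 → d ∈ Φ s j ∧ In G S d.1) ∧ (∀ v, dbd G Y v = 0) ∧
      ∀ n, ∑ e ∈ univ.filter (fun e => nd s e = n), df Y e = π n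

/-- `N` even subgraphs approximate every measure on even subgraphs. -/
def Approx (ε : ℝ) (N : ℕ) (G : MG V E) : Prop :=
  ∀ y ν, Meas G univ y ν → ∃ J : Fin N → E → ZMod 2, (∀ i, G.IsFlow (J i)) ∧
    ∀ e, |∑ i, sg (J i e) - N * y e| ≤ ε * N

/-! ### Basic lemmas -/

@[simp] lemma opp_opp (d : E × Bool) : opp (opp d) = d := by simp [opp]

@[simp] lemma opp_fst (d : E × Bool) : (opp d).1 = d.1 := rfl

@[simp] lemma opp_false (e : E) : opp (e, false) = (e, true) := rfl

@[simp] lemma opp_true (e : E) : opp (e, true) = (e, false) := rfl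

lemma opp_ne (d : E × Bool) : opp d ≠ d := by
  obtain ⟨e, b⟩ := d; cases b <;> simp

@[simp] lemma hd_mk (G : MG V E) (e : E) (b : Bool) : hd G (e, b) = G.en e b := rfl

@[simp] lemma hd_quo {U : Type} (G : MG V E) (f : V → U) (d : E × Bool) :
    hd (quo G f) d = f (hd G d) := rfl

lemma mem_B {G : MG V E} {S : Finset V} {d : E × Bool} :
    d ∈ B G S ↔ hd G d ∈ S ∧ hd G (opp d) ∉ S := by simp [B]

lemma B_eq_ent (G : MG V E) (S : Finset V) : B G S = G.ent univ S := by
  ext d; simp [mem_B, MG.mem_ent, hd, opp]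

lemma card_B (G : MG V E) (S : Finset V) : (B G S).card = (G.cut S).card := by
  rw [B_eq_ent, MG.card_ent_univ]

lemma in_iff {G : MG V E} {S : Finset V} {d : E × Bool} :
    In G S d.1 ↔ hd G d ∈ S ∧ hd G (opp d) ∈ S := by
  obtain ⟨e, b⟩ := d; cases b <;> simp [In, and_comm]

lemma mem_cut_iff {G : MG V E} {S : Finset V} {d : E × Bool} :
    d.1 ∈ G.cut S ↔ ¬ (hd G d ∈ S ↔ hd G (opp d) ∈ S) := by
  obtain ⟨e, b⟩ := d; cases b <;> simp [MG.mem_cut]; tauto

lemma z2c (a : ZMod 2) : a = 0 ∨ a = 1 := by revert a; decide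

lemma z2a (a : ZMod 2) : a + a = 0 := by revert a; decide

lemma z2ne {a : ZMod 2} : a ≠ 0 ↔ a = 1 := by revert a; decide

lemma z2eq {a b : ZMod 2} : a + b = 0 ↔ a = b := by revert a b; decide

@[simp] lemma sg_zero : sg 0 = 1 := by simp [sg]

@[simp] lemma sg_one : sg 1 = -1 := by simp [sg]

lemma sg_add (a b : ZMod 2) : sg (a + b) = sg a * sg b := by
  rcases z2c a with rfl | rfl <;> rcases z2c b with rfl | rfl <;> simp [z2a]

lemma abs_sg (a : ZMod 2) : |sg a| = 1 := by rcases z2c a with rfl | rfl <;> simp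

lemma sg_le (a : ZMod 2) : sg a ≤ 1 := by rcases z2c a with rfl | rfl <;> norm_num

lemma neg_le_sg (a : ZMod 2) : -1 ≤ sg a := by rcases z2c a with rfl | rfl <;> norm_num

lemma sg_eq_one {a : ZMod 2} : sg a = 1 ↔ a = 0 := by
  rcases z2c a with rfl | rfl <;> norm_num

lemma sg_mul_self (a : ZMod 2) : sg a * sg a = 1 := by rw [← sg_add, z2a, sg_zero]

lemma sg_sum {X : Type} (l : Finset X) (β : X → ZMod 2) :
    sg (∑ d ∈ l, β d) = ∏ d ∈ l, sg (β d) := by
  classical
  induction l using Finset.induction_on with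
  | empty => simp
  | insert a s ha ih => rw [sum_insert ha, prod_insert ha, sg_add, ih]

lemma chi_add {X : Type} (l : Finset X) (β γ : X → ZMod 2) :
    chi l (β + γ) = chi l β * chi l γ := by
  simp [chi, sum_add_distrib, sg_add]

lemma abs_chi {X : Type} (l : Finset X) (β : X → ZMod 2) : |chi l β| = 1 := abs_sg _

@[simp] lemma chi_empty {X : Type} (β : X → ZMod 2) : chi ∅ β = 1 := by simp [chi]

lemma chi_congr {X : Type} {l : Finset X} {β γ : X → ZMod 2} (h : ∀ d ∈ l, β d = γ d) :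
    chi l β = chi l γ := by
  rw [chi, chi, sum_congr rfl h]

@[simp] lemma hat_empty (ν : (E → ZMod 2) → ℝ) : hat ν ∅ = ∑ ω, ν ω := by simp [hat]

lemma hat_singleton (ν : (E → ZMod 2) → ℝ) (d : E × Bool) : hat ν {d} = mg ν d.1 := by
  simp [hat, mg, chi]

lemma df_eq (β : E × Bool → ZMod 2) (d : E × Bool) : df β d.1 = β d + β (opp d) := by
  obtain ⟨e, b⟩ := d; cases b <;> simp [df, add_comm]

lemma df_add (β γ : E × Bool → ZMod 2) (e : E) : df (β + γ) e = df β e + df γ e := by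
  simp only [df, Pi.add_apply]; ring

@[simp] lemma df_fst (ω : E → ZMod 2) (e : E) : df (fun d => ω d.1) e = 0 := z2a _

lemma dbd_add (G : MG V E) (β γ : E × Bool → ZMod 2) (v : V) :
    dbd G (β + γ) v = dbd G β v + dbd G γ v := by
  simp [dbd, sum_add_distrib]

lemma dbd_fst (G : MG V E) (ω : E → ZMod 2) (v : V) : dbd G (fun d => ω d.1) v = G.bd ω v := rfl

lemma bd_add (G : MG V E) (x y : E → ZMod 2) (v : V) : G.bd (x + y) v = G.bd x v + G.bd y v := by
  simp [MG.bd, sum_add_distrib]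

@[simp] lemma bd_zero (G : MG V E) (v : V) : G.bd (0 : E → ZMod 2) v = 0 := by simp [MG.bd]

lemma bd_single (G : MG V E) (d : E × Bool) (c : ZMod 2) (v : V) :
    G.bd (Pi.single d.1 c : E → ZMod 2) v =
      (if hd G d = v then c else 0) + (if hd G (opp d) = v then c else 0) := by
  obtain ⟨e, b⟩ := d
  simp only [MG.bd, sum_filter, Fintype.sum_prod_type, Fintype.sum_bool]
  rw [sum_eq_single e]
  · cases b <;> simp [add_comm] <;> rfl
  · intro f _ hf; simp [hf]
  · simp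

/-- The sum of a dart labelling over a vertex set: boundary darts and inner defects. -/
lemma sum_dbd (G : MG V E) (β : E × Bool → ZMod 2) (S : Finset V) :
    ∑ v ∈ S, dbd G β v = ∑ d ∈ B G S, β d + ∑ e ∈ univ.filter (In G S), df β e := by
  have h1 : ∑ v ∈ S, dbd G β v = ∑ d : E × Bool, if hd G d ∈ S then β d else 0 := by
    simp only [dbd, sum_filter]
    rw [sum_comm]
    refine sum_congr rfl fun a _ => ?_
    simp [sum_ite_eq]
  rw [h1, B, sum_filter, sum_filter, Fintype.sum_prod_type, Fintype.sum_prod_type,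
    ← sum_add_distrib]
  refine sum_congr rfl fun e _ => ?_
  by_cases ha : G.en e false ∈ S <;> by_cases hb : G.en e true ∈ S <;>
    simp [ha, hb, In, df, add_comm]

lemma sum_bd_B (G : MG V E) (ω : E → ZMod 2) (S : Finset V) :
    ∑ v ∈ S, G.bd ω v = ∑ d ∈ B G S, ω d.1 := by
  have := sum_dbd G (fun d => ω d.1) S
  simpa [dbd_fst] using this

lemma EvenOn.sum_B {G : MG V E} {S P : Finset V} {ω : E → ZMod 2} (h : EvenOn G S ω)
    (hP : P ⊆ S) : ∑ d ∈ B G P, ω d.1 = 0 := by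
  rw [← sum_bd_B]
  exact sum_eq_zero fun v hv => h v (hP hv)

lemma EvenOn.mono {G : MG V E} {S P : Finset V} {ω : E → ZMod 2} (h : EvenOn G S ω)
    (hP : P ⊆ S) : EvenOn G P ω := fun v hv => h v (hP hv)

/-- Either a cut avoiding `H` separates two vertices, or a chain in `H` joins them. -/
lemma path_or_cut (G : MG V E) (H : E → Prop) (u v : V) :
    (∃ X : Finset V, u ∈ X ∧ v ∉ X ∧ ∀ d : E × Bool, H d.1 → hd G d ∈ X → hd G (opp d) ∈ X) ∨
    ∃ y : E → ZMod 2, (∀ e, y e ≠ 0 → H e) ∧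
      ∀ w, G.bd y w = (if u = w then 1 else 0) + (if v = w then 1 else 0) := by
  classical
  let X : Finset V := univ.filter fun v => ∃ y : E → ZMod 2, (∀ e, y e ≠ 0 → H e) ∧
      ∀ w, G.bd y w = (if u = w then 1 else 0) + (if v = w then 1 else 0)
  by_cases hv : v ∈ X
  · right; simpa [X] using hv
  · left
    refine ⟨X, ?_, hv, ?_⟩
    · simp only [X, mem_filter, mem_univ, true_and]
      exact ⟨0, by simp, fun w => by simp [z2a]⟩
    · intro d hH hd'
      simp only [X, mem_filter, mem_univ, true_and] at hd' ⊢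
      obtain ⟨y, hy, hb⟩ := hd'
      refine ⟨y + Pi.single d.1 1, fun e he => ?_, fun w => ?_⟩
      · by_cases h : e = d.1
        · rw [h]; exact hH
        · exact hy e (by simpa [h] using he)
      · rw [bd_add, hb, bd_single, add_assoc, ← add_assoc (if hd G d = w then (1 : ZMod 2) else 0),
          z2a, zero_add]

/-- Joins with a prescribed boundary in a set that is connected through `H`. -/
lemma exists_join (G : MG V E) (H : E → Prop) (C : Finset V)
    (hC : ∀ X ⊆ C, X.Nonempty → X ≠ C →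
      ∃ d : E × Bool, H d.1 ∧ hd G d ∈ X ∧ hd G (opp d) ∈ C ∧ hd G (opp d) ∉ X)
    (g : V → ZMod 2) (hg : ∑ v ∈ C, g v = 0) :
    ∃ y : E → ZMod 2, (∀ e, y e ≠ 0 → H e ∧ Btw G C e) ∧
      ∀ w, G.bd y w = if w ∈ C then g w else 0 := by
  classical
  rcases C.eq_empty_or_nonempty with rfl | ⟨u, hu⟩
  · exact ⟨0, by simp, by simp⟩
  have key : ∀ v ∈ C, ∃ y : E → ZMod 2, (∀ e, y e ≠ 0 → H e ∧ Btw G C e) ∧
      ∀ w, G.bd y w = (if u = w then 1 else 0) + (if v = w then 1 else 0) := by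
    intro v hv
    rcases path_or_cut G (fun e => H e ∧ Btw G C e) u v with ⟨X, h1, h2, h3⟩ | h
    · exfalso
      obtain ⟨d, d0, d1, d2, d3⟩ := hC (X ∩ C) inter_subset_right ⟨u, mem_inter.2 ⟨h1, hu⟩⟩
        (fun h => h2 (mem_inter.1 (h.symm ▸ hv : v ∈ X ∩ C)).1)
      have d4 : hd G d ≠ hd G (opp d) := fun h => d3 (h ▸ d1)
      refine d3 (mem_inter.2 ⟨h3 d ⟨d0, ?_⟩ (mem_inter.1 d1).1, d2⟩)
      have d5 := (mem_inter.1 d1).2
      obtain ⟨e, b⟩ := d
      cases b
      · exact ⟨d5, d2, d4⟩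
      · exact ⟨d2, d5, d4.symm⟩
    · exact h
  choose! y hy1 hy2 using key
  refine ⟨∑ v ∈ C, g v • y v, fun e he => ?_, fun w => ?_⟩
  · rw [Finset.sum_apply] at he
    obtain ⟨v, hv, h⟩ := exists_ne_zero_of_sum_ne_zero he
    exact hy1 v hv e (fun h0 => h (by simp [h0]))
  · have : G.bd (∑ v ∈ C, g v • y v) w = ∑ v ∈ C, g v * G.bd (y v) w := by
      simp only [MG.bd, Finset.sum_apply, Pi.smul_apply, smul_eq_mul, mul_sum]
      rw [sum_comm]
    rw [this, sum_congr rfl fun v hv => by rw [hy2 v hv w]]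
    simp only [mul_add, sum_add_distrib]
    rw [← sum_mul, hg]
    simp [sum_ite_eq']

lemma Conn.exists_join {G : MG V E} {C : Finset V} (hC : Conn G C)
    (g : V → ZMod 2) (hg : ∑ v ∈ C, g v = 0) :
    ∃ y : E → ZMod 2, (∀ e, y e ≠ 0 → Btw G C e) ∧ ∀ w, G.bd y w = if w ∈ C then g w else 0 := by
  obtain ⟨y, h1, h2⟩ := ATJ.exists_join G (fun _ => True) C
    (fun X a b c => by simpa using hC X a b c) g hg
  exact ⟨y, fun e he => (h1 e he).2, h2⟩

lemma conn_singleton (G : MG V E) (v : V) : Conn G {v} := by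
  intro X hX hne h
  exact absurd (hne.subset_singleton_iff.1 hX) h

/-- Components of a vertex set. -/
lemma exists_comps (G : MG V E) (Y : Finset V) : ∃ c : V → Finset V, ∀ v ∈ Y,
    v ∈ c v ∧ c v ⊆ Y ∧ (∀ w ∈ c v, c w = c v) ∧ Conn G (c v) ∧ B G (c v) ⊆ B G Y := by
  classical
  let c : V → Finset V := fun v => Y.filter fun w => ∀ X : Finset V,
    (∀ d, hd G d ∈ X → hd G (opp d) ∈ Y → hd G d ∈ Y → hd G (opp d) ∈ X) → (v ∈ X ↔ w ∈ X)
  have step : ∀ v d, hd G d ∈ c v → hd G (opp d) ∈ Y → hd G (opp d) ∈ c v := by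
    intro v d h1 h2
    simp only [c, mem_filter] at h1 ⊢
    refine ⟨h2, fun X hX => (h1.2 X hX).trans ⟨fun h => hX d h h2 h1.1, fun h => ?_⟩⟩
    simpa using hX (opp d) h (by simpa using h1.1) h2
  refine ⟨c, fun v hv => ⟨by simp [c, hv], filter_subset _ _, ?_, ?_, ?_⟩⟩
  · intro w hw
    simp only [c, mem_filter] at hw
    ext x
    simp only [c, mem_filter]
    exact and_congr_right fun _ => forall_congr' fun X => imp_congr_right fun hX => by
      rw [hw.2 X hX]
  · intro X hX hne hXc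
    by_contra hcon
    push Not at hcon
    apply hXc
    refine Subset.antisymm hX fun w hw => ?_
    obtain ⟨x, hx⟩ := hne
    have hcl : ∀ d, hd G d ∈ X → hd G (opp d) ∈ Y → hd G d ∈ Y → hd G (opp d) ∈ X :=
      fun d h1 h2 _ => hcon d h1 (step v d (hX h1) h2)
    have h1 := (mem_filter.1 (hX hx)).2 X hcl
    have h2 := (mem_filter.1 hw).2 X hcl
    exact h2.1 (h1.2 hx)
  · intro d hd'
    rw [mem_B] at hd' ⊢
    exact ⟨(mem_filter.1 hd'.1).1, fun h => hd'.2 (step v d hd'.1 h)⟩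

end Pool.Agent.ATJ
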