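import Pool.Agent.Lib.ATJ.Defs
import Pool.Agent.Lib.Flows.Range

set_option autoImplicit false
set_option linter.unusedSectionVars false

namespace Pool.Agent.ATJ

open Finset Pool.Agent.Flows

variable {V E : Type} [Fintype V] [DecidableEq V] [Fintype E] [DecidableEq E]

/-- The image of a finite probability vector on even labellings. -/
lemma deg_meas_push (G : MG V E) (S : Finset V) {ι : Type} [Fintype ι] (l : ι → ℝ)
    (hl0 : ∀ i, 0 ≤ l i) (hl1 : ∑ i, l i = 1) (ω : ι → E → ZMod 2)
    (hω : ∀ i, l i ≠ 0 → EvenOn G S (ω i)) :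
    Meas G S (fun e => ∑ i, l i * sg (ω i e))
      (fun w => ∑ i ∈ univ.filter (fun i => ω i = w), l i) where
  pos := fun w => sum_nonneg fun i _ => hl0 i
  tot := by rw [sum_fiberwise univ ω l, hl1]
  ev := by
    intro w hw
    obtain ⟨i, hi, h⟩ := exists_ne_zero_of_sum_ne_zero hw
    rw [← (mem_filter.1 hi).2]
    exact hω i h
  mar := by
    intro e
    unfold mg
    rw [← sum_fiberwise univ ω (fun i => l i * sg (ω i e))]
    refine sum_congr rfl fun w _ => ?_
    rw [sum_mul]
    exact sum_congr rfl fun i hi => by rw [(mem_filter.1 hi).2]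

/-- The position of a dart in a fixed enumeration. -/
noncomputable def degIdx (d : E × Bool) : ℕ := Fintype.equivFin (E × Bool) d

lemma degIdx_inj {d d' : E × Bool} (h : degIdx d = degIdx d') : d = d' :=
  (Fintype.equivFin (E × Bool)).injective (Fin.ext h)

/-- Consecutive darts at the same vertex. -/
def degNx (G : MG V E) (p : (E × Bool) × (E × Bool)) : Prop :=
  hd G p.1 = hd G p.2 ∧ degIdx p.1 < degIdx p.2 ∧
    ∀ d, hd G d = hd G p.1 → degIdx p.1 < degIdx d → degIdx p.2 ≤ degIdx d

lemma degNx_exists (G : MG V E) {d m : E × Bool} (h1 : hd G m = hd G d)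
    (h2 : degIdx d < degIdx m) : ∃ d', degNx G (d, d') := by
  obtain ⟨d', hd', hmin⟩ := exists_min_image
    (univ.filter fun x => hd G x = hd G d ∧ degIdx d < degIdx x) degIdx ⟨m, by simp [h1, h2]⟩
  simp only [mem_filter, mem_univ, true_and] at hd' hmin
  exact ⟨d', hd'.1.symm, hd'.2, fun x a b => hmin x ⟨a, b⟩⟩

lemma degNx_right {G : MG V E} {p q : (E × Bool) × (E × Bool)} (hp : degNx G p) (hq : degNx G q)
    (h : p.1 = q.1) : p = q := by
  refine Prod.ext h (degIdx_inj (le_antisymm ?_ ?_))
  · exact hp.2.2 _ (by rw [h]; exact hq.1.symm) (by rw [h]; exact hq.2.1)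
  · exact hq.2.2 _ (by rw [← h]; exact hp.1.symm) (by rw [← h]; exact hp.2.1)

lemma degNx_left {G : MG V E} {p q : (E × Bool) × (E × Bool)} (hp : degNx G p) (hq : degNx G q)
    (h : p.2 = q.2) : p = q := by
  refine Prod.ext (degIdx_inj ?_) h
  have e1 : hd G q.1 = hd G p.1 := by rw [hq.1, hp.1, h]
  by_contra hne
  rcases lt_or_gt_of_ne hne with hlt | hlt
  · have := hp.2.2 _ e1 hlt
    have := hq.2.1
    rw [h] at *
    omega
  · have := hq.2.2 _ e1.symm hlt
    have := hp.2.1
    rw [h] at *
    omega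

/-- The graph in which every vertex is replaced by a path through its darts. -/
def degG (G : MG V E) : MG (E × Bool) (E ⊕ {p // degNx G p}) :=
  ⟨fun e b => match e with
    | Sum.inl e => (e, b)
    | Sum.inr p => if b then p.1.2 else p.1.1⟩

@[simp] lemma degG_inl (G : MG V E) (e : E) (b : Bool) : (degG G).en (Sum.inl e) b = (e, b) := rfl

@[simp] lemma degG_inr_false (G : MG V E) (p : {p // degNx G p}) :
    (degG G).en (Sum.inr p) false = p.1.1 := rfl

@[simp] lemma degG_inr_true (G : MG V E) (p : {p // degNx G p}) :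
    (degG G).en (Sum.inr p) true = p.1.2 := rfl

section
variable (G : MG V E) [Fintype {p // degNx G p}] [DecidableEq {p // degNx G p}]

lemma degG_deg (d : E × Bool) : (B (degG G) {d}).card ≤ 3 := by
  let f : (E ⊕ {p // degNx G p}) × Bool → Fin 3 := fun a =>
    match a with
    | (Sum.inl _, _) => 0
    | (Sum.inr _, false) => 1
    | (Sum.inr _, true) => 2
  have := card_le_card_of_injOn (s := B (degG G) {d}) (t := univ) f (fun _ _ => by simp) (by
    rintro ⟨a, b⟩ ha ⟨a', b'⟩ ha' h
    have h1 := (mem_B.1 (mem_coe.1 ha)).1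
    have h2 := (mem_B.1 (mem_coe.1 ha')).1
    rw [mem_singleton, hd_mk] at h1 h2
    have h3 := h1.trans h2.symm
    rcases a with e | p <;> rcases a' with e' | p' <;> cases b <;> cases b' <;>
      simp only [f, degG_inl, degG_inr_false, degG_inr_true] at h h3 <;>
      first
        | exact absurd h (by decide)
        | (simp only [Prod.mk.injEq] at h3; simp_all)
        | rw [Subtype.ext (degNx_right p.2 p'.2 h3)]
        | rw [Subtype.ext (degNx_left p.2 p'.2 h3)])
  simpa using this

lemma degG_loop (e : E ⊕ {p // degNx G p}) : (degG G).en e false ≠ (degG G).en e true := by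
  rcases e with e | p
  · simp
  · intro h
    have h1 := p.2.2.1
    simp only [degG_inr_false, degG_inr_true] at h
    rw [h] at h1
    exact lt_irrefl _ h1

lemma degG_restrict {ω : E ⊕ {p // degNx G p} → ZMod 2} (h : (degG G).IsFlow ω) :
    G.IsFlow fun e => ω (Sum.inl e) := by
  intro X
  have := h (univ.filter fun d => hd G d ∈ X)
  rw [MG.cut, sum_filter, Fintype.sum_sum_type] at this
  rw [MG.cut, sum_filter]
  have h2 : ∀ p : {p // degNx G p}, hd G p.1.1 = hd G p.1.2 := fun p => p.2.1
  simpa [h2] using this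

lemma degG_extend {ω : E → ZMod 2} (h : EvenOn G univ ω) :
    ∃ ω' : E ⊕ {p // degNx G p} → ZMod 2, EvenOn (degG G) univ ω' ∧
      ∀ e, ω' (Sum.inl e) = ω e := by
  have key : ∀ v : V, ∃ y : E ⊕ {p // degNx G p} → ZMod 2, (∀ e, y (Sum.inl e) = 0) ∧
      ∀ w, (degG G).bd y w = if hd G w = v then ω w.1 else 0 := by
    intro v
    refine (exists_join (degG G) (fun e => ∀ f, e ≠ Sum.inl f)
      (univ.filter fun d => hd G d = v) ?_ (fun d => ω d.1) (h v (mem_univ _))).imp ?_
    swap
    · rintro y ⟨h1, h2⟩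
      refine ⟨fun e => ?_, fun w => by simpa using h2 w⟩
      by_contra hne
      exact (h1 _ hne).1 e rfl
    · intro X hX hne hXC
      set C := univ.filter fun d => hd G d = v with hC
      have hmem : ∀ d, d ∈ C ↔ hd G d = v := fun d => by simp [hC]
      obtain ⟨m, hm, hmax⟩ := exists_max_image C degIdx (hne.mono hX)
      by_cases hmX : m ∈ X
      · obtain ⟨d, hd', hdmax⟩ := exists_max_image (C \ X) degIdx
          (sdiff_nonempty.2 fun h' => hXC (Subset.antisymm hX h'))
        rw [mem_sdiff] at hd'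
        have hlt : degIdx d < degIdx m := lt_of_le_of_ne (hmax d hd'.1)
          fun h' => hd'.2 (degIdx_inj h' ▸ hmX)
        obtain ⟨d', hn⟩ := degNx_exists G (((hmem _).1 hm).trans ((hmem _).1 hd'.1).symm) hlt
        refine ⟨(Sum.inr ⟨_, hn⟩, true), by simp, ?_, hd'.1, hd'.2⟩
        change d' ∈ X
        by_contra hd'X
        have h3 : d' ∈ C := (hmem _).2 (hn.1.symm.trans ((hmem _).1 hd'.1))
        have h4 := hdmax d' (mem_sdiff.2 ⟨h3, hd'X⟩)
        have h5 : degIdx d < degIdx d' := hn.2.1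
        omega
      · obtain ⟨d, hd', hdmax⟩ := exists_max_image X degIdx hne
        have hlt : degIdx d < degIdx m := lt_of_le_of_ne (hmax d (hX hd'))
          fun h' => hmX (degIdx_inj h' ▸ hd')
        obtain ⟨d', hn⟩ := degNx_exists G (((hmem _).1 hm).trans ((hmem _).1 (hX hd')).symm) hlt
        refine ⟨(Sum.inr ⟨_, hn⟩, false), by simp, hd', ?_, ?_⟩
        · exact (hmem _).2 (hn.1.symm.trans ((hmem _).1 (hX hd')))
        · change d' ∉ X
          intro hd'X
          have h4 := hdmax d' hd'X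
          have h5 : degIdx d < degIdx d' := hn.2.1
          omega
  choose y hy1 hy2 using key
  refine ⟨(∑ v, y v) + Sum.elim ω 0, fun w _ => ?_, fun e => ?_⟩
  · have h1 : (degG G).bd (∑ v, y v) w = ω w.1 := by
      have : (degG G).bd (∑ v, y v) w = ∑ v, (degG G).bd (y v) w := by
        simp only [MG.bd, Finset.sum_apply]
        rw [sum_comm]
      rw [this]
      simp [hy2]
    have h2 : (degG G).bd (Sum.elim ω 0) w = ω w.1 := by
      obtain ⟨e, b⟩ := w
      rw [MG.bd, sum_filter, Fintype.sum_prod_type, Fintype.sum_sum_type]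
      simp only [degG_inl, Sum.elim_inl, Sum.elim_inr, Pi.zero_apply, ite_self, sum_const_zero,
        add_zero, Prod.mk.injEq]
      rw [sum_eq_single e]
      · cases b <;> simp
      · intro f _ hf; simp [hf]
      · simp
    rw [bd_add, h1, h2, z2a]
  · simp [Finset.sum_apply, hy1]

end

/-- File Deg.lean -/
theorem deg_red (ε : ℝ) (N : ℕ)
    (h : ∀ (V E : Type) [Fintype V] [DecidableEq V] [Fintype E] [DecidableEq E] (G : MG V E),
      (∀ v, (B G {v}).card ≤ 3) → (∀ e, G.en e false ≠ G.en e true) → Approx ε N G)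
    (G : MG V E) : Approx ε N G := by
  classical
  intro y ν hν
  have hext : ∀ ω : E → ZMod 2, ∃ ω' : E ⊕ {p // degNx G p} → ZMod 2, EvenOn G univ ω →
      EvenOn (degG G) univ ω' ∧ ∀ e, ω' (Sum.inl e) = ω e := by
    intro ω
    by_cases hω : EvenOn G univ ω
    · obtain ⟨ω', h'⟩ := degG_extend G hω
      exact ⟨ω', fun _ => h'⟩
    · exact ⟨0, fun h' => absurd h' hω⟩
  choose ex hex using hext
  obtain ⟨J, hJ1, hJ2⟩ := h _ _ (degG G) (degG_deg G) (degG_loop G) _ _
    (deg_meas_push (degG G) univ ν hν.pos hν.tot ex fun ω hω => (hex ω (hν.ev ω hω)).1)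
  refine ⟨fun i e => J i (Sum.inl e), fun i => degG_restrict G (hJ1 i), fun e => ?_⟩
  have h1 := hJ2 (Sum.inl e)
  have h2 : ∑ ω, ν ω * sg (ex ω (Sum.inl e)) = y e := by
    rw [← hν.mar e, mg]
    refine sum_congr rfl fun ω _ => ?_
    by_cases hω : ν ω = 0
    · simp [hω]
    · rw [(hex ω (hν.ev ω hω)).2 e]
  rwa [h2] at h1

end Pool.Agent.ATJ
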