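import Pool.Agent.Lib.ATJ.Deg
import Pool.Agent.P.MP_8fd115_co.TJoin

set_option autoImplicit false
set_option linter.unusedSectionVars false

namespace Pool.Agent.ATJ

open Finset Pool.Agent.Flows

variable {V E : Type} [Fintype V] [DecidableEq V] [Fintype E] [DecidableEq E]

lemma ej_sg (a : ZMod 2) : sg a = 1 - 2 * (a.val : ℝ) := by
  rcases z2c a with rfl | rfl
  · simp
  · rw [sg_one, ZMod.val_one]; norm_num

/-- A flow whose cost is nearly at most the cost of `x`. -/
lemma ej_cheap (G : MG V E) (x : E → ℝ) (h0 : ∀ e, 0 ≤ x e) (h1 : ∀ e, x e ≤ 1 / 2)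
    (hcut : ∀ X, ∀ e ∈ G.cut X, 2 * x e ≤ ∑ f ∈ G.cut X, x f) (w : E → ℝ) (n : ℕ) :
    ∃ ω : E → ZMod 2, G.IsFlow ω ∧
      n * ∑ e, ((ω e).val : ℝ) * w e ≤ n * ∑ e, x e * w e + Fintype.card E := by
  classical
  let s : E → V := fun e => G.en e false
  let t : E → V := fun e => G.en e true
  let ng : E → ZMod 2 := fun e => if w e < 0 then 1 else 0
  let x' : E → ℝ := fun e => if w e < 0 then 1 - x e else x e
  have hx0 : ∀ e, 0 ≤ x' e := fun e => by
    have := h0 e; have := h1 e
    simp only [x']; split_ifs <;> linarith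
  have hx1 : ∀ e, x' e ≤ 1 := fun e => by
    have := h0 e; have := h1 e
    simp only [x']; split_ifs <;> linarith
  have hcutE : ∀ X, P.MP_8fd115_co.cut s t X = G.cut X := fun X => rfl
  have hF : P.MP_8fd115_co.Feas s t (P.MP_8fd115_co.bd s t ng) x' := by
    intro X hX
    rw [P.MP_8fd115_co.sum_bd, hcutE] at hX
    rw [hcutE]
    obtain ⟨e, he, hne⟩ := exists_ne_zero_of_sum_ne_zero (hX ▸ one_ne_zero : _ ≠ (0 : ZMod 2))
    have hwe : w e < 0 := by
      by_contra hc; exact hne (by simp [ng, hc])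
    by_cases h2 : ∃ f ∈ G.cut X, f ≠ e ∧ w f < 0
    · obtain ⟨f, hf, hfe, hwf⟩ := h2
      have h3 : ∑ g ∈ ({e, f} : Finset E), x' g ≤ ∑ g ∈ G.cut X, x' g :=
        sum_le_sum_of_subset_of_nonneg (by
          intro g hg
          rcases mem_insert.1 hg with rfl | hg
          · exact he
          · rw [mem_singleton.1 hg]; exact hf) fun g _ _ => hx0 g
      rw [sum_pair hfe.symm] at h3
      have := h1 e; have := h1 f
      simp only [x', hwe, hwf, if_true] at h3 ⊢
      linarith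
    · push Not at h2
      have h3 := hcut X e he
      rw [← add_sum_erase _ _ he] at h3 ⊢
      have h4 : ∑ g ∈ (G.cut X).erase e, x' g = ∑ g ∈ (G.cut X).erase e, x g :=
        sum_congr rfl fun g hg => by
          have := h2 g (mem_of_mem_erase hg) (ne_of_mem_erase hg)
          simp [x', not_lt.2 this]
      rw [h4]
      simp only [x', hwe, if_true]
      linarith
  obtain ⟨g, hg, hc⟩ := P.MP_8fd115_co.tjoin hx0 hF (fun e => ⌈n * |w e|⌉₊)
  refine ⟨g + ng, fun X => ?_, ?_⟩
  · rw [← hcutE, ← P.MP_8fd115_co.sum_bd, P.MP_8fd115_co.bd_add, hg]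
    exact sum_eq_zero fun v _ => z2a _
  · unfold P.MP_8fd115_co.cost at hc
    push_cast at hc
    have h2 : ∑ e, (n * |w e|) * ((g e).val : ℝ) ≤ ∑ e, (⌈n * |w e|⌉₊ : ℝ) * ((g e).val : ℝ) :=
      sum_le_sum fun e _ => mul_le_mul_of_nonneg_right (Nat.le_ceil _) (Nat.cast_nonneg _)
    have h3 : ∑ e, (⌈n * |w e|⌉₊ : ℝ) * x' e ≤ ∑ e, (n * |w e| * x' e + 1) :=
      sum_le_sum fun e _ => by
        have := (Nat.ceil_lt_add_one (show (0 : ℝ) ≤ n * |w e| by positivity)).le
        have := hx0 e; have := hx1 e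
        nlinarith
    rw [sum_add_distrib, sum_const, card_univ, nsmul_eq_mul, mul_one] at h3
    have h4 : n * ∑ e, (((g + ng) e).val : ℝ) * w e - n * ∑ e, x e * w e =
        ∑ e, (n * |w e|) * ((g e).val : ℝ) - ∑ e, n * |w e| * x' e := by
      rw [mul_sum, mul_sum, ← sum_sub_distrib, ← sum_sub_distrib]
      refine sum_congr rfl fun e _ => ?_
      by_cases hw : w e < 0
      · simp only [Pi.add_apply, ng, x', hw, if_true, abs_of_neg hw]
        rcases z2c (g e) with h | h
        · rw [h, zero_add, ZMod.val_one, ZMod.val_zero]; push_cast; ring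
        · rw [h, z2a, ZMod.val_one, ZMod.val_zero]; push_cast; ring
      · simp only [Pi.add_apply, ng, x', hw, if_false, abs_of_nonneg (not_lt.1 hw), add_zero]
        ring
    linarith

/-- File EJ.lean -/
theorem exists_meas (G : MG V E) (x : E → ℝ) (h0 : ∀ e, 0 ≤ x e) (h1 : ∀ e, x e ≤ 1 / 2)
    (hcut : ∀ X, ∀ e ∈ G.cut X, 2 * x e ≤ ∑ f ∈ G.cut X, x f) :
    ∃ ν, Meas G univ (fun e => 1 - 2 * x e) ν := by
  classical
  let χ : (E → ZMod 2) → E → ℝ := fun ω e => sg (ω e)
  let S : Finset (E → ℝ) := (univ.filter G.IsFlow).image χ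
  have hmem : (fun e => 1 - 2 * x e) ∈ convexHull ℝ (S : Set (E → ℝ)) := by
    by_contra hnot
    obtain ⟨f, u, hf, hu⟩ := geometric_hahn_banach_closed_point (convex_convexHull ℝ _)
      (S.finite_toSet.isClosed_convexHull ℝ) hnot
    let w : E → ℝ := fun e => f (Pi.single e 1)
    have hw : ∀ y : E → ℝ, f y = ∑ e, y e * w e := fun y => by
      conv_lhs => rw [← univ_sum_single y]
      rw [map_sum]
      refine sum_congr rfl fun v _ => ?_
      have : (Pi.single v (y v) : E → ℝ) = y v • Pi.single v 1 := by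
        rw [← Pi.single_smul, smul_eq_mul, mul_one]
      rw [this, map_smul]; simp [w]
    obtain ⟨n, hn⟩ := exists_nat_gt (2 * (Fintype.card E : ℝ) / (f (fun e => 1 - 2 * x e) - u))
    rw [div_lt_iff₀ (by linarith)] at hn
    obtain ⟨ω, hω, hc⟩ := ej_cheap G x h0 h1 hcut w n
    have h2 := hf (χ ω) (subset_convexHull ℝ _ (by
      simp only [S, coe_image]; exact ⟨ω, by simp [hω], rfl⟩))
    have h3 : f (χ ω) = ∑ e, w e - 2 * ∑ e, ((ω e).val : ℝ) * w e := by
      rw [hw, mul_sum, ← sum_sub_distrib]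
      exact sum_congr rfl fun e _ => by simp only [χ]; rw [ej_sg]; ring
    have h4 : f (fun e => 1 - 2 * x e) = ∑ e, w e - 2 * ∑ e, x e * w e := by
      rw [hw, mul_sum, ← sum_sub_distrib]
      exact sum_congr rfl fun e _ => by ring
    rw [h4] at hn
    rw [h3] at h2
    have h5 := mul_le_mul_of_nonneg_left h2.le (Nat.cast_nonneg n : (0 : ℝ) ≤ n)
    nlinarith
  obtain ⟨ι, _, l, z, hl0, hl1, hz, hsum⟩ := mem_convexHull_iff_exists_fintype.1 hmem
  simp only [S, coe_image, Set.mem_image, mem_coe, mem_filter, mem_univ, true_and] at hz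
  choose ω hω hωz using hz
  have h2 := deg_meas_push G univ l hl0 hl1 ω
    (fun i _ v _ => (MG.isFlow_iff MG.z2 G _).1 (hω _) v)
  have h3 : (fun e => ∑ i, l i * sg (ω i e)) = fun e => 1 - 2 * x e := by
    funext e
    have := congrFun hsum e
    simpa only [← hωz, χ, Finset.sum_apply, Pi.smul_apply, smul_eq_mul] using this
  rw [h3] at h2
  exact ⟨_, h2⟩

end Pool.Agent.ATJ
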