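import Pool.Agent.Lib.ATJ.NSP

set_option autoImplicit false
set_option linter.unusedSectionVars false

namespace Pool.Agent.ATJ

open Finset Pool.Agent.Flows

variable {V E : Type} [Fintype V] [DecidableEq V] [Fintype E] [DecidableEq E]

/-- The chain of pieces that contain a vertex. -/
def globC (root : V → Finset V) (pt : Finset V → V → Finset V) : ℕ → V → Finset V
  | 0 => root
  | n + 1 => fun v =>
    if 2 ≤ (globC root pt n v).card then pt (globC root pt n v) v else globC root pt n v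

lemma glob_pieces (G : MG V E) (K : ℕ) (pt : Finset V → V → Finset V)
    (hpt : ∀ S, Conn G S → (B G S).card ≤ K → 2 ≤ S.card → IsPart G K S (pt S)) :
    ∃ (Pc : Finset V → Prop) (root : V → Finset V), (∀ v, v ∈ root v) ∧ (∀ v, Pc (root v)) ∧
      (∀ v, B G (root v) = ∅) ∧ (∀ v, ∀ w ∈ root v, root w = root v) ∧
      (∀ S, Pc S → S.Nonempty ∧ Conn G S ∧ (B G S).card ≤ K) ∧
      (∀ S, Pc S → 2 ≤ S.card → ∀ v ∈ S, Pc (pt S v)) ∧
      ∀ S S', Pc S → Pc S' → ∀ v ∈ S, v ∈ S' →
        S = S' ∨ (2 ≤ S.card ∧ S' ⊆ pt S v) ∨ (2 ≤ S'.card ∧ S ⊆ pt S' v) := by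
  obtain ⟨root, hroot⟩ := exists_comps G univ
  have hBu : B G univ = ∅ := by ext d; simp [mem_B]
  have hB0 : ∀ v, B G (root v) = ∅ := fun v =>
    subset_empty.1 (hBu ▸ (hroot v (mem_univ v)).2.2.2.2)
  have inv : ∀ n v, v ∈ globC root pt n v ∧ Conn G (globC root pt n v) ∧
      (B G (globC root pt n v)).card ≤ K ∧
      ∀ w ∈ globC root pt n v, globC root pt n w = globC root pt n v := by
    intro n
    induction n with
    | zero =>
      intro v
      obtain ⟨h1, -, h3, h4, -⟩ := hroot v (mem_univ v)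
      exact ⟨h1, h4, by simp [globC, hB0], h3⟩
    | succ n ih =>
      intro v
      obtain ⟨h1, h2, h3, h4⟩ := ih v
      by_cases h : 2 ≤ (globC root pt n v).card
      · have hp := hpt _ h2 h3 h
        have e : globC root pt (n + 1) v = pt (globC root pt n v) v := by simp [globC, h]
        rw [e]
        refine ⟨hp.mem v h1, hp.conn v h1, hp.deg v h1, fun w hw => ?_⟩
        have h5 := h4 w ((hp.sub v h1).subset hw)
        have e2 : globC root pt (n + 1) w = pt (globC root pt n v) w := by simp [globC, h5, h]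
        rw [e2, hp.eq v h1 w hw]
      · have e : globC root pt (n + 1) v = globC root pt n v := by simp [globC, h]
        rw [e]
        refine ⟨h1, h2, h3, fun w hw => ?_⟩
        have h5 := h4 w hw
        simp [globC, h5, h]
  have step : ∀ n v, globC root pt (n + 1) v ⊆ globC root pt n v := by
    intro n v
    obtain ⟨h1, h2, h3, -⟩ := inv n v
    by_cases h : 2 ≤ (globC root pt n v).card
    · have e : globC root pt (n + 1) v = pt (globC root pt n v) v := by simp [globC, h]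
      rw [e]; exact ((hpt _ h2 h3 h).sub v h1).subset
    · have e : globC root pt (n + 1) v = globC root pt n v := by simp [globC, h]
      rw [e]
  have anti : ∀ v n m, n ≤ m → globC root pt m v ⊆ globC root pt n v := by
    intro v n m h
    induction h with
    | refl => exact Subset.refl _
    | step _ ih => exact (step _ v).trans ih
  have half : ∀ v n m, n < m → globC root pt n v = globC root pt m v ∨
      (2 ≤ (globC root pt n v).card ∧ globC root pt m v ⊆ pt (globC root pt n v) v) := by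
    intro v n m h
    by_cases h2 : 2 ≤ (globC root pt n v).card
    · right
      have e : globC root pt (n + 1) v = pt (globC root pt n v) v := by simp [globC, h2]
      exact ⟨h2, e ▸ anti v (n + 1) m h⟩
    · left
      refine (eq_of_subset_of_card_le (anti v n m h.le) ?_).symm
      have : 0 < (globC root pt m v).card := card_pos.2 ⟨v, (inv m v).1⟩
      omega
  refine ⟨fun S => ∃ n v, S = globC root pt n v, root, fun v => (inv 0 v).1,
    fun v => ⟨0, v, rfl⟩, hB0, fun v => (inv 0 v).2.2.2, ?_, ?_, ?_⟩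
  · rintro S ⟨n, v, rfl⟩
    exact ⟨⟨v, (inv n v).1⟩, (inv n v).2.1, (inv n v).2.2.1⟩
  · rintro S ⟨n, u, rfl⟩ h v hv
    have h5 := (inv n u).2.2.2 v hv
    exact ⟨n + 1, v, by simp [globC, h5, h]⟩
  · rintro S S' ⟨n, u, rfl⟩ ⟨m, u', rfl⟩ v hv hv'
    rw [← (inv n u).2.2.2 v hv, ← (inv m u').2.2.2 v hv']
    rcases lt_trichotomy n m with h | h | h
    · rcases half v n m h with h1 | h1
      · exact Or.inl h1
      · exact Or.inr (Or.inl h1)
    · exact Or.inl (by rw [h])
    · rcases half v m n h with h1 | h1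
      · exact Or.inl h1.symm
      · exact Or.inr (Or.inr h1)

lemma glob_mem_of_pt {G : MG V E} {K : ℕ} {S : Finset V} {pt : V → Finset V}
    (h : IsPart G K S pt) {v : V} (hv : pt v ∈ S.image pt) : v ∈ S := by
  by_contra hn
  obtain ⟨w, hw, e⟩ := mem_image.1 hv
  have := h.mem w hw
  rw [e, h.out v hn] at this
  simp at this

lemma glob_btw_in {G : MG V E} {K : ℕ} {S : Finset V} {pt : V → Finset V}
    (h : IsPart G K S pt) {e : E} (he : Btw (quo G pt) (S.image pt) e) : In G S e :=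
  ⟨glob_mem_of_pt h he.1, glob_mem_of_pt h he.2.1⟩

lemma glob_not_btw {G : MG V E} {K : ℕ} {S S' : Finset V} {pt : V → Finset V}
    (h : IsPart G K S pt) {v : V} (hv : v ∈ S) (hS' : S' ⊆ pt v) {e : E} (hin : In G S' e) :
    ¬ Btw (quo G pt) (S.image pt) e := fun he =>
  he.2.2 ((h.eq v hv _ (hS' hin.1)).trans (h.eq v hv _ (hS' hin.2)).symm)

lemma glob_tm_btw {k : ℕ} {T : TD V k} {G : MG V E} {S : Finset V} {s : Fin k} {e : E}
    (h : T.Tm G S s e) : Btw (quo G T.pt) (S.image T.pt) e :=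
  ⟨(mem_sdiff.1 h.1.1).1, (mem_sdiff.1 h.1.2.1).1, h.1.2.2⟩

/-- Every part of the cell of a terminal edge owns a terminal dart of the same cell. -/
lemma glob_cell_dart {G : MG V E} {K q W z k : ℕ} {S : Finset V} {T : TD V k}
    (h : IsTor G K q W z S T) {s : Fin k} {e : E} (he : T.Tm G S s e) :
    ∀ Q ∈ T.cell (T.pt (G.en e false)), ∃ d : E × Bool, T.pt (hd G d) = Q ∧ T.Tm G S s d.1 ∧
      T.cell (T.pt (G.en d.1 false)) = T.cell (T.pt (G.en e false)) := by
  intro Q hQ
  have hP : T.pt (G.en e false) ∈ S.image T.pt \ T.Z := he.1.1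
  have hP' : T.pt (G.en e true) ∈ S.image T.pt \ T.Z := he.1.2.1
  have hne : T.pt (G.en e false) ≠ T.pt (G.en e true) := he.1.2.2
  have hcc : T.cell (T.pt (G.en e false)) = T.cell (T.pt (G.en e true)) := he.2.1
  have hs : T.sys (T.pt (G.en e false)) = s := he.2.2
  have hH := h.hubs
  have hsub : T.cell (T.pt (G.en e false)) ⊆ S.image T.pt \ T.Z :=
    (hH.cell_sub _ hP).trans (hH.cl_sub _ hP)
  obtain ⟨d, d1, d2, d3⟩ := hH.cell_conn _ hP {Q} (singleton_subset_iff.2 hQ)
    (singleton_nonempty Q) (by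
      intro hq
      have h1 := hH.mem_cell _ hP
      have h2 := hH.mem_cell _ hP'
      rw [← hcc] at h2
      rw [← hq, mem_singleton] at h1 h2
      exact hne (h1.trans h2.symm))
  rw [hd_quo, mem_singleton] at d1 d3
  rw [hd_quo] at d2
  have d4 : T.pt (hd G d) ∈ T.cell (T.pt (G.en e false)) := d1 ▸ hQ
  have d5 : T.pt (hd G d) ≠ T.pt (hd G (opp d)) := fun h => d3 (h ▸ d1)
  have a1 := hH.cell_eq _ hP _ d4
  have a2 := hH.cell_eq _ hP _ d2
  refine ⟨d, d1, ?_⟩
  obtain ⟨f, b⟩ := d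
  cases b
  · exact ⟨⟨⟨hsub d4, hsub d2, d5⟩, a1.1.trans a2.1.symm, a1.2.trans hs⟩, a1.1⟩
  · exact ⟨⟨⟨hsub d2, hsub d4, d5.symm⟩, a2.1.trans a1.1.symm, a2.2.trans hs⟩, a2.1⟩

/-- The auxiliary graph: two copies of every dart, joining its vertex to the node of its edge. -/
def globG {N : Type} (G : MG V E) (nd : E → N) : MG (V ⊕ N) ((E × Bool) × Bool) :=
  ⟨fun a b => if b then Sum.inr (nd a.1.1) else Sum.inl (hd G a.1)⟩

/-- The darts that are cut. -/
def globCut {N : Type} [DecidableEq N] (G : MG V E) (nd : E → N) (X : Finset (V ⊕ N)) :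
    Finset (E × Bool) :=
  univ.filter fun d => ¬ (Sum.inl (hd G d) ∈ X ↔ Sum.inr (nd d.1) ∈ X)

lemma glob_card_cut {N : Type} [Fintype N] [DecidableEq N] (G : MG V E) (nd : E → N)
    (X : Finset (V ⊕ N)) : ((globG G nd).cut X).card = 2 * (globCut G nd X).card := by
  have : (globG G nd).cut X = globCut G nd X ×ˢ (univ : Finset Bool) := by
    ext a
    simp [MG.mem_cut, globG, globCut]
  rw [this, card_product]
  simp [mul_comm]

lemma glob_bd_inl {N : Type} [Fintype N] [DecidableEq N] (G : MG V E) (nd : E → N)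
    (y : (E × Bool) × Bool → ZMod 2) (v : V) :
    (globG G nd).bd y (Sum.inl v) = dbd G (fun d => y (d, false) + y (d, true)) v := by
  simp only [MG.bd, dbd, sum_filter]
  rw [Fintype.sum_prod_type, Fintype.sum_prod_type]
  refine sum_congr rfl fun d _ => ?_
  by_cases h : hd G d = v <;> simp [globG, h, add_comm]

lemma glob_bd_inr {N : Type} [Fintype N] [DecidableEq N] (G : MG V E) (nd : E → N)
    (y : (E × Bool) × Bool → ZMod 2) (n : N) :
    (globG G nd).bd y (Sum.inr n) = ∑ e ∈ univ.filter (fun e => nd e = n),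
      df (fun d => y (d, false) + y (d, true)) e := by
  simp only [MG.bd, sum_filter]
  rw [Fintype.sum_prod_type, Fintype.sum_prod_type, Fintype.sum_prod_type]
  refine sum_congr rfl fun e _ => ?_
  by_cases h : nd e = n <;> simp [globG, h, df, add_comm]

lemma glob_B_le {N : Type} [Fintype N] [DecidableEq N] (G : MG V E) (nd : E → N)
    (X : Finset (V ⊕ N)) :
    (B G (univ.filter fun v => Sum.inl v ∈ X)).card ≤ (globCut G nd X).card := by
  rw [card_B]
  refine le_trans (card_le_card fun e he => ?_) (card_image_le (f := Prod.fst))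
  rw [MG.mem_cut] at he
  simp only [mem_filter, mem_univ, true_and] at he
  rw [mem_image]
  by_cases h : (Sum.inl (G.en e false) ∈ X ↔ Sum.inr (nd e) ∈ X)
  · refine ⟨(e, true), ?_, rfl⟩
    simp only [globCut, mem_filter, mem_univ, true_and, hd_mk]
    tauto
  · exact ⟨(e, false), by simpa [globCut] using h, rfl⟩

/-- The overlay sets for one system. -/
lemma glob_overlay {N : Type} [Fintype N] [DecidableEq N] (G : MG V E) (K q W z k : ℕ)
    (hq : 5 * K + 1 ≤ q) (Pc : Finset V → Prop) (T : Finset V → TD V k) (s : Fin k) (nd : E → N)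
    (hdeg : ∀ S, Pc S → (B G S).card ≤ K)
    (htor : ∀ S, Pc S → 2 ≤ S.card → IsTor G K q W z S (T S))
    (hlam : ∀ S S', Pc S → Pc S' → ∀ v ∈ S, v ∈ S' →
      S = S' ∨ (2 ≤ S.card ∧ S' ⊆ (T S).pt v) ∨ (2 ≤ S'.card ∧ S ⊆ (T S').pt v))
    (hin : ∀ S, Pc S → ∀ e f, In G S e → nd f = nd e → In G S f)
    (hcell : ∀ S, Pc S → 2 ≤ S.card → ∀ e f, (T S).Tm G S s e → (T S).Tm G S s f →
      (T S).cell ((T S).pt (G.en f false)) = (T S).cell ((T S).pt (G.en e false)) →
      nd f = nd e) :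
    ∃ Φ : Fin (K + 2) → Finset (E × Bool), (∀ d, (univ.filter fun j => d ∈ Φ j).card ≤ 4) ∧
      ∀ S, Pc S → 2 ≤ S.card → ∀ j (π : N → ZMod 2),
        (∀ n, π n ≠ 0 → ∃ e, (T S).Tm G S s e ∧ nd e = n) → ∑ n, π n = 0 →
        ∃ Y : E × Bool → ZMod 2, (∀ d, Y d ≠ 0 → d ∈ Φ j ∧ In G S d.1) ∧ (∀ v, dbd G Y v = 0) ∧
          ∀ n, ∑ e ∈ univ.filter (fun e => nd e = n), df Y e = π n := by
  classical
  let D : Finset (Finset V) := univ.filter fun S => Pc S ∧ 2 ≤ S.card
  have hD : ∀ S, S ∈ D ↔ Pc S ∧ 2 ≤ S.card := fun S => by simp [D]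
  let dom : Finset V → Finset (V ⊕ N) := fun S => univ.filter fun x =>
    Sum.elim (fun v => v ∈ S) (fun n => ∃ e, In G S e ∧ nd e = n) x
  let t : Finset V → Finset (V ⊕ N) := fun S => univ.filter fun x =>
    Sum.elim (fun _ => False) (fun n => ∃ e, (T S).Tm G S s e ∧ nd e = n) x
  have dl : ∀ S v, Sum.inl v ∈ dom S ↔ v ∈ S := fun S v => by simp [dom]
  have dr : ∀ S n, Sum.inr n ∈ dom S ↔ ∃ e, In G S e ∧ nd e = n := fun S n => by simp [dom]
  have dr' : ∀ S, Pc S → ∀ e, Sum.inr (nd e) ∈ dom S ↔ In G S e := fun S hS e => by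
    rw [dr]
    exact ⟨fun ⟨f, h1, h2⟩ => hin S hS f e h1 h2.symm, fun h => ⟨e, h, rfl⟩⟩
  have tl : ∀ S v, Sum.inl v ∉ t S := fun S v => by simp [t]
  have tr : ∀ S n, Sum.inr n ∈ t S ↔ ∃ e, (T S).Tm G S s e ∧ nd e = n := fun S n => by simp [t]
  have dmono : ∀ S S', S ⊆ S' → dom S ⊆ dom S' := by
    rintro S S' h (v | n)
    · rw [dl, dl]; exact fun hv => h hv
    · rw [dr, dr]; exact fun ⟨e, h1, h2⟩ => ⟨e, ⟨h h1.1, h h1.2⟩, h2⟩
  have nest : ∀ S S', Pc S → Pc S' → 2 ≤ S'.card → ∀ v ∈ S', S ⊆ (T S').pt v →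
      dom S ⊂ dom S' ∧ Disjoint (t S') (dom S) := by
    intro S S' hS hS' h2 v hv hsub
    have hp := (htor S' hS' h2).part
    have hss : S ⊂ S' := Finset.ssubset_of_subset_of_ssubset hsub (hp.sub v hv)
    constructor
    · obtain ⟨w, hw1, hw2⟩ := exists_of_ssubset hss
      exact (ssubset_iff_of_subset (dmono _ _ hss.subset)).2
        ⟨Sum.inl w, (dl _ _).2 hw1, fun h => hw2 ((dl _ _).1 h)⟩
    · rw [disjoint_left]
      rintro (w | n) h1 h3
      · exact tl _ _ h1
      · obtain ⟨e, he, rfl⟩ := (tr _ _).1 h1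
        exact glob_not_btw hp hv hsub ((dr' S hS e).1 h3) (glob_tm_btw he)
  obtain ⟨Φ, hΦ1, hΦ2⟩ := nsp (globG G nd) D dom t K (K + 1) (K + 2) (by omega)
    (fun X => by rw [glob_card_cut]; exact even_two_mul _)
    (by
      rintro S hS (v | n) h
      · exact absurd h (tl _ _)
      · obtain ⟨e, he, rfl⟩ := (tr _ _).1 h
        obtain ⟨h1, h2⟩ := (hD S).1 hS
        exact (dr _ _).2 ⟨e, glob_btw_in (htor S h1 h2).part (glob_tm_btw he), rfl⟩)
    (by
      intro S hS S' hS' hne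
      obtain ⟨h1, h2⟩ := (hD S).1 hS
      obtain ⟨h1', h2'⟩ := (hD S').1 hS'
      by_cases hdis : Disjoint S S'
      · right; right
        rw [disjoint_left] at hdis ⊢
        rintro (v | n) a1 a2
        · exact hdis ((dl _ _).1 a1) ((dl _ _).1 a2)
        · obtain ⟨e, he, rfl⟩ := (dr _ _).1 a1
          exact hdis he.1 ((dr' S' h1' e).1 a2).1
      · obtain ⟨v, hv, hv'⟩ := not_disjoint_iff.1 hdis
        rcases hlam S S' h1 h1' v hv hv' with h | h | h
        · exact absurd h hne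
        · exact Or.inr (Or.inl (nest S' S h1' h1 h2 v hv h.2))
        · exact Or.inl (nest S S' h1 h1' h2' v hv' h.2))
    (by
      intro a S hS S' hS' a1 a2
      obtain ⟨h1, h2⟩ := (hD S).1 hS
      obtain ⟨h1', h2'⟩ := (hD S').1 hS'
      have b1 : hd G a.1 ∈ S := (dl _ _).1 a1
      have b2 : hd G a.1 ∈ S' := (in_iff.1 ((dr' S' h1' a.1.1).1 a2)).1
      rcases hlam S S' h1 h1' _ b1 b2 with h | h | h
      · exact Or.inl (h ▸ Subset.refl _)
      · exact Or.inr (dmono _ _ (h.2.trans ((htor S h1 h2).part.sub _ b1).subset))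
      · exact Or.inl (dmono _ _ (h.2.trans ((htor S' h1' h2').part.sub _ b2).subset)))
    (by
      intro S hS
      obtain ⟨h1, -⟩ := (hD S).1 hS
      have : globCut G nd (dom S) = B G S := by
        ext d
        simp only [globCut, mem_filter, mem_univ, true_and, mem_B]
        rw [dl, dr' S h1, in_iff]
        tauto
      rw [glob_card_cut, this]
      have := hdeg S h1
      omega)
    (by
      intro S hS X hX ⟨x1, hx1, hx1'⟩ ⟨x2, hx2, hx2'⟩
      obtain ⟨h1, h2⟩ := (hD S).1 hS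
      have ht := htor S h1 h2
      rw [glob_card_cut]
      by_contra hlt
      have hK : (globCut G nd X).card ≤ K := by omega
      set XV : Finset V := univ.filter fun v => Sum.inl v ∈ X with hXV
      have hXVm : ∀ v, v ∈ XV ↔ Sum.inl v ∈ X := fun v => by simp [hXV]
      have hXS : XV ⊆ S := fun v hv => (dl _ _).1 (hX ((hXVm v).1 hv))
      have hBX : (B G XV).card ≤ K := (glob_B_le G nd X).trans hK
      -- uncut terminal darts of a cell
      have key : ∀ e, (T S).Tm G S s e → ∃ R ⊆ S.image (T S).pt, 4 * K + 1 ≤ R.card ∧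
          ∀ Q ∈ R, ∃ v ∈ Q, v ∈ S ∧ (Sum.inl v ∈ X ↔ Sum.inr (nd e) ∈ X) := by
        intro e he
        have hP : (T S).pt (G.en e false) ∈ S.image (T S).pt \ (T S).Z := he.1.1
        have hsub : (T S).cell ((T S).pt (G.en e false)) ⊆ S.image (T S).pt :=
          ((ht.hubs.cell_sub _ hP).trans (ht.hubs.cl_sub _ hP)).trans sdiff_subset
        have hcard := ht.hubs.cell_card _ hP
        refine ⟨(T S).cell ((T S).pt (G.en e false))
          \ (globCut G nd X).image (fun d => (T S).pt (hd G d)), sdiff_subset.trans hsub, ?_, ?_⟩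
        · have a1 := le_card_sdiff ((globCut G nd X).image (fun d => (T S).pt (hd G d)))
            ((T S).cell ((T S).pt (G.en e false)))
          have a2 : ((globCut G nd X).image (fun d => (T S).pt (hd G d))).card
              ≤ (globCut G nd X).card := card_image_le
          omega
        · intro Q hQ
          obtain ⟨hQ1, hQ2⟩ := mem_sdiff.1 hQ
          obtain ⟨d, d1, d2, d3⟩ := glob_cell_dart ht he Q hQ1
          have d4 : hd G d ∈ S := (in_iff.1 (glob_btw_in ht.part (glob_tm_btw d2))).1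
          have d5 : d ∉ globCut G nd X := fun h => hQ2 (mem_image.2 ⟨d, h, d1⟩)
          simp only [globCut, mem_filter, mem_univ, true_and, not_not] at d5
          rw [hcell S h1 h2 e d.1 he d2 d3] at d5
          exact ⟨hd G d, d1 ▸ ht.part.mem _ d4, d4, d5⟩
      rcases x1 with v | n1
      · exact tl _ _ hx1
      rcases x2 with v | n2
      · exact tl _ _ hx2
      obtain ⟨e1, he1, rfl⟩ := (tr _ _).1 hx1
      obtain ⟨e2, he2, rfl⟩ := (tr _ _).1 hx2
      obtain ⟨R1, hR1, hc1, hv1⟩ := key e1 he1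
      obtain ⟨R2, -, hc2, hv2⟩ := key e2 he2
      have hne : XV ≠ S := by
        obtain ⟨Q, hQ⟩ : R2.Nonempty := card_pos.1 (by omega)
        obtain ⟨v, -, b2, b3⟩ := hv2 Q hQ
        intro h
        exact hx2' (b3.1 ((hXVm v).1 (h ▸ b2)))
      have hsep := ht.sep XV hXS hne hBX
      have : R1 ⊆ (S.image (T S).pt).filter fun P => ¬ Disjoint P XV := by
        intro Q hQ
        obtain ⟨v, b1, -, b3⟩ := hv1 Q hQ
        exact mem_filter.2 ⟨hR1 hQ, not_disjoint_iff.2 ⟨v, b1, (hXVm v).2 (b3.2 hx1')⟩⟩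
      have := card_le_card this
      omega)
  refine ⟨fun j => univ.filter fun d => (d, false) ∈ Φ j ∨ (d, true) ∈ Φ j, fun d => ?_, ?_⟩
  · have h1 := hΦ1 (d, false)
    have h2 := hΦ1 (d, true)
    have h3 : (univ.filter fun j => d ∈ univ.filter fun d => (d, false) ∈ Φ j ∨ (d, true) ∈ Φ j)
        ⊆ (univ.filter fun j => (d, false) ∈ Φ j) ∪ (univ.filter fun j => (d, true) ∈ Φ j) := by
      intro j hj
      simpa using hj
    exact ((card_le_card h3).trans (card_union_le _ _)).trans (add_le_add h1 h2)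
  · intro S h1 h2 j π hπ hsum
    obtain ⟨y, hy1, hy2⟩ := hΦ2 S ((hD S).2 ⟨h1, h2⟩) j (Sum.elim (fun _ => 0) π)
      (by
        rintro (v | n) h
        · simp at h
        · exact (tr _ _).2 (hπ n h))
      (by rw [Fintype.sum_sum_type]; simpa using hsum)
    refine ⟨fun d => y (d, false) + y (d, true), fun d hd0 => ?_, fun v => ?_, fun n => ?_⟩
    · have : y (d, false) ≠ 0 ∨ y (d, true) ≠ 0 := by
        by_contra hc
        push Not at hc
        exact hd0 (by simp [hc.1, hc.2])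
      rcases this with h | h
      · obtain ⟨a1, a2⟩ := hy1 _ h
        exact ⟨by simp [a1], (dr' S h1 d.1).1 a2.2⟩
      · obtain ⟨a1, a2⟩ := hy1 _ h
        exact ⟨by simp [a1], (dr' S h1 d.1).1 a2.2⟩
    · rw [← glob_bd_inl G nd, hy2]; rfl
    · rw [← glob_bd_inr G nd, hy2]; rfl

theorem exists_glob (G : MG V E) (K q W z k : ℕ) (hq : 5 * K + 1 ≤ q)
    (hT : ∀ S, Conn G S → (B G S).card ≤ K → 2 ≤ S.card → ∃ T : TD V k, IsTor G K q W z S T)
    (hk : 0 < k) :
    ∃ Pc T root nd Φ, IsGlob (k := k) G K q W z Pc T root nd Φ := by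
  classical
  have hT' : ∀ S, ∃ T : TD V k,
      Conn G S → (B G S).card ≤ K → 2 ≤ S.card → IsTor G K q W z S T := by
    intro S
    by_cases h : Conn G S ∧ (B G S).card ≤ K ∧ 2 ≤ S.card
    · obtain ⟨T, hT⟩ := hT S h.1 h.2.1 h.2.2
      exact ⟨T, fun _ _ _ => hT⟩
    · exact ⟨⟨fun _ => ∅, ∅, fun _ => ∅, fun _ => ∅, fun _ => ⟨0, hk⟩⟩,
        fun a b c => absurd ⟨a, b, c⟩ h⟩
  choose T hT' using hT'
  obtain ⟨Pc, root, r1, r2, r3, r4, hP, hch, hlam⟩ := glob_pieces G K (fun S => (T S).pt)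
    (fun S a b c => (hT' S a b c).part)
  have htor : ∀ S, Pc S → 2 ≤ S.card → IsTor G K q W z S (T S) := fun S h1 h2 =>
    hT' S (hP S h1).2.1 (hP S h1).2.2 h2
  have uniq : ∀ S S', Pc S → 2 ≤ S.card → Pc S' → 2 ≤ S'.card → ∀ e,
      Btw (quo G (T S).pt) (S.image (T S).pt) e → Btw (quo G (T S').pt) (S'.image (T S').pt) e →
      S = S' := by
    intro S S' h1 h2 h1' h2' e b b'
    have i1 := glob_btw_in (htor S h1 h2).part b
    have i2 := glob_btw_in (htor S' h1' h2').part b'
    rcases hlam S S' h1 h1' _ i1.1 i2.1 with h | h | h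
    · exact h
    · exact absurd b (glob_not_btw (htor S h1 h2).part i1.1 h.2 i2)
    · exact absurd b' (glob_not_btw (htor S' h1' h2').part i2.1 h.2 i1)
  have hnd : ∀ (s : Fin k) (e : E), ∃ n : E ⊕ (Finset V × Finset (Finset V)),
      (∃ S, Pc S ∧ 2 ≤ S.card ∧ (T S).Tm G S s e ∧
        n = Sum.inr (S, (T S).cell ((T S).pt (G.en e false)))) ∨
      ((∀ S, Pc S → 2 ≤ S.card → ¬ (T S).Tm G S s e) ∧ n = Sum.inl e) := by
    intro s e
    by_cases h : ∃ S, Pc S ∧ 2 ≤ S.card ∧ (T S).Tm G S s e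
    · obtain ⟨S, a, b, c⟩ := h
      exact ⟨_, Or.inl ⟨S, a, b, c, rfl⟩⟩
    · exact ⟨_, Or.inr ⟨fun S a b c => h ⟨S, a, b, c⟩, rfl⟩⟩
  choose nd hnd using hnd
  have nd_tm : ∀ S, Pc S → 2 ≤ S.card → ∀ s e, (T S).Tm G S s e →
      nd s e = Sum.inr (S, (T S).cell ((T S).pt (G.en e false))) := by
    intro S h1 h2 s e he
    rcases hnd s e with ⟨S', a, b, c, h⟩ | ⟨h, -⟩
    · have := uniq S S' h1 h2 a b e (glob_tm_btw he) (glob_tm_btw c)
      subst this
      exact h
    · exact absurd he (h S h1 h2)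
  have nd_inr : ∀ S s e c, nd s e = Sum.inr (S, c) → (T S).Tm G S s e := by
    intro S s e c he
    rcases hnd s e with ⟨S', -, -, c', h⟩ | ⟨-, h⟩
    · rw [h] at he
      have : S' = S := (Prod.mk.inj (Sum.inr.inj he)).1
      subst this
      exact c'
    · rw [h] at he; cases he
  have nd_inl : ∀ s e f, nd s e = Sum.inl f → e = f := by
    intro s e f he
    rcases hnd s e with ⟨S', -, -, -, h⟩ | ⟨-, h⟩
    · rw [h] at he; cases he
    · rw [h] at he; exact Sum.inl.inj he
  have nd_in : ∀ S, Pc S → ∀ s e f, In G S e → nd s f = nd s e → In G S f := by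
    intro S h1 s e f he hf
    rcases hnd s e with ⟨S', a, b, c, h⟩ | ⟨-, h⟩
    · rw [h] at hf
      have hp := (htor S' a b).part
      have i1 := glob_btw_in hp (glob_tm_btw c)
      have i2 := glob_btw_in hp (glob_tm_btw (nd_inr S' s f _ hf))
      rcases hlam S S' h1 a _ he.1 i1.1 with h | h | h
      · exact h ▸ i2
      · have hs := h.2.trans ((htor S h1 h.1).part.sub _ he.1).subset
        exact ⟨hs i2.1, hs i2.2⟩
      · exact absurd (glob_tm_btw c) (glob_not_btw hp i1.1 h.2 he)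
    · rw [h] at hf
      rw [nd_inl s f e hf]; exact he
  have hov := fun s : Fin k => glob_overlay G K q W z k hq Pc T s (nd s)
    (fun S h => (hP S h).2.2) htor hlam (fun S h e f => nd_in S h s e f)
    (fun S h1 h2 e f he hf hc => by rw [nd_tm S h1 h2 s e he, nd_tm S h1 h2 s f hf, hc])
  choose Φ hΦ1 hΦ2 using hov
  refine ⟨Pc, T, root, nd, Φ, r1, r2, r3, r4, fun S h => (hP S h).2.2, fun S h => (hP S h).1,
    htor, hch, nd_tm, fun S _ _ s e c => nd_inr S s e c, ?_, nd_inl, nd_in, hΦ1,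
    fun S h1 h2 s => hΦ2 s S h1 h2⟩
  intro S h1 h2 s e hb hn
  rcases hnd s e with ⟨S', a, b, c, -⟩ | ⟨-, h⟩
  · have := uniq S S' h1 h2 a b e hb (glob_tm_btw c)
    subst this
    exact absurd c hn
  · exact h

end Pool.Agent.ATJ
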