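import Pool.Agent.Lib.ATJ.Defs
import Pool.Agent.Lib.Flows.Range

/-!
Hidden measures: pairing of boundary darts, greedy couplings and the update of the measure.
-/

set_option autoImplicit false
set_option linter.unusedSectionVars false

namespace Pool.Agent.ATJ

open Finset Pool.Agent.Flows

variable {V E : Type} [Fintype V] [DecidableEq V] [Fintype E] [DecidableEq E]

lemma hid_B_inj {G : MG V E} {P : Finset V} {d d' : E × Bool} (hd₁ : d ∈ B G P) (hd₂ : d' ∈ B G P)
    (h : d.1 = d'.1) : d = d' := by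
  obtain ⟨e, b⟩ := d
  obtain ⟨e', b'⟩ := d'
  obtain rfl : e = e' := h
  rw [mem_B] at hd₁ hd₂
  cases b <;> cases b' <;> simp_all

/-- Another boundary dart that is joined to `w` inside the support of `D`. -/
lemma hid_partner (G : MG V E) (P : Finset V) (D : E → ZMod 2) (hD : EvenOn G P D)
    {w : E × Bool} (hw : w ∈ B G P) (hwD : D w.1 ≠ 0) :
    ∃ w' ∈ B G P, D w'.1 ≠ 0 ∧ w' ≠ w ∧ ∃ D₁ : E → ZMod 2, (∀ e, D₁ e ≠ 0 → D e ≠ 0) ∧
      EvenOn G P D₁ ∧ ∀ d ∈ B G P, D₁ d.1 = if d = w ∨ d = w' then 1 else 0 := by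
  classical
  have key : ∃ w' ∈ B G P, D w'.1 ≠ 0 ∧ w' ≠ w ∧ ∃ y : E → ZMod 2,
      (∀ e, y e ≠ 0 → D e ≠ 0 ∧ In G P e) ∧
      ∀ v, G.bd y v = (if hd G w = v then 1 else 0) + (if hd G w' = v then 1 else 0) := by
    by_contra hcon
    have h1 : ∀ w' ∈ B G P, D w'.1 ≠ 0 → w' ≠ w → ∃ X : Finset V, hd G w ∈ X ∧ hd G w' ∉ X ∧
        ∀ d : E × Bool, (D d.1 ≠ 0 ∧ In G P d.1) → hd G d ∈ X → hd G (opp d) ∈ X := by
      intro w' a b c
      exact (path_or_cut G (fun e => D e ≠ 0 ∧ In G P e) (hd G w) (hd G w')).resolve_right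
        fun h => hcon ⟨w', a, b, c, h⟩
    choose! X hX using h1
    let Z : Finset V := P.filter fun v => ∀ w' ∈ B G P, D w'.1 ≠ 0 → w' ≠ w → v ∈ X w'
    have hZ := hD.sum_B (P := Z) (filter_subset _ _)
    rw [sum_eq_single w] at hZ
    · exact hwD hZ
    · intro d hdZ hne
      by_contra hd0
      rw [mem_B] at hdZ
      obtain ⟨h1, h2⟩ := mem_filter.1 hdZ.1
      by_cases hP : hd G (opp d) ∈ P
      · exact hdZ.2 (mem_filter.2 ⟨hP, fun w' a b c =>
          (hX w' a b c).2.2 d ⟨hd0, in_iff.2 ⟨h1, hP⟩⟩ (h2 w' a b c)⟩)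
      · have hB : d ∈ B G P := mem_B.2 ⟨h1, hP⟩
        exact (hX d hB hd0 hne).2.1 (h2 d hB hd0 hne)
    · intro hn
      exact absurd (mem_B.2 ⟨mem_filter.2 ⟨(mem_B.1 hw).1, fun w' a b c => (hX w' a b c).1⟩,
        fun h => (mem_B.1 hw).2 (mem_filter.1 h).1⟩) hn
  obtain ⟨w', hw', hw'D, hne, y, hy, hb⟩ := key
  refine ⟨w', hw', hw'D, hne, y + Pi.single w.1 1 + Pi.single w'.1 1, fun e he => ?_,
    fun v hv => ?_, fun d hd' => ?_⟩
  · by_cases h1 : e = w.1
    · rwa [h1]
    by_cases h2 : e = w'.1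
    · rwa [h2]
    exact (hy e (by simpa [h1, h2] using he)).1
  · have h1 : hd G (opp w) ≠ v := fun h => (mem_B.1 hw).2 (h ▸ hv)
    have h2 : hd G (opp w') ≠ v := fun h => (mem_B.1 hw').2 (h ▸ hv)
    rw [bd_add, bd_add, hb, bd_single, bd_single, if_neg h1, if_neg h2]
    split_ifs <;> decide
  · have h0 : y d.1 = 0 := by
      by_contra h
      exact (mem_B.1 hd').2 (in_iff.1 (hy _ h).2).2
    have h1 : d.1 = w.1 ↔ d = w := ⟨hid_B_inj hd' hw, fun h => by rw [h]⟩
    have h2 : d.1 = w'.1 ↔ d = w' := ⟨hid_B_inj hd' hw', fun h => by rw [h]⟩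
    simp only [Pi.add_apply, h0, Pi.single_apply, h1, h2, zero_add]
    by_cases a : d = w
    · have b : d ≠ w' := fun h => hne (h.symm.trans a)
      simp [a, hne.symm]
    · by_cases b : d = w' <;> simp [a, b, hne]

/-- The pairing lemma. -/
lemma hid_pair (G : MG V E) (P : Finset V) (D : E → ZMod 2) (hD : EvenOn G P D) :
    ∃ ρ : E × Bool → E × Bool, Function.Involutive ρ ∧
      (∀ d, ρ d = d ↔ ¬ (d ∈ B G P ∧ D d.1 ≠ 0)) ∧
      ∀ t : E × Bool → ZMod 2, (∀ d, t (ρ d) = t d) → ∃ D' : E → ZMod 2,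
        (∀ e, D' e ≠ 0 → D e ≠ 0) ∧ EvenOn G P D' ∧ ∀ d ∈ B G P, D' d.1 = t d * D d.1 := by
  induction hn : ((B G P).filter fun d => D d.1 ≠ 0).card using Nat.strong_induction_on
    generalizing D with
  | _ n ih =>
  by_cases hW : ∃ w ∈ B G P, D w.1 ≠ 0
  · obtain ⟨w, hw, hwD⟩ := hW
    obtain ⟨w', hw', hw'D, hne, D₁, h1, h2, h3⟩ := hid_partner G P D hD hw hwD
    have hv : ∀ d ∈ B G P, ((D + D₁) d.1 ≠ 0 ↔ D d.1 ≠ 0 ∧ d ≠ w ∧ d ≠ w') := by
      intro d hd'
      rw [Pi.add_apply, h3 d hd']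
      by_cases a : d = w
      · subst a
        simp [z2ne.1 hwD, z2a]
      by_cases b : d = w'
      · subst b
        simp [z2ne.1 hw'D, z2a]
      simp [a, b]
    have hlt : ((B G P).filter fun d => (D + D₁) d.1 ≠ 0).card < n := by
      rw [← hn]
      refine card_lt_card ⟨fun d hd' => ?_, fun h => ?_⟩
      · rw [mem_filter] at hd' ⊢
        exact ⟨hd'.1, ((hv d hd'.1).1 hd'.2).1⟩
      · have := mem_filter.1 (h (mem_filter.2 ⟨hw, hwD⟩))
        exact ((hv w hw).1 this.2).2.1 rfl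
    obtain ⟨ρ, r1, r2, r3⟩ := ih _ hlt (D + D₁)
      (fun v hv => by rw [bd_add, hD v hv, h2 v hv, add_zero]) rfl
    have fw : ρ w = w := (r2 w).2 fun h => ((hv w hw).1 h.2).2.1 rfl
    have fw' : ρ w' = w' := (r2 w').2 fun h => ((hv w' hw').1 h.2).2.2 rfl
    have hoff : ∀ d, d ≠ w → d ≠ w' → Equiv.swap w w' (ρ d) = ρ d := fun d a b =>
      Equiv.swap_apply_of_ne_of_ne (fun h => a (r1.injective (h.trans fw.symm)))
        (fun h => b (r1.injective (h.trans fw'.symm)))
    refine ⟨fun d => Equiv.swap w w' (ρ d), fun d => ?_, fun d => ?_, fun t ht => ?_⟩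
    · by_cases a : d = w
      · simp [a, fw, fw']
      by_cases b : d = w'
      · simp [b, fw, fw']
      simp only [hoff d a b, r1 d]
      exact Equiv.swap_apply_of_ne_of_ne a b
    · by_cases a : d = w
      · simp [a, fw, hne, hw, hwD]
      by_cases b : d = w'
      · simp [b, fw', hne.symm, hw', hw'D]
      simp only [hoff d a b, r2 d]
      exact not_congr (and_congr_right fun hd' => by rw [hv d hd']; simp [a, b])
    · have tw : t w' = t w := by simpa [fw] using ht w
      obtain ⟨D', d1, d2, d3⟩ := r3 t fun d => by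
        by_cases a : d = w
        · rw [a, fw]
        by_cases b : d = w'
        · rw [b, fw']
        have := ht d
        simp only [hoff d a b] at this
        exact this
      rcases z2c (t w) with h0 | h0
      · refine ⟨D', fun e he => ?_, d2, fun d hd' => ?_⟩
        · have := d1 e he
          by_contra h
          have h' : D₁ e = 0 := by_contra fun h' => h1 e h' h
          exact this (by simp [h, h'])
        · rw [d3 d hd', Pi.add_apply, h3 d hd']
          split_ifs with a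
          · rcases a with rfl | rfl <;> simp [h0, tw]
          · rw [add_zero]
      · refine ⟨D' + D₁, fun e he => ?_,
          fun v hv => by rw [bd_add, d2 v hv, h2 v hv, add_zero], fun d hd' => ?_⟩
        · by_contra h
          have h' : D₁ e = 0 := by_contra fun h' => h1 e h' h
          have h'' : D' e = 0 := by_contra fun h'' => d1 e h'' (by simp [h, h'])
          exact he (by simp [h', h''])
        · rw [Pi.add_apply, d3 d hd', Pi.add_apply, h3 d hd']
          split_ifs with a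
          · rcases a with rfl | rfl <;> simp [h0, tw, add_assoc, z2a]
          · simp
  · refine ⟨id, fun d => rfl, fun d => ?_, fun t _ => ⟨0, by simp, fun v _ => by simp,
      fun d hd' => ?_⟩⟩
    · simpa using fun a => by_contra fun b => hW ⟨d, a, b⟩
    · have : D d.1 = 0 := by_contra fun b => hW ⟨d, hd', b⟩
      simp [this]

/-- Couplings for the members of `good` whose marginals fit below `h`. -/
def hid_Ok {O Ω S Q : Type} [Fintype O] [Fintype Ω] (s : Ω → S) (pat : Ω → Ω → Q) (h : Ω → ℝ)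
    (a0 a1 : O → S) (good : Finset O) (ρ : O → Q) (π : O → Ω → Ω → ℝ) : Prop :=
  (∀ p ω ω', 0 ≤ π p ω ω') ∧ (∀ p ∈ good, ∑ ω, ∑ ω', π p ω ω' = 1) ∧
    (∀ p ω ω', π p ω ω' ≠ 0 → p ∈ good ∧ s ω = a0 p ∧ s ω' = a1 p ∧ pat ω ω' = ρ p) ∧
    ∀ ω, ∑ p, (∑ ω', π p ω ω' + ∑ ω', π p ω' ω) ≤ h ω

/-- One more coupling out of the remaining mass. -/
lemma hid_one {Ω S Q : Type} [Fintype Ω] [DecidableEq S] [DecidableEq Q] (s : Ω → S)
    (pat : Ω → Ω → Q) (PP : Finset Q) (hP : ∀ ω ω', pat ω ω' ∈ PP) (R : ℝ) (hR : (PP.card : ℝ) ≤ R)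
    (hR0 : 0 < R) (r : Ω → ℝ) (hr : ∀ ω, 0 ≤ r ω) (a b : S)
    (ha : 2 * R ≤ ∑ ω, if s ω = a then r ω else 0) (hb : 2 * R ≤ ∑ ω, if s ω = b then r ω else 0) :
    ∃ (x : Q) (π : Ω → Ω → ℝ), (∀ ω ω', 0 ≤ π ω ω') ∧ ∑ ω, ∑ ω', π ω ω' = 1 ∧
      (∀ ω ω', π ω ω' ≠ 0 → s ω = a ∧ s ω' = b ∧ pat ω ω' = x) ∧
      ∀ ω, ∑ ω', π ω ω' + ∑ ω', π ω' ω ≤ r ω := by
  set f : Ω → ℝ := fun ω => if s ω = a then r ω else 0 with hf
  set g : Ω → ℝ := fun ω => if s ω = b then r ω else 0 with hg
  have f0 : ∀ ω, 0 ≤ f ω := fun ω => by simp only [hf]; split_ifs <;> simp [hr]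
  have g0 : ∀ ω, 0 ≤ g ω := fun ω => by simp only [hg]; split_ifs <;> simp [hr]
  have f1 : ∀ ω, f ω ≤ r ω := fun ω => by simp only [hf]; split_ifs <;> simp [hr]
  have g1 : ∀ ω, g ω ≤ r ω := fun ω => by simp only [hg]; split_ifs <;> simp [hr]
  set A := ∑ ω, f ω
  set A' := ∑ ω, g ω
  let m : Q → ℝ := fun x => ∑ ω, ∑ ω', if pat ω ω' = x then f ω * g ω' else 0
  have hm : ∑ x ∈ PP, m x = A * A' := by
    rw [sum_mul_sum, sum_comm]
    refine sum_congr rfl fun ω _ => ?_
    rw [sum_comm]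
    refine sum_congr rfl fun ω' _ => ?_
    rw [sum_ite_eq, if_pos (hP ω ω')]
  have hA : 0 < A * A' := mul_pos (by linarith) (by linarith)
  obtain ⟨x, -, hx⟩ : ∃ x ∈ PP, A * A' / R ≤ m x := by
    by_contra hcon
    push Not at hcon
    have hne : PP.Nonempty := by
      rw [nonempty_iff_ne_empty]
      rintro rfl
      simp only [sum_empty] at hm
      linarith
    have h1 := sum_lt_sum_of_nonempty hne hcon
    rw [hm, sum_const, nsmul_eq_mul] at h1
    have h2 := mul_le_mul_of_nonneg_right hR (div_pos hA hR0).le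
    rw [mul_div_cancel₀ _ hR0.ne'] at h2
    linarith
  have hx0 : 0 < m x := (div_pos hA hR0).trans_le hx
  rw [div_le_iff₀ hR0] at hx
  have hle : ∀ ω ω', (if pat ω ω' = x then f ω * g ω' else 0) ≤ f ω * g ω' := fun ω ω' => by
    split_ifs
    · exact le_rfl
    · exact mul_nonneg (f0 ω) (g0 ω')
  refine ⟨x, fun ω ω' => (if pat ω ω' = x then f ω * g ω' else 0) / m x, fun ω ω' => ?_, ?_,
    fun ω ω' h => ?_, fun ω => ?_⟩
  · refine div_nonneg ?_ hx0.le
    split_ifs
    · exact mul_nonneg (f0 ω) (g0 ω')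
    · exact le_rfl
  · simp only [← sum_div]
    exact div_self hx0.ne'
  · refine ⟨by_contra fun c => h ?_, by_contra fun c => h ?_, by_contra fun c => h ?_⟩ <;>
      simp [hf, hg, c]
  · rw [← sum_div, ← sum_div, ← add_div, div_le_iff₀ hx0]
    have e1 := sum_le_sum (s := univ) fun ω' _ => hle ω ω'
    have e2 := sum_le_sum (s := univ) fun ω' _ => hle ω' ω
    rw [← mul_sum] at e1
    rw [← sum_mul] at e2
    have k1 : 2 * A' ≤ m x := by
      refine le_of_mul_le_mul_right ?_ hR0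
      nlinarith [mul_le_mul_of_nonneg_right ha (show 0 ≤ A' by linarith)]
    have k2 : 2 * A ≤ m x := by
      refine le_of_mul_le_mul_right ?_ hR0
      nlinarith [mul_le_mul_of_nonneg_right hb (show 0 ≤ A by linarith)]
    have k3 := mul_le_mul_of_nonneg_right (f1 ω) (show 0 ≤ A' by linarith)
    have k4 := mul_le_mul_of_nonneg_left (g1 ω) (show 0 ≤ A by linarith)
    have k5 := mul_le_mul_of_nonneg_left k1 (hr ω)
    have k6 := mul_le_mul_of_nonneg_left k2 (hr ω)
    change _ ≤ f ω * A' at e1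
    change _ ≤ A * g ω at e2
    linarith

/-- Greedy couplings. -/
lemma hid_coup {O Ω S Q : Type} [Fintype O] [DecidableEq O] [Fintype Ω] [Fintype S]
    [DecidableEq S] [DecidableEq Q] (q0 : Q) (s : Ω → S) (pat : Ω → Ω → Q) (PP : Finset Q)
    (hP : ∀ ω ω', pat ω ω' ∈ PP) (R : ℝ) (hR : (PP.card : ℝ) ≤ R) (hR0 : 0 < R) (h : Ω → ℝ)
    (h0 : ∀ ω, 0 ≤ h ω) (a0 a1 : O → S) (u : ℝ) (hu0 : 0 ≤ u)
    (hu : ∀ σ, ∑ p, ((if a0 p = σ then 1 else 0) + (if a1 p = σ then 1 else 0) : ℝ) ≤
      (∑ ω, if s ω = σ then h ω else 0) + u) :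
    ∃ good ρ π, hid_Ok s pat h a0 a1 good ρ π ∧
      ((goodᶜ).card : ℝ) ≤ Fintype.card S * (u + 2 * R) := by
  classical
  obtain ⟨good, hg, hmax⟩ := exists_max_image
    (univ.filter fun good : Finset O => ∃ ρ π, hid_Ok s pat h a0 a1 good ρ π) card
    ⟨∅, mem_filter.2 ⟨mem_univ _, fun _ => q0, fun _ _ _ => 0, by simp [hid_Ok, h0]⟩⟩
  obtain ⟨ρ, π, hok⟩ := (mem_filter.1 hg).2
  refine ⟨good, ρ, π, hok, ?_⟩
  obtain ⟨o1, o2, o3, o4⟩ := hok
  let r : Ω → ℝ := fun ω => h ω - ∑ p, (∑ ω', π p ω ω' + ∑ ω', π p ω' ω)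
  let rem : S → ℝ := fun σ => ∑ ω, if s ω = σ then r ω else 0
  have hbad : ∀ p ∉ good, rem (a0 p) < 2 * R ∨ rem (a1 p) < 2 * R := by
    intro p hp
    by_contra hcon
    push Not at hcon
    obtain ⟨x, π', p1, p2, p3, p4⟩ := hid_one s pat PP hP R hR hR0 r
      (fun ω => sub_nonneg.2 (o4 ω)) _ _ hcon.1 hcon.2
    have hz : ∀ ω ω', π p ω ω' = 0 := fun ω ω' => by_contra fun c => hp (o3 p ω ω' c).1
    have := hmax (insert p good) (mem_filter.2 ⟨mem_univ _, Function.update ρ p x,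
      Function.update π p π', fun p' ω ω' => ?_, fun p' hp' => ?_, fun p' ω ω' c => ?_,
      fun ω => ?_⟩)
    · rw [card_insert_of_notMem hp] at this
      omega
    · by_cases e : p' = p
      · subst e
        simpa using p1 ω ω'
      · simpa [e] using o1 p' ω ω'
    · by_cases e : p' = p
      · subst e
        simpa using p2
      · simpa [e] using o2 p' ((mem_insert.1 hp').resolve_left e)
    · by_cases e : p' = p
      · subst e
        simpa using p3 ω ω' (by simpa using c)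
      · have := o3 p' ω ω' (by simpa [e] using c)
        simpa [e] using this
    · have e1 := p4 ω
      simp only [r] at e1
      rw [← add_sum_erase _ _ (mem_univ p)] at e1 ⊢
      rw [sum_congr rfl (g := fun p' => ∑ ω', π p' ω ω' + ∑ ω', π p' ω' ω) fun p' hp' => by
        rw [Function.update_of_ne (ne_of_mem_erase hp')]]
      simp only [hz, sum_const_zero, Function.update_self] at e1 ⊢
      linarith
  have hrem : ∀ σ, rem σ = (∑ ω, if s ω = σ then h ω else 0) -
      ∑ p ∈ good, ((if a0 p = σ then 1 else 0) + (if a1 p = σ then 1 else 0) : ℝ) := by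
    intro σ
    have e1 : ∀ p, ∑ ω, (if s ω = σ then (∑ ω', π p ω ω' + ∑ ω', π p ω' ω) else 0) =
        if p ∈ good then ((if a0 p = σ then 1 else 0) + (if a1 p = σ then 1 else 0) : ℝ)
        else 0 := by
      intro p
      by_cases hp : p ∈ good
      · have b0 : ∀ ω, (if s ω = σ then ∑ ω', π p ω ω' else 0) =
            (if a0 p = σ then 1 else 0) * ∑ ω', π p ω ω' := by
          intro ω
          by_cases c : s ω = a0 p
          · rw [c]; simp
          · rw [sum_eq_zero fun ω' _ => by_contra fun c' => c (o3 p ω ω' c').2.1]; simp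
        have b1 : ∀ ω, (if s ω = σ then ∑ ω', π p ω' ω else 0) =
            (if a1 p = σ then 1 else 0) * ∑ ω', π p ω' ω := by
          intro ω
          by_cases c : s ω = a1 p
          · rw [c]; simp
          · rw [sum_eq_zero fun ω' _ => by_contra fun c' => c (o3 p ω' ω c').2.2.1]; simp
        rw [if_pos hp]
        simp only [ite_add_zero, b0, b1, sum_add_distrib, ← mul_sum]
        rw [sum_comm (f := fun ω ω' => π p ω' ω), o2 p hp, mul_one, mul_one]
      · have hz : ∀ ω ω', π p ω ω' = 0 := fun ω ω' => by_contra fun c => hp (o3 p ω ω' c).1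
        simp [hz, hp]
    rw [← sum_ite_mem_eq good, ← sum_congr rfl fun p _ => e1 p, sum_comm, ← sum_sub_distrib]
    refine sum_congr rfl fun ω _ => ?_
    split_ifs <;> simp [r]
  calc ((goodᶜ).card : ℝ) = ∑ p ∈ goodᶜ, (1 : ℝ) := by simp
    _ ≤ ∑ p ∈ goodᶜ, ∑ σ ∈ univ.filter (fun σ => rem σ < 2 * R),
        ((if a0 p = σ then 1 else 0) + (if a1 p = σ then 1 else 0) : ℝ) := by
      refine sum_le_sum fun p hp => ?_
      rw [sum_add_distrib, sum_ite_eq, sum_ite_eq]
      rcases hbad p (mem_compl.1 hp) with c | c <;> simp only [mem_filter, mem_univ, true_and, c,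
        if_true] <;> split_ifs <;> norm_num
    _ ≤ ∑ σ ∈ univ.filter (fun σ => rem σ < 2 * R), (u + 2 * R) := by
      rw [sum_comm]
      refine sum_le_sum fun σ hσ => ?_
      have e1 := hu σ
      have e2 := hrem σ
      have e3 := (mem_filter.1 hσ).2
      rw [← sum_add_sum_compl good] at e1
      linarith
    _ ≤ Fintype.card S * (u + 2 * R) := by
      rw [sum_const, nsmul_eq_mul]
      exact mul_le_mul_of_nonneg_right (by exact_mod_cast card_le_univ _) (by linarith)

/-- Fourier inversion for the indicator of agreement on `C`. -/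
lemma hid_ind {X : Type} [DecidableEq X] (C : Finset X) (β a : X → ZMod 2) :
    ∑ l ∈ C.powerset, chi l β * chi l a = 2 ^ C.card * if ∀ d ∈ C, β d = a d then 1 else 0 := by
  simp only [← chi_add]
  simp only [chi, sg_sum]
  rw [← prod_one_add]
  split_ifs with c
  · rw [prod_congr rfl (g := fun _ => (2 : ℝ)) fun d hd' => by
      rw [Pi.add_apply, c d hd', z2a, sg_zero]; norm_num]
    simp
  · push Not at c
    obtain ⟨d, hd', c⟩ := c
    rw [prod_eq_zero hd' (by rw [Pi.add_apply, z2ne.1 fun h => c (z2eq.1 h), sg_one]; norm_num),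
      mul_zero]

lemma hid_sg_card (n : ℕ) : sg (n : ZMod 2) = if Even n then 1 else -1 := by
  simp only [sg, ZMod.natCast_eq_zero_iff_even]

lemma hid_bal_even {X Y : Type} [Fintype Y] [DecidableEq Y] {l : Finset X} {κ : X → Y}
    (h : Bal l κ) : Even l.card := by
  rw [card_eq_sum_card_fiberwise (f := κ) (t := univ) fun _ _ => mem_coe.2 (mem_univ _)]
  exact even_sum _ fun y _ => h y

lemma hid_bal_of_const {X Y : Type} [DecidableEq Y] {l : Finset X} {κ : X → Y}
    (hc : ∀ d ∈ l, ∀ d' ∈ l, κ d = κ d') (h : Even l.card) : Bal l κ := by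
  intro y
  by_cases c : ∃ d ∈ l, κ d = y
  · obtain ⟨d, hd', c⟩ := c
    rwa [filter_true_of_mem fun d' h' => (hc d' h' d hd').trans c]
  · rw [filter_false_of_mem fun d' h' e => c ⟨d', h', e⟩]
    simp

lemma hid_avg {X Y : Type} [Fintype Y] [DecidableEq Y] (l : Finset X) (κ : X → Y) :
    ∑ s : Y → ZMod 2, chi l (fun d => s (κ d)) =
      Fintype.card (Y → ZMod 2) * if Bal l κ then 1 else 0 := by
  have key : ∀ s : Y → ZMod 2, ∑ d ∈ l, s (κ d) =
      ∑ y, ((l.filter fun d => κ d = y).card : ZMod 2) * s y := by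
    intro s
    rw [← sum_fiberwise_of_maps_to (g := κ) (t := univ) fun _ _ => mem_univ _]
    refine sum_congr rfl fun y _ => ?_
    rw [sum_congr rfl (g := fun _ => s y) fun d hd' => by rw [(mem_filter.1 hd').2]]
    simp
  split_ifs with c
  · rw [sum_congr rfl (g := fun _ => (1 : ℝ)) fun s _ => by
      rw [chi, key, sum_eq_zero fun y _ => by
        rw [ZMod.natCast_eq_zero_iff_even.2 (c y), zero_mul], sg_zero]]
    simp
  · obtain ⟨y, hy⟩ := not_forall.1 c
    have e1 : chi l (fun d => (Pi.single y 1 : Y → ZMod 2) (κ d)) = -1 := by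
      rw [chi, key, sum_eq_single y (fun y' _ h => by simp [h]) (by simp)]
      simp [hid_sg_card, hy]
    have e2 := Equiv.sum_comp (Equiv.addRight (Pi.single y 1 : Y → ZMod 2))
      fun s : Y → ZMod 2 => chi l (fun d => s (κ d))
    have e3 : ∀ s : Y → ZMod 2, chi l (fun d => (Equiv.addRight (Pi.single y 1 : Y → ZMod 2) s)
        (κ d)) = -chi l (fun d => s (κ d)) := fun s => by
      have := chi_add l (fun d => s (κ d)) (fun d => (Pi.single y 1 : Y → ZMod 2) (κ d))
      rw [e1, mul_neg_one] at this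
      exact this
    simp only [e3, sum_neg_distrib] at e2
    linarith

/-- The update of the measure, described through test functions. -/
lemma hid_update {O Ω T : Type} [Fintype O] [Fintype Ω] [DecidableEq Ω] [Fintype T] [Nonempty T]
    (h : Ω → ℝ) (π : O → Ω → Ω → ℝ) (o1 : ∀ p ω ω', 0 ≤ π p ω ω')
    (o4 : ∀ ω, ∑ p, (∑ ω', π p ω ω' + ∑ ω', π p ω' ω) ≤ h ω) (f f' : O → Ω → Ω → T → Ω)
    (Ev : Ω → Prop) (hev : ∀ ω, h ω ≠ 0 → Ev ω)
    (hf : ∀ p ω ω' t, π p ω ω' ≠ 0 → Ev (f p ω ω' t) ∧ Ev (f' p ω ω' t)) :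
    ∃ h' : Ω → ℝ, (∀ ω, 0 ≤ h' ω) ∧ (∀ ω, h' ω ≠ 0 → Ev ω) ∧ ∀ g : Ω → ℝ,
      ∑ w, h' w * g w = (∑ w, h w * g w) / 2 + ∑ p, ∑ ω, ∑ ω', π p ω ω' *
        ((∑ t, (g (f p ω ω' t) + g (f' p ω ω' t))) / Fintype.card T - (g ω + g ω')) / 2 := by
  have hT : (0 : ℝ) < Fintype.card T := by exact_mod_cast Fintype.card_pos
  have hU : ∀ ω, 0 ≤ ∑ p, (∑ ω', π p ω ω' + ∑ ω', π p ω' ω) := fun ω => sum_nonneg fun p _ =>
    add_nonneg (sum_nonneg fun _ _ => o1 _ _ _) (sum_nonneg fun _ _ => o1 _ _ _)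
  refine ⟨fun w => (h w - ∑ p, (∑ ω', π p w ω' + ∑ ω', π p ω' w)) / 2 +
    ∑ p, ∑ ω, ∑ ω', π p ω ω' * ((∑ t, ((if f p ω ω' t = w then 1 else 0) +
      (if f' p ω ω' t = w then 1 else 0) : ℝ)) / Fintype.card T) / 2, fun w => ?_,
      fun w hw => ?_, fun g => ?_⟩
  · refine add_nonneg (by linarith [o4 w]) (sum_nonneg fun p _ => sum_nonneg fun ω _ =>
      sum_nonneg fun ω' _ => div_nonneg (mul_nonneg (o1 _ _ _) (div_nonneg
        (sum_nonneg fun t _ => ?_) hT.le)) zero_le_two)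
    split_ifs <;> norm_num
  · by_contra c
    have h1 : h w = 0 := by_contra fun h1 => c (hev w h1)
    have h2 := le_antisymm ((o4 w).trans h1.le) (hU w)
    refine hw ?_
    beta_reduce
    rw [h1, h2, sum_eq_zero fun p _ => sum_eq_zero fun ω _ => sum_eq_zero fun ω' _ => ?_]
    · simp
    · by_cases c' : π p ω ω' = 0
      · simp [c']
      · rw [sum_eq_zero fun t _ => ?_]
        · simp
        · rw [if_neg fun e : f p ω ω' t = w => c (e ▸ (hf p ω ω' t c').1),
            if_neg fun e : f' p ω ω' t = w => c (e ▸ (hf p ω ω' t c').2), add_zero]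
  · have e1 : ∑ w, (∑ p, (∑ ω', π p w ω' + ∑ ω', π p ω' w)) * g w =
        ∑ p, ∑ ω, ∑ ω', π p ω ω' * (g ω + g ω') := by
      simp only [sum_mul, add_mul, mul_add, sum_add_distrib]
      congr 1
      · exact sum_comm
      · rw [sum_comm]
        exact sum_congr rfl fun p _ => sum_comm
    have e2 : ∑ w, (∑ p, ∑ ω, ∑ ω', π p ω ω' * ((∑ t, ((if f p ω ω' t = w then 1 else 0) +
        (if f' p ω ω' t = w then 1 else 0) : ℝ)) / Fintype.card T) / 2) * g w =
        ∑ p, ∑ ω, ∑ ω', π p ω ω' *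
          ((∑ t, (g (f p ω ω' t) + g (f' p ω ω' t))) / Fintype.card T) / 2 := by
      simp only [sum_mul]
      rw [sum_comm]
      refine sum_congr rfl fun p _ => ?_
      rw [sum_comm]
      refine sum_congr rfl fun ω _ => ?_
      rw [sum_comm]
      refine sum_congr rfl fun ω' _ => ?_
      have e3 : ∑ w, (∑ t, ((if f p ω ω' t = w then 1 else 0) +
          (if f' p ω ω' t = w then 1 else 0) : ℝ)) * g w =
          ∑ t, (g (f p ω ω' t) + g (f' p ω ω' t)) := by
        simp only [sum_mul]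
        rw [sum_comm]
        refine sum_congr rfl fun t _ => ?_
        simp [add_mul, sum_add_distrib]
      rw [← e3, sum_div, mul_sum, sum_div]
      exact sum_congr rfl fun w _ => by ring
    have e4 : ∑ w, (h w - ∑ p, (∑ ω', π p w ω' + ∑ ω', π p ω' w)) / 2 * g w =
        (∑ w, h w * g w) / 2 - (∑ p, ∑ ω, ∑ ω', π p ω ω' * (g ω + g ω')) / 2 := by
      rw [← e1, ← sub_div, ← sum_sub_distrib, sum_div]
      exact sum_congr rfl fun w _ => by ring
    rw [sum_congr rfl fun w _ => add_mul _ _ (g w), sum_add_distrib, e2, e4]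
    simp only [mul_sub, sub_div, sum_sub_distrib, sum_div]
    ring

theorem hid (G : MG V E) (P : Finset V) (K : ℕ) (hK : (B G P).card ≤ K) {O : Type} [Fintype O]
    [DecidableEq O] (h : (E → ZMod 2) → ℝ) (h0 : ∀ ω, 0 ≤ h ω)
    (hev : ∀ ω, h ω ≠ 0 → EvenOn G P ω) (α0 α1 : O → E × Bool → ZMod 2) (u : ℝ)
    (hu : ∀ l ⊆ B G P, |∑ p, (chi l (α0 p) + chi l (α1 p)) - hat h l| ≤ u)
    (Wd : O → Finset (E × Bool)) (hW : ∀ p d, d ∈ Wd p ↔ d ∈ B G P ∧ α0 p d ≠ α1 p d) :
    ∃ (good : Finset O) (ρ : O → E × Bool → E × Bool),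
      ((goodᶜ).card : ℝ) ≤ 2 ^ K * (u + 2 * K ^ K) ∧
      (∀ p, Function.Involutive (ρ p)) ∧ (∀ p d, d ∉ Wd p → ρ p d = d) ∧
      (∀ p ∈ good, ∀ d ∈ Wd p, ρ p d ≠ d) ∧
      ∀ (Y : Type) [Fintype Y] [DecidableEq Y] (κ : O → E × Bool → Y),
        (∀ p ∈ good, ∀ d, κ p (ρ p d) = κ p d) →
        (∀ p ∉ good, ∀ d ∈ Wd p, ∀ d' ∈ Wd p, κ p d = κ p d') →
        ∃ h' : (E → ZMod 2) → ℝ, (∀ ω, 0 ≤ h' ω) ∧ (∀ ω, h' ω ≠ 0 → EvenOn G P ω) ∧
          (∀ e, mg h' e = mg h e / 2) ∧
          ∀ l ⊆ B G P, ∑ p ∈ univ.filter (fun p => Bal (l ∩ Wd p) (κ p)), chi l (α0 p) - hat h' l =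
            (∑ p, (chi l (α0 p) + chi l (α1 p)) - hat h l) / 2 := by
  classical
  have hu0 : 0 ≤ u := (abs_nonneg _).trans (hu ∅ (empty_subset _))
  have : Nonempty (E × Bool → E × Bool) := ⟨id⟩
  choose! ρf r1 r2 Df r3 using hid_pair G P
  let PP : Finset (E × Bool → E × Bool) :=
    Fintype.piFinset fun d => if d ∈ B G P then B G P else {d}
  let pat : (E → ZMod 2) → (E → ZMod 2) → E × Bool → E × Bool := fun ω ω' =>
    if EvenOn G P (ω + ω') then ρf (ω + ω') else id
  have hP : ∀ ω ω', pat ω ω' ∈ PP := by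
    intro ω ω'
    refine Fintype.mem_piFinset.2 fun d => ?_
    simp only [pat]
    split_ifs with c2 c1 c1
    · by_contra c
      have := (r2 _ c1 _).2 fun e => c e.1
      rw [r1 _ c1 d] at this
      exact c (this ▸ c2)
    · exact c2
    · exact mem_singleton.2 ((r2 _ c1 d).2 fun e => c2 e.1)
    · exact mem_singleton_self _
  have hKK : 0 < K ^ K := by
    rcases K.eq_zero_or_pos with rfl | c
    · simp
    · exact pow_pos c _
  have hR : (PP.card : ℝ) ≤ (K : ℝ) ^ K := by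
    have : PP.card ≤ K ^ K := by
      rw [Fintype.card_piFinset, prod_congr rfl (g := fun d => if d ∈ B G P then (B G P).card else 1)
        fun d _ => by split_ifs <;> simp, prod_ite_mem_eq, prod_const]
      rcases K.eq_zero_or_pos with rfl | c
      · simp [Nat.le_zero.1 hK]
      · exact (Nat.pow_le_pow_left hK _).trans (Nat.pow_le_pow_right c hK)
    exact_mod_cast this
  let st : (E × Bool → ZMod 2) → B G P → ZMod 2 := fun β d => β d
  have hst : ∀ β γ, st β = st γ ↔ ∀ d ∈ B G P, β d = γ d := fun β γ =>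
    ⟨fun e d hd' => congrFun e ⟨d, hd'⟩, fun e => funext fun d => e d d.2⟩
  obtain ⟨good, ρ, π, ⟨o1, o2, o3, o4⟩, hcard⟩ := hid_coup id (fun ω => st fun d => ω d.1) pat PP hP
    _ hR (by exact_mod_cast hKK) h h0 (fun p => st (α0 p)) (fun p => st (α1 p)) u hu0 fun σ => by
      obtain ⟨a, rfl⟩ : ∃ a, st a = σ :=
        ⟨fun d => if c : d ∈ B G P then σ ⟨d, c⟩ else 0, funext fun d => dif_pos d.2⟩
      have e0 : (0 : ℝ) < 2 ^ (B G P).card := by positivity
      have e1 : ∑ l ∈ (B G P).powerset, (∑ p, (chi l (α0 p) + chi l (α1 p)) - hat h l) * chi l a ≤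
          2 ^ (B G P).card * u := by
        refine (sum_le_card_nsmul _ _ u fun l hl => (le_abs_self _).trans ?_).trans (by simp)
        rw [abs_mul, abs_chi, mul_one]
        exact hu l (mem_powerset.1 hl)
      simp only [sub_mul, sum_sub_distrib, hat, sum_mul, add_mul, mul_assoc] at e1
      rw [sum_comm, sum_comm (s := (B G P).powerset)] at e1
      have hind : ∀ β, ∑ l ∈ (B G P).powerset, chi l β * chi l a =
          2 ^ (B G P).card * if st β = st a then 1 else 0 := fun β => by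
        rw [hid_ind]
        by_cases c : st β = st a
        · rw [if_pos c, if_pos ((hst _ _).1 c)]
        · rw [if_neg c, if_neg fun e => c ((hst _ _).2 e)]
      simp only [sum_add_distrib, ← mul_sum, hind] at e1
      simp only [sum_add_distrib]
      refine le_of_mul_le_mul_left ?_ e0
      rw [mul_add, mul_add, mul_sum (f := fun ω : E → ZMod 2 =>
        if st (fun d => ω d.1) = st a then h ω else 0),
        sum_congr rfl (g := fun ω : E → ZMod 2 => h ω * (2 ^ (B G P).card *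
          if st (fun d => ω d.1) = st a then 1 else 0)) fun ω _ => by split_ifs <;> ring]
      linarith
  -- facts on the support of the couplings
  have hsup : ∀ p ω ω', π p ω ω' ≠ 0 → EvenOn G P ω ∧ EvenOn G P ω' := by
    intro p ω ω' c
    have c' := lt_of_le_of_ne (o1 p ω ω') (Ne.symm c)
    have n1 : ∀ p ω, 0 ≤ ∑ ω', π p ω ω' := fun p ω => sum_nonneg fun _ _ => o1 _ _ _
    have n2 : ∀ p ω, 0 ≤ ∑ ω', π p ω' ω := fun p ω => sum_nonneg fun _ _ => o1 _ _ _
    have m : ∀ ω, ∑ ω', π p ω ω' + ∑ ω', π p ω' ω ≤ h ω := fun ω => (single_le_sum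
      (f := fun p => ∑ ω', π p ω ω' + ∑ ω', π p ω' ω) (fun p _ => add_nonneg (n1 p ω) (n2 p ω))
      (mem_univ p)).trans (o4 ω)
    have s1 := single_le_sum (f := fun x => π p ω x) (fun x _ => o1 p ω x) (mem_univ ω')
    have s2 := single_le_sum (f := fun x => π p x ω') (fun x _ => o1 p x ω') (mem_univ ω)
    exact ⟨hev ω (ne_of_gt (by linarith [m ω, n2 p ω])),
      hev ω' (ne_of_gt (by linarith [m ω', n1 p ω']))⟩
  have hadd : ∀ ω ω', EvenOn G P ω → EvenOn G P ω' → EvenOn G P (ω + ω') :=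
    fun ω ω' a b v hv => by rw [bd_add, a v hv, b v hv, add_zero]
  have hpat : ∀ p ω ω', π p ω ω' ≠ 0 → p ∈ good ∧ EvenOn G P (ω + ω') ∧ ρ p = ρf (ω + ω') ∧
      (∀ d ∈ B G P, ω d.1 = α0 p d) ∧ (∀ d ∈ B G P, ω' d.1 = α1 p d) ∧
      ∀ d, d ∈ Wd p ↔ d ∈ B G P ∧ (ω + ω') d.1 ≠ 0 := by
    intro p ω ω' c
    obtain ⟨a1, a2, a3, a4⟩ := o3 p ω ω' c
    have b := hadd _ _ (hsup p ω ω' c).1 (hsup p ω ω' c).2
    replace a2 := (hst (fun d => ω d.1) (α0 p)).1 a2
    replace a3 := (hst (fun d => ω' d.1) (α1 p)).1 a3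
    refine ⟨a1, b, by rw [← a4]; exact if_pos b, a2, a3, fun d => ?_⟩
    rw [hW]
    exact and_congr_right fun hd' => by rw [Pi.add_apply, a2 d hd', a3 d hd', Ne, Ne, z2eq]
  have hex : ∀ p ∈ good, ∃ ω ω', π p ω ω' ≠ 0 := fun p hp => by
    by_contra c
    push Not at c
    simpa [c] using o2 p hp
  refine ⟨good, fun p => if p ∈ good then ρ p else id, hcard.trans ?_, fun p => ?_,
    fun p d hd' => ?_, fun p hp d hd' => ?_, fun Y _ _ κ k1 k2 => ?_⟩
  · refine mul_le_mul_of_nonneg_right ?_ (by positivity)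
    rw [Fintype.card_fun, ZMod.card, Fintype.card_coe]
    exact_mod_cast Nat.pow_le_pow_right (by norm_num) hK
  · beta_reduce
    split_ifs with hp
    · obtain ⟨ω, ω', c⟩ := hex p hp
      obtain ⟨-, b, e, -⟩ := hpat p ω ω' c
      rw [e]
      exact r1 _ b
    · exact fun _ => rfl
  · beta_reduce
    split_ifs with hp
    · obtain ⟨ω, ω', c⟩ := hex p hp
      obtain ⟨-, b, e, -, -, w⟩ := hpat p ω ω' c
      rw [e, r2 _ b, ← w]
      exact hd'
    · rfl
  · obtain ⟨ω, ω', c⟩ := hex p hp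
    obtain ⟨-, b, e, -, -, w⟩ := hpat p ω ω' c
    beta_reduce
    rw [if_pos hp, e, Ne, r2 _ b, ← w]
    exact not_not.2 hd'
  · have hD : ∀ p ω ω' (s : Y → ZMod 2), π p ω ω' ≠ 0 →
        (∀ e, Df (ω + ω') (fun d => s (κ p d)) e ≠ 0 → (ω + ω') e ≠ 0) ∧
        EvenOn G P (Df (ω + ω') fun d => s (κ p d)) ∧
        ∀ d ∈ B G P, Df (ω + ω') (fun d => s (κ p d)) d.1 = s (κ p d) * (ω + ω') d.1 := by
      intro p ω ω' s c
      obtain ⟨a, b, e, -⟩ := hpat p ω ω' c
      refine r3 _ b _ fun d => ?_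
      have := k1 p a d
      simp only [if_pos a, e] at this
      rw [this]
    obtain ⟨h', g1, g2, g3⟩ := hid_update h π o1 o4
      (fun p ω ω' (s : Y → ZMod 2) => ω + Df (ω + ω') fun d => s (κ p d))
      (fun p ω ω' (s : Y → ZMod 2) => ω' + Df (ω + ω') fun d => s (κ p d)) (EvenOn G P) hev
      fun p ω ω' s c => ⟨hadd _ _ (hsup p ω ω' c).1 (hD p ω ω' s c).2.1,
        hadd _ _ (hsup p ω ω' c).2 (hD p ω ω' s c).2.1⟩
    have hT : (Fintype.card (Y → ZMod 2) : ℝ) ≠ 0 := by exact_mod_cast Fintype.card_ne_zero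
    refine ⟨h', g1, g2, fun e => ?_, fun l hl => ?_⟩
    · rw [mg, g3 fun ω => sg (ω e), mg,
        sum_eq_zero fun p _ => sum_eq_zero fun ω _ => sum_eq_zero fun ω' _ => ?_, add_zero]
      by_cases c : π p ω ω' = 0
      · simp [c]
      rw [sum_congr rfl (g := fun _ => sg (ω e) + sg (ω' e)) fun s _ => ?_, sum_const, card_univ,
        nsmul_eq_mul, mul_div_cancel_left₀ _ hT, sub_self, mul_zero, zero_div]
      have := (hD p ω ω' s c).1 e
      simp only [Pi.add_apply] at this ⊢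
      generalize Df (ω + ω') (fun d => s (κ p d)) e = z at this ⊢
      rcases z2c z with rfl | rfl
      · simp
      · rcases z2c (ω e) with a | a <;> rcases z2c (ω' e) with b | b <;>
          simp [a, b, z2a] at this ⊢
    · have hchi : ∀ p, chi l (α1 p) = chi l (α0 p) * if Even (l ∩ Wd p).card then 1 else -1 := by
        intro p
        have e1 : chi l (α0 p + α1 p) = sg ((l ∩ Wd p).card : ZMod 2) := by
          rw [chi, sum_congr rfl (g := fun d => if d ∈ Wd p then 1 else 0) fun d hd' => ?_,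
            sum_ite_mem]
          · simp
          · split_ifs with c
            · exact z2ne.1 fun e => ((hW p d).1 c).2 (z2eq.1 e)
            · exact z2eq.2 (by_contra fun e => c ((hW p d).2 ⟨hl hd', e⟩))
        rw [← hid_sg_card, ← e1, chi_add, ← mul_assoc, show chi l (α0 p) * chi l (α0 p) = 1 from
          sg_mul_self _, one_mul]
      have hterm : ∀ p, ∑ ω, ∑ ω', π p ω ω' * ((∑ s : Y → ZMod 2,
          (chi l (fun d => (ω + Df (ω + ω') fun d => s (κ p d)) d.1) +
            chi l (fun d => (ω' + Df (ω + ω') fun d => s (κ p d)) d.1))) /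
              Fintype.card (Y → ZMod 2) - (chi l (fun d => ω d.1) + chi l (fun d => ω' d.1))) / 2 =
          (if Bal (l ∩ Wd p) (κ p) then chi l (α0 p) else 0) -
            (chi l (α0 p) + chi l (α1 p)) / 2 := by
        intro p
        by_cases hp : p ∈ good
        · rw [← one_mul ((if Bal (l ∩ Wd p) (κ p) then chi l (α0 p) else 0) - _), ← o2 p hp, sum_mul]
          refine sum_congr rfl fun ω _ => ?_
          rw [sum_mul]
          refine sum_congr rfl fun ω' _ => ?_
          by_cases c : π p ω ω' = 0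
          · simp [c]
          obtain ⟨-, -, -, a0, a1, w⟩ := hpat p ω ω' c
          have b0 : chi l (fun d => ω d.1) = chi l (α0 p) := chi_congr fun d hd' => a0 d (hl hd')
          have b1 : chi l (fun d => ω' d.1) = chi l (α1 p) := chi_congr fun d hd' => a1 d (hl hd')
          have b2 : ∀ (s : Y → ZMod 2) (x : E → ZMod 2),
              chi l (fun d => (x + Df (ω + ω') fun d => s (κ p d)) d.1) =
              chi l (fun d => x d.1) * chi (l ∩ Wd p) fun d => s (κ p d) := by
            intro s x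
            have := chi_add l (fun d => x d.1) fun d => Df (ω + ω') (fun d => s (κ p d)) d.1
            refine this.trans ?_
            congr 1
            rw [chi, chi, ← sum_ite_mem]
            congr 1
            refine sum_congr rfl fun d hd' => ?_
            rw [(hD p ω ω' s c).2.2 d (hl hd')]
            split_ifs with c'
            · rw [z2ne.1 ((w d).1 c').2, mul_one]
            · rw [show (ω + ω') d.1 = 0 from by_contra fun e => c' ((w d).2 ⟨hl hd', e⟩), mul_zero]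
          simp only [b2, b0, b1, ← add_mul, ← mul_sum, hid_avg]
          split_ifs with c'
          · rw [hchi p, if_pos (hid_bal_even c')]
            field_simp
            ring
          · ring
        · have hz : ∀ ω ω', π p ω ω' = 0 := fun ω ω' => by_contra fun c => hp (o3 p ω ω' c).1
          simp only [hz, zero_mul, zero_div, sum_const_zero]
          rw [hchi p]
          by_cases c : Even (l ∩ Wd p).card
          · rw [if_pos c, if_pos (hid_bal_of_const (fun d a d' b =>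
              k2 p hp d (mem_inter.1 a).2 d' (mem_inter.1 b).2) c)]
            ring
          · rw [if_neg c, if_neg fun e => c (hid_bal_even e)]
            ring
      rw [hat, g3 fun ω => chi l fun d => ω d.1, sum_congr rfl fun p _ => hterm p, sum_filter,
        sum_sub_distrib, ← sum_div, hat]
      ring

end Pool.Agent.ATJ
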