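import Pool.Agent.Lib.ATJ.Defs

/-! Cutting the orbits of two involutions into short pieces, with few cuts at every point. -/

set_option autoImplicit false
set_option linter.unusedSectionVars false

namespace Pool.Agent.ATJ

open Finset Function

/-- Hall: a point in every member of each family, every point being used by few families. -/
lemma seg_pick {O X : Type} [Fintype O] [DecidableEq O] [Fintype X] [DecidableEq X]
    (S : O → Finset (Finset X)) (l : ℕ) (hl : 0 < l) (hc : ∀ p, ∀ σ ∈ S p, σ.card = l)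
    (hd : ∀ p, ∀ σ ∈ S p, ∀ τ ∈ S p, σ ≠ τ → Disjoint σ τ) :
    ∃ Br : O → Finset X, (∀ p, ∀ σ ∈ S p, ∃ x ∈ σ, x ∈ Br p) ∧
      ∀ x, (univ.filter fun p => x ∈ Br p).card ≤ Fintype.card O / l + 1 := by
  set m := Fintype.card O / l + 1 with hm
  let ι : Type := {i : O × Finset X // i.2 ∈ S i.1}
  let t : ι → Finset (X × Fin m) := fun i => i.1.2 ×ˢ univ
  obtain ⟨g, hg, hgt⟩ := (all_card_le_biUnion_card_iff_exists_injective t).1 fun s => by
    have e : s.biUnion t = (s.biUnion fun i => i.1.2) ×ˢ univ := by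
      ext y
      simp [t]
    rw [e, card_product, card_univ, Fintype.card_fin]
    have h1 := card_mul_le_card_mul (s := s) (t := s.biUnion fun i => i.1.2)
      (m := l) (n := Fintype.card O) (fun i x => x ∈ i.1.2) (fun i hi => by
        rw [← hc _ _ i.2]
        refine card_le_card fun x hx => ?_
        rw [mem_bipartiteAbove]
        exact ⟨mem_biUnion.2 ⟨i, hi, hx⟩, hx⟩) (fun x _ => by
        rw [← card_univ]
        refine card_le_card_of_injOn (fun i => i.1.1) (fun _ _ => mem_univ _) fun i hi j hj h => ?_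
        have hi' := ((mem_bipartiteBelow _).1 (mem_coe.1 hi)).2
        have hj' := ((mem_bipartiteBelow _).1 (mem_coe.1 hj)).2
        have h' : i.1.1 = j.1.1 := h
        refine Subtype.ext (Prod.ext h' ?_)
        by_contra hne
        exact disjoint_left.1 (hd _ _ i.2 _ (h' ▸ j.2) hne) hi' hj')
    have h2 : Fintype.card O ≤ m * l := by
      rw [hm, mul_comm]
      exact (Nat.lt_mul_div_succ _ hl).le
    refine Nat.le_of_mul_le_mul_right (h1.trans ?_) hl
    rw [mul_assoc]
    exact Nat.mul_le_mul_left _ h2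
  refine ⟨fun p => (univ.filter fun i : ι => i.1.1 = p).image fun i => (g i).1,
    fun p σ hσ => ⟨(g ⟨(p, σ), hσ⟩).1, (mem_product.1 (hgt ⟨(p, σ), hσ⟩)).1,
      mem_image_of_mem _ (by simp)⟩, fun x => ?_⟩
  calc _ ≤ ((univ.filter fun i : ι => (g i).1 = x).image fun i => i.1.1).card := by
        refine card_le_card fun p hp => ?_
        obtain ⟨i, hi, hx⟩ := mem_image.1 (mem_filter.1 hp).2
        exact mem_image.2 ⟨i, by simpa using hx, (mem_filter.1 hi).2⟩
    _ ≤ (univ.filter fun i : ι => (g i).1 = x).card := card_image_le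
    _ ≤ (univ : Finset (Fin m)).card := by
        refine card_le_card_of_injOn (fun i => (g i).2) (fun _ _ => mem_univ _) fun i hi j hj h => ?_
        exact hg (Prod.ext ((mem_filter.1 (mem_coe.1 hi)).2.trans
          (mem_filter.1 (mem_coe.1 hj)).2.symm) h)
    _ = m := by simp

/-- A maximal family of disjoint segments. -/
lemma seg_family {X : Type} [Fintype X] [DecidableEq X] (f : X → X) (hf : Injective f) (l : ℕ)
    (hl : 0 < l) : ∃ S : Finset (Finset X), (∀ σ ∈ S, σ.card = l) ∧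
      (∀ σ ∈ S, ∀ τ ∈ S, σ ≠ τ → Disjoint σ τ) ∧ ∀ Br : Finset X, (∀ σ ∈ S, ∃ x ∈ σ, x ∈ Br) →
        ∀ x, (∀ j, 0 < j → j < l → f^[j] x ≠ x) → ∃ m < 3 * l, f^[m] x ∈ Br := by
  classical
  let seg : X → Finset X := fun z => (range l).image fun j => f^[j] z
  let P : Finset (Finset X) → Prop := fun S => (∀ σ ∈ S, σ.card = l ∧ ∃ z, σ = seg z) ∧
    ∀ σ ∈ S, ∀ τ ∈ S, σ ≠ τ → Disjoint σ τ
  obtain ⟨S, hS, hmax⟩ := (univ.filter P).exists_max_image card ⟨∅, by simp [P]⟩
  obtain ⟨h1, h2⟩ := (mem_filter.1 hS).2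
  refine ⟨S, fun σ hσ => (h1 σ hσ).1, h2, fun Br hBr x hx => ?_⟩
  have hlt : ∀ i j, i < j → j < l → f^[i] (f^[l] x) ≠ f^[j] (f^[l] x) := by
    intro i j hij hj h
    rw [← iterate_add_apply, ← iterate_add_apply, show j + l = i + l + (j - i) by omega,
      iterate_add_apply f (i + l)] at h
    exact hx (j - i) (by omega) (by omega) (hf.iterate _ h).symm
  have hcard : (seg (f^[l] x)).card = l := by
    rw [card_image_of_injOn, card_range]
    intro i hi j hj h
    have hi' := mem_range.1 (mem_coe.1 hi)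
    have hj' := mem_range.1 (mem_coe.1 hj)
    rcases lt_trichotomy i j with hij | hij | hij
    · exact absurd h (hlt i j hij hj')
    · exact hij
    · exact absurd h.symm (hlt j i hij hi')
  obtain ⟨σ, hσ, hnd⟩ : ∃ σ ∈ S, ¬ Disjoint σ (seg (f^[l] x)) := by
    by_contra hcon
    push Not at hcon
    have hn : seg (f^[l] x) ∉ S := fun h => by
      have := disjoint_self.1 (hcon _ h)
      rw [this] at hcard
      simp at hcard
      omega
    have := hmax (insert (seg (f^[l] x)) S) (mem_filter.2 ⟨mem_univ _, fun σ hσ => by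
      rcases mem_insert.1 hσ with rfl | hσ
      exacts [⟨hcard, _, rfl⟩, h1 σ hσ], fun σ hσ τ hτ hne => by
      rcases mem_insert.1 hσ with rfl | hσ <;> rcases mem_insert.1 hτ with rfl | hτ
      exacts [absurd rfl hne, (hcon τ hτ).symm, hcon σ hσ, h2 σ hσ τ hτ hne]⟩)
    rw [card_insert_of_notMem hn] at this
    omega
  obtain ⟨y, hy1, hy2⟩ := not_disjoint_iff.1 hnd
  obtain ⟨w, hw, hwB⟩ := hBr σ hσ
  obtain ⟨-, z, rfl⟩ := h1 σ hσ
  obtain ⟨j, hj, rfl⟩ := mem_image.1 hy1
  obtain ⟨i, hi, hij⟩ := mem_image.1 hy2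
  obtain ⟨k, hk, rfl⟩ := mem_image.1 hw
  rw [mem_range] at hi hj hk
  rw [← iterate_add_apply, show i + l = j + (i + l - j) by omega, iterate_add_apply] at hij
  refine ⟨k + (i + l - j), by omega, ?_⟩
  rwa [iterate_add_apply, hf.iterate _ hij]

/-- The closed set spanned by a piece of an orbit. -/
lemma seg_closed {X : Type} [DecidableEq X] {a b : X → X} (ha : Involutive a) (hb : Involutive b)
    (Br : Finset X) (x : X) (M : ℕ)
    (h : (a ∘ b)^[M] x = x ∨ (x ∈ Br ∧ (a ∘ b)^[M] x ∈ Br)) :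
    ∃ T : Finset X, (∀ z ∈ T, a z ∈ T ∧ (z ∉ Br → b z ∉ Br → b z ∈ T)) ∧ T.card ≤ 2 * M ∧
      ∀ k < M, (a ∘ b)^[k + 1] x ∈ T := by
  let T : Finset X := ((range M).image fun m => (a ∘ b)^[m + 1] x) ∪
    (range M).image fun m => b ((a ∘ b)^[m] x)
  have h1 : ∀ k < M, (a ∘ b)^[k + 1] x ∈ T := fun k hk =>
    mem_union_left _ (mem_image.2 ⟨k, mem_range.2 hk, rfl⟩)
  have h2 : ∀ k < M, b ((a ∘ b)^[k] x) ∈ T := fun k hk =>
    mem_union_right _ (mem_image.2 ⟨k, mem_range.2 hk, rfl⟩)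
  refine ⟨T, fun z hz => ?_, ?_, h1⟩
  · rcases mem_union.1 hz with hz | hz <;> obtain ⟨k, hk, rfl⟩ := mem_image.1 hz <;>
      rw [mem_range] at hk
    · refine ⟨?_, fun hz _ => ?_⟩
      · rw [iterate_succ_apply', comp_apply, ha]
        exact h2 k hk
      · rcases Nat.lt_or_eq_of_le (Nat.succ_le_of_lt hk) with hk' | hk'
        · exact h2 _ hk'
        · rw [show k + 1 = M from hk'] at hz ⊢
          rw [h.resolve_right fun h' => hz h'.2]
          exact h2 0 (by omega)
    · refine ⟨?_, fun _ hz => ?_⟩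
      · have := h1 k hk
        rwa [iterate_succ_apply'] at this
      · rw [hb] at hz ⊢
        rcases k with _ | k
        · have := h1 (M - 1) (by omega)
          rwa [show M - 1 + 1 = M by omega, h.resolve_right fun h' => hz h'.1] at this
        · exact h1 k (by omega)
  · refine (card_union_le _ _).trans ?_
    rw [two_mul]
    exact add_le_add (card_image_le.trans (card_range M).le) (card_image_le.trans (card_range M).le)

/-- The classes for one pair of involutions. -/
lemma seg_class {X : Type} [Fintype X] [DecidableEq X] {a b : X → X} (ha : Involutive a)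
    (hb : Involutive b) (l : ℕ) (Br : Finset X)
    (hBr : ∀ x, (∀ j, 0 < j → j < l → (a ∘ b)^[j] x ≠ x) → ∃ m < 3 * l, (a ∘ b)^[m] x ∈ Br) :
    ∃ κ : X → Finset X, (∀ x, κ (a x) = κ x) ∧ (∀ x, x ∉ Br → b x ∉ Br → κ (b x) = κ x) ∧
      ∀ y, (univ.filter fun x => κ x = y).card ≤ 12 * l := by
  classical
  let Cl : Finset X → Prop := fun T => ∀ z ∈ T, a z ∈ T ∧ (z ∉ Br → b z ∉ Br → b z ∈ T)
  have key : ∀ x, ∃ T, Cl T ∧ T.card ≤ 12 * l ∧ x ∈ T := by
    intro x
    by_cases hx : ∀ j, 0 < j → j < l → (a ∘ b)^[j] x ≠ x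
    · obtain ⟨y, rfl⟩ := (ha.surjective.comp hb.surjective).iterate (3 * l) x
      obtain ⟨m1, hm1, h1⟩ := hBr _ hx
      obtain ⟨m2, hm2, h2⟩ := hBr y fun j hj0 hj h => hx j hj0 hj (by
        rw [← iterate_add_apply, add_comm, iterate_add_apply, h])
      obtain ⟨T, hT, hc, hm⟩ := seg_closed ha hb Br ((a ∘ b)^[m2] y) (m1 + 3 * l - m2)
        (Or.inr ⟨h2, by
          rwa [← iterate_add_apply, show m1 + 3 * l - m2 + m2 = m1 + 3 * l by omega,
            iterate_add_apply]⟩)
      refine ⟨T, hT, by omega, ?_⟩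
      have := hm (3 * l - m2 - 1) (by omega)
      rwa [← iterate_add_apply, show 3 * l - m2 - 1 + 1 + m2 = 3 * l by omega] at this
    · push Not at hx
      obtain ⟨j, hj0, hj, h⟩ := hx
      obtain ⟨T, hT, hc, hm⟩ := seg_closed ha hb Br x j (Or.inl h)
      refine ⟨T, hT, by omega, ?_⟩
      have := hm (j - 1) (by omega)
      rwa [show j - 1 + 1 = j by omega, h] at this
  let κ : X → Finset X := fun x => univ.filter fun y => ∀ T, Cl T → (x ∈ T ↔ y ∈ T)
  have hκ : ∀ x x', (∀ T, Cl T → (x ∈ T ↔ x' ∈ T)) → κ x = κ x' := fun x x' h =>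
    filter_congr fun y _ => forall_congr' fun T => imp_congr_right fun hT => by rw [h T hT]
  refine ⟨κ, fun x => hκ _ _ fun T hT => ⟨fun h => ?_, fun h => (hT x h).1⟩,
    fun x h1 h2 => hκ _ _ fun T hT => ⟨fun h => ?_, fun h => (hT x h).2 h1 h2⟩, fun y => ?_⟩
  · exact ha x ▸ (hT _ h).1
  · exact hb x ▸ (hT _ h).2 h2 (by rwa [hb])
  · rcases (univ.filter fun x => κ x = y).eq_empty_or_nonempty with h | ⟨x0, hx0⟩
    · simp [h]
    obtain ⟨T, hT, hc, hx⟩ := key x0
    refine (card_le_card fun x hx' => ?_).trans hc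
    have h1 : x ∈ κ x0 := by
      rw [(mem_filter.1 hx0).2, ← (mem_filter.1 hx').2]
      exact mem_filter.2 ⟨mem_univ _, fun _ _ => Iff.rfl⟩
    exact ((mem_filter.1 h1).2 T hT).1 hx

theorem seg_hall {O X : Type} [Fintype O] [DecidableEq O] [Fintype X] [DecidableEq X]
    (a b : O → X → X) (ha : ∀ p, Function.Involutive (a p))
    (hb : ∀ p, Function.Involutive (b p)) (l : ℕ) (hl : 0 < l) :
    ∃ (κ : O → X → Finset X) (Br : O → Finset X), (∀ p x, κ p (a p x) = κ p x) ∧
      (∀ p x, x ∉ Br p → b p x ∉ Br p → κ p (b p x) = κ p x) ∧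
      (∀ p y, (univ.filter fun x => κ p x = y).card ≤ 12 * l) ∧
      ∀ x, (univ.filter fun p => x ∈ Br p).card ≤ Fintype.card O / l + 1 := by
  choose S h1 h2 h3 using fun p =>
    seg_family (a p ∘ b p) ((ha p).injective.comp (hb p).injective) l hl
  obtain ⟨Br, h4, h5⟩ := seg_pick S l hl h1 h2
  choose κ k1 k2 k3 using fun p => seg_class (ha p) (hb p) l (Br p) (h3 p _ (h4 p))
  exact ⟨κ, Br, k1, k2, k3, h5⟩

end Pool.Agent.ATJ
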