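import Pool.Agent.Lib.ATJ.Count
import Pool.Agent.Lib.ATJ.BF
import Pool.Agent.Lib.ATJ.Seg
import Pool.Agent.Lib.ATJ.Hid

/-!
Halving a family of dart labellings, and the iteration of this step.
-/

set_option autoImplicit false
set_option linter.unusedSectionVars false

namespace Pool.Agent.ATJ

open Finset Pool.Agent.Flows

variable {V E : Type} [Fintype V] [DecidableEq V] [Fintype E] [DecidableEq E]

/-- The error of one round. -/
def halfC (K l : ℕ) : ℝ :=
  2 * ((12 * l + K : ℕ) * (2 ^ K + 1 : ℕ)) * ((12 * l + K : ℕ) * (2 ^ K + 1 : ℕ) * K + 1)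

lemma halfC_nonneg (K l : ℕ) : 0 ≤ halfC K l := by unfold halfC; positivity

lemma half_bal {X Y : Type} [DecidableEq X] [DecidableEq Y] (d d' : X) (hne : d ≠ d')
    (D : Finset X) (κ : X → Y) (h1 : d ∈ D ↔ d' ∈ D) (h2 : d ∈ D → κ d = κ d') :
    Bal ({d, d'} ∩ D) κ := by
  intro y
  by_cases h : d ∈ D
  · have e1 : ({d, d'} : Finset X) ∩ D = {d, d'} := by
      apply inter_eq_left.2
      intro x hx
      rcases mem_insert.1 hx with rfl | hx
      · exact h
      · rw [mem_singleton.1 hx]; exact h1.1 h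
    rw [e1, card_filter, sum_pair hne, h2 h]
    exact Even.add_self _
  · have e1 : ({d, d'} : Finset X) ∩ D = ∅ := by
      ext x
      simp only [mem_inter, mem_insert, mem_singleton, notMem_empty, iff_false, not_and]
      rintro (rfl | rfl)
      · exact h
      · exact fun h' => h (h1.2 h')
    simp [e1]

lemma half_bal_even {X Y : Type} [Fintype Y] [DecidableEq Y] {l : Finset X} {κ : X → Y}
    (h : Bal l κ) : Even l.card := by
  rw [card_eq_sum_card_fiberwise (f := κ) (t := univ) (fun _ _ => mem_coe.2 (mem_univ _))]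
  exact even_sum _ fun y _ => h y

theorem half_one (G : MG V E) (PP : Finset (Finset V))
    (hdis : ∀ P ∈ PP, ∀ Q ∈ PP, P ≠ Q → Disjoint P Q) (K : ℕ) (hK : 2 ≤ K)
    (hdeg : ∀ P ∈ PP, (B G P).card ≤ K) (F : Finset E) {O : Type} [Fintype O] [DecidableEq O]
    (φ : O → E → ZMod 2) (β : O × Bool → E × Bool → ZMod 2)
    (h : Finset V → (E → ZMod 2) → ℝ) (g : (E → ZMod 2) → ℝ) (c u d : ℝ) (l : ℕ)
    (hl : 0 < l) (H : Fam G PP F (fun o => φ o.1) β h g (2 * c) u d) :
    ∃ β' h', Fam G PP F φ β' h' g c (u / 2 + halfC K l)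
      (d / 2 + 2 ^ K * (u + 2 * K ^ K) + (Fintype.card O / l + 1) + halfC K l) := by
  classical
  let Wd : Finset V → O → Finset (E × Bool) := fun P p =>
    (B G P).filter fun x => β (p, false) x ≠ β (p, true) x
  have hsum : ∀ f : O × Bool → ℝ, ∑ o, f o = ∑ p, (f (p, false) + f (p, true)) := by
    intro f; rw [Fintype.sum_prod_type]; simp [add_comm]
  have hh := fun P (hP : P ∈ PP) => hid G P K (hdeg P hP) (h P) (H.pos P hP) (H.ev P hP)
    (fun p => β (p, false)) (fun p => β (p, true)) u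
    (fun l hl => by rw [← hsum fun o => chi l (β o)]; exact H.dev P hP l hl) (Wd P)
    (fun p d => by simp [Wd])
  have : Nonempty (O → E × Bool → E × Bool) := ⟨fun _ x => x⟩
  choose! good ρ hg1 hg2 hg3 hg4 hg5 using hh
  let pd : E × Bool → Finset V := fun x => if h : ∃ P ∈ PP, x ∈ B G P then h.choose else ∅
  have hpd : ∀ P ∈ PP, ∀ x ∈ B G P, pd x = P := by
    intro P hP x hx
    have h : ∃ P ∈ PP, x ∈ B G P := ⟨P, hP, hx⟩
    simp only [pd, dif_pos h]
    by_contra hne
    exact disjoint_left.1 (hdis _ h.choose_spec.1 _ hP hne) (mem_B.1 h.choose_spec.2).1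
      (mem_B.1 hx).1
  let Δ : O → Finset (E × Bool) := fun p => PP.biUnion fun P => Wd P p
  have hΔ : ∀ P ∈ PP, ∀ p, ∀ x ∈ B G P, x ∈ Δ p ↔ β (p, false) x ≠ β (p, true) x := by
    intro P hP p x hx
    simp only [Δ, Wd, mem_biUnion, mem_filter]
    exact ⟨fun ⟨_, _, h⟩ => h.2, fun h => ⟨P, hP, hx, h⟩⟩
  have hΔ' : ∀ P ∈ PP, ∀ p, ∀ l ⊆ B G P, l ∩ Wd P p = l ∩ Δ p := by
    intro P hP p l hl
    ext x
    simp only [mem_inter, and_congr_right_iff]
    intro hx
    rw [hΔ P hP p x (hl hx)]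
    simp [Wd, hl hx]
  have hρ : ∀ P ∈ PP, ∀ p, ∀ x ∈ Wd P p, ρ P p x ∈ Wd P p := by
    intro P hP p x hx
    by_contra hn
    have h1 := hg3 P hP p _ hn
    rw [hg2 P hP p x] at h1
    exact hn (h1 ▸ hx)
  let a : O → E × Bool → E × Bool := fun p x =>
    if x ∈ Δ p ∧ p ∈ good (pd x) then ρ (pd x) p x else x
  have ha1 : ∀ P ∈ PP, ∀ p ∈ good P, ∀ x ∈ Wd P p, a p x = ρ P p x := by
    intro P hP p hp x hx
    have h1 := hpd P hP x (mem_filter.1 hx).1
    simp only [a, h1]
    rw [if_pos ⟨mem_biUnion.2 ⟨P, hP, hx⟩, hp⟩]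
  have ha : ∀ p, Function.Involutive (a p) := by
    intro p x
    by_cases hx : x ∈ Δ p ∧ p ∈ good (pd x)
    · obtain ⟨P, hP, hx'⟩ := mem_biUnion.1 hx.1
      have h1 := hpd P hP x (mem_filter.1 hx').1
      have hp : p ∈ good P := h1 ▸ hx.2
      rw [ha1 P hP p hp x hx', ha1 P hP p hp _ (hρ P hP p x hx'), hg2 P hP p x]
    · have : a p x = x := if_neg hx
      rw [this, this]
  obtain ⟨κ, Br, k1, k2, k3, k4⟩ := seg_hall a (fun _ => opp) ha (fun _ => opp_opp) l hl
  let κ' : O → E × Bool → Finset (E × Bool) ⊕ Finset V := fun p x =>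
    if p ∈ good (pd x) then Sum.inl (κ p x) else Sum.inr (pd x)
  let RR : Finset (Finset (E × Bool)) := (PP.biUnion fun P => (B G P).powerset) ∪
    univ.image fun e : E => {(e, false), (e, true)}
  obtain ⟨s, hs⟩ := sign_lemma RR K (2 ^ K + 1) (12 * l + K) (by
      intro r hr
      rcases mem_union.1 hr with hr | hr
      · obtain ⟨P, hP, hr⟩ := mem_biUnion.1 hr
        exact (card_le_card (mem_powerset.1 hr)).trans (hdeg P hP)
      · obtain ⟨e, -, rfl⟩ := mem_image.1 hr
        exact card_le_two.trans hK) (by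
      intro x
      by_cases hx : ∃ P ∈ PP, x ∈ B G P
      · obtain ⟨P, hP, hx⟩ := hx
        have : (RR.filter fun r => x ∈ r) ⊆
            insert {(x.1, false), (x.1, true)} (B G P).powerset := by
          intro r hr
          obtain ⟨hr, hxr⟩ := mem_filter.1 hr
          rcases mem_union.1 hr with hr | hr
          · obtain ⟨Q, hQ, hr⟩ := mem_biUnion.1 hr
            have := (hpd Q hQ x (mem_powerset.1 hr hxr)).symm.trans (hpd P hP x hx)
            exact mem_insert_of_mem (this ▸ hr)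
          · obtain ⟨e, -, rfl⟩ := mem_image.1 hr
            have : x.1 = e := by
              rcases mem_insert.1 hxr with h | h
              · rw [h]
              · rw [mem_singleton.1 h]
            rw [this]; exact mem_insert_self _ _
        refine (card_le_card this).trans ((card_insert_le _ _).trans ?_)
        rw [card_powerset]
        have := Nat.pow_le_pow_right (by norm_num : 0 < 2) (hdeg P hP)
        omega
      · have : (RR.filter fun r => x ∈ r) ⊆ {{(x.1, false), (x.1, true)}} := by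
          intro r hr
          obtain ⟨hr, hxr⟩ := mem_filter.1 hr
          rcases mem_union.1 hr with hr | hr
          · obtain ⟨Q, hQ, hr⟩ := mem_biUnion.1 hr
            exact absurd ⟨Q, hQ, mem_powerset.1 hr hxr⟩ hx
          · obtain ⟨e, -, rfl⟩ := mem_image.1 hr
            have : x.1 = e := by
              rcases mem_insert.1 hxr with h | h
              · rw [h]
              · rw [mem_singleton.1 h]
            rw [this]; exact mem_singleton_self _
        refine (card_le_card this).trans ?_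
        simp) Δ κ' (by
      intro p y
      rcases y with y | P
      · refine le_trans (card_le_card ?_) ((k3 p y).trans (Nat.le_add_right _ _))
        intro x hx
        have := (mem_filter.1 hx).2
        simp only [κ'] at this
        split_ifs at this
        simpa using this
      · by_cases hP : P ∈ PP
        · refine le_trans (card_le_card ?_) ((hdeg P hP).trans (Nat.le_add_left _ _))
          intro x hx
          obtain ⟨h1, h2⟩ := mem_filter.1 hx
          obtain ⟨Q, hQ, h1⟩ := mem_biUnion.1 h1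
          have h3 := hpd Q hQ x (mem_filter.1 h1).1
          simp only [κ'] at h2
          split_ifs at h2
          have : Q = P := h3.symm.trans (by simpa using h2)
          exact this ▸ (mem_filter.1 h1).1
        · refine le_trans (le_of_eq (card_eq_zero.2 ?_)) (Nat.zero_le _)
          rw [filter_eq_empty_iff]
          intro x h1 h2
          obtain ⟨Q, hQ, h1⟩ := mem_biUnion.1 h1
          have h3 := hpd Q hQ x (mem_filter.1 h1).1
          simp only [κ'] at h2
          split_ifs at h2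
          have : Q = P := h3.symm.trans (by simpa using h2)
          exact hP (this ▸ hQ))
    (fun p r => chi r (β (p, false))) (fun p r => (abs_chi _ _).le)
  have hκ1 : ∀ P ∈ PP, ∀ p ∈ good P, ∀ x, κ' p (ρ P p x) = κ' p x := by
    intro P hP p hp x
    by_cases hx : x ∈ Wd P p
    · simp only [κ', hpd P hP x (mem_filter.1 hx).1,
        hpd P hP _ (mem_filter.1 (hρ P hP p x hx)).1, if_pos hp]
      rw [← ha1 P hP p hp x hx, k1]
    · rw [hg3 P hP p x hx]
  have hκ2 : ∀ P ∈ PP, ∀ p ∉ good P, ∀ x ∈ Wd P p, ∀ x' ∈ Wd P p, κ' p x = κ' p x' := by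
    intro P hP p hp x hx x' hx'
    simp only [κ', hpd P hP x (mem_filter.1 hx).1, hpd P hP x' (mem_filter.1 hx').1, if_neg hp]
  have hh' := fun P (hP : P ∈ PP) => hg5 P hP _ κ' (hκ1 P hP) (hκ2 P hP)
  choose! h' hp1 hp2 hp3 hp4 using hh'
  let β' : O → E × Bool → ZMod 2 := fun p x =>
    β (p, false) x + if x ∈ Δ p then s p (κ' p x) else 0
  have hchi : ∀ p r, chi r (β' p) =
      chi r (β (p, false)) * chi (r ∩ Δ p) (fun x => s p (κ' p x)) := by
    intro p r
    simp only [chi, β', sum_add_distrib, sg_add, sum_ite_mem]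
  have hs' : ∀ r ∈ RR, |∑ p, chi r (β' p) -
      ∑ p ∈ univ.filter (fun p => Bal (r ∩ Δ p) (κ' p)), chi r (β (p, false))| ≤ halfC K l := by
    intro r hr
    simp only [hchi]
    exact hs r hr
  have hfro : ∀ p x, x.1 ∈ F → x ∉ Δ p := by
    intro p x hx h1
    obtain ⟨Q, hQ, h1⟩ := mem_biUnion.1 h1
    exact (mem_filter.1 h1).2 ((H.fro _ x hx).trans (H.fro (p, true) x hx).symm)
  refine ⟨β', h', ?_, ?_, ?_, hp1, hp2, ?_, ?_, ?_⟩
  · intro p x hx
    simp only [β', if_neg (hfro p x hx), add_zero]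
    exact H.fro _ x hx
  · intro p P hP
    simp only [β', sum_add_distrib, H.par _ P hP, zero_add, sum_ite_mem]
    rw [← hΔ' P hP p _ Subset.rfl, inter_eq_right.2 (filter_subset _ _)]
    by_cases hp : p ∈ good P
    · refine sum_involution (fun x _ => ρ P p x) (fun x _ => ?_) (fun x hx _ => hg4 P hP p hp x hx)
        (fun x hx => hρ P hP p x hx) (fun x _ => hg2 P hP p x)
      rw [hκ1 P hP p hp, z2a]
    · have h1 : ∑ x ∈ Wd P p, (1 : ZMod 2) = 0 := by
        have := congrArg₂ (· + ·) (H.par (p, false) P hP) (H.par (p, true) P hP)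
        simp only [← sum_add_distrib, add_zero] at this
        rw [← this, sum_filter]
        refine sum_congr rfl fun x _ => ?_
        generalize β (p, false) x = a
        generalize β (p, true) x = b
        revert a b; decide
      change ∑ x ∈ Wd P p, s p (κ' p x) = 0
      rcases (Wd P p).eq_empty_or_nonempty with h2 | ⟨x, hx⟩
      · rw [h2, sum_empty]
      · rw [sum_congr rfl (g := fun _ => s p (κ' p x) * 1), ← mul_sum, h1, mul_zero]
        intro y hy
        rw [hκ2 P hP p hp y hy x hx, mul_one]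
  · rintro e ⟨P, hP, hP'⟩ ⟨Q, hQ, hQ'⟩
    have hr : ({(e, false), (e, true)} : Finset (E × Bool)) ∈ RR :=
      mem_union_right _ (mem_image.2 ⟨e, mem_univ _, rfl⟩)
    have h1 := (abs_le.1 (hs' _ hr)).1
    have hne : (e, false) ≠ (e, true) := by simp
    have h2 : ∀ γ : E × Bool → ZMod 2, chi {(e, false), (e, true)} γ = sg (df γ e) := by
      intro γ; rw [chi, sum_pair hne, df]
    simp only [h2] at h1
    have h3 := H.dfc e ⟨P, hP, hP'⟩ ⟨Q, hQ, hQ'⟩
    rw [cnt_card, hsum] at h3
    rw [cnt_card]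
    have h4 : ∀ p, (1 - if Bal ({(e, false), (e, true)} ∩ Δ p) (κ' p) then
        sg (df (β (p, false)) e) else 0) ≤
        (1 - sg (df (β (p, false)) e)) / 2 + (1 - sg (df (β (p, true)) e)) / 2 +
          ((if p ∈ (good P)ᶜ then 1 else 0) + (if p ∈ (good Q)ᶜ then 1 else 0) +
            (if (e, false) ∈ Br p then 1 else 0) + (if (e, true) ∈ Br p then 1 else 0)) := by
      intro p
      have i1 := hΔ P hP p _ hP'
      have i2 := hΔ Q hQ p _ hQ'
      have n1 : (0 : ℝ) ≤ if p ∈ (good P)ᶜ then 1 else 0 := by positivity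
      have n2 : (0 : ℝ) ≤ if p ∈ (good Q)ᶜ then 1 else 0 := by positivity
      have n3 : (0 : ℝ) ≤ if (e, false) ∈ Br p then 1 else 0 := by positivity
      have n4 : (0 : ℝ) ≤ if (e, true) ∈ Br p then 1 else 0 := by positivity
      have s0 := sg_le (df (β (p, false)) e)
      have s1 := sg_le (df (β (p, true)) e)
      by_cases hiff : ((e, false) ∈ Δ p ↔ (e, true) ∈ Δ p)
      · have e1 : df (β (p, true)) e = df (β (p, false)) e := by
          rw [i1, i2] at hiff
          simp only [df]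
          revert hiff
          generalize β (p, false) (e, false) = a
          generalize β (p, false) (e, true) = b
          generalize β (p, true) (e, false) = a'
          generalize β (p, true) (e, true) = b'
          revert a b a' b'; decide
        rw [e1]
        split_ifs with hb <;> try linarith
        exfalso
        apply hb
        refine half_bal _ _ hne _ _ hiff fun _ => ?_
        simp only [mem_compl, not_not] at *
        simp only [κ', hpd P hP _ hP', hpd Q hQ _ hQ', *, if_true]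
        exact congrArg _ (k2 p (e, false) (by assumption) (by assumption)).symm
      · have e1 : sg (df (β (p, true)) e) = - sg (df (β (p, false)) e) := by
          have : df (β (p, true)) e = df (β (p, false)) e + 1 := by
            rw [i1, i2] at hiff
            simp only [df]
            revert hiff
            generalize β (p, false) (e, false) = a
            generalize β (p, false) (e, true) = b
            generalize β (p, true) (e, false) = a'
            generalize β (p, true) (e, true) = b'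
            revert a b a' b'; decide
          rw [this, sg_add, sg_one]; ring
        have hb : ¬ Bal ({(e, false), (e, true)} ∩ Δ p) (κ' p) := by
          intro hb
          have := half_bal_even hb
          rw [← filter_mem_eq_inter, card_filter, sum_pair hne] at this
          by_cases x1 : (e, false) ∈ Δ p <;> by_cases x2 : (e, true) ∈ Δ p <;>
            simp [x1, x2] at this hiff
        rw [if_neg hb, e1]
        linarith
    have h5 := sum_le_sum fun p (_ : p ∈ univ) => h4 p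
    simp only [sum_add_distrib, sum_sub_distrib, sum_boole, ← sum_filter, filter_mem_eq_inter,
      univ_inter] at h5 h3
    have g1 := hg1 P hP
    have g2 := hg1 Q hQ
    have b1 : ((univ.filter fun p => (e, false) ∈ Br p).card : ℝ) ≤ Fintype.card O / l + 1 := by
      have := (Nat.cast_le (α := ℝ)).2 (k4 (e, false))
      push_cast at this
      exact this.trans (by linarith [Nat.cast_div_le (α := ℝ) (m := Fintype.card O) (n := l)])
    have b2 : ((univ.filter fun p => (e, true) ∈ Br p).card : ℝ) ≤ Fintype.card O / l + 1 := by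
      have := (Nat.cast_le (α := ℝ)).2 (k4 (e, true))
      push_cast at this
      exact this.trans (by linarith [Nat.cast_div_le (α := ℝ) (m := Fintype.card O) (n := l)])
    have c0 := halfC_nonneg K l
    rw [← sum_div, sum_sub_distrib]
    linarith
  · intro P hP e
    rw [hp3 P hP, H.mar P hP]; ring
  · intro P hP l hl hF
    have h1 := hp4 P hP l hl
    have h2 : ∀ p, l ∩ Wd P p = ∅ := by
      intro p
      rw [hΔ' P hP p l hl, eq_empty_iff_forall_notMem]
      exact fun x hx => hfro p x (hF x (mem_inter.1 hx).1) (mem_inter.1 hx).2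
    have h3 : ∀ p, chi l (β (p, true)) = chi l (β (p, false)) := fun p =>
      chi_congr fun x hx => (H.fro _ x (hF x hx)).trans (H.fro (p, false) x (hF x hx)).symm
    simp only [h2, Bal, filter_empty, card_empty, Even.zero, implies_true, filter_true, h3,
      sum_add_distrib] at h1
    rw [H.law P hP l hl hF] at h1
    linarith
  · intro P hP l hl
    have h1 := hp4 P hP l hl
    have h2 := hs' l (mem_union_left _ (mem_biUnion.2 ⟨P, hP, mem_powerset.2 hl⟩))
    have h3 := H.dev P hP l hl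
    rw [hsum] at h3
    simp only [hΔ' P hP _ l hl] at h1
    rw [abs_le] at h2 h3 ⊢
    constructor <;> linarith [h2.1, h2.2, h3.1, h3.2]

lemma Fam.mono {G : MG V E} {PP : Finset (Finset V)} {F : Finset E} {O : Type} [Fintype O]
    {φ : O → E → ZMod 2} {β : O → E × Bool → ZMod 2} {h : Finset V → (E → ZMod 2) → ℝ}
    {g : (E → ZMod 2) → ℝ} {c u d c' u' d' : ℝ} (H : Fam G PP F φ β h g c u d) (hc : c = c')
    (hu : u ≤ u') (hd : d ≤ d') : Fam G PP F φ β h g c' u' d' :=
  ⟨H.fro, H.par, fun e a b => (H.dfc e a b).trans hd, H.pos, H.ev, hc ▸ H.mar, hc ▸ H.law,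
    fun P a l b => (H.dev P a l b).trans hu⟩

lemma Fam.equiv {G : MG V E} {PP : Finset (Finset V)} {F : Finset E} {O O' : Type} [Fintype O]
    [Fintype O'] {φ : O → E → ZMod 2} {β : O → E × Bool → ZMod 2}
    {h : Finset V → (E → ZMod 2) → ℝ} {g : (E → ZMod 2) → ℝ} {c u d : ℝ}
    (H : Fam G PP F φ β h g c u d) (e : O' ≃ O) :
    Fam G PP F (fun o => φ (e o)) (fun o => β (e o)) h g c u d := by
  refine ⟨fun o => H.fro _, fun o => H.par _, fun x a b => ?_, H.pos, H.ev, H.mar, H.law,
    fun P a l b => ?_⟩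
  · have := H.dfc x a b
    rw [cnt_card] at this ⊢
    rwa [e.sum_comp fun o => (1 - sg (df (β o) x)) / 2]
  · rw [e.sum_comp fun o => chi l (β o)]
    exact H.dev P a l b

lemma halfC_le (K l0 a : ℕ) (hK : 2 ≤ K) (hl : 0 < l0) :
    halfC K ⌈(l0 : ℝ) * (5 / 4) ^ a⌉₊ ≤
      16 * K * (2 ^ K + 1) ^ 2 * (12 + K) ^ 2 * l0 ^ 2 * (7 / 4) ^ a := by
  set l := ⌈(l0 : ℝ) * (5 / 4) ^ a⌉₊ with hl'
  have h0 : (1 : ℝ) ≤ l0 := by exact_mod_cast hl
  have hK' : (2 : ℝ) ≤ K := by exact_mod_cast hK
  have h1 : (1 : ℝ) ≤ (5 / 4) ^ a := one_le_pow₀ (by norm_num)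
  have h2 : (1 : ℝ) ≤ l0 * (5 / 4) ^ a := one_le_mul_of_one_le_of_one_le h0 h1
  have h3 : (l : ℝ) ≤ 2 * (l0 * (5 / 4) ^ a) := by
    have := (Nat.ceil_lt_add_one (le_trans zero_le_one h2)).le
    linarith
  have h4 : (1 : ℝ) ≤ l := h2.trans (Nat.le_ceil _)
  have h5 : ((5 / 4 : ℝ) ^ a) ^ 2 ≤ (7 / 4) ^ a := by
    rw [← pow_mul, mul_comm, pow_mul]
    exact pow_le_pow_left₀ (by norm_num) (by norm_num) a
  have h6 : (l : ℝ) ^ 2 ≤ 4 * l0 ^ 2 * (7 / 4) ^ a := by
    calc (l : ℝ) ^ 2 ≤ (2 * ((l0 : ℝ) * (5 / 4) ^ a)) ^ 2 := by gcongr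
      _ = 4 * (l0 : ℝ) ^ 2 * ((5 / 4) ^ a) ^ 2 := by ring
      _ ≤ _ := by gcongr
  unfold halfC
  push_cast
  set A : ℝ := 2 ^ K + 1 with hA
  have hA1 : 1 ≤ A := by rw [hA]; linarith [pow_pos (two_pos (α := ℝ)) K]
  have h7 : (12 * l + K : ℝ) ≤ (12 + K) * l := by nlinarith
  have h8 : (1 : ℝ) ≤ (12 * l + K) * A * K :=
    one_le_mul_of_one_le_of_one_le (one_le_mul_of_one_le_of_one_le (by linarith) hA1) (by linarith)
  calc 2 * ((12 * l + K) * A) * ((12 * l + K) * A * K + 1)
      ≤ 2 * ((12 * l + K) * A) * (2 * ((12 * l + K) * A * K)) := by gcongr; linarith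
    _ = 4 * K * A ^ 2 * (12 * l + K) ^ 2 := by ring
    _ ≤ 4 * K * A ^ 2 * ((12 + K) * l) ^ 2 := by gcongr
    _ = 4 * K * A ^ 2 * (12 + K) ^ 2 * l ^ 2 := by ring
    _ ≤ 4 * K * A ^ 2 * (12 + K) ^ 2 * (4 * l0 ^ 2 * (7 / 4) ^ a) := by gcongr
    _ = _ := by ring

theorem half (K l0 : ℕ) (hK : 2 ≤ K) (hl : 0 < l0) : ∃ U : ℝ, 0 ≤ U ∧
    ∀ (V E : Type) [Fintype V] [DecidableEq V] [Fintype E] [DecidableEq E] (G : MG V E)
      (PP : Finset (Finset V)), (∀ P ∈ PP, ∀ Q ∈ PP, P ≠ Q → Disjoint P Q) →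
      (∀ P ∈ PP, (B G P).card ≤ K) → ∀ (F : Finset E) (I : Type) [Fintype I] [DecidableEq I]
      (φ : I → E → ZMod 2) (μ : I → (E → ZMod 2) → ℝ), (∀ i ω, 0 ≤ μ i ω) →
      (∀ i, ∑ ω, μ i ω = 1) →
      (∀ i ω, μ i ω ≠ 0 → (∀ P ∈ PP, EvenOn G P ω) ∧ ∀ e ∈ F, ω e = φ i e) →
      ∃ β h, Fam G PP F φ β h (fun ω => ∑ i, μ i ω) 1 U (8 * Fintype.card I / l0 + U) := by
  obtain ⟨c0, hc0, hC⟩ : ∃ c0 : ℝ, 1 ≤ c0 ∧ ∀ a : ℕ,
      halfC K ⌈(l0 : ℝ) * (5 / 4) ^ a⌉₊ ≤ c0 * (7 / 4) ^ a :=
    ⟨16 * K * (2 ^ K + 1) ^ 2 * (12 + K) ^ 2 * l0 ^ 2 + 1, le_add_of_nonneg_left (by positivity),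
      fun a => (halfC_le K l0 a hK hl).trans (by gcongr; linarith)⟩
  obtain ⟨U2, hU2, hU⟩ : ∃ U2 : ℝ, 0 ≤ U2 ∧
      2 ^ K * (16 * c0 + 2 * K ^ K) + 1 + c0 ≤ U2 / 8 :=
    ⟨8 * (2 ^ K * (16 * c0 + 2 * K ^ K) + 1 + c0), by positivity, by linarith⟩
  refine ⟨8 * c0 + U2, by positivity, ?_⟩
  intro V E _ _ _ _ G PP hdis hdeg F I _ _ φ μ m0 m1 m2
  have h0 : (0 : ℝ) < l0 := by exact_mod_cast hl
  let St : ℕ → Prop := fun a => ∃ β h, Fam G PP F (fun o : I × Fin (2 ^ a) => φ o.1) β h
    (fun ω => ∑ i, μ i ω) (2 ^ a) (8 * c0 * (7 / 4) ^ a)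
    ((8 * Fintype.card I / l0 + U2) * (7 / 4) ^ a)
  have step : ∀ a, St (a + 1) → St a := by
    rintro a ⟨β, h, H⟩
    let e0 : Fin (2 ^ a) × Bool ≃ Fin (2 ^ (a + 1)) :=
      Fintype.equivFinOfCardEq (by simp [pow_succ])
    let e : (I × Fin (2 ^ a)) × Bool ≃ I × Fin (2 ^ (a + 1)) :=
      (Equiv.prodAssoc _ _ _).trans ((Equiv.refl I).prodCongr e0)
    have t1 : (1 : ℝ) ≤ (7 / 4) ^ a := one_le_pow₀ (by norm_num)
    have l1 : (0 : ℝ) < l0 * (5 / 4) ^ a := by positivity
    obtain ⟨β', h', H'⟩ := half_one G PP hdis K hK hdeg F (fun o : I × Fin (2 ^ a) => φ o.1)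
      (fun o => β (e o)) h _ (2 ^ a) _ _ ⌈(l0 : ℝ) * (5 / 4) ^ a⌉₊ (Nat.ceil_pos.2 l1)
      ((H.equiv e).mono (by ring) le_rfl le_rfl)
    refine ⟨β', h', H'.mono rfl ?_ ?_⟩
    · have := hC a
      rw [pow_succ]; linarith
    · have h1 := hC a
      have h2 : (Fintype.card (I × Fin (2 ^ a)) : ℝ) / (⌈(l0 : ℝ) * (5 / 4) ^ a⌉₊ : ℕ) ≤
          Fintype.card I / l0 * (7 / 4) ^ a := by
        have h3 : (2 : ℝ) ^ a ≤ (7 / 4) ^ a * (5 / 4) ^ a := by
          rw [← mul_pow]; exact pow_le_pow_left₀ (by norm_num) (by norm_num) a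
        calc _ ≤ (Fintype.card (I × Fin (2 ^ a)) : ℝ) / (l0 * (5 / 4) ^ a) := by
              gcongr; exact Nat.le_ceil _
          _ = Fintype.card I * 2 ^ a / (l0 * (5 / 4) ^ a) := by simp
          _ ≤ Fintype.card I * ((7 / 4) ^ a * (5 / 4) ^ a) / (l0 * (5 / 4) ^ a) := by gcongr
          _ = _ := by field_simp
      have h3 : (2 : ℝ) ^ K * (8 * c0 * (7 / 4) ^ (a + 1) + 2 * K ^ K) ≤
          2 ^ K * (16 * c0 + 2 * K ^ K) * (7 / 4) ^ a := by
        rw [mul_assoc (2 ^ K : ℝ)]
        gcongr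
        have : (0 : ℝ) ≤ K ^ K := by positivity
        rw [pow_succ]; nlinarith
      have h4 := mul_le_mul_of_nonneg_right hU (le_trans zero_le_one t1)
      rw [pow_succ] at h3 ⊢
      have h5 : (8 * Fintype.card I / l0 : ℝ) = 8 * (Fintype.card I / l0) := by ring
      rw [h5]
      nlinarith
  obtain ⟨a, ha⟩ := pow_unbounded_of_one_lt
    ((Fintype.card I : ℝ) * Fintype.card (E → ZMod 2)) (by norm_num : (1 : ℝ) < 7 / 4)
  have top : St a := by
    have hw := fun i => cnt_sample (ι := Fin (2 ^ a)) (μ i) (m0 i) (m1 i)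
    choose w hw1 hw2 using hw
    refine ⟨fun o x => w o.1 o.2 x.1, fun _ ω => 2 ^ a * ∑ i, μ i ω, ?_, ?_, ?_, ?_, ?_, ?_, ?_, ?_⟩
    · exact fun o x hx => (m2 _ _ (hw1 o.1 o.2)).2 _ hx
    · exact fun o P hP => ((m2 _ _ (hw1 o.1 o.2)).1 P hP).sum_B Subset.rfl
    · intro e _ _
      simp only [df_fst, ne_eq, not_true, filter_false, card_empty, Nat.cast_zero]
      positivity
    · exact fun P _ ω => mul_nonneg (by positivity) (sum_nonneg fun i _ => m0 i ω)
    · intro P hP ω hω
      obtain ⟨i, -, hi⟩ := exists_ne_zero_of_sum_ne_zero (right_ne_zero_of_mul hω)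
      exact (m2 i ω hi).1 P hP
    · intro P _ e; simp only [mg, mul_assoc]; rw [← mul_sum]
    · intro P _ l _ _; simp only [hat, mul_assoc]; rw [← mul_sum]
    · intro P _ l _
      have h1 : hat (fun ω => 2 ^ a * ∑ i, μ i ω) l =
          ∑ i, (Fintype.card (Fin (2 ^ a)) : ℝ) * ∑ ω, μ i ω * chi l (fun x => ω x.1) := by
        simp only [hat, mul_sum, sum_mul]
        rw [sum_comm]
        simp [mul_assoc]
      rw [h1, Fintype.sum_prod_type, ← sum_sub_distrib]
      refine (abs_sum_le_sum_abs _ _).trans ((sum_le_sum fun i _ =>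
        hw2 i (fun ω => chi l fun x => ω x.1) fun ω => (abs_chi _ _).le).trans ?_)
      rw [sum_const, card_univ, nsmul_eq_mul]
      have : (0 : ℝ) < (7 / 4) ^ a := by positivity
      nlinarith
  have bot : St 0 := by
    clear ha
    induction a with
    | zero => exact top
    | succ a ih => exact ih (step a top)
  obtain ⟨β, h, H⟩ := bot
  let e : I ≃ I × Fin (2 ^ 0) := (Equiv.prodUnique I (Fin 1)).symm
  refine ⟨fun o => β (e o), h, (H.equiv e).mono (by simp) ?_ ?_⟩
  · simp only [pow_zero]; linarith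
  · simp only [pow_zero]; linarith

end Pool.Agent.ATJ
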