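import Pool.Agent.Lib.ATJ.Defs

set_option autoImplicit false
set_option linter.unusedSectionVars false

namespace Pool.Agent.ATJ

open Finset Pool.Agent.Flows

variable {V E : Type} [Fintype V] [DecidableEq V] [Fintype E] [DecidableEq E]

lemma hubs_closed {G : MG V E} {S : Finset V} (h : Conn G S) (X : Finset V)
    (hcl : ∀ d, hd G d ∈ X → hd G d ∈ S → hd G (opp d) ∈ S → hd G (opp d) ∈ X) {u w : V}
    (hu : u ∈ S) (hw : w ∈ S) (huX : u ∈ X) : w ∈ X := by
  by_contra hwX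
  obtain ⟨d, d1, d2, d3⟩ := h (X ∩ S) inter_subset_right ⟨u, mem_inter.2 ⟨huX, hu⟩⟩
    (fun he => hwX (mem_inter.1 (he.symm ▸ hw : w ∈ X ∩ S)).1)
  exact d3 (mem_inter.2 ⟨hcl d (mem_inter.1 d1).1 (mem_inter.1 d1).2 d2, d2⟩)

lemma hubs_conn_star {G : MG V E} (Y : Finset V) (v : V)
    (h : ∀ u ∈ Y, ∃ S ⊆ Y, Conn G S ∧ u ∈ S ∧ v ∈ S) : Conn G Y := by
  intro X hX hne hXY
  by_contra hcon
  push Not at hcon
  apply hXY
  obtain ⟨x, hx⟩ := hne
  obtain ⟨S, hS, hc, h1, h2⟩ := h x (hX hx)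
  have hv : v ∈ X := hubs_closed hc X (fun d a _ c => hcon d a (hS c)) h1 h2 hx
  refine Subset.antisymm hX fun u hu => ?_
  obtain ⟨T, hT, hc', h3, h4⟩ := h u hu
  exact hubs_closed hc' X (fun d a _ c => hcon d a (hT c)) h4 h3 hv

lemma hubs_conn_insert {G : MG V E} {D : Finset V} (h : Conn G D) (d : E × Bool)
    (hD : hd G (opp d) ∈ D) : Conn G (insert (hd G d) D) := by
  intro X hX hne hXY
  by_contra hcon
  push Not at hcon
  apply hXY
  obtain ⟨x, hx⟩ := hne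
  have hcl : ∀ d', hd G d' ∈ X → hd G d' ∈ D → hd G (opp d') ∈ D → hd G (opp d') ∈ X :=
    fun d' a _ c => hcon d' a (mem_insert_of_mem c)
  have hu : hd G (opp d) ∈ X := by
    rcases mem_insert.1 (hX hx) with rfl | hxD
    · exact hcon d hx (mem_insert_of_mem hD)
    · exact hubs_closed h X hcl hxD hD hx
  refine Subset.antisymm hX fun u hu' => ?_
  rcases mem_insert.1 hu' with rfl | huD
  · have := hcon (opp d) hu (by simp)
    simpa using this
  · exact hubs_closed h X hcl hD huD hu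

/-- A small connected piece with connected complement. -/
lemma hubs_piece (M : MG V E) (C : Finset V) (K w : ℕ) (hw : 1 ≤ w) (hC : Conn M C)
    (hdeg : ∀ P ∈ C, (B M {P}).card ≤ K) (hwC : w ≤ C.card) :
    ∃ A ⊆ C, Conn M A ∧ Conn M (C \ A) ∧ w ≤ A.card ∧ A.card ≤ K * (w - 1) + 1 := by
  classical
  obtain ⟨A, hA, hmin⟩ := exists_min_image
    (C.powerset.filter fun A => Conn M A ∧ Conn M (C \ A) ∧ w ≤ A.card) card
    ⟨C, by
      refine mem_filter.2 ⟨mem_powerset_self C, hC, ?_, hwC⟩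
      intro X hX hne
      rw [sdiff_self] at hX
      exact absurd (subset_empty.1 hX) hne.ne_empty⟩
  obtain ⟨hAC, hA1, hA2, hA3⟩ := mem_filter.1 hA
  rw [mem_powerset] at hAC
  refine ⟨A, hAC, hA1, hA2, hA3, ?_⟩
  have hAne : A.Nonempty := card_pos.1 (by omega)
  obtain ⟨v, hvA, hv⟩ : ∃ v ∈ A, Conn M (insert v (C \ A)) := by
    by_cases hAe : A = C
    · obtain ⟨v, hv⟩ := hAne
      refine ⟨v, hv, ?_⟩
      rw [hAe, sdiff_self]
      exact conn_singleton M v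
    · obtain ⟨d, d1, d2, d3⟩ := hC A hAC hAne hAe
      exact ⟨hd M d, d1, hubs_conn_insert hA2 d (mem_sdiff.2 ⟨d2, d3⟩)⟩
  obtain ⟨c, hc⟩ := exists_comps M (A.erase v)
  have hadj : ∀ u ∈ A.erase v, ∃ d, hd M d = v ∧ hd M (opp d) ∈ c u := by
    intro u hu
    obtain ⟨c1, c2, -, -, c5⟩ := hc u hu
    obtain ⟨d, d1, d2, d3⟩ := hA1 (c u) (c2.trans (erase_subset v A)) ⟨u, c1⟩
      (fun he => notMem_erase v A (c2 (he.symm ▸ hvA)))
    have := (mem_B.1 (c5 (mem_B.2 ⟨d1, d3⟩))).2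
    refine ⟨opp d, ?_, by simpa using d1⟩
    by_contra hne
    exact this (mem_erase.2 ⟨hne, d2⟩)
  have hsmall : ∀ u ∈ A.erase v, (c u).card ≤ w - 1 := by
    intro u hu
    obtain ⟨c1, c2, c3, c4, -⟩ := hc u hu
    by_contra hbig
    have hvc : v ∉ c u := fun h => notMem_erase v A (c2 h)
    have hconn : Conn M (C \ c u) := by
      apply hubs_conn_star _ v
      intro x hx
      obtain ⟨hxC, hxc⟩ := mem_sdiff.1 hx
      by_cases hxA : x ∈ A.erase v
      · obtain ⟨e1, e2, e3, e4, -⟩ := hc x hxA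
        obtain ⟨d, d1, d2⟩ := hadj x hxA
        refine ⟨insert v (c x), ?_, d1 ▸ hubs_conn_insert e4 d d2, mem_insert_of_mem e1,
          mem_insert_self _ _⟩
        intro y hy
        rcases mem_insert.1 hy with rfl | hy
        · exact mem_sdiff.2 ⟨hAC hvA, hvc⟩
        · refine mem_sdiff.2 ⟨hAC (erase_subset v A (e2 hy)), fun hyc => hxc ?_⟩
          rw [← c3 y hyc, e3 y hy]
          exact e1
      · refine ⟨insert v (C \ A), ?_, hv, ?_, mem_insert_self _ _⟩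
        · intro y hy
          rcases mem_insert.1 hy with rfl | hy
          · exact mem_sdiff.2 ⟨hAC hvA, hvc⟩
          · exact mem_sdiff.2 ⟨(mem_sdiff.1 hy).1,
              fun hyc => (mem_sdiff.1 hy).2 (erase_subset v A (c2 hyc))⟩
        · by_cases hxv : x = v
          · exact mem_insert.2 (Or.inl hxv)
          · exact mem_insert_of_mem (mem_sdiff.2 ⟨hxC, fun h => hxA (mem_erase.2 ⟨hxv, h⟩)⟩)
    have h1 := hmin (c u) (mem_filter.2 ⟨mem_powerset.2
      ((c2.trans (erase_subset v A)).trans hAC), c4, hconn, by omega⟩)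
    have h2 := card_le_card c2
    rw [card_erase_of_mem hvA] at h2
    omega
  have hsub : A.erase v ⊆ (B M {v}).biUnion fun d =>
      if hd M (opp d) ∈ A.erase v then c (hd M (opp d)) else ∅ := by
    intro u hu
    obtain ⟨c1, c2, c3, -, -⟩ := hc u hu
    obtain ⟨d, d1, d2⟩ := hadj u hu
    refine mem_biUnion.2 ⟨d, mem_B.2 ⟨by simp [d1], ?_⟩, ?_⟩
    · simpa using (mem_erase.1 (c2 d2)).1
    · rw [if_pos (c2 d2), c3 _ d2]
      exact c1
  have h3 := (card_le_card hsub).trans (card_biUnion_le_card_mul _ _ (w - 1) fun d _ => by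
    split_ifs with h
    · exact hsmall _ h
    · simp)
  rw [card_erase_of_mem hvA] at h3
  have h4 := Nat.mul_le_mul_right (w - 1) (hdeg v (hAC hvA))
  omega

/-- Splitting a connected set into connected classes of comparable size. -/
lemma hubs_split (M : MG V E) (K w : ℕ) (hw : 1 ≤ w) (n : ℕ) : ∀ C : Finset V, C.card = n →
    Conn M C → (∀ P ∈ C, (B M {P}).card ≤ K) → w ≤ C.card →
    ∃ c : V → Finset V, ∀ P ∈ C, P ∈ c P ∧ c P ⊆ C ∧ (∀ Q ∈ c P, c Q = c P) ∧ Conn M (c P) ∧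
      w ≤ (c P).card ∧ (c P).card ≤ (K + 1) * w := by
  induction n using Nat.strong_induction_on with
  | _ n ih =>
    intro C hn hC hdeg hwC
    by_cases hs : C.card ≤ (K + 1) * w
    · exact ⟨fun _ => C, fun P hP => ⟨hP, Subset.refl _, fun _ _ => rfl, hC, hwC, hs⟩⟩
    obtain ⟨A, hAC, hA1, hA2, hA3, hA4⟩ := hubs_piece M C K w hw hC hdeg hwC
    have hK : K * (w - 1) ≤ K * w := Nat.mul_le_mul_left K (Nat.sub_le w 1)
    have he : (K + 1) * w = K * w + w := by ring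
    have hcard : (C \ A).card = C.card - A.card := card_sdiff_of_subset hAC
    obtain ⟨c, hc⟩ := ih (C \ A).card (by omega) (C \ A) rfl hA2
      (fun P hP => hdeg P (mem_sdiff.1 hP).1) (by omega)
    refine ⟨fun P => if P ∈ A then A else c P, fun P hP => ?_⟩
    by_cases hPA : P ∈ A
    · simp only [if_pos hPA]
      exact ⟨hPA, hAC, fun Q hQ => if_pos hQ, hA1, hA3, by omega⟩
    · simp only [if_neg hPA]
      obtain ⟨c1, c2, c3, c4, c5, c6⟩ := hc P (mem_sdiff.2 ⟨hP, hPA⟩)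
      exact ⟨c1, c2.trans sdiff_subset,
        fun Q hQ => by rw [if_neg (mem_sdiff.1 (c2 hQ)).2, c3 Q hQ], c4, c5, c6⟩

/-- Cells and systems inside one cluster. -/
lemma hubs_cells (M : MG V E) (K q k : ℕ) (hq : 0 < q) (hk : 0 < k) (S : Finset V)
    (hS : Conn M S) (hdeg : ∀ P ∈ S, (B M {P}).card ≤ K) (hbig : k * (K + 1) * q ≤ S.card) :
    ∃ (c : V → Finset V) (f : Finset V → Fin k),
      (∀ P ∈ S, P ∈ c P ∧ c P ⊆ S ∧ (∀ Q ∈ c P, c Q = c P) ∧ Conn M (c P) ∧ q ≤ (c P).card) ∧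
      ∀ s, ∃ Q ∈ S, f (c Q) = s := by
  have hq' : q ≤ k * (K + 1) * q := Nat.le_mul_of_pos_left q (by positivity)
  obtain ⟨c, hc⟩ := hubs_split M K q hq S.card S rfl hS hdeg (hq'.trans hbig)
  have hsub : S ⊆ (S.image c).biUnion id := fun P hP =>
    mem_biUnion.2 ⟨c P, mem_image_of_mem c hP, (hc P hP).1⟩
  have h1 := (card_le_card hsub).trans (card_biUnion_le_card_mul _ _ ((K + 1) * q) fun T hT => by
    obtain ⟨P, hP, rfl⟩ := mem_image.1 hT
    exact (hc P hP).2.2.2.2.2)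
  have h2 : k ≤ (S.image c).card := by
    refine Nat.le_of_mul_le_mul_right (c := (K + 1) * q) ?_ (by positivity)
    rw [← mul_assoc]
    exact hbig.trans h1
  obtain ⟨g⟩ : Nonempty (Fin k ↪ (S.image c : Finset (Finset V))) :=
    Function.Embedding.nonempty_of_card_le (by rw [Fintype.card_fin, Fintype.card_coe]; exact h2)
  have : Nonempty (Fin k) := ⟨⟨0, hk⟩⟩
  have hinj : Function.Injective fun s => ((g s : (S.image c : Finset (Finset V))) : Finset V) :=
    Subtype.val_injective.comp g.injective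
  refine ⟨c, Function.invFun fun s => ((g s : (S.image c : Finset (Finset V))) : Finset V),
    fun P hP => ?_, fun s => ?_⟩
  · obtain ⟨c1, c2, c3, c4, c5, -⟩ := hc P hP
    exact ⟨c1, c2, c3, c4, c5⟩
  · obtain ⟨Q, hQ, he⟩ := mem_image.1 (g s).2
    exact ⟨Q, hQ, by rw [he]; exact Function.leftInverse_invFun hinj s⟩

theorem exists_hubs (M : MG V E) (C : Finset V) (K q k : ℕ) (hq : 0 < q) (hk : 0 < k)
    (hC : Conn M C) (hdeg : ∀ P ∈ C, (B M {P}).card ≤ K) (hbig : k * (K + 1) * q ≤ C.card) :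
    ∃ (cl cell : V → Finset V) (sys : V → Fin k),
      IsHubs M C q ((K + 1) * (k * (K + 1) * q)) cl cell sys := by
  obtain ⟨cl, hcl⟩ := hubs_split M K (k * (K + 1) * q) (Nat.succ_le_of_lt (by positivity))
    C.card C rfl hC hdeg hbig
  have key : ∀ S : Finset V, ∃ (c : V → Finset V) (f : Finset V → Fin k),
      (∃ P ∈ C, cl P = S) →
      (∀ P ∈ S, P ∈ c P ∧ c P ⊆ S ∧ (∀ Q ∈ c P, c Q = c P) ∧ Conn M (c P) ∧ q ≤ (c P).card) ∧
      ∀ s, ∃ Q ∈ S, f (c Q) = s := by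
    intro S
    by_cases h : ∃ P ∈ C, cl P = S
    · obtain ⟨P, hP, rfl⟩ := h
      obtain ⟨-, c2, -, c4, c5, -⟩ := hcl P hP
      obtain ⟨c, f, h⟩ := hubs_cells M K q k hq hk (cl P) c4 (fun Q hQ => hdeg Q (c2 hQ)) c5
      exact ⟨c, f, fun _ => h⟩
    · exact ⟨fun _ => ∅, fun _ => ⟨0, hk⟩, fun h' => absurd h' h⟩
  choose c f hcf using key
  have h1 := fun P hP => (hcf (cl P) ⟨P, hP, rfl⟩).1 P (hcl P hP).1
  refine ⟨cl, fun P => c (cl P) P, fun P => f (cl P) (c (cl P) P),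
    fun P hP => (h1 P hP).1, fun P hP => (h1 P hP).2.1, fun P hP => (hcl P hP).2.1,
    fun P hP => (hcl P hP).2.2.1, fun P hP Q hQ => ?_, fun P hP => (hcl P hP).2.2.2.2.2,
    fun P hP => (h1 P hP).2.2.2.2, fun P hP => (hcl P hP).2.2.2.1,
    fun P hP => (h1 P hP).2.2.2.1, fun P hP s => ?_⟩
  · have e1 : cl Q = cl P := (hcl P hP).2.2.1 Q ((h1 P hP).2.1 hQ)
    have e2 := (h1 P hP).2.2.1 Q hQ
    simp only [e1, e2, and_self]
  · obtain ⟨Q, hQ, he⟩ := (hcf (cl P) ⟨P, hP, rfl⟩).2 s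
    exact ⟨Q, hQ, by simp only [(hcl P hP).2.2.1 Q hQ, he]⟩

end Pool.Agent.ATJ
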