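import Pool.Agent.Lib.ATJ.Rec
import Pool.Agent.Lib.ATJ.Deg
import Pool.Agent.Lib.ATJ.EJ
import Pool.Agent.Lib.Flows.Range

set_option autoImplicit false
set_option linter.unusedSectionVars false

namespace Pool.Agent.ATJ

open Finset Pool.Agent.Flows

variable {V E : Type} [Fintype V] [DecidableEq V] [Fintype E] [DecidableEq E]

lemma main_sg (x : E → ZMod 2) (e : E) : sg (x e) = 1 - 2 * (MG.ind x e : ℝ) := by
  unfold MG.ind
  rcases z2c (x e) with h | h
  · simp [h]
  · rw [h]; norm_num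

lemma main_cast (x : E → ZMod 2) (e : E) : ((MG.ind x e : ℤ) : ZMod 2) = x e := by
  unfold MG.ind
  rcases z2c (x e) with h | h <;> simp [h]

/-- File Main.lean -/
theorem cov_of_margin (A : ℕ) : ∃ c0 : ℕ, ∀ c : ℕ, c0 ≤ c →
    ∀ (V E : Type) [Fintype V] [DecidableEq V] [Fintype E] [DecidableEq E] (G : MG V E)
      (p : E → ℤ), G.Bridgeless → (∀ X e f, e ≠ f → G.cut X = {e, f} → p e = p f) →
      (G.IsFlow fun e => (p e : ZMod 2)) → (∀ e, c ≤ p e ∧ p e ≤ A * c) →
      (∀ X, ∀ e ∈ G.cut X, 2 * (p e - c) ≤ ∑ f ∈ G.cut X, (p f - c)) → p ∈ G.Cov := by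
  obtain ⟨N0, hN0⟩ := approx_cubic (1 / (40 * ((A : ℝ) + 1))) (by positivity)
  refine ⟨max N0 200, fun c hc V E _ _ _ _ G p hB h2 h0 hp hcut => ?_⟩
  have hc1 : N0 ≤ c := le_of_max_le_left hc
  have hc2 : 200 ≤ c := le_of_max_le_right hc
  have hcR : (0 : ℝ) < c := by exact_mod_cast (by omega : 0 < c)
  set N : ℕ := 2 * (A + 1) * c with hN
  have hNR : (N : ℝ) = 2 * ((A : ℝ) + 1) * c := by rw [hN]; push_cast; ring
  have hNpos : (0 : ℝ) < N := by rw [hNR]; positivity
  have hNc : N0 ≤ N := by rw [hN]; nlinarith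
  have happ := deg_red _ N (hN0 N hNc) G
  obtain ⟨ν, hν⟩ := exists_meas G (fun e => ((p e : ℝ) - c) / N)
    (fun e => by
      have : (c : ℝ) ≤ p e := by exact_mod_cast (hp e).1
      exact div_nonneg (by linarith) hNpos.le)
    (fun e => by
      have : (p e : ℝ) ≤ A * c := by exact_mod_cast (hp e).2
      rw [div_le_iff₀ hNpos, hNR]
      nlinarith)
    (fun X e he => by
      have : 2 * ((p e : ℝ) - c) ≤ ∑ f ∈ G.cut X, ((p f : ℝ) - c) := by
        exact_mod_cast hcut X e he
      rw [← sum_div, ← mul_div_assoc]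
      exact div_le_div_of_nonneg_right this hNpos.le)
  obtain ⟨J, hJ1, hJ2⟩ := happ _ _ hν
  let r : E → ℤ := fun e => p e - ∑ i, MG.ind (J i) e
  have hr : ∀ e, 39 * (c : ℤ) ≤ 40 * r e ∧ 40 * r e ≤ 41 * c := by
    intro e
    have h3 := hJ2 e
    have h4 : ∑ i, sg (J i e) - N * (1 - 2 * (((p e : ℝ) - c) / N)) = 2 * ((r e : ℝ) - c) := by
      simp only [main_sg, r]
      rw [sum_sub_distrib, ← mul_sum]
      simp only [sum_const, card_univ, Fintype.card_fin, nsmul_eq_mul, mul_one]
      push_cast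
      field_simp
      ring
    have h5 : 1 / (40 * ((A : ℝ) + 1)) * N = c / 20 := by
      rw [hNR]; field_simp; ring
    rw [h4, h5, abs_le] at h3
    constructor
    · have : 39 * (c : ℝ) ≤ 40 * r e := by linarith [h3.1]
      exact_mod_cast this
    · have : 40 * (r e : ℝ) ≤ 41 * c := by linarith [h3.2]
      exact_mod_cast this
  have hcov : r ∈ G.Cov := by
    refine MG.range_cov (c / 80 + 1) ((39 * c / 40 - 32 * (c / 80 + 1) - 16) / 2) G r hB ?_ ?_ ?_
    · intro X e f hef hX
      simp only [r]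
      rw [h2 X e f hef hX]
      congr 1
      refine sum_congr rfl fun i _ => ?_
      have := hJ1 i X
      rw [hX, sum_pair hef, z2eq] at this
      simp only [MG.ind, this]
    · intro X
      have h3 := h0 X
      have h4 := MG.IsFlow.sum univ J (fun i _ => hJ1 i) X
      simp only [r]
      push_cast
      simp only [main_cast]
      rw [sum_sub_distrib, h3]
      simp only [Finset.sum_apply] at h4
      rw [h4, sub_zero]
    · intro e
      have := hr e
      omega
  have := add_mem hcov (AddSubmonoid.sum_mem G.Cov (t := univ) fun i _ => MG.ind_mem (hJ1 i))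
  convert this using 1
  ext e
  simp [r, Finset.sum_apply]

end Pool.Agent.ATJ
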