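import Pool.Agent.Lib.ATJ.Defs
import Pool.Agent.Lib.Flows.Range

/-!
Nested Steiner packing: Eulerian splitting-off and Edmonds' branching theorem.
-/

set_option autoImplicit false
set_option linter.unusedSectionVars false

namespace Pool.Agent.ATJ

open Finset Pool.Agent.Flows

variable {V E : Type} [Fintype V] [DecidableEq V] [Fintype E] [DecidableEq E]

/-! ### Cut counting -/

lemma nsp_cut_compl (G : MG V E) (X : Finset V) : G.cut Xᶜ = G.cut X := by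
  ext e
  simp only [MG.mem_cut, mem_compl]
  tauto

lemma nsp_submod (G : MG V E) (X Y : Finset V) :
    (G.cut (X ∩ Y)).card + (G.cut (X ∪ Y)).card ≤ (G.cut X).card + (G.cut Y).card := by
  simpa only [MG.card_ent_univ] using G.ent_submod univ X Y

lemma nsp_posi (G : MG V E) (X Y : Finset V) (a : E × Bool) (h1 : hd G a ∉ X) (h2 : hd G a ∉ Y)
    (h3 : hd G (opp a) ∈ X) (h4 : hd G (opp a) ∈ Y) :
    (G.cut (X \ Y)).card + (G.cut (Y \ X)).card < (G.cut X).card + (G.cut Y).card := by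
  simp only [MG.cut, card_filter, ← sum_add_distrib]
  refine sum_lt_sum (fun e _ => ?_) ⟨a.1, mem_univ _, ?_⟩
  · by_cases h1 : G.en e false ∈ X <;> by_cases h2 : G.en e false ∈ Y <;>
      by_cases h3 : G.en e true ∈ X <;> by_cases h4 : G.en e true ∈ Y <;> simp [h1, h2, h3, h4]
  · obtain ⟨e, b⟩ := a
    cases b <;> simp_all

lemma nsp_inner (G : MG V E) (C X : Finset V) (hX : X ⊆ C) :
    (G.cut X).card + (G.cut (C \ X)).card =
      (G.cut C).card + 2 * (G.ent (univ.filter fun d => In G C d.1) X).card := by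
  simp only [MG.cut, MG.ent, filter_filter, card_filter, Fintype.sum_prod_type, Fintype.sum_bool,
    mul_sum, ← sum_add_distrib]
  refine sum_congr rfl fun e _ => ?_
  have a1 := @hX (G.en e false)
  have a2 := @hX (G.en e true)
  by_cases h1 : G.en e false ∈ X <;> by_cases h2 : G.en e false ∈ C <;>
    by_cases h3 : G.en e true ∈ X <;> by_cases h4 : G.en e true ∈ C <;> simp_all [In]

lemma nsp_card_two (S : Finset E) {p q : E} (h : p ≠ q) :
    S.card = (S \ {p, q}).card + (if p ∈ S then 1 else 0) + (if q ∈ S then 1 else 0) := by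
  rw [← card_sdiff_add_card_inter S {p, q}, add_assoc]
  congr 1
  by_cases hp : p ∈ S <;> by_cases hq : q ∈ S <;>
    simp [hp, hq, h, inter_insert_of_mem, inter_insert_of_notMem]

lemma nsp_fst_eq {a b : E × Bool} (h : a.1 = b.1) : a = b ∨ a = opp b := by
  obtain ⟨e, s⟩ := a
  obtain ⟨f, r⟩ := b
  cases s <;> cases r <;> simp_all

lemma nsp_nonLoop {G : MG V E} {d : E × Bool} : d.1 ∈ G.nonLoops ↔ hd G d ≠ hd G (opp d) := by
  obtain ⟨e, s⟩ := d
  cases s <;> simp [MG.nonLoops, eq_comm]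

/-! ### Splitting off -/

/-- Splitting off the darts `a`, `b` at a common vertex. -/
def nspSpl (G : MG V E) (a b : E × Bool) : MG V E :=
  ⟨fun e s => hd G (Equiv.swap a (opp b) (e, s))⟩

lemma nsp_hd_spl (G : MG V E) (a b d : E × Bool) :
    hd (nspSpl G a b) d = hd G (Equiv.swap a (opp b) d) := rfl

lemma nsp_spl_other (G : MG V E) {a b d : E × Bool} (h1 : d.1 ≠ a.1) (h2 : d.1 ≠ b.1) :
    hd (nspSpl G a b) d = hd G d := by
  rw [nsp_hd_spl, Equiv.swap_apply_of_ne_of_ne]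
  · exact fun h => h1 (h ▸ rfl)
  · exact fun h => h2 (h ▸ rfl)

lemma nsp_spl_a (G : MG V E) (a b : E × Bool) : hd (nspSpl G a b) a = hd G (opp b) := by
  rw [nsp_hd_spl, Equiv.swap_apply_left]

lemma nsp_spl_ob (G : MG V E) (a b : E × Bool) : hd (nspSpl G a b) (opp b) = hd G a := by
  rw [nsp_hd_spl, Equiv.swap_apply_right]

lemma nsp_spl_oa (G : MG V E) {a b : E × Bool} (h : a.1 ≠ b.1) :
    hd (nspSpl G a b) (opp a) = hd G (opp a) := by
  rw [nsp_hd_spl, Equiv.swap_apply_of_ne_of_ne (opp_ne a)]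
  exact fun h' => h (congrArg Prod.fst h' : (opp a).1 = (opp b).1)

lemma nsp_spl_b (G : MG V E) {a b : E × Bool} (h : a.1 ≠ b.1) :
    hd (nspSpl G a b) b = hd G b := by
  rw [nsp_hd_spl, Equiv.swap_apply_of_ne_of_ne _ (opp_ne b).symm]
  exact fun h' => h (congrArg Prod.fst h').symm

lemma nsp_cut_spl (G : MG V E) {a b : E × Bool} (h : a.1 ≠ b.1) (hab : hd G a = hd G b)
    (X : Finset V) : ((nspSpl G a b).cut X).card = (G.cut X).card ∨
      (((nspSpl G a b).cut X).card + 2 = (G.cut X).card ∧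
        (hd G (opp a) ∈ X ↔ hd G (opp b) ∈ X) ∧ ¬ (hd G a ∈ X ↔ hd G (opp a) ∈ X)) := by
  have h0 : (nspSpl G a b).cut X \ {a.1, b.1} = G.cut X \ {a.1, b.1} := by
    ext e
    simp only [mem_sdiff, mem_insert, mem_singleton, not_or]
    refine and_congr_left fun he => ?_
    have e1 := nsp_spl_other G (d := (e, false)) he.1 he.2
    have e2 := nsp_spl_other G (d := (e, true)) he.1 he.2
    simp only [hd_mk] at e1 e2
    rw [MG.mem_cut, MG.mem_cut, e1, e2]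
  rw [nsp_card_two ((nspSpl G a b).cut X) h, nsp_card_two (G.cut X) h, h0]
  simp only [mem_cut_iff, nsp_spl_a, nsp_spl_ob, nsp_spl_oa G h, nsp_spl_b G h, ← hab]
  by_cases h1 : hd G a ∈ X <;> by_cases h2 : hd G (opp a) ∈ X <;>
    by_cases h3 : hd G (opp b) ∈ X <;> simp [h1, h2, h3]

lemma nsp_nonLoops_spl (G : MG V E) {a b : E × Bool} (h : a.1 ≠ b.1) (hab : hd G a = hd G b)
    (ha : hd G a ≠ hd G (opp a)) (hb : hd G b ≠ hd G (opp b)) :
    (nspSpl G a b).nonLoops.card < G.nonLoops.card := by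
  refine card_lt_card ⟨fun e he => ?_, fun hs => ?_⟩
  · by_cases h1 : e = a.1
    · exact h1 ▸ nsp_nonLoop.2 ha
    by_cases h2 : e = b.1
    · exact h2 ▸ nsp_nonLoop.2 hb
    have e0 := (nsp_nonLoop (d := (e, false))).1 he
    rw [nsp_spl_other G (d := (e, false)) h1 h2, nsp_spl_other G (d := opp (e, false)) h1 h2] at e0
    exact (nsp_nonLoop (d := (e, false))).2 e0
  · have := nsp_nonLoop.1 (hs (nsp_nonLoop.2 hb))
    rw [nsp_spl_b G h, nsp_spl_ob] at this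
    exact this hab.symm

lemma nsp_bd_spl (G : MG V E) {a b : E × Bool} (h : a.1 ≠ b.1) (hab : hd G a = hd G b)
    (y : E → ZMod 2) (w : V) :
    G.bd (fun e => y (if e = b.1 then a.1 else e)) w = (nspSpl G a b).bd y w := by
  let y0 : E → ZMod 2 := fun e => if e = a.1 ∨ e = b.1 then 0 else y e
  have e1 : (fun e => y (if e = b.1 then a.1 else e)) =
      y0 + Pi.single a.1 (y a.1) + Pi.single b.1 (y a.1) := by
    ext e
    by_cases h1 : e = a.1
    · simp [y0, h1, h]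
    by_cases h2 : e = b.1
    · simp [y0, h2, h.symm]
    simp [y0, h1, h2]
  have e2 : y = y0 + Pi.single a.1 (y a.1) + Pi.single b.1 (y b.1) := by
    ext e
    by_cases h1 : e = a.1
    · simp [y0, h1, h]
    by_cases h2 : e = b.1
    · simp [y0, h2, h.symm]
    simp [y0, h1, h2]
  have e3 : G.bd y0 w = (nspSpl G a b).bd y0 w := by
    simp only [MG.bd, sum_filter]
    refine sum_congr rfl fun d _ => ?_
    by_cases h1 : d.1 = a.1 ∨ d.1 = b.1
    · simp [y0, h1]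
    · have := nsp_spl_other G (not_or.1 h1).1 (not_or.1 h1).2
      simp only [hd] at this
      rw [this]
  rw [e1]
  conv_rhs => rw [e2]
  simp only [bd_add, bd_single, e3, nsp_spl_a, nsp_spl_ob, nsp_spl_oa G h, nsp_spl_b G h, ← hab]
  rw [z2a, add_zero, add_assoc]
  congr 1
  generalize (if hd G a = w then y a.1 else 0) = p
  generalize (if hd G (opp a) = w then y a.1 else 0) = q
  generalize (if hd G (opp b) = w then y a.1 else 0) = r
  revert p q r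
  decide

/-! ### Hypotheses and conclusion -/

/-- The hypotheses of the packing theorem. -/
structure NspH {ι : Type} (Γ : MG V E) (D : Finset ι) (dom t : ι → Finset V) (c c' : ℕ) :
    Prop where
  ev : ∀ X, Even (Γ.cut X).card
  sub : ∀ i ∈ D, t i ⊆ dom i
  lam : ∀ i ∈ D, ∀ j ∈ D, i ≠ j → (dom i ⊂ dom j ∧ Disjoint (t j) (dom i)) ∨
      (dom j ⊂ dom i ∧ Disjoint (t i) (dom j)) ∨ Disjoint (dom i) (dom j)
  adj : ∀ a, ∀ i ∈ D, ∀ j ∈ D, hd Γ a ∈ dom i → hd Γ (opp a) ∈ dom j →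
      dom i ⊆ dom j ∨ dom j ⊆ dom i
  le : ∀ i ∈ D, (Γ.cut (dom i)).card ≤ 2 * c
  ge : ∀ i ∈ D, ∀ X ⊆ dom i, (∃ x ∈ t i, x ∈ X) → (∃ x ∈ t i, x ∉ X) →
      2 * c' ≤ (Γ.cut X).card

/-- The conclusion of the packing theorem. -/
def NspC {ι : Type} (Γ : MG V E) (D : Finset ι) (dom t : ι → Finset V) (k : ℕ) : Prop :=
  ∃ Φ : Fin k → Finset E, (∀ a, (univ.filter fun j => a ∈ Φ j).card ≤ 2) ∧
    ∀ i ∈ D, ∀ j, ∀ g : V → ZMod 2, (∀ w, g w ≠ 0 → w ∈ t i) → ∑ w, g w = 0 →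
      ∃ y : E → ZMod 2, (∀ a, y a ≠ 0 → a ∈ Φ j ∧ In Γ (dom i) a) ∧ ∀ w, Γ.bd y w = g w

/-- `X` lies in the domain of `i` and separates its terminals. -/
def NspSep {ι : Type} (dom t : ι → Finset V) (i : ι) (X : Finset V) : Prop :=
  X ⊆ dom i ∧ (∃ x ∈ t i, x ∈ X) ∧ ∃ x ∈ t i, x ∉ X

/-- `X` or its complement is a separating set. -/
def NspGood {ι : Type} (D : Finset ι) (dom t : ι → Finset V) (X : Finset V) : Prop :=
  ∃ i ∈ D, NspSep dom t i X ∨ NspSep dom t i Xᶜ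

/-- One of the two diagonal pairs of corners is good. -/
def NspDiag {ι : Type} (D : Finset ι) (dom t : ι → Finset V) (X Y : Finset V) : Prop :=
  (NspGood D dom t (X ∩ Y) ∧ NspGood D dom t (X ∪ Y)) ∨
    (NspGood D dom t (X \ Y) ∧ NspGood D dom t (Y \ X))

section Main

variable {ι : Type} [DecidableEq ι] {Γ : MG V E} {D : Finset ι} {dom t : ι → Finset V}
  {c c' k : ℕ}

lemma NspGood.compl {X : Finset V} (h : NspGood D dom t X) : NspGood D dom t Xᶜ := by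
  obtain ⟨i, hi, h⟩ := h
  exact ⟨i, hi, by rw [compl_compl]; exact h.symm⟩

lemma NspH.good (H : NspH Γ D dom t c c') {X : Finset V} (h : NspGood D dom t X) :
    2 * c' ≤ (Γ.cut X).card := by
  obtain ⟨i, hi, h | h⟩ := h
  · exact H.ge i hi X h.1 h.2.1 h.2.2
  · rw [← nsp_cut_compl]
    exact H.ge i hi _ h.1 h.2.1 h.2.2

lemma NspDiag.symm {X Y : Finset V} (h : NspDiag D dom t X Y) : NspDiag D dom t Y X := by
  unfold NspDiag at h ⊢
  rw [inter_comm, union_comm]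
  tauto

lemma NspDiag.compl {X Y : Finset V} (h : NspDiag D dom t Xᶜ Y) : NspDiag D dom t X Y := by
  have e1 : X ∩ Y = Y \ Xᶜ := by ext; simp [and_comm]
  have e2 : X ∪ Y = (Xᶜ \ Y)ᶜ := by ext; simp; tauto
  have e3 : X \ Y = (Xᶜ ∪ Y)ᶜ := by ext; simp
  have e4 : Y \ X = Xᶜ ∩ Y := by ext; simp [and_comm]
  unfold NspDiag at h ⊢
  rw [e1, e2, e3, e4]
  rcases h with h | h
  · exact Or.inr ⟨h.2.compl, h.1⟩
  · exact Or.inl ⟨h.2, h.1.compl⟩

lemma nsp_diag_lt {i j : ι} (hi : i ∈ D) (hj : j ∈ D) (hs : dom i ⊆ dom j)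
    (hd : Disjoint (t j) (dom i)) {P Q : Finset V} (hP : NspSep dom t i P)
    (hQ : NspSep dom t j Q) : NspDiag D dom t P Q := by
  obtain ⟨hP, ⟨r, hr, hr'⟩, s, hs1, hs'⟩ := hP
  obtain ⟨hQ, ⟨p, hp, hp'⟩, q, hq, hq'⟩ := hQ
  have hpP : p ∉ P := fun h => disjoint_left.1 hd hp (hP h)
  have hqP : q ∉ P := fun h => disjoint_left.1 hd hq (hP h)
  by_cases h : r ∈ Q
  · refine Or.inl ⟨⟨i, hi, Or.inl ⟨inter_subset_left.trans hP, ⟨r, hr, by simp [*]⟩,
      s, hs1, by simp [*]⟩⟩, ⟨j, hj, Or.inl ⟨union_subset (hP.trans hs) hQ,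
      ⟨p, hp, by simp [*]⟩, q, hq, by simp [*]⟩⟩⟩
  · refine Or.inr ⟨⟨i, hi, Or.inl ⟨sdiff_subset.trans hP, ⟨r, hr, by simp [*]⟩,
      s, hs1, by simp [*]⟩⟩, ⟨j, hj, Or.inl ⟨sdiff_subset.trans hQ,
      ⟨p, hp, by simp [*]⟩, q, hq, by simp [*]⟩⟩⟩

lemma nsp_diag_eq {i : ι} (hi : i ∈ D) {P Q : Finset V} (hP : NspSep dom t i P)
    (hQ : NspSep dom t i Q) : NspDiag D dom t P Q := by
  obtain ⟨hP, ⟨r, hr, hr'⟩, s, hs, hs'⟩ := hP
  obtain ⟨hQ, ⟨p, hp, hp'⟩, q, hq, hq'⟩ := hQ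
  have L : ∀ x ∈ t i, ∀ y ∈ t i, x ∈ P → x ∈ Q → y ∉ P → y ∉ Q → NspDiag D dom t P Q :=
    fun x hx y hy a1 a2 a3 a4 => Or.inl ⟨⟨i, hi, Or.inl ⟨inter_subset_left.trans hP,
      ⟨x, hx, by simp [*]⟩, y, hy, by simp [*]⟩⟩, ⟨i, hi, Or.inl ⟨union_subset hP hQ,
      ⟨x, hx, by simp [*]⟩, y, hy, by simp [*]⟩⟩⟩
  have R : ∀ x ∈ t i, ∀ y ∈ t i, x ∈ P → x ∉ Q → y ∉ P → y ∈ Q → NspDiag D dom t P Q :=
    fun x hx y hy a1 a2 a3 a4 => Or.inr ⟨⟨i, hi, Or.inl ⟨sdiff_subset.trans hP,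
      ⟨x, hx, by simp [*]⟩, y, hy, by simp [*]⟩⟩, ⟨i, hi, Or.inl ⟨sdiff_subset.trans hQ,
      ⟨y, hy, by simp [*]⟩, x, hx, by simp [*]⟩⟩⟩
  by_cases h1 : r ∈ Q
  · by_cases h2 : s ∈ Q
    · by_cases h3 : q ∈ P
      · exact R q hq s hs h3 hq' hs' h2
      · exact L r hr q hq hr' h1 h3 hq'
    · exact L r hr s hs hr' h1 hs' h2
  · by_cases h2 : s ∈ Q
    · exact R r hr s hs hr' h1 hs' h2
    · by_cases h3 : p ∈ P
      · exact L p hp s hs h3 hp' hs' h2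
      · exact R r hr p hp hr' h1 h3 hp'

lemma NspH.diag (H : NspH Γ D dom t c c') {i j : ι} (hi : i ∈ D) (hj : j ∈ D) {v : V}
    (hvi : v ∈ dom i) (hvj : v ∈ dom j) {P Q : Finset V} (hP : NspSep dom t i P)
    (hQ : NspSep dom t j Q) : NspDiag D dom t P Q := by
  by_cases h : i = j
  · subst h
    exact nsp_diag_eq hi hP hQ
  rcases H.lam i hi j hj h with h | h | h
  · exact nsp_diag_lt hi hj h.1.subset h.2 hP hQ
  · exact (nsp_diag_lt hj hi h.1.subset h.2 hQ hP).symm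
  · exact absurd hvj (disjoint_left.1 h hvi)

lemma NspH.nested (H : NspH Γ D dom t c c') {i j : ι} (hi : i ∈ D) (hj : j ∈ D) {v : V}
    (hvi : v ∈ dom i) (hvj : v ∈ dom j) : dom i ⊆ dom j ∨ dom j ⊆ dom i := by
  by_cases h : i = j
  · exact Or.inl (h ▸ Subset.rfl)
  rcases H.lam i hi j hj h with h | h | h
  · exact Or.inl h.1.subset
  · exact Or.inr h.1.subset
  · exact absurd hvj (disjoint_left.1 h hvi)

/-- Some splitting at a non-terminal vertex keeps the lower bounds on cuts. -/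
lemma NspH.exists_split (H : NspH Γ D dom t c c') (a : E × Bool)
    (ha : hd Γ a ≠ hd Γ (opp a)) (hv : ∀ i ∈ D, hd Γ a ∉ t i)
    (hn : ∀ i ∈ D, hd Γ (opp a) ∈ dom i → hd Γ a ∈ dom i) :
    ∃ b, a.1 ≠ b.1 ∧ hd Γ a = hd Γ b ∧ hd Γ b ≠ hd Γ (opp b) ∧ ∀ i ∈ D, ∀ X ⊆ dom i,
      (∃ x ∈ t i, x ∈ X) → (∃ x ∈ t i, x ∉ X) → 2 * c' ≤ ((nspSpl Γ a b).cut X).card := by
  classical
  by_contra hcon
  push Not at hcon
  let T : Finset (Finset V) := univ.filter fun X => NspGood D dom t X ∧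
    (Γ.cut X).card ≤ 2 * c' ∧ hd Γ (opp a) ∈ X ∧ hd Γ a ∉ X
  have hT : ∀ X, X ∈ T ↔ NspGood D dom t X ∧
    (Γ.cut X).card ≤ 2 * c' ∧ hd Γ (opp a) ∈ X ∧ hd Γ a ∉ X := fun X => by simp [T]
  have h1 : ∀ b, a.1 ≠ b.1 → hd Γ a = hd Γ b → hd Γ b ≠ hd Γ (opp b) →
      ∃ Y ∈ T, hd Γ (opp b) ∈ Y := by
    intro b b1 b2 b3
    obtain ⟨i, hi, X, hX, x1, x2, hlt⟩ := hcon b b1 b2 b3
    have g1 : NspGood D dom t X := ⟨i, hi, Or.inl ⟨hX, x1, x2⟩⟩
    have g2 := H.good g1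
    have g3 := H.ev X
    rcases nsp_cut_spl Γ b1 b2 X with h | ⟨h, k1, k2⟩
    · omega
    have g4 : (Γ.cut X).card ≤ 2 * c' := by
      obtain ⟨m, hm⟩ := g3
      omega
    by_cases hu : hd Γ (opp a) ∈ X
    · exact ⟨X, (hT X).2 ⟨g1, g4, hu, by tauto⟩, k1.1 hu⟩
    · refine ⟨Xᶜ, (hT _).2 ⟨g1.compl, by rwa [nsp_cut_compl], mem_compl.2 hu, ?_⟩, ?_⟩
      · rw [mem_compl]; tauto
      · rw [mem_compl]; tauto
  have h2 : T.Nonempty := by
    have m1 : a ∈ B Γ {hd Γ a} := mem_B.2 ⟨by simp, by simpa using ha.symm⟩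
    have m2 : 1 < (B Γ {hd Γ a}).card := by
      have := card_pos.2 ⟨a, m1⟩
      obtain ⟨m, hm⟩ := H.ev {hd Γ a}
      rw [← card_B] at hm
      omega
    obtain ⟨b, hb, hba⟩ := exists_mem_ne m2 a
    rw [mem_B, mem_singleton, mem_singleton] at hb
    have hab : a.1 ≠ b.1 := fun h => by
      rcases nsp_fst_eq h with h | h
      · exact hba h.symm
      · exact hb.2 (h ▸ rfl)
    obtain ⟨Y, hY, -⟩ := h1 b hab hb.1.symm (fun h => hb.2 (h ▸ hb.1))
    exact ⟨Y, hY⟩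
  obtain ⟨X, hX, hmax⟩ := exists_max_image T card h2
  have key : ∀ Z ∈ T, ∃ i ∈ D, hd Γ a ∈ dom i ∧ (NspSep dom t i Z ∨ NspSep dom t i Zᶜ) := by
    intro Z hZ
    obtain ⟨⟨i, hi, h | h⟩, -, z1, z2⟩ := (hT Z).1 hZ
    · exact ⟨i, hi, hn i hi (h.1 z1), Or.inl h⟩
    · exact ⟨i, hi, h.1 (mem_compl.2 z2), Or.inr h⟩
  have h3 : ∀ Y ∈ T, Y ⊆ X := by
    intro Y hY
    have hdg : NspDiag D dom t X Y := by
      obtain ⟨i, hi, vi, si⟩ := key X hX
      obtain ⟨j, hj, vj, sj⟩ := key Y hY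
      rcases si with si | si <;> rcases sj with sj | sj
      · exact H.diag hi hj vi vj si sj
      · exact (H.diag hi hj vi vj si sj).symm.compl.symm
      · exact (H.diag hi hj vi vj si sj).compl
      · exact (H.diag hi hj vi vj si sj).compl.symm.compl.symm
    obtain ⟨-, x1, x2, x3⟩ := (hT X).1 hX
    obtain ⟨-, y1, y2, y3⟩ := (hT Y).1 hY
    rcases hdg with ⟨g1, g2⟩ | ⟨g1, g2⟩
    · have s1 := nsp_submod Γ X Y
      have s2 := H.good g1
      have s3 := hmax (X ∪ Y) ((hT _).2 ⟨g2, by omega, by simp [x2], by simp [x3, y3]⟩)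
      have s4 := eq_of_subset_of_card_le (subset_union_left : X ⊆ X ∪ Y) s3
      rw [s4]
      exact subset_union_right
    · have s1 := nsp_posi Γ X Y a x3 y3 x2 y2
      have s2 := H.good g1
      have s3 := H.good g2
      omega
  obtain ⟨i, hi, vi, si⟩ := key X hX
  obtain ⟨-, x1, x2, x3⟩ := (hT X).1 hX
  have h4 : ∀ b, hd Γ b = hd Γ a → hd Γ (opp b) ∈ insert (hd Γ a) X := by
    intro b hb
    by_cases b3 : hd Γ b = hd Γ (opp b)
    · rw [← b3, hb]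
      exact mem_insert_self _ _
    by_cases b1 : a.1 = b.1
    · rcases nsp_fst_eq b1 with h | h
      · exact mem_insert_of_mem (h ▸ x2)
      · exact absurd (hb.trans (h ▸ rfl)) b3
    obtain ⟨Y, hY, y1⟩ := h1 b b1 hb.symm b3
    exact mem_insert_of_mem (h3 Y hY y1)
  have g : NspGood D dom t (insert (hd Γ a) X) := by
    have hne : ∀ x ∈ t i, x ≠ hd Γ a := fun x hx h => hv i hi (h ▸ hx)
    refine ⟨i, hi, si.imp ?_ ?_⟩
    · rintro ⟨s1, ⟨p, p1, p2⟩, q, q1, q2⟩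
      exact ⟨insert_subset vi s1, ⟨p, p1, mem_insert_of_mem p2⟩, q, q1, by simp [q2, hne q q1]⟩
    · rintro ⟨s1, ⟨p, p1, p2⟩, q, q1, q2⟩
      refine ⟨(compl_subset_compl.2 (subset_insert _ _)).trans s1, ⟨p, p1, ?_⟩, q, q1, ?_⟩
      · simpa [hne p p1] using p2
      · rw [mem_compl, not_not] at q2 ⊢
        exact mem_insert_of_mem q2
  have g2 := H.good g
  have g3 : (B Γ (insert (hd Γ a) X)).card < (B Γ X).card := by
    refine card_lt_card ⟨fun d hd' => ?_, fun hs => ?_⟩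
    · rw [mem_B] at hd' ⊢
      rcases mem_insert.1 hd'.1 with h | h
      · exact absurd (h4 d h) hd'.2
      · exact ⟨h, fun h' => hd'.2 (mem_insert_of_mem h')⟩
    · have := mem_B.1 (hs (mem_B.2 ⟨x2, by simpa using x3⟩ : opp a ∈ B Γ X))
      simp at this
  rw [card_B, card_B] at g3
  omega

lemma NspH.spl (H : NspH Γ D dom t c c') {a b : E × Bool} (h : a.1 ≠ b.1)
    (hab : hd Γ a = hd Γ b)
    (hn : ∀ d, hd Γ d = hd Γ a → ∀ i ∈ D, hd Γ (opp d) ∈ dom i → hd Γ a ∈ dom i)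
    (hge : ∀ i ∈ D, ∀ X ⊆ dom i, (∃ x ∈ t i, x ∈ X) → (∃ x ∈ t i, x ∉ X) →
      2 * c' ≤ ((nspSpl Γ a b).cut X).card) : NspH (nspSpl Γ a b) D dom t c c' where
  ev X := by
    obtain ⟨m, hm⟩ := H.ev X
    rcases nsp_cut_spl Γ h hab X with h | ⟨h, -⟩
    · exact ⟨m, by omega⟩
    · exact ⟨m - 1, by omega⟩
  sub := H.sub
  lam := H.lam
  adj d i hi j hj h1 h2 := by
    have key : ∀ d : E × Bool, d.1 = a.1 ∨ d.1 = b.1 → ∀ i ∈ D, hd (nspSpl Γ a b) d ∈ dom i →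
        hd Γ a ∈ dom i := by
      intro d hd' i hi hm
      rcases hd' with h' | h' <;> rcases nsp_fst_eq h' with rfl | rfl
      · rw [nsp_spl_a] at hm
        exact hn b hab.symm i hi hm
      · rw [nsp_spl_oa Γ h] at hm
        exact hn a rfl i hi hm
      · rw [nsp_spl_b Γ h] at hm
        exact hab ▸ hm
      · rwa [nsp_spl_ob] at hm
    by_cases hd' : d.1 = a.1 ∨ d.1 = b.1
    · exact H.nested hi hj (key d hd' i hi h1) (key (opp d) hd' j hj h2)
    · rw [nsp_spl_other Γ (not_or.1 hd').1 (not_or.1 hd').2] at h1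
      rw [nsp_spl_other Γ (d := opp d) (not_or.1 hd').1 (not_or.1 hd').2] at h2
      exact H.adj d i hi j hj h1 h2
  le i hi := by
    have := H.le i hi
    rcases nsp_cut_spl Γ h hab (dom i) with h | ⟨h, -⟩ <;> omega
  ge := hge

lemma NspC.of_spl {a b : E × Bool} (h : a.1 ≠ b.1) (hab : hd Γ a = hd Γ b)
    (hn : ∀ i ∈ D, hd Γ (opp a) ∈ dom i → hd Γ a ∈ dom i)
    (C : NspC (nspSpl Γ a b) D dom t k) : NspC Γ D dom t k := by
  obtain ⟨Φ, h1, h2⟩ := C
  refine ⟨fun j => univ.filter fun e => (if e = b.1 then a.1 else e) ∈ Φ j, fun e => ?_,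
    fun i hi j g g1 g2 => ?_⟩
  · simpa using h1 (if e = b.1 then a.1 else e)
  · obtain ⟨y, y1, y2⟩ := h2 i hi j g g1 g2
    refine ⟨fun e => y (if e = b.1 then a.1 else e), fun e he => ?_,
      fun w => (nsp_bd_spl Γ h hab y w).trans (y2 w)⟩
    obtain ⟨e1, e2⟩ := y1 _ he
    refine ⟨by simpa using e1, ?_⟩
    have key : In (nspSpl Γ a b) (dom i) a.1 → In Γ (dom i) a.1 ∧ In Γ (dom i) b.1 := by
      rw [in_iff, in_iff, in_iff, nsp_spl_a, nsp_spl_oa Γ h, ← hab]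
      exact fun h' => ⟨⟨hn i hi h'.2, h'.2⟩, hn i hi h'.2, h'.1⟩
    by_cases hb : e = b.1
    · rw [if_pos hb] at e2
      exact hb ▸ (key e2).2
    rw [if_neg hb] at e2
    by_cases ha : e = a.1
    · subst ha
      exact (key e2).1
    have e3 := (in_iff (d := (e, false))).1 e2
    rw [nsp_spl_other Γ (d := (e, false)) ha hb,
      nsp_spl_other Γ (d := opp (e, false)) ha hb] at e3
    exact (in_iff (d := (e, false))).2 e3

end Main

/-! ### Contraction of a terminal set -/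

lemma nsp_edmonds (G : MG V E) (R : Finset V) (k : ℕ) : ∀ A : Finset (E × Bool), G.InC R k A →
    ∃ F : Fin k → Finset (E × Bool), (∀ j, F j ⊆ A ∧ G.InC R 1 (F j)) ∧
      ∀ d, (univ.filter fun j => d ∈ F j).card ≤ 1 := by
  induction k with
  | zero => exact fun A _ => ⟨fun j => j.elim0, fun j => j.elim0, fun d => by simp⟩
  | succ k ih =>
    intro A hA
    obtain ⟨F0, a1, a2, a3⟩ := G.edmonds_one R k A hA
    obtain ⟨F, b1, b2⟩ := ih _ a3
    refine ⟨Fin.cons F0 F, fun j => ?_, fun d => ?_⟩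
    · refine Fin.cases ⟨a1, a2⟩ (fun j => ⟨(b1 j).1.trans sdiff_subset, (b1 j).2⟩) j
    · have b3 := b2 d
      rw [card_filter] at b3 ⊢
      rw [Fin.sum_univ_succ]
      simp only [Fin.cons_zero, Fin.cons_succ]
      by_cases h : d ∈ F0
      · rw [if_pos h, sum_eq_zero fun j _ => if_neg fun h' => (mem_sdiff.1 ((b1 j).1 h')).2 h]
        exact le_rfl
      · rw [if_neg h]
        omega

/-- `k` connecting edge sets inside a well connected vertex set. -/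
lemma nsp_trees (G : MG V E) (C : Finset V) (k : ℕ)
    (hC : ∀ X ⊆ C, X.Nonempty → X ≠ C →
      k ≤ (G.ent (univ.filter fun d => In G C d.1) X).card) :
    ∃ Φ : Fin k → Finset E, (∀ a, (univ.filter fun j => a ∈ Φ j).card ≤ 2) ∧
      (∀ j, ∀ a ∈ Φ j, In G C a) ∧ ∀ j, ∀ g : V → ZMod 2, ∑ v ∈ C, g v = 0 →
        ∃ y : E → ZMod 2, (∀ e, y e ≠ 0 → e ∈ Φ j) ∧
          ∀ w, G.bd y w = if w ∈ C then g w else 0 := by
  rcases C.eq_empty_or_nonempty with rfl | ⟨z, hz⟩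
  · exact ⟨fun _ => ∅, by simp, by simp, fun j g _ => ⟨0, by simp, by simp⟩⟩
  have hR : ∀ X : Finset V, Disjoint X (insert z Cᶜ) ↔ X ⊆ C ∧ z ∉ X := by
    intro X
    rw [disjoint_insert_right, disjoint_compl_right_iff, and_comm]
  obtain ⟨F, h1, h2⟩ := nsp_edmonds G (insert z Cᶜ) k (univ.filter fun d => In G C d.1)
    (fun X hX hXR => hC X ((hR X).1 hXR).1 hX fun h => ((hR X).1 hXR).2 (h ▸ hz))
  have hin : ∀ j, ∀ d ∈ F j, In G C d.1 := fun j d hd' => (mem_filter.1 ((h1 j).1 hd')).2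
  refine ⟨fun j => (F j).image Prod.fst, fun a => ?_, fun j a ha => ?_, fun j g hg => ?_⟩
  · refine le_trans (card_le_card (fun j hj => ?_ : _ ⊆ (univ.filter fun j => (a, false) ∈ F j) ∪
      (univ.filter fun j => (a, true) ∈ F j))) ((card_union_le _ _).trans
      (add_le_add (h2 _) (h2 _)))
    obtain ⟨⟨e, s⟩, hd', rfl⟩ := mem_image.1 (mem_filter.1 hj).2
    cases s <;> simp [hd']
  · obtain ⟨d, hd', rfl⟩ := mem_image.1 ha
    exact hin j d hd'
  · have key : ∀ X ⊆ C, X.Nonempty → z ∉ X →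
        ∃ d ∈ F j, hd G d ∈ X ∧ hd G (opp d) ∉ X := by
      intro X x1 x2 x3
      obtain ⟨d, hd'⟩ := card_pos.1 ((h1 j).2 X x2 ((hR X).2 ⟨x1, x3⟩))
      exact ⟨d, (G.mem_ent _ _ _).1 hd'⟩
    obtain ⟨y, y1, y2⟩ := exists_join G (fun e => e ∈ (F j).image Prod.fst) C (by
      intro X x1 x2 x3
      by_cases hzX : z ∈ X
      · obtain ⟨d, d1, d2, d3⟩ := key (C \ X) sdiff_subset
          (sdiff_nonempty.2 fun h => x3 (Subset.antisymm x1 h)) (by simp [hzX])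
        have d4 := in_iff.1 (hin j d d1)
        refine ⟨opp d, mem_image.2 ⟨d, d1, rfl⟩, ?_, by simpa using d4.1, ?_⟩
        · by_contra h
          exact d3 (mem_sdiff.2 ⟨d4.2, h⟩)
        · simpa using (mem_sdiff.1 d2).2
      · obtain ⟨d, d1, d2, d3⟩ := key X x1 x2 hzX
        exact ⟨d, mem_image.2 ⟨d, d1, rfl⟩, d2, (in_iff.1 (hin j d d1)).2, d3⟩) g hg
    exact ⟨y, fun e he => (y1 e he).1, y2⟩

lemma nsp_cut_quo (G : MG V E) (ρ : V → V) (X : Finset V) :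
    (quo G ρ).cut X = G.cut (univ.filter fun x => ρ x ∈ X) := by
  ext e
  simp [MG.mem_cut, quo]

lemma nsp_bd_cut (G : MG V E) (y : E → ZMod 2) (w : V) : G.bd y w = ∑ e ∈ G.cut {w}, y e := by
  rw [← MG.sum_bd z2a, sum_singleton]

section Main2

variable {ι : Type} [DecidableEq ι] {Γ : MG V E} {D : Finset ι} {dom t : ι → Finset V}
  {c c' k : ℕ}

lemma NspH.quo (H : NspH Γ D dom t c c') (ρ : V → V) {D' : Finset ι} (hD : D' ⊆ D)
    (h1 : ∀ i ∈ D', ∀ x, ρ x ∈ dom i ↔ x ∈ dom i) (h2 : ∀ i ∈ D', ∀ x ∈ t i, ρ x = x) :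
    NspH (quo Γ ρ) D' dom t c c' where
  ev X := by
    rw [nsp_cut_quo]
    exact H.ev _
  sub i hi := H.sub i (hD hi)
  lam i hi j hj := H.lam i (hD hi) j (hD hj)
  adj a i hi j hj a1 a2 := H.adj a i (hD hi) j (hD hj) ((h1 i hi _).1 a1) ((h1 j hj _).1 a2)
  le i hi := by
    have : (univ.filter fun x => ρ x ∈ dom i) = dom i := by
      ext x
      simp [h1 i hi]
    rw [nsp_cut_quo, this]
    exact H.le i (hD hi)
  ge i hi X hX := by
    rintro ⟨p, p1, p2⟩ ⟨q, q1, q2⟩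
    rw [nsp_cut_quo]
    refine H.ge i (hD hi) _ (fun x hx => (h1 i hi x).1 (hX (mem_filter.1 hx).2))
      ⟨p, p1, by simp [h2 i hi p p1, p2]⟩ ⟨q, q1, by simp [h2 i hi q q1, q2]⟩

lemma nsp_contract (H : NspH Γ D dom t c c') (hk : k + c ≤ 2 * c') {i0 : ι} (h0 : i0 ∈ D)
    (hmin : ∀ i ∈ D, i ≠ i0 → Disjoint (t i) (dom i0) ∧
      (dom i0 ⊆ dom i ∨ Disjoint (dom i0) (dom i)))
    (hcut : Γ.cut (t i0) = Γ.cut (dom i0)) (ρ : V → V) (r1 : ∀ x, x ∉ t i0 → ρ x = x)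
    (r2 : ∀ x ∈ t i0, ρ x ∈ t i0) (r3 : ∀ x ∈ t i0, ∀ y ∈ t i0, ρ x = ρ y)
    (C : NspH (quo Γ ρ) (D.erase i0) dom t c c' → NspC (quo Γ ρ) (D.erase i0) dom t k) :
    NspC Γ D dom t k := by
  have hs0 := H.sub i0 h0
  have h1 : ∀ i ∈ D.erase i0, ∀ x, ρ x ∈ dom i ↔ x ∈ dom i := by
    intro i hi x
    by_cases hx : x ∈ t i0
    · rcases (hmin i (mem_of_mem_erase hi) (ne_of_mem_erase hi)).2 with h | h
      · exact iff_of_true (h (hs0 (r2 x hx))) (h (hs0 hx))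
      · exact iff_of_false (disjoint_left.1 h (hs0 (r2 x hx))) (disjoint_left.1 h (hs0 hx))
    · rw [r1 x hx]
  obtain ⟨Φ, a1, a2⟩ := C (H.quo ρ (erase_subset _ _) h1 fun i hi x hx => r1 x fun h =>
    disjoint_left.1 (hmin i (mem_of_mem_erase hi) (ne_of_mem_erase hi)).1 hx (hs0 h))
  obtain ⟨Ψ, b1, b2, b3⟩ := nsp_trees Γ (t i0) k (by
    intro X x1 ⟨p, hp⟩ x3
    obtain ⟨q, q1, q2⟩ := not_subset.1 fun h => x3 (Subset.antisymm x1 h)
    have e1 := nsp_inner Γ (t i0) X x1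
    have e2 := H.ge i0 h0 X (x1.trans hs0) ⟨p, x1 hp, hp⟩ ⟨q, q1, q2⟩
    have e3 := H.ge i0 h0 (t i0 \ X) (sdiff_subset.trans hs0) ⟨q, q1, by simp [q1, q2]⟩
      ⟨p, x1 hp, by simp [hp]⟩
    have e4 := H.le i0 h0
    rw [← hcut] at e4
    omega)
  refine ⟨fun j => (Φ j).filter (fun e => ¬ In Γ (t i0) e) ∪ Ψ j, fun e => ?_,
    fun i hi j g g1 g2 => ?_⟩
  · by_cases he : In Γ (t i0) e
    · simpa [he] using b1 e
    · have : ∀ j, e ∉ Ψ j := fun j h => he (b2 j e h)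
      simpa [he, this] using a1 e
  have hΨ : ∀ e ∈ Ψ j, In Γ (dom i0) e := fun e he => ⟨hs0 (b2 j e he).1, hs0 (b2 j e he).2⟩
  by_cases hi0 : i = i0
  · subst hi0
    obtain ⟨y, y1, y2⟩ := b3 j g (by
      rw [← g2]
      exact sum_subset (subset_univ _) fun w _ hw => by_contra fun h => hw (g1 w h))
    refine ⟨y, fun e he => ⟨mem_union_right _ (y1 e he), hΨ e (y1 e he)⟩, fun w => ?_⟩
    rw [y2]
    split_ifs with hw
    · rfl
    · exact (by_contra fun h => hw (g1 w h) : g w = 0).symm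
  have hi' : i ∈ D.erase i0 := mem_erase.2 ⟨hi0, hi⟩
  obtain ⟨y', y1, y2⟩ := a2 i hi' j g g1 g2
  let y : E → ZMod 2 := fun e => if In Γ (t i0) e then 0 else y' e
  have hg0 : ∀ w ∈ t i0, g w = 0 := fun w hw => by_contra fun h =>
    disjoint_left.1 (hmin i hi hi0).1 (g1 w h) (hs0 hw)
  have s1 : ∀ e, y e ≠ 0 → (e ∈ Φ j ∧ ¬ In Γ (t i0) e) ∧ In Γ (dom i) e := by
    intro e he
    by_cases h : In Γ (t i0) e
    · simp [y, h] at he
    · have := y1 e (by simpa [y, h] using he)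
      exact ⟨⟨this.1, h⟩, (h1 i hi' _).1 this.2.1, (h1 i hi' _).1 this.2.2⟩
  have s0 : ∀ X : Finset V, (t i0 ⊆ X ∨ Disjoint (t i0) X) →
      ∑ e ∈ Γ.cut X, y e = ∑ e ∈ Γ.cut X, y' e := by
    intro X hX
    refine sum_congr rfl fun e he => if_neg fun h => (Γ.mem_cut X e).1 he ?_
    rcases hX with hX | hX
    · exact iff_of_true (hX h.1) (hX h.2)
    · exact iff_of_false (disjoint_left.1 hX h.1) (disjoint_left.1 hX h.2)
  have s2 : ∀ w, w ∉ t i0 → Γ.bd y w = g w := by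
    intro w hw
    have : (univ.filter fun x => ρ x ∈ ({w} : Finset V)) = {w} := by
      ext x
      by_cases hx : x ∈ t i0
      · simp only [mem_filter, mem_univ, true_and, mem_singleton]
        exact iff_of_false (fun h => hw (h ▸ r2 x hx)) fun h => hw (h ▸ hx)
      · simp [r1 x hx]
    rw [← y2, nsp_bd_cut, nsp_bd_cut, nsp_cut_quo, this]
    exact s0 _ (Or.inr (disjoint_singleton_right.2 hw))
  rcases (hmin i hi hi0).2 with hsub | hdis
  · have s3 : ∑ w ∈ t i0, Γ.bd y w = 0 := by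
      rcases (t i0).eq_empty_or_nonempty with h | ⟨z, hz⟩
      · simp [h]
      have : (univ.filter fun x => ρ x ∈ ({ρ z} : Finset V)) = t i0 := by
        ext x
        by_cases hx : x ∈ t i0
        · simp [hx, r3 x hx z hz]
        · simp only [mem_filter, mem_univ, true_and, mem_singleton, r1 x hx]
          exact iff_of_false (fun h => hx (h ▸ r2 z hz)) hx
      rw [MG.sum_bd z2a, s0 _ (Or.inl Subset.rfl), ← hg0 _ (r2 z hz), ← y2, nsp_bd_cut,
        nsp_cut_quo, this]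
    obtain ⟨x, x1, x2⟩ := b3 j (Γ.bd y) s3
    refine ⟨y + x, fun e he => ?_, fun w => ?_⟩
    · by_cases h : x e = 0
      · have := s1 e (by simpa [h] using he)
        exact ⟨mem_union_left _ (mem_filter.2 this.1), this.2⟩
      · exact ⟨mem_union_right _ (x1 e h), hsub (hΨ e (x1 e h)).1, hsub (hΨ e (x1 e h)).2⟩
    · rw [bd_add, x2]
      split_ifs with hw
      · rw [z2a, hg0 w hw]
      · rw [add_zero, s2 w hw]
  · refine ⟨y, fun e he => ⟨mem_union_left _ (mem_filter.2 (s1 e he).1), (s1 e he).2⟩,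
      fun w => ?_⟩
    by_cases hw : w ∈ t i0
    · rw [hg0 w hw]
      refine sum_eq_zero fun d hd' => by_contra fun h => ?_
      have e1 : hd Γ d = w := (mem_filter.1 hd').2
      exact disjoint_left.1 hdis (hs0 hw) (e1 ▸ (in_iff.1 (s1 d.1 h).2).1)
    · exact s2 w hw

lemma nsp_main (hk : k + c ≤ 2 * c') (n : ℕ) : ∀ (Γ : MG V E) (D : Finset ι),
    D.card + Γ.nonLoops.card = n → NspH Γ D dom t c c' → NspC Γ D dom t k := by
  induction n using Nat.strong_induction_on with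
  | _ n ih =>
    intro Γ D hn H
    rcases D.eq_empty_or_nonempty with rfl | hD
    · exact ⟨fun _ => ∅, by simp, by simp⟩
    obtain ⟨i0, h0, hm⟩ := exists_min_image D (fun i => (dom i).card) hD
    have hmin : ∀ i ∈ D, i ≠ i0 → Disjoint (t i) (dom i0) ∧
        (dom i0 ⊆ dom i ∨ Disjoint (dom i0) (dom i)) := by
      intro i hi hne
      rcases H.lam i hi i0 h0 hne with h | h | h
      · exact absurd (hm i hi) (not_le.2 (card_lt_card h.1))
      · exact ⟨h.2, Or.inl h.1.subset⟩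
      · exact ⟨h.mono_left (H.sub i hi), Or.inr h.symm⟩
    by_cases hcase : ∃ a, hd Γ a ∈ dom i0 ∧ hd Γ a ∉ t i0 ∧ hd Γ a ≠ hd Γ (opp a)
    · obtain ⟨a, a1, a2, a3⟩ := hcase
      have hnb : ∀ d, hd Γ d = hd Γ a → ∀ i ∈ D, hd Γ (opp d) ∈ dom i → hd Γ a ∈ dom i := by
        intro d hd' i hi h
        rcases H.adj d i0 h0 i hi (hd' ▸ a1) h with h | h
        · exact h a1
        · exact eq_of_subset_of_card_le h (hm i hi) ▸ a1
      obtain ⟨b, b1, b2, b3, b4⟩ := H.exists_split a a3 (fun i hi h => by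
        by_cases hne : i = i0
        · exact a2 (hne ▸ h)
        · exact disjoint_left.1 (hmin i hi hne).1 h a1) (hnb a rfl)
      refine NspC.of_spl b1 b2 (hnb a rfl) (ih _ ?_ _ D rfl (H.spl b1 b2 hnb b4))
      have := nsp_nonLoops_spl Γ b1 b2 a3 b3
      omega
    · push Not at hcase
      have hcut : Γ.cut (t i0) = Γ.cut (dom i0) := by
        ext e
        have c1 := hcase (e, false)
        have c2 := hcase (e, true)
        have c3 := @H.sub i0 h0 (Γ.en e false)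
        have c4 := @H.sub i0 h0 (Γ.en e true)
        simp only [hd_mk, opp_false, opp_true] at c1 c2
        rw [MG.mem_cut, MG.mem_cut]
        by_cases h : Γ.en e false = Γ.en e true
        · simp [h]
        · have h' := Ne.symm h
          tauto
      obtain ⟨ρ, r1, r2, r3⟩ : ∃ ρ : V → V, (∀ x, x ∉ t i0 → ρ x = x) ∧
          (∀ x ∈ t i0, ρ x ∈ t i0) ∧ ∀ x ∈ t i0, ∀ y ∈ t i0, ρ x = ρ y := by
        rcases (t i0).eq_empty_or_nonempty with h | ⟨z, hz⟩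
        · exact ⟨id, fun _ _ => rfl, fun _ h => h, by simp [h]⟩
        · exact ⟨fun x => if x ∈ t i0 then z else x, fun x hx => if_neg hx,
            fun x hx => by simp [hx, hz], fun x hx y hy => by simp [hx, hy]⟩
      refine nsp_contract H hk h0 hmin hcut ρ r1 r2 r3 (ih _ ?_ _ _ rfl)
      have e1 : (quo Γ ρ).nonLoops.card ≤ Γ.nonLoops.card := by
        refine card_le_card fun e he => ?_
        simp only [MG.nonLoops, quo, mem_filter, mem_univ, true_and] at he ⊢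
        exact fun h => he (by rw [h])
      have e2 := card_erase_lt_of_mem h0
      omega

end Main2

/-- Nested Steiner packing. -/
theorem nsp {ι : Type} [DecidableEq ι] (Γ : MG V E) (D : Finset ι) (dom t : ι → Finset V)
    (c c' k : ℕ) (hk : k + c ≤ 2 * c') (hev : ∀ X, Even (Γ.cut X).card)
    (ht : ∀ i ∈ D, t i ⊆ dom i)
    (hlam : ∀ i ∈ D, ∀ j ∈ D, i ≠ j → (dom i ⊂ dom j ∧ Disjoint (t j) (dom i)) ∨
      (dom j ⊂ dom i ∧ Disjoint (t i) (dom j)) ∨ Disjoint (dom i) (dom j))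
    (hadj : ∀ a, ∀ i ∈ D, ∀ j ∈ D, Γ.en a false ∈ dom i → Γ.en a true ∈ dom j →
      dom i ⊆ dom j ∨ dom j ⊆ dom i)
    (hc : ∀ i ∈ D, (Γ.cut (dom i)).card ≤ 2 * c)
    (hc' : ∀ i ∈ D, ∀ X ⊆ dom i, (∃ x ∈ t i, x ∈ X) → (∃ x ∈ t i, x ∉ X) →
      2 * c' ≤ (Γ.cut X).card) :
    ∃ Φ : Fin k → Finset E, (∀ a, (univ.filter fun j => a ∈ Φ j).card ≤ 2) ∧
      ∀ i ∈ D, ∀ j, ∀ g : V → ZMod 2, (∀ w, g w ≠ 0 → w ∈ t i) → ∑ w, g w = 0 →
        ∃ y : E → ZMod 2, (∀ a, y a ≠ 0 → a ∈ Φ j ∧ In Γ (dom i) a) ∧ ∀ w, Γ.bd y w = g w := by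
  refine nsp_main hk _ Γ D rfl ⟨hev, ht, hlam, ?_, hc, hc'⟩
  rintro ⟨e, s⟩ i hi j hj h1 h2
  cases s
  · exact hadj e i hi j hj h1 h2
  · exact (hadj e j hj i hi h2 h1).symm

end Pool.Agent.ATJ
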