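import Pool.Agent.Lib.ATJ.Defs

/-!
A minimal partition of a connected set into connected parts with small boundary.
-/

set_option autoImplicit false
set_option linter.unusedSectionVars false

namespace Pool.Agent.ATJ

open Finset Pool.Agent.Flows

variable {V E : Type} [Fintype V] [DecidableEq V] [Fintype E] [DecidableEq E]

lemma part_posi (G : MG V E) (X Y : Finset V) :
    (B G (X \ Y)).card + (B G (Y \ X)).card ≤ (B G X).card + (B G Y).card := by
  simp only [card_B, MG.cut, card_filter, ← sum_add_distrib]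
  refine sum_le_sum fun e _ => ?_
  by_cases h1 : G.en e false ∈ X <;> by_cases h2 : G.en e false ∈ Y <;>
    by_cases h3 : G.en e true ∈ X <;> by_cases h4 : G.en e true ∈ Y <;>
    simp [h1, h2, h3, h4]

lemma part_mk {G : MG V E} {K : ℕ} {S : Finset V} (c : V → Finset V) (h1 : ∀ v ∈ S, v ∈ c v)
    (h2 : ∀ v ∈ S, c v ⊂ S) (h3 : ∀ v ∈ S, ∀ w ∈ c v, c w = c v) (h4 : ∀ v ∈ S, Conn G (c v))
    (h5 : ∀ v ∈ S, (B G (c v)).card ≤ K) :
    ∃ pt, IsPart G K S pt ∧ S.image pt = S.image c := by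
  refine ⟨fun v => if v ∈ S then c v else ∅, ⟨fun v hv => ?_, fun v hv => ?_, fun v hv w hw => ?_,
    fun v hv => if_neg hv, fun v hv => ?_, fun v hv => ?_⟩, image_congr fun v hv => ?_⟩
  · rw [if_pos hv]; exact h1 v hv
  · rw [if_pos hv]; exact h2 v hv
  · rw [if_pos hv] at hw
    rw [if_pos hv, if_pos ((h2 v hv).1 hw), h3 v hv w hw]
  · rw [if_pos hv]; exact h4 v hv
  · rw [if_pos hv]; exact h5 v hv
  · exact if_pos hv

section

variable {G : MG V E} {K : ℕ} {S : Finset V} {pt : V → Finset V}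

lemma part_mem_S (h : IsPart G K S pt) {v : V} (hv : pt v ∈ S.image pt) : v ∈ S := by
  by_contra hn
  obtain ⟨w, hw, e⟩ := mem_image.1 hv
  have := h.mem w hw
  rw [e, h.out v hn] at this
  exact notMem_empty _ this

lemma part_mem_iff (h : IsPart G K S pt) {P : Finset V} (hP : P ∈ S.image pt) {v : V} :
    v ∈ P ↔ pt v = P := by
  obtain ⟨w, hw, rfl⟩ := mem_image.1 hP
  refine ⟨h.eq w hw v, fun e => ?_⟩
  rw [← e]
  exact h.mem v (part_mem_S h (e ▸ hP))

lemma part_conn_quo (h : IsPart G K S pt) (hS : Conn G S) : Conn (quo G pt) (S.image pt) := by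
  intro R hR hne hRS
  obtain ⟨d, d1, d2, d3⟩ := hS (S.filter fun v => pt v ∈ R) (filter_subset _ _) (by
    obtain ⟨P, hP⟩ := hne
    obtain ⟨v, hv, rfl⟩ := mem_image.1 (hR hP)
    exact ⟨v, mem_filter.2 ⟨hv, hP⟩⟩) (fun e => hRS (Subset.antisymm hR fun P hP => by
      obtain ⟨v, hv, rfl⟩ := mem_image.1 hP
      rw [← e] at hv
      exact (mem_filter.1 hv).2))
  exact ⟨d, (mem_filter.1 d1).2, mem_image_of_mem _ d2, fun a => d3 (mem_filter.2 ⟨d2, a⟩)⟩

lemma part_conn_union (h : IsPart G K S pt) {C : Finset (Finset V)} (hC : C ⊆ S.image pt)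
    (hc : Conn (quo G pt) C) : Conn G (S.filter fun v => pt v ∈ C) := by
  intro X hX hne hXU
  by_cases hcr : ∃ v ∈ X, ¬ pt v ⊆ X
  · obtain ⟨v, hv, hn⟩ := hcr
    obtain ⟨hvS, hvC⟩ := mem_filter.1 (hX hv)
    obtain ⟨d, d1, d2, d3⟩ := h.conn v hvS (X ∩ pt v) inter_subset_right
      ⟨v, mem_inter.2 ⟨hv, h.mem v hvS⟩⟩ (fun e => hn (e ▸ inter_subset_left))
    refine ⟨d, (mem_inter.1 d1).1, mem_filter.2 ⟨(h.sub v hvS).1 d2, ?_⟩,
      fun a => d3 (mem_inter.2 ⟨a, d2⟩)⟩
    rwa [h.eq v hvS _ d2]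
  · push Not at hcr
    obtain ⟨d, d1, d2, d3⟩ := hc (C.filter fun P => P ⊆ X) (filter_subset _ _) (by
      obtain ⟨v, hv⟩ := hne
      exact ⟨pt v, mem_filter.2 ⟨(mem_filter.1 (hX hv)).2, hcr v hv⟩⟩)
      (fun e => hXU (Subset.antisymm hX fun v hv => by
        obtain ⟨hvS, hvC⟩ := mem_filter.1 hv
        rw [← e] at hvC
        exact (mem_filter.1 hvC).2 (h.mem v hvS)))
    rw [hd_quo] at d1 d2 d3
    obtain ⟨e1, e2⟩ := mem_filter.1 d1
    exact ⟨d, e2 (h.mem _ (part_mem_S h (hC e1))), mem_filter.2 ⟨part_mem_S h (hC d2), d2⟩,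
      fun a => d3 (mem_filter.2 ⟨d2, hcr _ a⟩)⟩

/-- In a minimal partition no connected union of several parts has small boundary. -/
lemma part_merge (h : IsPart G K S pt)
    (hmin : ∀ pt', IsPart G K S pt' → (S.image pt).card ≤ (S.image pt').card)
    {C : Finset (Finset V)} (hC : C ⊆ S.image pt) (h2 : 2 ≤ C.card) (hne : C ≠ S.image pt)
    (hc : Conn (quo G pt) C) (hB : (B G (S.filter fun v => pt v ∈ C)).card ≤ K) : False := by
  set U := S.filter fun v => pt v ∈ C with hU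
  obtain ⟨pt', h', e⟩ := part_mk (G := G) (K := K) (S := S)
    (fun v => if pt v ∈ C then U else pt v)
    (fun v hv => by
      split_ifs with a
      exacts [mem_filter.2 ⟨hv, a⟩, h.mem v hv])
    (fun v hv => by
      split_ifs with a
      · refine ⟨filter_subset _ _, fun b => hne (Subset.antisymm hC fun P hP => ?_)⟩
        obtain ⟨w, hw, rfl⟩ := mem_image.1 hP
        exact (mem_filter.1 (b hw)).2
      · exact h.sub v hv)
    (fun v hv w hw => by
      by_cases a : pt v ∈ C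
      · rw [if_pos a] at hw
        rw [if_pos a, if_pos (mem_filter.1 hw).2]
      · rw [if_neg a] at hw
        rw [h.eq v hv w hw])
    (fun v hv => by
      split_ifs with a
      exacts [part_conn_union h hC hc, h.conn v hv])
    (fun v hv => by
      split_ifs with a
      exacts [hB, h.deg v hv])
  have h3 := hmin pt' h'
  have h4 : S.image pt' ⊆ insert U (S.image pt \ C) := by
    rw [e]
    intro P hP
    obtain ⟨v, hv, rfl⟩ := mem_image.1 hP
    split_ifs with a
    exacts [mem_insert_self _ _, mem_insert_of_mem (mem_sdiff.2 ⟨mem_image_of_mem _ hv, a⟩)]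
  have h5 := (card_le_card h4).trans (card_insert_le _ _)
  have h6 := card_sdiff_add_card_eq_card hC
  omega

lemma part_sep (h : IsPart G K S pt) (hS : Conn G S)
    (hmin : ∀ pt', IsPart G K S pt' → (S.image pt).card ≤ (S.image pt').card)
    {X : Finset V} (hX : X ⊆ S) (hXS : X ≠ S) (hB : (B G X).card ≤ K) :
    ((S.image pt).filter fun P => ¬ Disjoint P X).card ≤ 3 * K := by
  by_contra hlt
  set I := (S.image pt).filter fun P => P ⊆ X with hI
  have h1 : ((S.image pt).filter fun P => ¬ Disjoint P X) ⊆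
      I ∪ (B G X).image (fun d => pt (hd G d)) := by
    intro P hP
    obtain ⟨hP1, hP2⟩ := mem_filter.1 hP
    by_cases a : P ⊆ X
    · exact mem_union_left _ (mem_filter.2 ⟨hP1, a⟩)
    · obtain ⟨v, hv, rfl⟩ := mem_image.1 hP1
      obtain ⟨d, d1, d2, d3⟩ := h.conn v hv (pt v ∩ X) inter_subset_left
        (not_disjoint_iff_nonempty_inter.1 hP2) (fun e => a (e ▸ inter_subset_right))
      exact mem_union_right _ (mem_image.2 ⟨d, mem_B.2 ⟨(mem_inter.1 d1).2,
        fun b => d3 (mem_inter.2 ⟨d2, b⟩)⟩, h.eq v hv _ (mem_inter.1 d1).1⟩)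
  have h2 := (card_le_card h1).trans (card_union_le _ _)
  have h3 := card_image_le (s := B G X) (f := fun d => pt (hd G d))
  obtain ⟨X', hX', hXmin⟩ := exists_min_image
    (X.powerset.filter fun Y => ∀ P ∈ I, P ⊆ Y) (fun Y => (B G Y).card)
    ⟨X, mem_filter.2 ⟨mem_powerset_self _, fun P hP => (mem_filter.1 hP).2⟩⟩
  obtain ⟨hX1, hX2⟩ := mem_filter.1 hX'
  rw [mem_powerset] at hX1
  have hB' : (B G X').card ≤ K :=
    (hXmin X (mem_filter.2 ⟨mem_powerset_self _, fun P hP => (mem_filter.1 hP).2⟩)).trans hB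
  have hnI : ∀ v ∈ S, v ∉ X' → pt v ∉ I := fun v hv hn a => hn (hX2 _ a (h.mem v hv))
  have hBP : ∀ v ∈ S, v ∉ X' → (B G (pt v \ X')).card ≤ K := by
    intro v hv hn
    have a1 := hXmin (X' \ pt v) (mem_filter.2 ⟨mem_powerset.2 (sdiff_subset.trans hX1),
      fun P hP w hw => mem_sdiff.2 ⟨hX2 P hP hw, fun b => hnI v hv hn (by
        rw [← h.eq v hv w b, (part_mem_iff h (mem_filter.1 hP).1).1 hw]
        exact hP)⟩⟩)
    have a2 := part_posi G (pt v) X'
    have a3 := h.deg v hv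
    omega
  choose cc hcc using exists_comps G
  let Y : V → Finset V := fun v => if v ∈ X' then X' else pt v \ X'
  have hY1 : ∀ v ∈ S, v ∈ Y v := fun v hv => by
    simp only [Y]
    split_ifs with a
    exacts [a, mem_sdiff.2 ⟨h.mem v hv, a⟩]
  have hY2 : ∀ v ∈ S, Y v ⊂ S := fun v hv => by
    simp only [Y]
    split_ifs with a
    exacts [lt_of_le_of_lt hX1 (lt_of_le_of_ne hX hXS), lt_of_le_of_lt sdiff_subset (h.sub v hv)]
  have hY3 : ∀ v ∈ S, ∀ w ∈ Y v, Y w = Y v := fun v hv w hw => by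
    simp only [Y] at hw ⊢
    by_cases a : v ∈ X'
    · rw [if_pos a] at hw
      rw [if_pos a, if_pos hw]
    · rw [if_neg a] at hw
      rw [if_neg a, if_neg (mem_sdiff.1 hw).2, h.eq v hv w (mem_sdiff.1 hw).1]
  have hY4 : ∀ v ∈ S, (B G (Y v)).card ≤ K := fun v hv => by
    simp only [Y]
    split_ifs with a
    exacts [hB', hBP v hv a]
  have hc3 : ∀ v ∈ S, ∀ w ∈ cc (Y v) v, cc (Y w) w = cc (Y v) v := fun v hv w hw => by
    obtain ⟨-, c2, c3, -⟩ := hcc _ v (hY1 v hv)
    rw [hY3 v hv w (c2 hw), c3 w hw]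
  obtain ⟨pt', h', e⟩ := part_mk (G := G) (K := K) (S := S) (fun v => cc (Y v) v)
    (fun v hv => (hcc _ v (hY1 v hv)).1)
    (fun v hv => lt_of_le_of_lt (hcc _ v (hY1 v hv)).2.1 (hY2 v hv)) hc3
    (fun v hv => (hcc _ v (hY1 v hv)).2.2.2.1)
    (fun v hv => (card_le_card (hcc _ v (hY1 v hv)).2.2.2.2).trans (hY4 v hv))
  have h4 : S.image pt' ⊆ ((B G X').image (fun d => cc (Y (hd G d)) (hd G d)) ∪
      (B G X').image (fun d => cc (Y (hd G (opp d))) (hd G (opp d)))) ∪ (S.image pt \ I) := by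
    rw [e]
    intro P hP
    obtain ⟨v, hv, rfl⟩ := mem_image.1 hP
    obtain ⟨c1, c2, -, -, c5⟩ := hcc _ v (hY1 v hv)
    by_cases a : v ∈ X'
    · obtain ⟨d, d1, d2, d3⟩ := hS (cc (Y v) v) (c2.trans (hY2 v hv).1) ⟨v, c1⟩
        (lt_of_le_of_lt c2 (hY2 v hv)).ne
      have d4 := c5 (mem_B.2 ⟨d1, d3⟩)
      rw [show Y v = X' from if_pos a] at d4
      exact mem_union_left _ (mem_union_left _ (mem_image.2 ⟨d, d4, hc3 v hv _ d1⟩))
    · have hYv : Y v = pt v \ X' := if_neg a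
      by_cases b : cc (Y v) v = pt v
      · rw [b]
        exact mem_union_right _ (mem_sdiff.2 ⟨mem_image_of_mem _ hv, hnI v hv a⟩)
      · obtain ⟨d, d1, d2, d3⟩ := h.conn v hv (cc (Y v) v) (c2.trans (hYv ▸ sdiff_subset))
          ⟨v, c1⟩ b
        have d4 := mem_B.1 (c5 (mem_B.2 ⟨d1, d3⟩))
        rw [hYv] at d4
        refine mem_union_left _ (mem_union_right _ (mem_image.2 ⟨opp d, mem_B.2 ⟨?_, ?_⟩, ?_⟩))
        · by_contra d5
          exact d4.2 (mem_sdiff.2 ⟨d2, d5⟩)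
        · rw [opp_opp]
          exact (mem_sdiff.1 d4.1).2
        · rw [opp_opp]
          exact hc3 v hv _ d1
  have h5 := (card_le_card h4).trans ((card_union_le _ _).trans
    (Nat.add_le_add_right ((card_union_le _ _).trans
      (Nat.add_le_add card_image_le card_image_le)) _))
  have h6 := card_sdiff_add_card_eq_card (show I ⊆ S.image pt from filter_subset _ _)
  have h7 := hmin pt' h'
  omega

/-- Parts with a single neighbouring part. -/
def partZ (G : MG V E) (S : Finset V) (pt : V → Finset V) : Finset (Finset V) :=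
  (S.image pt).filter fun Q => ∃ P ∈ S.image pt, P ≠ Q ∧
    ∀ d, pt (hd G d) = Q → hd G (opp d) ∈ S → pt (hd G (opp d)) = Q ∨ pt (hd G (opp d)) = P

lemma part_Z_card (h : IsPart G K S pt) (hS : Conn G S) (hB : (B G S).card ≤ K)
    (hmin : ∀ pt', IsPart G K S pt' → (S.image pt).card ≤ (S.image pt').card)
    (h3 : 3 ≤ (S.image pt).card) : (partZ G S pt).card ≤ K := by
  refine le_trans (card_le_card ?_) ((card_image_le (f := fun d => pt (hd G d))).trans hB)
  intro Q hQ
  obtain ⟨hQ1, P, hP, hPQ, hd'⟩ := mem_filter.1 hQ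
  by_contra hn
  have hsub : ({P, Q} : Finset (Finset V)) ⊆ S.image pt := by
    intro R hR
    rcases mem_insert.1 hR with rfl | hR
    exacts [hP, mem_singleton.1 hR ▸ hQ1]
  have hc2 : ({P, Q} : Finset (Finset V)).card = 2 := card_pair hPQ
  refine part_merge h hmin hsub hc2.ge (fun e => by rw [e] at hc2; omega) ?_ ?_
  · obtain ⟨d, d1, d2, d3⟩ := part_conn_quo h hS {Q} (singleton_subset_iff.2 hQ1)
      (singleton_nonempty _) (fun e => by rw [← e, card_singleton] at h3; omega)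
    rw [hd_quo, mem_singleton] at d1 d3
    rw [hd_quo] at d2
    have d4 := (hd' d d1 (part_mem_S h d2)).resolve_left d3
    intro R hR hne hRe
    have hR' : ∀ T ∈ R, T = P ∨ T = Q := fun T hT => by simpa using hR hT
    by_cases a : Q ∈ R
    · refine ⟨d, by rwa [hd_quo, d1], by simp [d4], fun b => hRe (Subset.antisymm hR ?_)⟩
      rw [hd_quo, d4] at b
      exact insert_subset b (singleton_subset_iff.2 a)
    · obtain ⟨T, hT⟩ := hne
      have b : P ∈ R := by
        rcases hR' T hT with rfl | rfl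
        exacts [hT, absurd hT a]
      exact ⟨opp d, by rwa [hd_quo, d4], by simp [d1], by rwa [opp_opp, hd_quo, d1]⟩
  · obtain ⟨v, hv, rfl⟩ := mem_image.1 hP
    refine le_trans (card_le_card fun d hd0 => ?_) (h.deg v hv)
    obtain ⟨d1, d2⟩ := mem_B.1 hd0
    obtain ⟨d3, d4⟩ := mem_filter.1 d1
    rcases mem_insert.1 d4 with d5 | d5
    · refine mem_B.2 ⟨(part_mem_iff h hP).2 d5, fun a => d2 (mem_filter.2
        ⟨(h.sub v hv).1 a, ?_⟩)⟩
      rw [h.eq v hv _ a]
      exact mem_insert_self _ _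
    · rw [mem_singleton] at d5
      by_cases a : hd G (opp d) ∈ S
      · refine absurd (mem_filter.2 ⟨a, ?_⟩) d2
        rcases hd' d d5 a with b | b <;> simp [b]
      · exact absurd (mem_image.2 ⟨d, mem_B.2 ⟨d3, a⟩, d5⟩) hn

lemma part_Z_conn (h : IsPart G K S pt) (hS : Conn G S) :
    Conn (quo G pt) (S.image pt \ partZ G S pt) := by
  intro R hR hne hRe
  by_contra hcon
  push Not at hcon
  obtain ⟨d, d1, d2, d3⟩ := part_conn_quo h hS
    (R ∪ (partZ G S pt).filter fun Q => ∃ d, pt (hd G d) = Q ∧ pt (hd G (opp d)) ∈ R)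
    (union_subset (hR.trans sdiff_subset) ((filter_subset _ _).trans (filter_subset _ _)))
    (hne.mono subset_union_left) (fun e => hRe (Subset.antisymm hR fun P hP => by
      obtain ⟨a, b⟩ := mem_sdiff.1 hP
      rw [← e] at a
      exact (mem_union.1 a).resolve_right fun c => b (mem_filter.1 c).1))
  rw [hd_quo] at d1 d2 d3
  rcases mem_union.1 d1 with a | a
  · by_cases b : pt (hd G (opp d)) ∈ partZ G S pt
    · exact d3 (mem_union_right _ (mem_filter.2 ⟨b, opp d, rfl, by rwa [opp_opp]⟩))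
    · exact d3 (mem_union_left _ (hcon d a (mem_sdiff.2 ⟨d2, b⟩)))
  · obtain ⟨a1, d', a2, a3⟩ := mem_filter.1 a
    obtain ⟨-, P, -, -, hP⟩ := mem_filter.1 a1
    obtain ⟨a4, a5⟩ := mem_sdiff.1 (hR a3)
    have a6 := (hP d' a2 (part_mem_S h a4)).resolve_left fun b => a5 (b ▸ a1)
    rcases hP d rfl (part_mem_S h d2) with b | b
    · exact d3 (b ▸ d1)
    · exact d3 (mem_union_left _ (b ▸ a6 ▸ a3))

/-- A closed set of parts that is not inside `Z` contains a connected union of several parts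
whose boundary darts leave `S` or enter `P`. -/
lemma part_comp (h : IsPart G K S pt) {P : Finset V} (hP : P ∈ S.image pt)
    {R : Finset (Finset V)} (hR : R ⊆ (S.image pt).erase P)
    (hcl : ∀ d, pt (hd G d) ∈ R → hd G (opp d) ∈ S →
      pt (hd G (opp d)) ∈ R ∨ pt (hd G (opp d)) = P) (hZ : ¬ R ⊆ partZ G S pt) :
    ∃ C ⊆ R, 2 ≤ C.card ∧ Conn (quo G pt) C ∧
      B G (S.filter fun v => pt v ∈ C) ⊆ B G S ∪ (B G P).image opp := by
  obtain ⟨Q, hQ, hQZ⟩ := not_subset.1 hZ
  obtain ⟨c, hc⟩ := exists_comps (quo G pt) R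
  obtain ⟨c1, c2, -, c4, c5⟩ := hc Q hQ
  have key : ∀ d, pt (hd G d) ∈ c Q → hd G (opp d) ∈ S → pt (hd G (opp d)) ∉ c Q →
      pt (hd G (opp d)) = P := fun d d1 d2 d3 =>
    (hcl d (c2 d1) d2).resolve_left (mem_B.1 (c5 (mem_B.2 ⟨d1, d3⟩))).2
  refine ⟨c Q, c2, ?_, c4, fun d hd0 => ?_⟩
  · by_contra hlt
    have e : ∀ T ∈ c Q, T = Q := fun T hT => card_le_one.1 (by omega) T hT Q c1
    refine hQZ (mem_filter.2 ⟨mem_of_mem_erase (hR hQ), P, hP, (ne_of_mem_erase (hR hQ)).symm,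
      fun d d1 d2 => ?_⟩)
    by_cases a : pt (hd G (opp d)) ∈ c Q
    exacts [Or.inl (e _ a), Or.inr (key d (d1 ▸ c1) d2 a)]
  · obtain ⟨d1, d2⟩ := mem_B.1 hd0
    obtain ⟨d3, d4⟩ := mem_filter.1 d1
    by_cases a : hd G (opp d) ∈ S
    · refine mem_union_right _ (mem_image.2 ⟨opp d, mem_B.2 ⟨(part_mem_iff h hP).2
        (key d d4 a fun b => d2 (mem_filter.2 ⟨a, b⟩)), ?_⟩, opp_opp d⟩)
      rw [opp_opp, part_mem_iff h hP]
      exact ne_of_mem_erase (hR (c2 d4))
    · exact mem_union_left _ (mem_B.2 ⟨d3, a⟩)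

lemma part_closed (h : IsPart G K S pt) (hB : (B G S).card ≤ K)
    (hmin : ∀ pt', IsPart G K S pt' → (S.image pt).card ≤ (S.image pt').card)
    {P : Finset V} (hP : P ∈ S.image pt) {R : Finset (Finset V)} (hR : R ⊆ (S.image pt).erase P)
    (hcl : ∀ d, pt (hd G d) ∈ R → hd G (opp d) ∈ S →
      pt (hd G (opp d)) ∈ R ∨ pt (hd G (opp d)) = P) :
    R ⊆ partZ G S pt ∨ (S.image pt).erase P \ R ⊆ partZ G S pt := by
  by_contra hcon
  rw [not_or] at hcon
  obtain ⟨C1, a1, a2, a3, a4⟩ := part_comp h hP hR hcl hcon.1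
  obtain ⟨C2, b1, b2, b3, b4⟩ := part_comp h hP (R := (S.image pt).erase P \ R) sdiff_subset
    (fun d d1 d2 => by
      obtain ⟨d3, d4⟩ := mem_sdiff.1 d1
      by_cases e : pt (hd G (opp d)) = P
      · exact Or.inr e
      · refine Or.inl (mem_sdiff.2 ⟨mem_erase.2 ⟨e, mem_image_of_mem _ d2⟩, fun r => ?_⟩)
        have := hcl (opp d) r (by rw [opp_opp]; exact part_mem_S h (mem_of_mem_erase d3))
        rw [opp_opp] at this
        exact this.elim d4 (ne_of_mem_erase d3)) hcon.2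
  have hdis : Disjoint (B G (S.filter fun v => pt v ∈ C1)) (B G (S.filter fun v => pt v ∈ C2)) :=
    disjoint_left.2 fun d d1 d2 => (mem_sdiff.1 (b1 (mem_filter.1 (mem_B.1 d2).1).2)).2
      (a1 (mem_filter.1 (mem_B.1 d1).1).2)
  have h1 := (card_le_card (union_subset a4 b4)).trans ((card_union_le _ _).trans
    (Nat.add_le_add_left card_image_le _))
  rw [card_union_of_disjoint hdis] at h1
  have h2 : (B G P).card ≤ K := by
    obtain ⟨v, hv, rfl⟩ := mem_image.1 hP
    exact h.deg v hv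
  by_cases e : (B G (S.filter fun v => pt v ∈ C1)).card ≤ K
  · exact part_merge h hmin ((a1.trans hR).trans (erase_subset _ _)) a2
      (fun e' => notMem_erase P _ (hR (a1 (e' ▸ hP)))) a3 e
  · exact part_merge h hmin ((b1.trans sdiff_subset).trans (erase_subset _ _)) b2
      (fun e' => notMem_erase P _ (sdiff_subset (b1 (e' ▸ hP)))) b3 (by omega)

end

theorem exists_part (G : MG V E) (K : ℕ) (hdeg : ∀ v, (B G {v}).card ≤ K) (S : Finset V)
    (hS : Conn G S) (hB : (B G S).card ≤ K) (h2 : 2 ≤ S.card) :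
    ∃ pt : V → Finset V, IsPart G K S pt ∧ Conn (quo G pt) (S.image pt) ∧
      (∀ X ⊆ S, X ≠ S → (B G X).card ≤ K →
        ((S.image pt).filter fun P => ¬ Disjoint P X).card ≤ 3 * K) ∧
      (3 ≤ (S.image pt).card → ∃ Z ⊆ S.image pt, Z.card ≤ K ∧
        Conn (quo G pt) (S.image pt \ Z) ∧
        ∀ P ∈ S.image pt, ∀ R ⊆ (S.image pt).erase P,
          (∀ d, pt (hd G d) ∈ R → hd G (opp d) ∈ S →
            pt (hd G (opp d)) ∈ R ∨ pt (hd G (opp d)) = P) →
          R ⊆ Z ∨ (S.image pt).erase P \ R ⊆ Z) := by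
  classical
  obtain ⟨pt0, h0, -⟩ := part_mk (G := G) (K := K) (S := S) (fun v => {v})
    (fun v _ => mem_singleton_self v)
    (fun v hv => ⟨singleton_subset_iff.2 hv, fun a => by
      have := card_le_card a
      rw [card_singleton] at this
      omega⟩)
    (fun v _ w hw => by rw [mem_singleton.1 hw]) (fun v _ => conn_singleton G v)
    (fun v _ => hdeg v)
  obtain ⟨pt, hpt, hmin⟩ := exists_min_image (univ.filter fun pt => IsPart G K S pt)
    (fun pt => (S.image pt).card) ⟨pt0, mem_filter.2 ⟨mem_univ _, h0⟩⟩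
  have h := (mem_filter.1 hpt).2
  have hmin' : ∀ pt', IsPart G K S pt' → (S.image pt).card ≤ (S.image pt').card :=
    fun pt' h' => hmin pt' (mem_filter.2 ⟨mem_univ _, h'⟩)
  exact ⟨pt, h, part_conn_quo h hS, fun X hX hXS hBX => part_sep h hS hmin' hX hXS hBX,
    fun h3 => ⟨partZ G S pt, filter_subset _ _, part_Z_card h hS hB hmin' h3, part_Z_conn h hS,
      fun P hP R hR hcl => part_closed h hB hmin' hP hR hcl⟩⟩

end Pool.Agent.ATJ
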