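import Pool.Agent.Lib.ATJ.Defs

/-!
Dart labellings with even sums at all vertices and prescribed defects, built from joins.
-/

set_option autoImplicit false
set_option linter.unusedSectionVars false

namespace Pool.Agent.ATJ

open Finset Pool.Agent.Flows

variable {V E : Type} [Fintype V] [DecidableEq V] [Fintype E] [DecidableEq E]

lemma toggle_btw {M : MG V E} {C : Finset V} {d : E × Bool} (h : Btw M C d.1) : hd M d ∈ C := by
  obtain ⟨e, b⟩ := d
  cases b
  · exact h.1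
  · exact h.2.1

lemma toggle_mono {M : MG V E} {C D : Finset V} {e : E} (h : Btw M C e) (hCD : C ⊆ D) :
    Btw M D e := ⟨hCD h.1, hCD h.2.1, h.2.2⟩

/-- Joins inside the classes of a partition into connected sets. -/
lemma toggle_join (M : MG V E) (C : Finset V) (c : V → Finset V) (h1 : ∀ P ∈ C, P ∈ c P)
    (h2 : ∀ P ∈ C, c P ⊆ C) (h3 : ∀ P ∈ C, ∀ Q ∈ c P, c Q = c P) (h4 : ∀ P ∈ C, Conn M (c P))
    (g : V → ZMod 2) (hg : ∀ P ∈ C, ∑ Q ∈ c P, g Q = 0) :
    ∃ y : E → ZMod 2, (∀ e, y e ≠ 0 → ∃ P ∈ C, Btw M (c P) e ∧ ∃ Q ∈ c P, g Q ≠ 0) ∧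
      ∀ w, M.bd y w = if w ∈ C then g w else 0 := by
  have key : ∀ s ∈ C.image c, ∃ y : E → ZMod 2, (∀ e, y e ≠ 0 → Btw M s e ∧ ∃ Q ∈ s, g Q ≠ 0) ∧
      ∀ w, M.bd y w = if w ∈ s then g w else 0 := by
    intro s hs
    obtain ⟨P, hP, rfl⟩ := mem_image.1 hs
    by_cases h0 : ∃ Q ∈ c P, g Q ≠ 0
    · obtain ⟨y, hy1, hy2⟩ := (h4 P hP).exists_join g (hg P hP)
      exact ⟨y, fun e he => ⟨hy1 e he, h0⟩, hy2⟩
    · push Not at h0
      refine ⟨0, by simp, fun w => ?_⟩
      rw [bd_zero]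
      split_ifs with hw
      · exact (h0 w hw).symm
      · rfl
  choose! y hy1 hy2 using key
  refine ⟨∑ s ∈ C.image c, y s, fun e he => ?_, fun w => ?_⟩
  · rw [Finset.sum_apply] at he
    obtain ⟨s, hs, h⟩ := exists_ne_zero_of_sum_ne_zero he
    obtain ⟨P, hP, rfl⟩ := mem_image.1 hs
    exact ⟨P, hP, hy1 _ hs e h⟩
  · have : M.bd (∑ s ∈ C.image c, y s) w = ∑ s ∈ C.image c, M.bd (y s) w := by
      simp only [MG.bd, Finset.sum_apply]
      rw [sum_comm]
    rw [this, sum_congr rfl fun s hs => hy2 s hs w]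
    split_ifs with hw
    · rw [sum_eq_single_of_mem (c w) (mem_image_of_mem c hw), if_pos (h1 w hw)]
      intro s hs hne
      obtain ⟨P, hP, rfl⟩ := mem_image.1 hs
      exact if_neg fun h => hne (h3 P hP w h).symm
    · refine sum_eq_zero fun s hs => ?_
      obtain ⟨P, hP, rfl⟩ := mem_image.1 hs
      exact if_neg fun h => hw (h2 P hP h)

/-- A dart labelling with prescribed defects. -/
lemma toggle_main (M : MG V E) (C : Finset V) (c : V → Finset V) (h1 : ∀ P ∈ C, P ∈ c P)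
    (h2 : ∀ P ∈ C, c P ⊆ C) (h3 : ∀ P ∈ C, ∀ Q ∈ c P, c Q = c P) (h4 : ∀ P ∈ C, Conn M (c P))
    (o : E → ZMod 2) (h5 : ∀ e, o e ≠ 0 → M.en e false ∈ C)
    (ho : ∀ P ∈ C, ∑ e ∈ univ.filter (fun e => M.en e false ∈ c P), o e = 0) :
    ∃ θ : E × Bool → ZMod 2, (∀ d, θ d ≠ 0 → (o d.1 ≠ 0 ∧ d.2 = false) ∨
        ∃ P ∈ C, Btw M (c P) d.1 ∧ ∃ e, o e ≠ 0 ∧ M.en e false ∈ c P) ∧
      (∀ P, dbd M θ P = 0) ∧ ∀ e, df θ e = o e := by
  let g : V → ZMod 2 := fun Q => ∑ e ∈ univ.filter (fun e => M.en e false = Q), o e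
  have hg : ∀ P ∈ C, ∑ Q ∈ c P, g Q = 0 := by
    intro P hP
    rw [← ho P hP]
    simp only [g, sum_filter]
    rw [sum_comm]
    refine sum_congr rfl fun e _ => ?_
    simp [sum_ite_eq]
  obtain ⟨y, hy1, hy2⟩ := toggle_join M C c h1 h2 h3 h4 g hg
  refine ⟨(fun d => if d.2 = false then o d.1 else 0) + fun d => y d.1, fun d hd' => ?_,
    fun P => ?_, fun e => ?_⟩
  · by_cases hy : y d.1 = 0
    · left
      by_cases hb : d.2 = false
      · exact ⟨by simpa [hy, hb] using hd', hb⟩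
      · exact absurd (by simp [hy, hb]) hd'
    · right
      obtain ⟨P, hP, hB, Q, hQ, hQ'⟩ := hy1 _ hy
      obtain ⟨e, he, he'⟩ := exists_ne_zero_of_sum_ne_zero hQ'
      exact ⟨P, hP, hB, e, he', by rw [(mem_filter.1 he).2]; exact hQ⟩
  · rw [dbd_add, dbd_fst, hy2]
    have : dbd M (fun d => if d.2 = false then o d.1 else 0) P = g P := by
      simp only [dbd, g, sum_filter, Fintype.sum_prod_type, Fintype.sum_bool]
      refine sum_congr rfl fun e _ => ?_
      simp
    rw [this]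
    split_ifs with hP
    · exact z2a _
    · rw [add_zero]
      refine sum_eq_zero fun e he => ?_
      by_contra h
      exact hP ((mem_filter.1 he).2 ▸ h5 e h)
  · rw [df_add, df_fst]
    simp [df]

theorem toggle1 (M : MG V E) (C : Finset V) (q W : ℕ) {k : ℕ} (cl cell : V → Finset V)
    (sys : V → Fin k) (hH : IsHubs M C q W cl cell sys) (hq : 2 ≤ q) (s : Fin k)
    (o : E → ZMod 2) :
    ∃ θ : E × Bool → ZMod 2, (∀ d, θ d ≠ 0 → Btw M C d.1 ∧
        ∃ x : E × Bool, Btw M C x.1 ∧ o x.1 ≠ 0 ∧ hd M x ∈ cl (hd M d)) ∧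
      (∀ P, dbd M θ P = 0) ∧ ∀ e, Btw M C e → ¬ Term M C cell sys s e → df θ e = o e := by
  have hm : ∀ P ∈ C, P ∈ cl P := fun P hP => hH.cell_sub P hP (hH.mem_cell P hP)
  have key : ∀ c ∈ C.image cl, ∃ t : E → ZMod 2,
      (∀ e, t e ≠ 0 → Term M C cell sys s e ∧ M.en e false ∈ c) ∧ ∑ e, t e = 1 := by
    intro c hc
    obtain ⟨P, hP, rfl⟩ := mem_image.1 hc
    obtain ⟨Q, hQ, hQs⟩ := hH.all_sys P hP s
    have hQC := hH.cl_sub P hP hQ
    have hsub : cell Q ⊆ cl P := hH.cl_eq P hP Q hQ ▸ hH.cell_sub Q hQC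
    obtain ⟨d, d1, d2, d3⟩ := hH.cell_conn Q hQC {Q} (singleton_subset_iff.2 (hH.mem_cell Q hQC))
      (singleton_nonempty Q) (fun h => by
        have := hH.cell_card Q hQC
        rw [← h, card_singleton] at this
        omega)
    rw [mem_singleton] at d1 d3
    have d4 := hH.cell_eq Q hQC _ d2
    have d5 : hd M (opp d) ∈ C := hH.cl_sub P hP (hsub d2)
    have hT : Term M C cell sys s d.1 ∧ M.en d.1 false ∈ cl P := by
      obtain ⟨e, b⟩ := d
      cases b
      · simp only [hd_mk, opp_false] at d1 d2 d3 d4 d5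
        refine ⟨⟨⟨d1 ▸ hQC, d5, fun h => d3 (h ▸ d1)⟩, ?_, ?_⟩, d1 ▸ hQ⟩
        · rw [d4.1]; exact congrArg cell d1
        · rw [← hQs]; exact congrArg sys d1
      · simp only [hd_mk, opp_true] at d1 d2 d3 d4 d5
        refine ⟨⟨⟨d5, d1 ▸ hQC, fun h => d3 (h.trans d1)⟩, ?_, ?_⟩, hsub d2⟩
        · rw [d4.1]; exact (congrArg cell d1).symm
        · exact d4.2.trans hQs
    refine ⟨Pi.single d.1 1, fun e he => ?_, by simp⟩
    by_cases h : e = d.1
    · rw [h]; exact hT
    · exact absurd (Pi.single_eq_of_ne h _) he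
  choose! t ht1 ht2 using key
  let par : Finset V → ZMod 2 := fun c =>
    ∑ e ∈ univ.filter (fun e => M.en e false ∈ c), if Btw M C e then o e else 0
  let o2 : E → ZMod 2 := fun e =>
    if Btw M C e then o e + par (cl (M.en e false)) * t (cl (M.en e false)) e else 0
  have h5 : ∀ e, o2 e ≠ 0 → Btw M C e := fun e he => by
    by_contra h
    exact he (if_neg h)
  have h6 : ∀ e, o2 e ≠ 0 → ∃ x : E × Bool, Btw M C x.1 ∧ o x.1 ≠ 0 ∧
      hd M x ∈ cl (M.en e false) := by
    intro e he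
    have hB := h5 e he
    by_cases h0 : o e = 0
    · have hp : par (cl (M.en e false)) ≠ 0 := fun h => he (by simp [o2, h0, h])
      obtain ⟨f, hf, hf'⟩ := exists_ne_zero_of_sum_ne_zero hp
      have hB' : Btw M C f := by
        by_contra h
        exact hf' (if_neg h)
      rw [if_pos hB'] at hf'
      exact ⟨(f, false), hB', hf', (mem_filter.1 hf).2⟩
    · exact ⟨(e, false), hB, h0, hm _ hB.1⟩
  obtain ⟨θ, h1, h2, h3⟩ := toggle_main M C cl hm hH.cl_sub hH.cl_eq hH.cl_conn o2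
    (fun e he => (h5 e he).1) (fun P hP => by
      have hc := mem_image_of_mem cl hP
      have : ∀ e ∈ univ.filter (fun e => M.en e false ∈ cl P),
          o2 e = (if Btw M C e then o e else 0) + par (cl P) * t (cl P) e := by
        intro e he
        have h7 := hH.cl_eq P hP _ (mem_filter.1 he).2
        by_cases hB : Btw M C e
        · simp only [o2, if_pos hB, h7]
        · have : t (cl P) e = 0 := by
            by_contra h
            exact hB (ht1 _ hc e h).1.1
          simp [o2, hB, this]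
      rw [sum_congr rfl this, sum_add_distrib, ← mul_sum,
        sum_subset (s₂ := univ) (f := t (cl P)) (subset_univ _) (fun e _ he => by
          by_contra h
          exact he (mem_filter.2 ⟨mem_univ _, (ht1 _ hc e h).2⟩)), ht2 _ hc, mul_one]
      exact z2a _)
  refine ⟨θ, fun d hd' => ?_, h2, fun e hB hT => ?_⟩
  · rcases h1 d hd' with ⟨h7, h8⟩ | ⟨P, hP, hB, e, he, he'⟩
    · refine ⟨h5 _ h7, ?_⟩
      have : hd M d = M.en d.1 false := by rw [hd, h8]
      rw [this]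
      exact h6 _ h7
    · refine ⟨toggle_mono hB (hH.cl_sub P hP), ?_⟩
      rw [hH.cl_eq P hP _ (toggle_btw hB), ← hH.cl_eq P hP _ he']
      exact h6 e he
  · rw [h3]
    have : t (cl (M.en e false)) e = 0 := by
      by_contra h
      exact hT (ht1 _ (mem_image_of_mem cl hB.1) e h).1
    simp [o2, hB, this]

theorem toggle2 (M : MG V E) (C : Finset V) (q W : ℕ) {k : ℕ} (cl cell : V → Finset V)
    (sys : V → Fin k) (hH : IsHubs M C q W cl cell sys) (s : Fin k) (o : E → ZMod 2)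
    (ho : ∀ c, ∑ e ∈ univ.filter
      (fun e => Term M C cell sys s e ∧ cell (M.en e false) = c), o e = 0) :
    ∃ θ : E × Bool → ZMod 2, (∀ d, θ d ≠ 0 → Term M C cell sys s d.1) ∧
      (∀ P, dbd M θ P = 0) ∧ ∀ e, Term M C cell sys s e → df θ e = o e := by
  let o2 : E → ZMod 2 := fun e => if Term M C cell sys s e then o e else 0
  have h5 : ∀ e, o2 e ≠ 0 → Term M C cell sys s e := fun e he => by
    by_contra h
    exact he (if_neg h)
  have hsub : ∀ P ∈ C, cell P ⊆ C := fun P hP => (hH.cell_sub P hP).trans (hH.cl_sub P hP)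
  obtain ⟨θ, h1, h2, h3⟩ := toggle_main M C cell hH.mem_cell hsub
    (fun P hP Q hQ => (hH.cell_eq P hP Q hQ).1) hH.cell_conn o2
    (fun e he => (h5 e he).1.1) (fun P hP => by
      rw [← ho (cell P), sum_filter, sum_filter]
      refine sum_congr rfl fun e _ => ?_
      by_cases hT : Term M C cell sys s e
      · by_cases h : M.en e false ∈ cell P
        · simp [o2, hT, h, (hH.cell_eq P hP _ h).1]
        · have : cell (M.en e false) ≠ cell P := fun h' => h (h' ▸ hH.mem_cell _ hT.1.1)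
          simp [h, this]
      · simp [o2, hT])
  refine ⟨θ, fun d hd' => ?_, h2, fun e hT => by rw [h3]; exact if_pos hT⟩
  rcases h1 d hd' with ⟨h7, _⟩ | ⟨P, hP, hB, e, he, he'⟩
  · exact h5 _ h7
  · have a1 := hH.cell_eq P hP _ hB.1
    have a2 := hH.cell_eq P hP _ hB.2.1
    have a3 := hH.cell_eq P hP _ he'
    exact ⟨toggle_mono hB (hsub P hP), a1.1.trans a2.1.symm,
      a1.2.trans (a3.2.symm.trans (h5 e he).2.2)⟩

end Pool.Agent.ATJ
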