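import Pool.Agent.Lib.ATJ.StepA
import Pool.Agent.Lib.ATJ.Glob
import Pool.Agent.Lib.ATJ.Toggle
import Pool.Agent.Lib.ATJ.Hubs
import Pool.Agent.Lib.ATJ.Part

/-!
The recursion over the pieces, and the rounding theorem for graphs of maximum degree three.
-/

set_option autoImplicit false
set_option linter.unusedSectionVars false

namespace Pool.Agent.ATJ

open Finset Pool.Agent.Flows

variable {V E : Type} [Fintype V] [DecidableEq V] [Fintype E] [DecidableEq E]

/-- The output of the recursion for a vertex set. -/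
structure Out (G : MG V E) (S : Finset V) (y : E → ℝ) (t : ℝ) {ι : Type} [Fintype ι]
    (Ψ : ι → Finset (E × Bool)) (a : ι → E × Bool → ZMod 2) (O : ι → E → ZMod 2)
    (β Y : ι → E × Bool → ZMod 2) : Prop where
  sup : ∀ i d, Y i d ≠ 0 → d ∈ Ψ i ∧ In G S d.1
  yev : ∀ i v, dbd G (Y i) v = 0
  bev : ∀ i, ∀ v ∈ S, dbd G (β i) v = 0
  bnd : ∀ i, ∀ d ∈ B G S, β i d = a i d
  dfc : ∀ i e, In G S e → df (β i) e + df (Y i) e = O i e
  load : ∀ d : E × Bool, In G S d.1 → |∑ i, sg (β i d) - Fintype.card ι * y d.1| ≤ t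

lemma rec_comb (G : MG V E) (S : Finset V) (pt : V → Finset V) (p1 : ∀ v ∈ S, v ∈ pt v)
    (p2 : ∀ v ∈ S, pt v ⊆ S) (p3 : ∀ v ∈ S, ∀ w ∈ pt v, pt w = pt v) (y : E → ℝ) (t : ℝ)
    {ι : Type} [Fintype ι] (Ψ : ι → Finset (E × Bool)) (γ Y0 : ι → E × Bool → ZMod 2)
    (O : ι → E → ZMod 2) (y1 : ∀ i d, Y0 i d ≠ 0 → d ∈ Ψ i ∧ In G S d.1)
    (y2 : ∀ i v, dbd G (Y0 i) v = 0)
    (h1 : ∀ i e, In G S e → pt (G.en e false) ≠ pt (G.en e true) →
      df (γ i) e + df (Y0 i) e = O i e)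
    (h2 : ∀ v ∈ S, ∀ d ∈ B G (pt v), |∑ i, sg (γ i d) - Fintype.card ι * y d.1| ≤ t)
    (hc : ∀ P ∈ S.image pt, ∃ β Y, Out G P y t Ψ γ (fun i e => O i e + df (Y0 i) e) β Y) :
    ∃ β Y, Out G S y t Ψ γ O β Y := by
  choose! βc Yc hc using hc
  have m1 : ∀ P ∈ S.image pt, ∀ v ∈ P, pt v = P ∧ v ∈ S := by
    intro P hP v hv
    obtain ⟨w, hw, rfl⟩ := mem_image.1 hP
    exact ⟨p3 w hw v hv, p2 w hw hv⟩
  have m2 : ∀ d : E × Bool, hd G d ∈ S → pt (hd G d) ≠ pt (hd G (opp d)) →
      d ∈ B G (pt (hd G d)) := fun d a b =>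
    mem_B.2 ⟨p1 _ a, fun c => b (p3 _ a _ c).symm⟩
  have m3 : ∀ P ∈ S.image pt, ∀ i e, ¬ In G P e → df (Yc P i) e = 0 := by
    intro P hP i e he
    have : ∀ b, Yc P i (e, b) = 0 := fun b => by
      by_contra h; exact he ((hc P hP).sup i _ h).2
    simp [df, this]
  have m4 : ∀ i e, df (Y0 i + ∑ P ∈ S.image pt, Yc P i) e =
      df (Y0 i) e + ∑ P ∈ S.image pt, df (Yc P i) e := by
    intro i e
    rw [df_add]
    simp only [df, Finset.sum_apply, sum_add_distrib]
  refine ⟨fun i d => βc (pt (hd G d)) i d, fun i => Y0 i + ∑ P ∈ S.image pt, Yc P i,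
    ?_, ?_, ?_, ?_, ?_, ?_⟩
  · intro i d h
    by_cases h0 : Y0 i d = 0
    · rw [Pi.add_apply, h0, zero_add, Finset.sum_apply] at h
      obtain ⟨P, hP, h⟩ := exists_ne_zero_of_sum_ne_zero h
      have := (hc P hP).sup i d h
      exact ⟨this.1, (m1 P hP _ this.2.1).2, (m1 P hP _ this.2.2).2⟩
    · exact y1 i d h0
  · intro i v
    rw [dbd_add, y2, zero_add]
    simp only [dbd, Finset.sum_apply]
    rw [sum_comm]
    exact sum_eq_zero fun P hP => (hc P hP).yev i v
  · intro i v hv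
    rw [← (hc _ (mem_image_of_mem pt hv)).bev i v (p1 v hv)]
    exact sum_congr rfl fun d hd' => by simp only [(mem_filter.1 hd').2]
  · intro i d hd'
    have := mem_B.1 hd'
    exact (hc _ (mem_image_of_mem pt this.1)).bnd i d
      (mem_B.2 ⟨p1 _ this.1, fun h => this.2 (p2 _ this.1 h)⟩)
  · intro i e he
    rw [m4]
    have hP := mem_image_of_mem pt he.1
    have hQ := mem_image_of_mem pt he.2
    by_cases h : pt (G.en e false) = pt (G.en e true)
    · have h3 := (hc _ hP).dfc i e ⟨p1 _ he.1, h ▸ p1 _ he.2⟩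
      rw [sum_eq_single_of_mem _ hP fun Q hQ hne => m3 Q hQ i e fun h4 =>
        hne (m1 Q hQ _ h4.1).1.symm]
      have h5 : df (fun d => βc (pt (hd G d)) i d) e = df (βc (pt (G.en e false)) i) e := by
        simp only [df, hd_mk, ← h]
      rw [h5, add_left_comm, h3, add_left_comm, z2a, add_zero]
    · rw [sum_eq_zero fun Q hQ => m3 Q hQ i e fun h4 =>
        h ((m1 Q hQ _ h4.1).1.trans (m1 Q hQ _ h4.2).1.symm), add_zero, ← h1 i e he h]
      have a1 := (hc _ hP).bnd i _ (m2 (e, false) he.1 h)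
      have a2 := (hc _ hQ).bnd i _ (m2 (e, true) he.2 (Ne.symm h))
      simp only [df, hd_mk, a1, a2]
  · intro d hd'
    have h3 := in_iff.1 hd'
    have hP := mem_image_of_mem pt h3.1
    by_cases h : pt (hd G d) = pt (hd G (opp d))
    · exact (hc _ hP).load d (in_iff.2 ⟨p1 _ h3.1, h ▸ p1 _ h3.2⟩)
    · simp only [fun i => (hc _ hP).bnd i _ (m2 d h3.1 h)]
      exact h2 _ h3.1 d (m2 d h3.1 h)

lemma Inv.load {G : MG V E} {S : Finset V} {δ η : ℝ} (hδ : 0 ≤ δ) (hη : 0 ≤ η) {y : E → ℝ}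
    {ν : (E → ZMod 2) → ℝ} {ι : Type} [Fintype ι] {a : ι → E × Bool → ZMod 2}
    (hν : Meas G S y ν) (hI : Inv G S δ η ν a) {d : E × Bool} (hd' : d ∈ B G S) :
    |∑ i, sg (a i d) - Fintype.card ι * y d.1| ≤ (δ + η) * Fintype.card ι := by
  have hN : (0 : ℝ) ≤ Fintype.card ι := Nat.cast_nonneg _
  have h0 := abs_hat_le hν.pos {d}
  have h1 := hI {d} (singleton_subset_iff.2 hd')
  rw [hat_singleton, hν.mar] at h0 h1
  simp only [chi, sum_singleton] at h1
  rw [hν.tot] at h0
  rcases h1 with ⟨h1, h2⟩ | h1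
  · simp [h1, h2]; positivity
  · rw [abs_le] at h0 h1 ⊢
    have h2 := mul_le_mul_of_nonneg_left h0.1 (mul_nonneg hδ hN)
    have h3 := mul_le_mul_of_nonneg_left h0.2 (mul_nonneg hδ hN)
    constructor <;> linarith [h1.1, h1.2]

theorem rec_piece {K q W z k l0 : ℕ} (hq : 2 ≤ q) {C δ η : ℝ} (hδ : 0 ≤ δ) (hη : 0 ≤ η)
    (G : MG V E) (hloop : ∀ e, G.en e false ≠ G.en e true) {Pc : Finset V → Prop}
    {T : Finset V → TD V k} {root : V → Finset V}
    {nd : Fin k → E → E ⊕ (Finset V × Finset (Finset V))}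
    {Φ : Fin k → Fin (K + 2) → Finset (E × Bool)} (hG : IsGlob G K q W z Pc T root nd Φ)
    {ι : Type} [Fintype ι] [DecidableEq ι] (y : E → ℝ)
    (hA : ∀ (S : Finset V) (T : TD V k), IsTor G K q W z S T → (B G S).card ≤ K →
      ∀ (ν : (E → ZMod 2) → ℝ)
        (a : ι → E × Bool → ZMod 2), Meas G S y ν → (∀ i, ∑ d ∈ B G S, a i d = 0) →
        Inv G S δ η ν a →
        ∃ (β : ι → E × Bool → ZMod 2) (ν' : Finset V → (E → ZMod 2) → ℝ),
          (∀ i, ∀ d ∈ B G S, β i d = a i d) ∧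
          (∀ i, ∀ P ∈ S.image T.pt, ∑ d ∈ B G P, β i d = 0) ∧
          (∀ i e, Btw (T.M G) (S.image T.pt) e → ¬ Btw (T.M G) (T.C S) e → df (β i) e = 0) ∧
          (∀ e, Btw (T.M G) (T.C S) e →
            ((univ.filter fun i => df (β i) e ≠ 0).card : ℝ) ≤ 8 * Fintype.card ι / l0 + C) ∧
          (∀ P ∈ S.image T.pt, Meas G P y (ν' P)) ∧
          ∀ θ : ι → E × Bool → ZMod 2, (∀ i d, θ i d ≠ 0 → Btw (T.M G) (T.C S) d.1) →
            (∀ i P, dbd (T.M G) (θ i) P = 0) → ∀ P ∈ S.image T.pt,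
            C + 2 * ((univ.filter fun i => ∃ d ∈ B G P, θ i d ≠ 0).card : ℝ) ≤
              η * Fintype.card ι → Inv G P δ η (ν' P) (fun i => β i + θ i))
    (s : ι → Fin k) (j : ι → Fin (K + 2)) (m : ℝ) (hC : 0 ≤ C)
    (hm : ∀ x, ((univ.filter fun i => s i = x).card : ℝ) ≤ m)
    (hb : C + 2 * (W * K * (8 * Fintype.card ι / l0 + C) + m) ≤ η * Fintype.card ι)
    (S : Finset V) (hS : Pc S) (ν : (E → ZMod 2) → ℝ) (a : ι → E × Bool → ZMod 2)
    (O : ι → E → ZMod 2) (hν : Meas G S y ν) (ha : ∀ i, ∑ d ∈ B G S, a i d = 0)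
    (hI : Inv G S δ η ν a)
    (hO : ∀ i n, ∑ e ∈ univ.filter (fun e => In G S e ∧ nd (s i) e = n), O i e = 0) :
    ∃ β Y, Out G S y ((δ + η) * Fintype.card ι) (fun i => Φ (s i) (j i)) a O β Y := by
  classical
  induction S using Finset.strongInduction generalizing ν a O with
  | H S ih =>
  by_cases h2 : 2 ≤ S.card
  swap
  · obtain ⟨v, rfl⟩ := card_eq_one.1 (show S.card = 1 by
      have := card_pos.2 (hG.ne S hS); omega)
    have hin : ∀ e, ¬ In G {v} e := fun e h =>
      hloop e ((mem_singleton.1 h.1).trans (mem_singleton.1 h.2).symm)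
    refine ⟨a, 0, by simp, fun i v => by simp [dbd], fun i w hw => ?_, fun _ _ _ => rfl,
      fun i e he => absurd he (hin e), fun d he => absurd he (hin _)⟩
    have := sum_dbd G (a i) {v}
    rw [sum_singleton, ha, filter_eq_empty_iff.2 fun e _ => hin e] at this
    rw [mem_singleton.1 hw, this]; simp
  have hT := hG.tor S hS h2
  have hp := hT.part
  set M := (T S).M G with hM
  set PP := S.image (T S).pt with hPP
  set CC := (T S).C S with hCC
  have hCP : ∀ e, Btw M CC e → Btw M PP e := fun e h =>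
    ⟨(mem_sdiff.1 h.1).1, (mem_sdiff.1 h.2.1).1, h.2.2⟩
  have hPS : ∀ e, Btw M PP e → In G S e := fun e h => ⟨hp.pt_mem.1 h.1, hp.pt_mem.1 h.2.1⟩
  obtain ⟨β, ν', b1, b2, b3, b4, b5, b6⟩ := hA S (T S) hT (hG.deg S hS) ν a hν ha hI
  have ht1 := fun i => toggle1 M CC q W _ _ _ hT.hubs hq (s i) (df (β i))
  choose θ1 t1 t2 t3 using ht1
  let o : ι → E → ZMod 2 := fun i => df (β i + θ1 i)
  have o1 : ∀ i e, Btw M PP e → ¬ (T S).Tm G S (s i) e → o i e = 0 := by
    intro i e h1 h3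
    simp only [o, df_add]
    by_cases h4 : Btw M CC e
    · rw [t3 i e h4 h3, z2a]
    · have : ∀ b, θ1 i (e, b) = 0 := fun b => by
        by_contra h; exact h4 (t1 i _ h).1
      rw [b3 i e h1 h4]
      simp [df, this]
  have o2 : ∀ i, ∑ e ∈ univ.filter ((T S).Tm G S (s i)), o i e = 0 := by
    intro i
    let γ : E × Bool → ZMod 2 := fun d =>
      if (T S).pt (hd G d) = (T S).pt (hd G (opp d)) then 0 else (β i + θ1 i) d
    have a1 := sum_dbd M γ PP
    have a2 : ∑ P ∈ PP, dbd M γ P = 0 := by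
      refine sum_eq_zero fun P hP => ?_
      have : dbd M γ P = ∑ d ∈ B G P, (β i + θ1 i) d := by
        rw [dbd, B, sum_filter, sum_filter]
        refine sum_congr rfl fun d _ => ?_
        simp only [hM, TD.M, hd_quo, γ, hp.mem_iff hP]
        by_cases c1 : (T S).pt (hd G d) = P
        · by_cases c2 : (T S).pt (hd G (opp d)) = P
          · simp [c1, c2]
          · simp [c1, c2, Ne.symm c2]
        · simp [c1]
      rw [this]
      simp only [Pi.add_apply, sum_add_distrib]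
      rw [b2 i P hP, ← hp.dbd_eq hP fun d h => (t1 i d h).1, zero_add]
      exact t2 i P
    have a3 : ∑ d ∈ B M PP, γ d = 0 := by
      rw [hM, TD.M, hp.B_quo_all, ← ha i]
      refine sum_congr rfl fun d hd' => ?_
      have c1 := mem_B.1 hd'
      have c2 : (T S).pt (hd G d) ≠ (T S).pt (hd G (opp d)) := fun h =>
        c1.2 (hp.pt_mem.1 (h ▸ hp.pt_mem.2 c1.1))
      have c3 : θ1 i d = 0 := by
        by_contra h; exact c1.2 (in_iff.1 (hPS _ (hCP _ (t1 i d h).1))).2
      simp [γ, c2, c3, b1 i d hd']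
    rw [a2, a3, zero_add] at a1
    rw [a1, sum_filter, sum_filter]
    refine sum_congr rfl fun e _ => ?_
    by_cases c1 : Btw M PP e
    · have c2 : (T S).pt (G.en e false) ≠ (T S).pt (G.en e true) := c1.2.2
      have c3 : df γ e = o i e := by simp [df, γ, o, c2, c2.symm]
      rw [if_pos (show In M PP e from ⟨c1.1, c1.2.1⟩), c3]
      split_ifs with c4
      · rfl
      · exact (o1 i e c1 c4).symm
    · rw [if_neg fun h : (T S).Tm G S (s i) e => c1 (hCP e h.1)]
      split_ifs with c4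
      · have c2 : (T S).pt (G.en e false) = (T S).pt (G.en e true) := by
          by_contra h; exact c1 ⟨c4.1, c4.2, h⟩
        simp [df, γ, c2]
      · rfl
  let π : ι → E ⊕ (Finset V × Finset (Finset V)) → ZMod 2 := fun i n =>
    ∑ e ∈ univ.filter (fun e => (T S).Tm G S (s i) e ∧ nd (s i) e = n), o i e
  have hY := fun i => hG.ov S hS h2 (s i) (j i) (π i) (fun n hn => by
      obtain ⟨e, he, -⟩ := exists_ne_zero_of_sum_ne_zero hn
      exact ⟨e, (mem_filter.1 he).2⟩) (by
      rw [← o2 i, ← sum_fiberwise_of_maps_to (g := nd (s i)) (t := univ) fun _ _ => mem_univ _]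
      refine sum_congr rfl fun n _ => ?_
      simp only [π, filter_filter])
  choose Y y1 y2 y3 using hY
  have n1 : ∀ i e, (T S).Tm G S (s i) e → ∀ f, nd (s i) f = nd (s i) e → (T S).Tm G S (s i) f :=
    fun i e h f hf => hG.nd_inr S hS h2 _ f _ (hf.trans (hG.nd_tm S hS h2 _ e h))
  have ht2 := fun i => toggle2 M CC q W _ _ _ hT.hubs (s i)
    (fun e => O i e + df (Y i) e + o i e) (by
      intro c
      have e1 : (univ.filter fun e => Term M CC (T S).cell (T S).sys (s i) e ∧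
          (T S).cell (M.en e false) = c) = univ.filter fun e => nd (s i) e = Sum.inr (S, c) := by
        ext e
        simp only [mem_filter, mem_univ, true_and]
        constructor
        · rintro ⟨h1, rfl⟩; exact hG.nd_tm S hS h2 _ e h1
        · intro h1
          have h3 := hG.nd_inr S hS h2 _ e c h1
          have h4 := (hG.nd_tm S hS h2 _ e h3).symm.trans h1
          exact ⟨h3, (Prod.ext_iff.1 (Sum.inr_injective h4)).2⟩
      have e2 : (univ.filter fun e => In G S e ∧ nd (s i) e = Sum.inr (S, c)) =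
          univ.filter fun e => nd (s i) e = Sum.inr (S, c) :=
        filter_congr fun e _ => and_iff_right_of_imp fun h =>
          hPS e (hCP e (hG.nd_inr S hS h2 _ e c h).1)
      have e3 : (univ.filter fun e => (T S).Tm G S (s i) e ∧ nd (s i) e = Sum.inr (S, c)) =
          univ.filter fun e => nd (s i) e = Sum.inr (S, c) :=
        filter_congr fun e _ => and_iff_right_of_imp fun h => hG.nd_inr S hS h2 _ e c h
      have e4 := hO i (Sum.inr (S, c))
      rw [e2] at e4
      rw [e1, sum_add_distrib, sum_add_distrib, e4, y3, zero_add]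
      simp only [π]
      rw [e3, z2a])
  choose θ2 t4 t5 t6 using ht2
  have hInv : ∀ P ∈ PP, Inv G P δ η (ν' P) (fun i => β i + (θ1 i + θ2 i)) := by
    intro P hP
    refine b6 (fun i => θ1 i + θ2 i) (fun i d h => ?_)
      (fun i Q => by rw [dbd_add, t2, t5, add_zero]) P hP (le_trans ?_ hb)
    · by_cases h1 : θ1 i d = 0
      · exact (t4 i d (by simpa [h1] using h)).1
      · exact (t1 i d h1).1
    by_cases hPC : P ∈ CC
    swap
    · rw [filter_eq_empty_iff.2]
      · have : 0 ≤ m := (Nat.cast_nonneg _).trans (hm ((T S).sys P))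
        simp only [card_empty, Nat.cast_zero]
        gcongr
        positivity
      · rintro i - ⟨d, h1, h3⟩
        apply hPC
        rw [← ((hp.mem_B hP).1 h1).1]
        by_cases h4 : θ1 i d = 0
        · exact (btw_iff.1 (t4 i d (by simpa [h4] using h3)).1).1
        · exact (btw_iff.1 (t1 i d h4).1).1
    let D : Finset (E × Bool) := (((T S).cl P).biUnion (B G)).filter fun x => Btw M CC x.1
    have d1 : D.card ≤ W * K := by
      refine (card_filter_le _ _).trans ((card_biUnion_le_card_mul _ _ K fun Q hQ =>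
        hp.deg' (mem_sdiff.1 (hT.hubs.cl_sub P hPC hQ)).1).trans ?_)
      exact Nat.mul_le_mul_right _ (hT.hubs.cl_card P hPC)
    have d2 : (univ.filter fun i => ∃ d ∈ B G P, (θ1 i + θ2 i) d ≠ 0) ⊆
        (D.biUnion fun x => univ.filter fun i => df (β i) x.1 ≠ 0) ∪
          univ.filter fun i => s i = (T S).sys P := by
      intro i hi
      obtain ⟨d, h1, h3⟩ := (mem_filter.1 hi).2
      have h5 : hd M d = P := ((hp.mem_B hP).1 h1).1
      by_cases h4 : θ1 i d = 0
      · have h6 := t4 i d (by simpa [h4] using h3)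
        refine mem_union_right _ (mem_filter.2 ⟨mem_univ _, ?_⟩)
        obtain ⟨e, b⟩ := d
        cases b
        · rw [← h6.2.2, ← h5]; rfl
        · have h7 := hT.hubs.mem_cell _ h6.1.2.1
          rw [← h6.2.2, ← h5]
          exact (hT.hubs.cell_eq _ h6.1.1 _ (h6.2.1 ▸ h7)).2.symm
      · obtain ⟨-, x, x1, x2, x3⟩ := t1 i d h4
        refine mem_union_left _ (mem_biUnion.2 ⟨x, mem_filter.2 ⟨mem_biUnion.2
          ⟨hd M x, h5 ▸ x3, ?_⟩, x1⟩, mem_filter.2 ⟨mem_univ _, x2⟩⟩)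
        have x4 := btw_iff.1 (hCP _ x1)
        exact (hp.mem_B x4.1).2 ⟨rfl, x4.2.2.symm⟩
    have d3 : ((D.biUnion fun x => univ.filter fun i => df (β i) x.1 ≠ 0).card : ℝ) ≤
        W * K * (8 * Fintype.card ι / l0 + C) := by
      refine (Nat.cast_le.2 card_biUnion_le).trans ?_
      push_cast
      refine (sum_le_sum fun x hx => b4 x.1 (mem_filter.1 hx).2).trans ?_
      rw [sum_const, nsmul_eq_mul]
      gcongr
      exact_mod_cast d1
    have d4 := (Nat.cast_le (α := ℝ)).2 ((card_le_card d2).trans (card_union_le _ _))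
    push_cast at d4
    linarith [hm ((T S).sys P)]
  have z1 : ∀ i d, ¬ Btw M CC d.1 → θ1 i d = 0 ∧ θ2 i d = 0 := fun i d h =>
    ⟨by by_contra h1; exact h (t1 i d h1).1, by by_contra h1; exact h (t4 i d h1).1⟩
  have n2 : ∀ i e, ¬ (T S).Tm G S (s i) e → π i (nd (s i) e) = 0 := by
    intro i e h
    refine sum_eq_zero fun f hf => absurd ?_ h
    exact n1 i f (mem_filter.1 hf).2.1 e (mem_filter.1 hf).2.2.symm
  obtain ⟨β', Y', H⟩ := rec_comb G S (T S).pt hp.mem (fun v hv => (hp.sub v hv).1) hp.eq y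
    ((δ + η) * Fintype.card ι) (fun i => Φ (s i) (j i)) (fun i => β i + (θ1 i + θ2 i)) Y O y1 y2
    (by
      intro i e he hne
      have c1 : Btw M PP e := ⟨hp.pt_mem.2 he.1, hp.pt_mem.2 he.2, hne⟩
      rw [← add_assoc, df_add]
      change o i e + _ + _ = _
      by_cases c2 : (T S).Tm G S (s i) e
      · rw [t6 i e c2]
        generalize o i e = a
        generalize O i e = b
        generalize df (Y i) e = c
        revert a b c; decide
      · have c3 := hG.nd_not S hS h2 _ e c1 c2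
        have c4 : (univ.filter fun f => nd (s i) f = nd (s i) e) = {e} := by
          ext f
          simp only [mem_filter, mem_univ, true_and, mem_singleton]
          exact ⟨fun h => hG.nd_inl _ _ _ (h.trans c3), fun h => h ▸ rfl⟩
        have c5 : (univ.filter fun f => In G S f ∧ nd (s i) f = nd (s i) e) = {e} := by
          ext f
          simp only [mem_filter, mem_univ, true_and, mem_singleton]
          exact ⟨fun h => hG.nd_inl _ _ _ (h.2.trans c3), fun h => by rw [h]; exact ⟨he, rfl⟩⟩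
        have c6 := y3 i (nd (s i) e)
        have c7 := hO i (nd (s i) e)
        rw [c4, sum_singleton, n2 i e c2] at c6
        rw [c5, sum_singleton] at c7
        have c8 : ∀ b, θ2 i (e, b) = 0 := fun b => by
          by_contra h; exact c2 (t4 i _ h)
        rw [c6, c7, o1 i e c1 c2]
        simp [df, c8])
    (fun v hv d hd' => (hInv _ (mem_image_of_mem _ hv)).load hδ hη
      (b5 _ (mem_image_of_mem _ hv)) hd')
    (by
      intro P hP
      have hPc : Pc P := by
        obtain ⟨v, hv, rfl⟩ := mem_image.1 hP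
        exact hG.child S hS h2 v hv
      refine ih P (hp.ssub hP) hPc (ν' P) _ _ (b5 P hP) (fun i => ?_) (hInv P hP) fun i n => ?_
      · simp only [Pi.add_apply, sum_add_distrib]
        rw [b2 i P hP, ← hp.dbd_eq hP fun d h => (t1 i d h).1,
          ← hp.dbd_eq hP fun d h => (t4 i d h).1, zero_add]
        exact (congrArg₂ (· + ·) (t2 i P) (t5 i P)).trans (add_zero 0)
      · rcases (univ.filter fun e => In G P e ∧ nd (s i) e = n).eq_empty_or_nonempty with
          h | ⟨e, he'⟩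
        · rw [h, sum_empty]
        obtain ⟨he, rfl⟩ := (mem_filter.1 he').2
        have c1 : (univ.filter fun f => In G P f ∧ nd (s i) f = nd (s i) e) =
            univ.filter fun f => nd (s i) f = nd (s i) e :=
          filter_congr fun f _ => and_iff_right_of_imp (hG.nd_in P hPc _ e f he)
        have c2 : (univ.filter fun f => In G S f ∧ nd (s i) f = nd (s i) e) =
            univ.filter fun f => nd (s i) f = nd (s i) e :=
          filter_congr fun f _ => and_iff_right_of_imp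
            (hG.nd_in S hS _ e f ⟨(hp.ssub hP).1 he.1, (hp.ssub hP).1 he.2⟩)
        have c3 := hO i (nd (s i) e)
        rw [c2] at c3
        rw [c1, sum_add_distrib, c3, y3, zero_add]
        exact n2 i e fun h => h.1.2.2
          (((hp.mem_iff hP).1 he.1).trans ((hp.mem_iff hP).1 he.2).symm))
  refine ⟨β', Y', H.sup, H.yev, H.bev, fun i d hd' => ?_, H.dfc, H.load⟩
  have := z1 i d fun h => (mem_B.1 hd').2 (in_iff.1 (hPS _ (hCP _ h))).2
  rw [H.bnd i d hd']
  simp [this.1, this.2, b1 i d hd']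

lemma exists_tor (K q k : ℕ) (hq : 0 < q) (hk : 0 < k) (G : MG V E)
    (hdeg : ∀ v, (B G {v}).card ≤ K) (S : Finset V) (hS : Conn G S) (hB : (B G S).card ≤ K)
    (h2 : 2 ≤ S.card) : ∃ T : TD V k,
      IsTor G K q ((K + 1) * (k * (K + 1) * q)) (K + k * (K + 1) * q + 3) S T := by
  obtain ⟨pt, hp, hc, hsep, hZ⟩ := exists_part G K hdeg S hS hB h2
  by_cases h : K + k * (K + 1) * q + 3 ≤ (S.image pt).card
  · obtain ⟨Z, z1, z2, z3, z4⟩ := hZ (by omega)
    obtain ⟨cl, cell, sys, hH⟩ := exists_hubs (quo G pt) (S.image pt \ Z) K q k hq hk z3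
      (fun P hP => by
        rw [hp.B_quo (mem_sdiff.1 hP).1]; exact hp.deg' (mem_sdiff.1 hP).1)
      (by rw [card_sdiff_of_subset z1]; omega)
    exact ⟨⟨pt, Z, cl, cell, sys⟩, hp, z1, by dsimp only; omega, hc, z4, hH, hsep⟩
  · refine ⟨⟨pt, S.image pt, fun _ => ∅, fun _ => ∅, fun _ => ⟨0, hk⟩⟩, hp, Subset.rfl,
      by dsimp only; omega, hc, fun P _ R hR _ => Or.inl (hR.trans (erase_subset _ _)), ?_, hsep⟩
    dsimp only
    rw [sdiff_self]
    constructor <;> simp

theorem approx_cubic (ε : ℝ) (hε : 0 < ε) : ∃ N0 : ℕ, ∀ N ≥ N0,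
    ∀ (V E : Type) [Fintype V] [DecidableEq V] [Fintype E] [DecidableEq E] (G : MG V E),
      (∀ v, (B G {v}).card ≤ 3) → (∀ e, G.en e false ≠ G.en e true) → Approx ε N G := by
  obtain ⟨δ, hδ, hδ1, hδε⟩ : ∃ δ : ℝ, 0 < δ ∧ δ < 1 ∧ δ ≤ ε / 4 :=
    ⟨min (ε / 4) (1 / 2), by positivity, (min_le_right _ _).trans_lt (by norm_num), min_le_left _ _⟩
  obtain ⟨K, hK, hKε⟩ : ∃ K : ℕ, 3 ≤ K ∧ 32 / ε ≤ K :=
    ⟨max 3 ⌈32 / ε⌉₊, le_max_left _ _, (Nat.le_ceil _).trans (by exact_mod_cast le_max_right _ _)⟩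
  obtain ⟨η, hη, hη1, hη2⟩ : ∃ η : ℝ, 0 < η ∧ 2 ^ K * η ≤ δ ∧ η ≤ δ :=
    ⟨δ / 2 ^ K, by positivity, le_of_eq (by field_simp),
      div_le_self hδ.le (one_le_pow₀ (by norm_num))⟩
  obtain ⟨k, hk, hkη⟩ : ∃ k : ℕ, 0 < k ∧ 8 / η ≤ k :=
    ⟨⌈8 / η⌉₊, Nat.ceil_pos.2 (by positivity), Nat.le_ceil _⟩
  obtain ⟨W, hW⟩ : ∃ W, W = (K + 1) * (k * (K + 1) * (5 * K + 1)) := ⟨_, rfl⟩
  obtain ⟨l0, hl, hlη⟩ : ∃ l0 : ℕ, 0 < l0 ∧ 64 * W * K / η ≤ l0 :=
    ⟨⌈64 * W * K / η⌉₊ + 1, Nat.succ_pos _, (Nat.le_ceil _).trans (by push_cast; linarith)⟩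
  obtain ⟨C, hC, hA⟩ := stepA K (K + k * (K + 1) * (5 * K + 1) + 3) l0 (by omega) hl
  obtain ⟨N0, hN1, hN2⟩ : ∃ N0 : ℕ, 2 * (C + 2 * (W * K * C + (K + 2))) / η ≤ N0 ∧
      32 * k / ε ≤ N0 := ⟨max ⌈2 * (C + 2 * (W * K * C + (K + 2))) / η⌉₊ ⌈32 * k / ε⌉₊,
    (Nat.le_ceil _).trans (by exact_mod_cast le_max_left _ _),
    (Nat.le_ceil _).trans (by exact_mod_cast le_max_right _ _)⟩
  refine ⟨N0 + 1, fun N hN V E _ _ _ _ G hdeg hloop y ν hν => ?_⟩
  classical
  have hN' : (N0 : ℝ) ≤ N := by exact_mod_cast (by omega : N0 ≤ N)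
  have hN0 : (0 : ℝ) ≤ N := Nat.cast_nonneg _
  have hk' : (0 : ℝ) < k := by exact_mod_cast hk
  have hl' : (0 : ℝ) < l0 := by exact_mod_cast hl
  have : Nonempty (Fin N) := ⟨⟨0, by omega⟩⟩
  have : Nonempty (Fin k) := ⟨⟨0, hk⟩⟩
  obtain ⟨Pc, T, root, nd, Φ, hG⟩ := exists_glob G K (5 * K + 1) W _ k le_rfl
    (fun S h1 h2 h3 => hW ▸ exists_tor K (5 * K + 1) k (by omega) hk G
      (fun v => (hdeg v).trans hK) S h1 h2 h3) hk
  obtain ⟨w, hw⟩ := cnt_even N (Fin k × Fin (K + 2))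
  simp only [Fintype.card_prod, Fintype.card_fin, Nat.cast_mul, Nat.cast_add, Nat.cast_ofNat] at hw
  have cnt : ∀ (A : Finset (Fin k × Fin (K + 2))), ((univ.filter fun i => w i ∈ A).card : ℝ) ≤
      A.card * (N / (k * (K + 2)) + 1) := by
    intro A
    rw [card_eq_sum_card_fiberwise (f := w) (s := univ.filter fun i => w i ∈ A) (t := A)
      fun i hi => (mem_filter.1 (mem_coe.1 hi)).2]
    push_cast
    rw [← nsmul_eq_mul, ← sum_const]
    refine sum_le_sum fun c _ => le_trans ?_ (hw c)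
    exact_mod_cast card_le_card fun i hi => mem_filter.2 ⟨mem_univ _, (mem_filter.1 hi).2⟩
  have hrec := rec_piece (l0 := l0) (by omega) hδ.le hη.le G hloop hG y
    (hA δ η hδ hδ1 hη1 V E G _ W k · · · · (Fin N) y) (fun i => (w i).1) (fun i => (w i).2)
    (N / k + (K + 2)) hC (fun x => by
      have h1 := cnt ({x} ×ˢ univ)
      simp only [mem_product, mem_singleton, mem_univ, and_true, card_product, card_singleton,
        card_univ, Fintype.card_fin, one_mul, Nat.cast_add, Nat.cast_ofNat] at h1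
      refine h1.trans (le_of_eq ?_)
      field_simp) (by
      rw [Fintype.card_fin]
      rw [div_le_iff₀ hη] at hN1 hkη hlη
      have h1 : (N : ℝ) / k ≤ η * N / 8 := by
        rw [div_le_div_iff₀ hk' (by norm_num)]; nlinarith
      have h2 : (W * K * (8 * N / l0) : ℝ) ≤ η * N / 8 := by
        rw [← mul_div_assoc, div_le_div_iff₀ hl' (by norm_num)]; nlinarith
      nlinarith)
  obtain ⟨β, Y, H⟩ := rec_comb G univ root (fun v _ => hG.root_mem v) (fun _ _ => subset_univ _)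
    (fun v _ => hG.root_eq v) y ((δ + η) * Fintype.card (Fin N)) (fun i => Φ (w i).1 (w i).2)
    0 0 0 (by simp) (fun i v => by simp [dbd]) (fun i e _ _ => by simp [df])
    (fun v _ d h => by simp [hG.root_B] at h) (by
      intro P hP
      obtain ⟨v, -, rfl⟩ := mem_image.1 hP
      refine hrec _ (hG.root_pc v) ν _ _ ⟨hν.pos, hν.tot, fun ω h => (hν.ev ω h).mono
        (subset_univ _), hν.mar⟩ (by simp) (fun l hl => Or.inl ?_) (fun i n => by simp [df])
      rw [hG.root_B, subset_empty] at hl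
      simp [hl, hν.tot])
  have hin : ∀ e, In G univ e := fun e => ⟨mem_univ _, mem_univ _⟩
  refine ⟨fun i e => (β i + Y i) (e, false), fun i => ?_, fun e => ?_⟩
  · rw [MG.isFlow_iff z2a]
    intro v
    have h1 : (fun d : E × Bool => (β i + Y i) (d.1, false)) = β i + Y i := by
      ext ⟨e, b⟩
      cases b
      · rfl
      · have := H.dfc i e (hin e)
        rw [← df_add] at this
        exact z2eq.1 this
    rw [← dbd_fst, h1, dbd_add, H.yev, H.bev i v (mem_univ _), add_zero]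
  · have h1 := H.load (e, false) (hin e)
    have h2 := stepA_pert {(e, false)} _ Subset.rfl β Y
    simp only [chi, sum_singleton, mem_singleton, exists_eq_left] at h2
    have h3 := cnt (univ.filter fun c => (e, false) ∈ Φ c.1 c.2)
    have h4 : (univ.filter fun c : Fin k × Fin (K + 2) => (e, false) ∈ Φ c.1 c.2).card ≤ k * 4 := by
      rw [card_filter, Fintype.sum_prod_type]
      refine (sum_le_sum (g := fun _ => 4) fun x _ => ?_).trans (by simp)
      rw [← card_filter]; exact hG.mult x _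
    have h5 : ((univ.filter fun i => Y i (e, false) ≠ 0).card : ℝ) ≤
        k * 4 * (N / (k * (K + 2)) + 1) := by
      refine le_trans (Nat.cast_le.2 (card_le_card fun i hi => ?_)) (h3.trans ?_)
      · simpa using (H.sup i _ (mem_filter.1 hi).2).1
      · gcongr; exact_mod_cast h4
    have h6 : (k * 4 * (N / (k * (K + 2)) + 1) : ℝ) = 4 * (N / (K + 2)) + 4 * k := by
      field_simp
    rw [div_le_iff₀ hε] at hN2 hKε
    have h7 : (N : ℝ) / (K + 2) ≤ ε * N / 32 := by
      rw [div_le_div_iff₀ (by positivity) (by norm_num)]; nlinarith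
    rw [Fintype.card_fin] at h1
    have h8 : (δ + η) * N ≤ ε * N / 2 := by nlinarith
    have h9 : 32 * (k : ℝ) ≤ ε * N := by nlinarith
    rw [abs_le] at h1 h2 ⊢
    constructor <;> linarith [h1.1, h1.2, h2.1, h2.2]

end Pool.Agent.ATJ
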