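import Pool.Agent.Lib.ATJ.Defs
import Pool.Agent.Lib.Flows.Classes

/-!
A bounded family of even subgraphs that detects every non-separating set of darts at a vertex.
-/

set_option autoImplicit false
set_option linter.unusedSectionVars false

namespace Pool.Agent.ATJ

open Finset Pool.Agent.Flows

variable {V E : Type} [Fintype V] [DecidableEq V] [Fintype E] [DecidableEq E]

/-- Three even subgraphs cover all edges that are not bridges. -/
lemma uni_j8 (G : MG V E) : ∃ x : Fin 3 → E → ZMod 2, (∀ a, G.IsFlow (x a)) ∧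
    ∀ e, (∃ a, x a e = 1) ∨ ∃ X : Finset V, G.en e true ∈ X ∧ G.en e false ∉ X ∧
      ∀ d : E × Bool, d.1 ≠ e → hd G d ∈ X → hd G (opp d) ∈ X := by
  classical
  let D : Finset E := univ.filter fun e => ∀ y : E → ZMod 2, G.IsFlow y → y e = 0
  have hb : (G.del D).Bridgeless := by
    intro X hX
    rw [MG.cut_del] at hX
    obtain ⟨f, hf⟩ := card_eq_one.1 hX
    have hf1 : f ∈ G.cut X \ D := by rw [hf]; exact mem_singleton_self f
    obtain ⟨hf2, hf3⟩ := mem_sdiff.1 hf1
    apply hf3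
    simp only [D, mem_filter, mem_univ, true_and]
    intro y hy
    have h0 := hy X
    rw [sum_eq_single_of_mem f hf2] at h0
    · exact h0
    · intro g hg hgf
      have : g ∈ D := by
        by_contra hgD
        have : g ∈ G.cut X \ D := mem_sdiff.2 ⟨hg, hgD⟩
        rw [hf] at this
        exact hgf (mem_singleton.1 this)
      exact (mem_filter.1 this).2 y hy
  obtain ⟨x, hx, hx1⟩ := MG.eight_flow _ hb
  refine ⟨fun a e => if e ∈ D then 0 else x a e, fun a => (hx a).of_del, fun e => ?_⟩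
  by_cases he : e ∈ D
  · right
    rcases path_or_cut G (fun f => f ≠ e) (G.en e true) (G.en e false) with h | ⟨y, hy, hy2⟩
    · exact h
    · exfalso
      have hfl : G.IsFlow (y + Pi.single e 1) := by
        rw [MG.isFlow_iff z2a]
        intro w
        have := bd_single G (e, true) 1 w
        rw [bd_add, hy2]
        exact z2eq.2 this.symm
      have h1 := (mem_filter.1 he).2 _ hfl
      have h2 : y e = 0 := by
        by_contra h
        exact hy e h rfl
      simp [h2] at h1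
  · left
    obtain ⟨a, ha⟩ := hx1 e
    exact ⟨a, by simp [he, ha]⟩

/-- The graph in which every vertex `P` is split in two, the darts of `L P` going to one copy. -/
def uniSplit (M : MG V E) (H : Finset E) (L : V → Finset (E × Bool)) : MG (V × Bool) (E ⊕ V) :=
  ⟨fun a b => match a with
    | Sum.inl e => if e ∈ H then (M.en e b, decide ((e, b) ∈ L (M.en e b))) else (M.en e false, false)
    | Sum.inr P => (P, b)⟩

lemma uni_flow (M : MG V E) (H : Finset E) (L : V → Finset (E × Bool)) (x : E ⊕ V → ZMod 2)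
    (hx : (uniSplit M H L).IsFlow x) :
    M.IsFlow (fun e => if e ∈ H then x (Sum.inl e) else 0) := by
  intro X
  have := hx (univ.filter fun p => p.1 ∈ X)
  rw [MG.cut, sum_filter, Fintype.sum_sum_type] at this
  rw [MG.cut, sum_filter]
  refine Eq.trans ?_ this
  have h2 : ∑ P : V, (if ¬ ((uniSplit M H L).en (Sum.inr P) false ∈
      (univ.filter fun p : V × Bool => p.1 ∈ X) ↔ (uniSplit M H L).en (Sum.inr P) true ∈
      (univ.filter fun p : V × Bool => p.1 ∈ X)) then x (Sum.inr P) else 0) = 0 :=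
    sum_eq_zero fun P _ => by simp [uniSplit]
  rw [h2, add_zero]
  refine sum_congr rfl fun e _ => ?_
  by_cases he : e ∈ H <;> simp [uniSplit, he]

lemma uni_sum (M : MG V E) (H : Finset E) (L : V → Finset (E × Bool)) (x : E ⊕ V → ZMod 2)
    (hx : (uniSplit M H L).IsFlow x) (P : V) (hP : ∀ d ∈ L P, hd M d = P) :
    ∑ d ∈ L P, (if d.1 ∈ H then x (Sum.inl d.1) else 0) = x (Sum.inr P) := by
  have := (MG.isFlow_iff z2a _ _).1 hx (P, true)
  rw [MG.bd, sum_filter, Fintype.sum_prod_type, Fintype.sum_sum_type, z2eq] at this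
  have h2 : ∑ Q : V, ∑ b : Bool, (if (uniSplit M H L).en (Sum.inr Q) b = (P, true)
      then x (Sum.inr Q) else 0) = x (Sum.inr P) := by
    rw [sum_eq_single P]
    · simp [uniSplit]
    · intro Q _ hQ; simp [uniSplit, hQ]
    · simp
  rw [← h2, ← this, ← Fintype.sum_prod_type (f := fun d : E × Bool =>
    if (uniSplit M H L).en (Sum.inl d.1) d.2 = (P, true) then x (Sum.inl d.1) else 0)]
  symm
  rw [← sum_subset (subset_univ (L P))]
  · refine sum_congr rfl fun d hd' => ?_
    have h3 : M.en d.1 d.2 = P := hP d hd'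
    by_cases he : d.1 ∈ H <;> simp [uniSplit, he, h3, hd']
  · intro d _ hd'
    by_cases he : d.1 ∈ H
    · by_cases h3 : M.en d.1 d.2 = P <;> simp [uniSplit, he, h3, hd']
    · simp [uniSplit, he]

lemma uni_one (M : MG V E) (H : Finset E) (L : V → Finset (E × Bool)) :
    ∃ ψ : Fin 3 → E → ZMod 2, (∀ j, M.IsFlow (ψ j) ∧ ∀ e, e ∉ H → ψ j e = 0) ∧
      ∀ P, L P ⊆ B M {P} → (∃ j, ∑ d ∈ L P, ψ j d.1 = 1) ∨
        ∃ R : Finset V, P ∉ R ∧
          (∀ d : E × Bool, d.1 ∈ H → hd M d ∈ R → hd M (opp d) ∈ R ∨ opp d ∈ L P) ∧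
          ∀ d ∈ L P, d.1 ∈ H → hd M (opp d) ∈ R := by
  obtain ⟨x, hx, hx1⟩ := uni_j8 (uniSplit M H L)
  refine ⟨fun a e => if e ∈ H then x a (Sum.inl e) else 0,
    fun a => ⟨uni_flow M H L _ (hx a), fun e he => by simp [he]⟩, fun P hP => ?_⟩
  have hP1 : ∀ d ∈ L P, hd M d = P := fun d h => mem_singleton.1 (mem_B.1 (hP h)).1
  have hP2 : ∀ d ∈ L P, hd M (opp d) ≠ P := fun d h h' =>
    (mem_B.1 (hP h)).2 (mem_singleton.2 h')
  rcases hx1 (Sum.inr P) with ⟨a, ha⟩ | ⟨X, h1, h2, h3⟩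
  · left
    exact ⟨a, (uni_sum M H L _ (hx a) P hP1).trans ha⟩
  · right
    have h1' : (P, true) ∈ X := h1
    have h2' : (P, false) ∉ X := h2
    have h4 : ∀ Q, Q ≠ P → ∀ b b', (Q, b) ∈ X → (Q, b') ∈ X := by
      intro Q hQ b b' h
      have := h3 (Sum.inr Q, b) (by simpa using hQ) h
      cases b <;> cases b' <;> first | exact h | exact this
    have h5 : ∀ d : E × Bool, d.1 ∈ H → (hd M d, decide (d ∈ L (hd M d))) ∈ X →
        (hd M (opp d), decide (opp d ∈ L (hd M (opp d)))) ∈ X := by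
      intro d hH h
      have h0 : ∀ b, hd (uniSplit M H L) (Sum.inl d.1, b) =
          (hd M (d.1, b), decide ((d.1, b) ∈ L (hd M (d.1, b)))) := fun b => if_pos hH
      have := h3 (Sum.inl d.1, d.2) (by simp) (by rw [h0]; exact h)
      rw [show opp (Sum.inl d.1, d.2) = ((Sum.inl d.1, !d.2) : (E ⊕ V) × Bool) from rfl, h0] at this
      exact this
    refine ⟨univ.filter fun Q => Q ≠ P ∧ (Q, true) ∈ X, by simp, fun d hH h => ?_,
      fun d h hH => ?_⟩
    · simp only [mem_filter, mem_univ, true_and] at h ⊢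
      have h6 := h5 d hH (h4 _ h.1 _ _ h.2)
      by_cases h7 : hd M (opp d) = P
      · right
        rw [h7] at h6
        by_contra h8
        rw [decide_eq_false h8] at h6
        exact h2' h6
      · left
        exact ⟨h7, h4 _ h7 _ _ h6⟩
    · simp only [mem_filter, mem_univ, true_and]
      have h6 := h5 d hH (by rw [hP1 d h, decide_eq_true h]; exact h1')
      exact ⟨hP2 d h, h4 _ (hP2 d h) _ _ h6⟩

theorem uni (M : MG V E) (H : Finset E) (K : ℕ) (PP : Finset V)
    (hK : ∀ P ∈ PP, (B M {P}).card ≤ K) :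
    ∃ ψ : Fin (2 ^ K) × Fin 3 → E → ZMod 2, (∀ j, M.IsFlow (ψ j) ∧ ∀ e, e ∉ H → ψ j e = 0) ∧
      ∀ P ∈ PP, ∀ l ⊆ B M {P}, (∃ j, ∑ d ∈ l, ψ j d.1 = 1) ∨
        ∃ R : Finset V, P ∉ R ∧
          (∀ d : E × Bool, d.1 ∈ H → hd M d ∈ R → hd M (opp d) ∈ R ∨ opp d ∈ l) ∧
          ∀ d ∈ l, d.1 ∈ H → hd M (opp d) ∈ R := by
  have hL : ∀ P ∈ PP, ∃ f : Fin (2 ^ K) → Finset (E × Bool), ∀ l ⊆ B M {P}, ∃ n, f n = l := by
    intro P hP
    have hc : Fintype.card (B M {P}).powerset ≤ Fintype.card (Fin (2 ^ K)) := by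
      rw [Fintype.card_coe, card_powerset, Fintype.card_fin]
      exact Nat.pow_le_pow_right (by norm_num) (hK P hP)
    obtain ⟨e⟩ := Function.Embedding.nonempty_of_card_le hc
    exact ⟨Function.extend e Subtype.val (fun _ => ∅), fun l hl =>
      ⟨e ⟨l, mem_powerset.2 hl⟩, e.injective.extend_apply _ _ _⟩⟩
  choose! f hf using hL
  choose ψ h1 h2 using fun n : Fin (2 ^ K) => uni_one M H (fun P => f P n)
  refine ⟨fun j => ψ j.1 j.2, fun j => h1 j.1 j.2, fun P hP l hl => ?_⟩
  obtain ⟨n, rfl⟩ := hf P hP l hl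
  rcases h2 n P hl with ⟨j, hj⟩ | h
  · exact Or.inl ⟨(n, j), hj⟩
  · exact Or.inr h

end Pool.Agent.ATJ
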