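import Pool.Agent.Lib.ATJ.StepA0
import Pool.Agent.Lib.ATJ.Half
import Pool.Agent.Lib.ATJ.Uni

/-!
The torso step: states on the boundaries of the parts, and the invariant for every part.
-/

set_option autoImplicit false
set_option linter.unusedSectionVars false

namespace Pool.Agent.ATJ

open Finset Pool.Agent.Flows

variable {V E : Type} [Fintype V] [DecidableEq V] [Fintype E] [DecidableEq E]

/-- Splitting a multiple of a measure into conditional measures and a small rest. -/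
lemma stepA_main (ν : (E → ZMod 2) → ℝ) (h0 : ∀ ω, 0 ≤ ν ω) (F : Finset E) (c : ℝ) (hc : 0 ≤ c) :
    ∃ (n : Finset E → ℕ) (μ : (Σ t, Fin (n t)) → (E → ZMod 2) → ℝ) (R0 : (E → ZMod 2) → ℝ),
      (∀ m ω, 0 ≤ μ m ω) ∧ (∀ m, ∑ ω, μ m ω = 1) ∧
      (∀ m ω, μ m ω ≠ 0 → ν ω ≠ 0 ∧ ∀ e ∈ F, ω e = if e ∈ m.1 then 1 else 0) ∧
      (∀ ω, 0 ≤ R0 ω) ∧ ∑ ω, R0 ω ≤ 2 ^ F.card ∧ (∀ ω, ∑ m, μ m ω + R0 ω = c * ν ω) ∧
      ∀ t, (n t : ℝ) ≤ c * ∑ ω ∈ univ.filter (fun ω => F.filter (fun e => ω e ≠ 0) = t), ν ω := by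
  let res : (E → ZMod 2) → Finset E := fun ω => F.filter fun e => ω e ≠ 0
  let w : Finset E → ℝ := fun t => ∑ ω ∈ univ.filter (fun ω => res ω = t), ν ω
  have w0 : ∀ t, 0 ≤ w t := fun t => sum_nonneg fun ω _ => h0 ω
  let n : Finset E → ℕ := fun t => ⌊c * w t⌋₊
  have n1 : ∀ t, (n t : ℝ) ≤ c * w t := fun t => Nat.floor_le (mul_nonneg hc (w0 t))
  have n2 : ∀ t, n t ≠ 0 → w t ≠ 0 := fun t h h' => h (by simp [n, h'])
  let μ : (Σ t, Fin (n t)) → (E → ZMod 2) → ℝ := fun m ω => if res ω = m.1 then ν ω / w m.1 else 0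
  have m1 : ∀ ω, ∑ m, μ m ω = n (res ω) * (ν ω / w (res ω)) := by
    intro ω
    rw [Fintype.sum_sigma, sum_eq_single (res ω)]
    · simp [μ]
    · intro t _ ht; simp [μ, ht.symm]
    · simp
  refine ⟨n, μ, fun ω => c * ν ω - ∑ m, μ m ω, fun m ω => ?_, fun m => ?_, fun m ω h => ?_,
    fun ω => ?_, ?_, fun ω => by ring, n1⟩
  · simp only [μ]
    split_ifs
    · exact div_nonneg (h0 ω) (w0 _)
    · exact le_rfl
  · simp only [μ]
    rw [← sum_filter, ← sum_div]
    exact div_self (n2 _ (Nat.pos_iff_ne_zero.1 m.2.pos))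
  · simp only [μ] at h
    split_ifs at h with h1
    · refine ⟨fun h2 => h (by simp [h2]), fun e he => ?_⟩
      rw [← h1]
      rcases z2c (ω e) with h3 | h3 <;> simp [res, he, h3]
    · exact absurd rfl h
  · dsimp only
    rw [m1, sub_nonneg]
    by_cases h : w (res ω) = 0
    · simp [h, mul_nonneg hc (h0 ω)]
    · calc (n (res ω) : ℝ) * (ν ω / w (res ω)) ≤ c * w (res ω) * (ν ω / w (res ω)) :=
            mul_le_mul_of_nonneg_right (n1 _) (div_nonneg (h0 ω) (w0 _))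
        _ = c * ν ω := by field_simp
  · simp only [m1]
    rw [← sum_fiberwise_of_maps_to (g := res) (t := F.powerset)
      (fun ω _ => mem_powerset.2 (filter_subset _ _))]
    refine (sum_le_sum (g := fun _ => (1 : ℝ)) fun t _ => ?_).trans (by simp)
    rw [sum_congr rfl (g := fun ω => c * ν ω - n t * (ν ω / w t))
      fun ω hω => by rw [(mem_filter.1 hω).2], sum_sub_distrib, ← mul_sum, ← mul_sum, ← sum_div]
    change c * w t - n t * (w t / w t) ≤ 1
    by_cases h : w t = 0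
    · simp [h]
    · rw [div_self h, mul_one]
      linarith [Nat.lt_floor_add_one (c * w t)]

/-- An even boundary state extends to the torso. -/
lemma stepA_base {G : MG V E} {K : ℕ} {S : Finset V} {pt : V → Finset V} (h : IsPart G K S pt)
    (hc : Conn (quo G pt) (S.image pt)) (x : Finset (E × Bool)) :
    ∃ J : E → ZMod 2, x ⊆ B G S → ∑ _d ∈ x, (1 : ZMod 2) = 0 →
      (∀ d ∈ B G S, J d.1 = if d ∈ x then 1 else 0) ∧
      ∀ P ∈ S.image pt, ∑ d ∈ B G P, J d.1 = 0 := by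
  by_cases hx : x ⊆ B G S ∧ ∑ _d ∈ x, (1 : ZMod 2) = 0
  swap
  · exact ⟨0, fun a b => absurd ⟨a, b⟩ hx⟩
  let J0 : E → ZMod 2 := fun e => if e ∈ x.image Prod.fst then 1 else 0
  have h1 : ∀ d ∈ B G S, J0 d.1 = if d ∈ x then 1 else 0 := by
    intro d hd'
    refine if_congr ⟨fun h2 => ?_, mem_image_of_mem _⟩ rfl rfl
    obtain ⟨d', h3, h4⟩ := mem_image.1 h2
    obtain ⟨e, b⟩ := d
    obtain ⟨e', b'⟩ := d'
    obtain rfl : e' = e := h4
    have h5 := mem_B.1 (hx.1 h3)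
    have h6 := mem_B.1 hd'
    cases b <;> cases b' <;> simp_all
  obtain ⟨y, y1, y2⟩ := hc.exists_join ((quo G pt).bd J0) (by
    rw [sum_bd_B, h.B_quo_all, sum_congr rfl h1, sum_ite_mem, inter_eq_right.2 hx.1, hx.2])
  refine ⟨J0 + y, fun _ _ => ⟨fun d hd' => ?_, fun P hP => ?_⟩⟩
  · have : y d.1 = 0 := by
      by_contra h2
      exact (mem_B.1 hd').2 (h.pt_mem.1 (btw_iff.1 (y1 _ h2)).2.1)
    rw [Pi.add_apply, this, add_zero, h1 d hd']
  · rw [← h.bd_eq hP, bd_add, y2, if_pos hP, z2a]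

lemma stepA_split {ι I : Type} [Fintype ι] [DecidableEq ι] [Fintype I] (f : I → ι)
    (hf : f.Injective) (g : ι → ℝ) :
    ∑ i, g i = ∑ m, g (f m) + ∑ i ∈ (univ.image f)ᶜ, g i := by
  rw [← sum_add_sum_compl (univ.image f), sum_image fun a _ b _ h => hf h]

lemma stepA_pert {ι X : Type} [Fintype ι] [DecidableEq X] (l S : Finset X) (hl : l ⊆ S)
    (β θ : ι → X → ZMod 2) :
    |∑ i, chi l (β i + θ i) - ∑ i, chi l (β i)| ≤
      2 * ((univ.filter fun i => ∃ d ∈ S, θ i d ≠ 0).card : ℝ) := by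
  rw [← sum_sub_distrib, card_filter]
  push_cast
  rw [mul_sum]
  refine (abs_sum_le_sum_abs _ _).trans (sum_le_sum fun i _ => ?_)
  split_ifs with h
  · refine (abs_sub _ _).trans ?_
    rw [abs_chi, abs_chi]; norm_num
  · push Not at h
    rw [chi_congr (γ := β i) fun d hd' => by simp [h d (hl hd')]]
    simp

theorem stepA (K z l0 : ℕ) (hK : 2 ≤ K) (hl : 0 < l0) : ∃ C : ℝ, 0 ≤ C ∧
    ∀ (δ η : ℝ), 0 < δ → δ < 1 → 2 ^ K * η ≤ δ →
    ∀ (V E : Type) [Fintype V] [DecidableEq V] [Fintype E] [DecidableEq E] (G : MG V E)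
      (q W k : ℕ) (S : Finset V) (T : TD V k), IsTor G K q W z S T → (B G S).card ≤ K →
      ∀ (ι : Type) [Fintype ι] [DecidableEq ι] [Nonempty ι] (y : E → ℝ) (ν : (E → ZMod 2) → ℝ)
        (a : ι → E × Bool → ZMod 2), Meas G S y ν → (∀ i, ∑ d ∈ B G S, a i d = 0) →
        Inv G S δ η ν a →
        ∃ (β : ι → E × Bool → ZMod 2) (ν' : Finset V → (E → ZMod 2) → ℝ),
          (∀ i, ∀ d ∈ B G S, β i d = a i d) ∧
          (∀ i, ∀ P ∈ S.image T.pt, ∑ d ∈ B G P, β i d = 0) ∧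
          (∀ i e, Btw (T.M G) (S.image T.pt) e → ¬ Btw (T.M G) (T.C S) e → df (β i) e = 0) ∧
          (∀ e, Btw (T.M G) (T.C S) e →
            ((univ.filter fun i => df (β i) e ≠ 0).card : ℝ) ≤ 8 * Fintype.card ι / l0 + C) ∧
          (∀ P ∈ S.image T.pt, Meas G P y (ν' P)) ∧
          ∀ θ : ι → E × Bool → ZMod 2, (∀ i d, θ i d ≠ 0 → Btw (T.M G) (T.C S) d.1) →
            (∀ i P, dbd (T.M G) (θ i) P = 0) → ∀ P ∈ S.image T.pt,
            C + 2 * ((univ.filter fun i => ∃ d ∈ B G P, θ i d ≠ 0).card : ℝ) ≤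
              η * Fintype.card ι → Inv G P δ η (ν' P) (fun i => β i + θ i) := by
  obtain ⟨U, hU0, hU⟩ := half K l0 hK hl
  refine ⟨U + 2 ^ (K + z * K) + 2 ^ K * 2 ^ (2 ^ K * 3), by positivity, ?_⟩
  intro δ η hδ hδ1 hη V E _ _ _ _ G q W k S T hT hS ι _ _ _ y ν a hν ha hI
  classical
  have hp := hT.part
  set c : ℝ := (1 - δ) * Fintype.card ι with hc
  have hN : (0 : ℝ) < Fintype.card ι := by exact_mod_cast Fintype.card_pos
  have hc0 : 0 < c := mul_pos (by linarith) hN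
  let F : Finset E := (B G S ∪ T.Z.biUnion (B G)).image Prod.fst
  have hF : F.card ≤ K + z * K := by
    refine card_image_le.trans ((card_union_le _ _).trans (add_le_add hS ?_))
    exact (card_biUnion_le_card_mul _ _ _ fun P hP => hp.deg' (hT.Z_sub hP)).trans
      (Nat.mul_le_mul_right _ hT.Z_card)
  have F1 : ∀ d ∈ B G S, d.1 ∈ F := fun d h => mem_image_of_mem _ (mem_union_left _ h)
  have F2 : ∀ d : E × Bool, T.pt (hd G d) ∈ T.Z → T.pt (hd G (opp d)) ≠ T.pt (hd G d) →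
      d.1 ∈ F := fun d h1 h2 => mem_image_of_mem _ (mem_union_right _
        (mem_biUnion.2 ⟨_, h1, (hp.mem_B (hT.Z_sub h1)).2 ⟨rfl, h2⟩⟩))
  have F3 : ∀ e, Btw (T.M G) (S.image T.pt) e → ¬ Btw (T.M G) (T.C S) e → e ∈ F := by
    intro e h1 h2
    by_contra h3
    refine h2 ⟨mem_sdiff.2 ⟨h1.1, fun h => h3 (F2 (e, false) h h1.2.2.symm)⟩,
      mem_sdiff.2 ⟨h1.2.1, fun h => h3 (F2 (e, true) h h1.2.2)⟩, h1.2.2⟩
  have F4 : ∀ e ∈ F, ¬ Btw (T.M G) (T.C S) e := by
    intro e he h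
    obtain ⟨d, h1, rfl⟩ := mem_image.1 he
    have h2 := btw_iff.1 h
    rcases mem_union.1 h1 with h1 | h1
    · exact (mem_B.1 h1).2 (hp.pt_mem.1 (mem_sdiff.1 h2.2.1).1)
    · obtain ⟨Q, hQ, h1⟩ := mem_biUnion.1 h1
      exact (mem_sdiff.1 h2.1).2
        (show T.pt (hd G d) ∈ T.Z from ((hp.mem_B (hT.Z_sub hQ)).1 h1).1 ▸ hQ)
  obtain ⟨n, μ, R0, m0, m1, m2, r0, r1, r2, n1⟩ := stepA_main ν hν.pos F c hc0.le
  let α : ι → Finset (E × Bool) := fun i => (B G S).filter fun d => a i d ≠ 0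
  have hα : ∀ i, ∀ d ∈ B G S, a i d = if d ∈ α i then 1 else 0 := by
    intro i d hd'
    rcases z2c (a i d) with h | h <;> simp [α, h, hd']
  obtain ⟨f, hf, hfα⟩ := cnt_assign α (fun t : Finset E => (B G S).filter fun d => d.1 ∈ t) n (by
    intro x
    have h1 := count_ge hS hδ hη hν hI fun d => if d ∈ x then 1 else 0
    by_cases hx : x ⊆ B G S
    swap
    · rw [filter_eq_empty_iff.2, sum_empty]
      · exact Nat.zero_le _
      · rintro t - rfl; exact hx (filter_subset _ _)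
    have h2 : (univ.filter fun i => ∀ d ∈ B G S, a i d = if d ∈ x then 1 else 0) ⊆
        univ.filter fun i => α i = x := by
      intro i hi
      simp only [mem_filter, mem_univ, true_and] at hi ⊢
      ext d
      simp only [α, mem_filter]
      constructor
      · rintro ⟨b1, b2⟩
        by_contra b3
        exact b2 (by rw [hi d b1, if_neg b3])
      · intro b1
        exact ⟨hx b1, by rw [hi d (hx b1), if_pos b1]; exact one_ne_zero⟩
    refine le_trans ?_ (card_le_card h2)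
    rw [← Nat.cast_le (α := ℝ)]
    refine le_trans ?_ h1
    push_cast
    refine (sum_le_sum fun t _ => n1 t).trans ?_
    rw [← mul_sum]
    refine mul_le_mul_of_nonneg_left (le_of_eq ?_) hc0.le
    rw [sum_fiberwise_eq_sum_filter]
    refine sum_congr ?_ fun _ _ => rfl
    ext ω
    simp only [mem_filter, mem_univ, true_and]
    constructor
    · rintro rfl d hd'
      rcases z2c (ω d.1) with h | h <;> simp [h, hd', F1 d hd']
    · intro h
      ext d
      simp only [mem_filter]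
      constructor
      · rintro ⟨b1, -, b2⟩
        by_contra b3
        exact b2 (by rw [h d b1, if_neg b3])
      · intro b1
        exact ⟨hx b1, F1 d (hx b1), by rw [h d (hx b1), if_pos b1]; exact one_ne_zero⟩)
  obtain ⟨βm, h, H⟩ := hU V E G (S.image T.pt) hp.disj (fun P hP => hp.deg' hP) F
    (Σ t, Fin (n t)) (fun m e => if e ∈ m.1 then 1 else 0) μ m0 m1
    (fun m ω h => ⟨fun P hP => (hν.ev ω (m2 m ω h).1).mono (hp.ssub hP).1, (m2 m ω h).2⟩)
  have hJ := stepA_base hp hT.conn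
  choose J hJ using hJ
  have hJ' := fun i => hJ (α i) (filter_subset _ _) (by
    rw [← ha i, sum_congr rfl (hα i), sum_ite_mem, inter_eq_right.2 (filter_subset _ _)])
  obtain ⟨ψ, hψ, hdi⟩ := uni (T.M G) (univ.filter (Btw (T.M G) (S.image T.pt))) K (S.image T.pt)
    fun P hP => by rw [TD.M, hp.B_quo hP]; exact hp.deg' hP
  obtain ⟨w, hw⟩ := cnt_bal (C := Fin (2 ^ K) × Fin 3 → ZMod 2) (univ.image f)ᶜ α
  let βu : ι → E → ZMod 2 := fun i e => J (α i) e + ∑ j, w i j * ψ j e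
  let β : ι → E × Bool → ZMod 2 := fun i =>
    if h : ∃ m, f m = i then βm h.choose else fun d => βu i d.1
  have b1 : ∀ m, β (f m) = βm m := by
    intro m
    have h : ∃ m', f m' = f m := ⟨m, rfl⟩
    simp only [β, dif_pos h]
    rw [hf h.choose_spec]
  have b2 : ∀ i, i ∈ (univ.image f)ᶜ → β i = fun d => βu i d.1 := by
    intro i hi
    exact dif_neg (by simpa using hi)
  have b3 : ∀ i, (∃ m, β i = βm m ∧ f m = i) ∨ β i = fun d => βu i d.1 := by
    intro i
    by_cases hi : i ∈ (univ.image f)ᶜ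
    · exact Or.inr (b2 i hi)
    · obtain ⟨m, -, rfl⟩ := mem_image.1 (by simpa only [mem_compl, not_not] using hi)
      exact Or.inl ⟨m, b1 m, rfl⟩
  have u1 : ∀ (l : Finset (E × Bool)) i, ∑ d ∈ l, βu i d.1 =
      ∑ d ∈ l, J (α i) d.1 + ∑ j, w i j * ∑ d ∈ l, ψ j d.1 := by
    intro l i
    simp only [βu, sum_add_distrib, mul_sum]
    rw [sum_comm]
  have c1 : ∀ i, ∀ d ∈ B G S, β i d = a i d := by
    intro i d hd'
    rcases b3 i with ⟨m, h1, rfl⟩ | h1
    · rw [h1, H.fro m d (F1 d hd'), hα _ d hd', hfα]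
      simp [hd']
    · have : ∀ j, ψ j d.1 = 0 := fun j => (hψ j).2 _ fun h2 =>
        (mem_B.1 hd').2 (hp.pt_mem.1 (btw_iff.1 (mem_filter.1 h2).2).2.1)
      rw [h1, hα i d hd']
      simp only [βu, this, mul_zero, sum_const_zero, add_zero]
      exact (hJ' i).1 d hd'
  have c2 : ∀ i, ∀ P ∈ S.image T.pt, ∑ d ∈ B G P, β i d = 0 := by
    intro i P hP
    rcases b3 i with ⟨m, h1, -⟩ | h1
    · rw [h1]; exact H.par m P hP
    · have : ∀ j, ∑ d ∈ B G P, ψ j d.1 = 0 := fun j => by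
        rw [← hp.bd_eq hP]; exact (MG.isFlow_iff z2a _ _).1 (hψ j).1 P
      rw [h1, u1, (hJ' i).2 P hP]
      simp [this]
  have c3 : ∀ i, ∀ e ∈ F, df (β i) e = 0 := by
    intro i e he
    rcases b3 i with ⟨m, h1, -⟩ | h1
    · rw [h1, df, H.fro m _ he, H.fro m _ he, z2a]
    · rw [h1, df_fst]
  let ν' : Finset V → (E → ZMod 2) → ℝ := fun P ω => (h P ω + R0 ω) / c
  have v1 : ∀ P l, c * hat (ν' P) l = hat (h P) l + hat R0 l := by
    intro P l
    simp only [hat, ν', mul_sum, ← sum_add_distrib]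
    exact sum_congr rfl fun ω _ => by field_simp
  have v2 : ∀ P ∈ S.image T.pt, ∀ l ⊆ B G P, (∀ d ∈ l, d.1 ∈ F) → hat (ν' P) l = hat ν l := by
    intro P hP l h1 h2
    refine mul_left_cancel₀ hc0.ne' ?_
    rw [v1, H.law P hP l h1 h2, one_mul]
    simp only [hat, mul_sum, ← sum_add_distrib, ← add_mul, r2, mul_assoc]
  have v3 : ∀ P ∈ S.image T.pt, Meas G P y (ν' P) := by
    intro P hP
    refine ⟨fun ω => div_nonneg (add_nonneg (H.pos P hP ω) (r0 ω)) hc0.le, ?_, fun ω hω => ?_,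
      fun e => ?_⟩
    · have := v2 P hP ∅ (empty_subset _) (by simp)
      rwa [hat_empty, hat_empty, hν.tot] at this
    · by_cases h1 : h P ω = 0
      · refine (hν.ev ω fun h2 => hω ?_).mono (hp.ssub hP).1
        have h3 := r2 ω
        have h4 : 0 ≤ ∑ m, μ m ω := sum_nonneg fun m _ => m0 m ω
        have h5 : R0 ω = 0 := by rw [h2, mul_zero] at h3; linarith [r0 ω]
        simp [ν', h1, h5]
      · exact H.ev P hP ω h1
    · refine mul_left_cancel₀ hc0.ne' ?_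
      have h1 := v1 P {(e, false)}
      simp only [hat_singleton] at h1
      rw [h1, H.mar P hP, one_mul, ← hν.mar e]
      simp only [mg, mul_sum, ← sum_add_distrib, ← add_mul, r2, mul_assoc]
  refine ⟨β, ν', c1, c2, fun i e h1 h2 => c3 i e (F3 e h1 h2), fun e he => ?_, v3, ?_⟩
  · have h1 := H.dfc e ⟨_, (mem_sdiff.1 he.1).1, (hp.mem_B (mem_sdiff.1 he.1).1).2
      ⟨rfl, he.2.2.symm⟩⟩ ⟨_, (mem_sdiff.1 he.2.1).1, (hp.mem_B (mem_sdiff.1 he.2.1).1).2
      ⟨rfl, he.2.2⟩⟩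
    rw [cnt_card] at h1 ⊢
    rw [stepA_split f hf, sum_eq_zero (s := (univ.image f)ᶜ) fun i hi => by simp [b2 i hi],
      add_zero]
    simp only [b1]
    refine h1.trans ?_
    have h2 : (Fintype.card (Σ t, Fin (n t)) : ℝ) ≤ Fintype.card ι := by
      exact_mod_cast Fintype.card_le_of_injective f hf
    have h3 : (8 * Fintype.card (Σ t, Fin (n t)) / l0 : ℝ) ≤ 8 * Fintype.card ι / l0 := by gcongr
    have h4 : (0 : ℝ) ≤ 2 ^ (K + z * K) + 2 ^ K * 2 ^ (2 ^ K * 3) := by positivity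
    linarith
  intro θ t1 t2 P hP hC l hl
  have t3 : ∀ i d, d.1 ∈ F → θ i d = 0 := fun i d h1 => by
    by_contra h2; exact F4 _ h1 (t1 i d h2)
  have t4 : ∀ i, ∀ Q ∈ S.image T.pt, ∑ d ∈ B G Q, (β i + θ i) d = 0 := by
    intro i Q hQ
    simp only [Pi.add_apply, sum_add_distrib]
    rw [c2 i Q hQ, ← hp.dbd_eq hQ (t1 i), zero_add]
    exact t2 i Q
  have inh : ∀ l ⊆ B G P, ∀ R ⊆ (S.image T.pt).erase P, R ⊆ T.Z →
      (∀ d, T.pt (hd G d) ∈ R → hd G (opp d) ∈ S → T.pt (hd G (opp d)) ∈ R ∨ opp d ∈ l) →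
      (∀ d ∈ l, hd G (opp d) ∈ S → T.pt (hd G (opp d)) ∈ R) →
      (hat (ν' P) l = 1 ∧ ∀ i, chi l (β i + θ i) = 1) ∨
      |∑ i, chi l (β i + θ i) - c * hat (ν' P) l| ≤ η * Fintype.card ι := by
    intro l hl R hR hZ h1 h2
    obtain ⟨l', hl', h3⟩ := hp.inherit hP hl hR h1 h2
    have h4 : ∀ i, chi l (β i + θ i) = chi l' (a i) := by
      intro i
      rw [chi, h3 _ (fun Q hQ => t4 i Q (mem_of_mem_erase (hR hQ)))]
      · exact chi_congr fun d hd' => by
          rw [Pi.add_apply, t3 i d (F1 d (hl' hd')), add_zero, c1 i d (hl' hd')]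
      · intro d d1 d2
        have d3 := F2 d (hZ d1) (btw_iff.1 d2).2.2.symm
        rw [df_add, c3 i _ d3, df, t3 i (d.1, false) d3, t3 i (d.1, true) d3]
        simp
    have h5 : hat (ν' P) l = hat ν l' := by
      rw [v2 P hP l hl]
      · exact hat_congr fun ω hω => h3 (fun d => ω d.1)
          (fun Q hQ => (hν.ev ω hω).sum_B (hp.ssub (mem_of_mem_erase (hR hQ))).1)
          fun d _ _ => df_fst _ _
      · intro d hd'
        have d1 := (hp.mem_B hP).1 (hl hd')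
        by_cases d2 : hd G (opp d) ∈ S
        · exact F2 (opp d) (hZ (h2 d hd' d2)) (by rw [opp_opp, d1.1]; exact d1.2.symm)
        · exact F1 d (mem_B.2 ⟨(hp.ssub hP).1 (mem_B.1 (hl hd')).1, d2⟩)
    simp only [h4, h5]
    exact hI l' hl'
  rcases hdi P hP l (by rw [TD.M, hp.B_quo hP]; exact hl) with ⟨j, hj⟩ | ⟨R, R1, R2, R3⟩
  · right
    have h1 := stepA_pert l _ hl β θ
    have h2 := H.dev P hP l hl
    have h3 := (abs_hat_le r0 l).trans (r1.trans (pow_le_pow_right₀ (by norm_num) hF))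
    have h4 := hw (fun x c => sg (∑ d ∈ l, J x d.1 + ∑ j, c j * ∑ d ∈ l, ψ j d.1))
      (fun _ _ => (abs_sg _).le) (fun x => cnt_char _ _ j hj)
    have h5 : ((((univ.image f)ᶜ).image α).card : ℝ) ≤ 2 ^ K := by
      have : (((univ.image f)ᶜ).image α).card ≤ 2 ^ K := by
        refine (card_le_card (t := (B G S).powerset) ?_).trans ?_
        · intro x hx
          obtain ⟨i, -, rfl⟩ := mem_image.1 hx
          exact mem_powerset.2 (filter_subset _ _)
        · rw [card_powerset]; exact Nat.pow_le_pow_right (by norm_num) hS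
      exact_mod_cast this
    have h6 : (Fintype.card (Fin (2 ^ K) × Fin 3 → ZMod 2) : ℝ) = 2 ^ (2 ^ K * 3) := by simp
    rw [h6] at h4
    replace h4 := h4.trans (mul_le_mul_of_nonneg_right h5 (by positivity))
    rw [← sum_congr rfl (f := fun i => chi l (β i)) fun i hi => by rw [b2 i hi, chi, u1]] at h4
    rw [stepA_split f hf fun i => chi l (β i)] at h1
    simp only [b1] at h1
    rw [← hc, v1]
    rw [abs_le] at h1 h2 h3 h4 ⊢
    constructor <;> linarith [h1.1, h1.2, h2.1, h2.2, h3.1, h3.2, h4.1, h4.2]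
  · have S1 : R ∩ S.image T.pt ⊆ (S.image T.pt).erase P := fun Q hQ =>
      mem_erase.2 ⟨fun h => R1 (h ▸ (mem_inter.1 hQ).1), (mem_inter.1 hQ).2⟩
    have S2 : ∀ d, T.pt (hd G d) ∈ R ∩ S.image T.pt → hd G (opp d) ∈ S →
        T.pt (hd G (opp d)) ∈ R ∩ S.image T.pt ∨ opp d ∈ l := by
      intro d d1 d2
      by_cases d3 : T.pt (hd G d) = T.pt (hd G (opp d))
      · exact Or.inl (d3 ▸ d1)
      · exact (R2 d (mem_filter.2 ⟨mem_univ _, btw_iff.2
          ⟨(mem_inter.1 d1).2, hp.pt_mem.2 d2, d3⟩⟩) (mem_inter.1 d1).1).imp_left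
          fun h => mem_inter.2 ⟨h, hp.pt_mem.2 d2⟩
    have S3 : ∀ d ∈ l, hd G (opp d) ∈ S → T.pt (hd G (opp d)) ∈ R ∩ S.image T.pt := by
      intro d d1 d2
      have d3 := (hp.mem_B hP).1 (hl d1)
      refine mem_inter.2 ⟨R3 d d1 (mem_filter.2 ⟨mem_univ _, btw_iff.2
        ⟨show T.pt (hd G d) ∈ S.image T.pt from d3.1 ▸ hP, hp.pt_mem.2 d2,
          fun h => d3.2 (h.symm.trans d3.1)⟩⟩), hp.pt_mem.2 d2⟩
    rcases hT.closed P hP _ S1 (fun d d1 d2 => (S2 d d1 d2).imp_right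
      fun h => ((hp.mem_B hP).1 (hl h)).1) with hZ | hZ
    · exact inh l hl _ S1 hZ S2 S3
    · have h1 := inh (B G P \ l) sdiff_subset _ sdiff_subset hZ ?_ ?_
      · have h2 : ∀ γ : E × Bool → ZMod 2, ∑ d ∈ B G P, γ d = 0 →
            ∑ d ∈ B G P \ l, γ d = ∑ d ∈ l, γ d := fun γ h => by
          rw [← z2eq, sum_sdiff hl, h]
        rw [hat_congr (l' := l) fun ω hω => h2 _ (((v3 P hP).ev ω hω).sum_B Subset.rfl)] at h1
        simp only [chi, h2 _ (t4 _ P hP)] at h1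
        exact h1
      · intro d d1 d2
        have d3 := mem_sdiff.1 d1
        have d4 : hd G d ∈ S := hp.pt_mem.1 (mem_of_mem_erase d3.1)
        have d5 : d ∉ l := fun h => (mem_erase.1 d3.1).1 ((hp.mem_B hP).1 (hl h)).1
        by_cases d6 : T.pt (hd G (opp d)) = P
        · refine Or.inr (mem_sdiff.2 ⟨(hp.mem_B hP).2 ⟨d6, ?_⟩, fun h => d3.2 ?_⟩)
          · rw [opp_opp]; exact (mem_erase.1 d3.1).1
          · simpa only [opp_opp] using S3 _ h (by rw [opp_opp]; exact d4)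
        · refine Or.inl (mem_sdiff.2 ⟨mem_erase.2 ⟨d6, hp.pt_mem.2 d2⟩, fun h => ?_⟩)
          have := S2 (opp d) h (by rw [opp_opp]; exact d4)
          rw [opp_opp] at this
          exact this.elim d3.2 d5
      · intro d d1 d2
        have d3 := mem_sdiff.1 d1
        have d4 := (hp.mem_B hP).1 d3.1
        refine mem_sdiff.2 ⟨mem_erase.2 ⟨d4.2, hp.pt_mem.2 d2⟩, fun h => ?_⟩
        have := S2 (opp d) h (by rw [opp_opp]; exact (hp.ssub hP).1 (mem_B.1 d3.1).1)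
        rw [opp_opp, d4.1] at this
        exact this.elim (fun h => R1 (mem_inter.1 h).1) d3.2

end Pool.Agent.ATJ
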