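import Pool.Agent.Lib.ATJ.Count

/-!
Preparations for the torso step: parts, counting of boundary states, inherited characters.
-/

set_option autoImplicit false
set_option linter.unusedSectionVars false

namespace Pool.Agent.ATJ

open Finset Pool.Agent.Flows

variable {V E : Type} [Fintype V] [DecidableEq V] [Fintype E] [DecidableEq E]

lemma btw_iff {U : Type} {M : MG U E} {C : Finset U} {d : E × Bool} :
    Btw M C d.1 ↔ hd M d ∈ C ∧ hd M (opp d) ∈ C ∧ hd M d ≠ hd M (opp d) := by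
  obtain ⟨e, b⟩ := d; cases b <;> simp [Btw]; tauto

namespace IsPart

variable {G : MG V E} {K : ℕ} {S : Finset V} {pt : V → Finset V}

lemma mem_iff (h : IsPart G K S pt) {P : Finset V} (hP : P ∈ S.image pt) {v : V} :
    v ∈ P ↔ pt v = P := by
  obtain ⟨w, hw, rfl⟩ := mem_image.1 hP
  refine ⟨h.eq w hw v, fun h1 => ?_⟩
  by_cases hv : v ∈ S
  · exact h1 ▸ h.mem v hv
  · have := h.mem w hw
    rw [← h1, h.out v hv] at this
    simp at this

lemma ssub (h : IsPart G K S pt) {P : Finset V} (hP : P ∈ S.image pt) : P ⊂ S := by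
  obtain ⟨w, hw, rfl⟩ := mem_image.1 hP
  exact h.sub w hw

lemma pt_mem (h : IsPart G K S pt) {v : V} : pt v ∈ S.image pt ↔ v ∈ S :=
  ⟨fun h1 => (h.ssub h1).1 ((h.mem_iff h1).2 rfl), mem_image_of_mem _⟩

lemma deg' (h : IsPart G K S pt) {P : Finset V} (hP : P ∈ S.image pt) : (B G P).card ≤ K := by
  obtain ⟨w, hw, rfl⟩ := mem_image.1 hP
  exact h.deg w hw

lemma disj (h : IsPart G K S pt) : ∀ P ∈ S.image pt, ∀ Q ∈ S.image pt, P ≠ Q → Disjoint P Q :=
  fun _ hP _ hQ hne => disjoint_left.2 fun _ h1 h2 =>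
    hne (((h.mem_iff hP).1 h1).symm.trans ((h.mem_iff hQ).1 h2))

lemma B_quo (h : IsPart G K S pt) {P : Finset V} (hP : P ∈ S.image pt) :
    B (quo G pt) {P} = B G P := by
  ext d; simp [mem_B, h.mem_iff hP]

lemma B_quo_all (h : IsPart G K S pt) : B (quo G pt) (S.image pt) = B G S := by
  ext d; simp only [mem_B, hd_quo, h.pt_mem]

lemma mem_B (h : IsPart G K S pt) {P : Finset V} (hP : P ∈ S.image pt) {d : E × Bool} :
    d ∈ B G P ↔ pt (hd G d) = P ∧ pt (hd G (opp d)) ≠ P := by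
  simp [ATJ.mem_B, h.mem_iff hP]

/-- A dart labelling supported on edges between parts. -/
lemma dbd_eq (h : IsPart G K S pt) {P : Finset V} (hP : P ∈ S.image pt) {C : Finset (Finset V)}
    {θ : E × Bool → ZMod 2} (hθ : ∀ d, θ d ≠ 0 → Btw (quo G pt) C d.1) :
    dbd (quo G pt) θ P = ∑ d ∈ B G P, θ d := by
  symm
  refine sum_subset (fun d hd' => ?_) fun d h1 h2 => ?_
  · simpa using ((h.mem_B hP).1 hd').1
  · by_contra h3
    have h4 := (btw_iff.1 (hθ d h3)).2.2
    simp only [mem_filter, mem_univ, true_and, hd_quo] at h1 h4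
    exact h2 ((h.mem_B hP).2 ⟨h1, fun h5 => h4 (h1.trans h5.symm)⟩)

lemma bd_eq (h : IsPart G K S pt) {P : Finset V} (hP : P ∈ S.image pt) (x : E → ZMod 2) :
    (quo G pt).bd x P = ∑ d ∈ B G P, x d.1 := by
  rw [← h.B_quo hP, ← sum_bd_B, sum_singleton]

/-- Characters that are determined by the boundary of `S`. -/
lemma inherit (h : IsPart G K S pt) {P : Finset V} (hP : P ∈ S.image pt)
    {l : Finset (E × Bool)} (hl : l ⊆ B G P) {R : Finset (Finset V)}
    (hR : R ⊆ (S.image pt).erase P)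
    (h1 : ∀ d, pt (hd G d) ∈ R → hd G (opp d) ∈ S → pt (hd G (opp d)) ∈ R ∨ opp d ∈ l)
    (h2 : ∀ d ∈ l, hd G (opp d) ∈ S → pt (hd G (opp d)) ∈ R) :
    ∃ l' ⊆ B G S, ∀ γ : E × Bool → ZMod 2, (∀ Q ∈ R, ∑ d ∈ B G Q, γ d = 0) →
      (∀ d, pt (hd G d) ∈ R → Btw (quo G pt) (S.image pt) d.1 → df γ d.1 = 0) →
      ∑ d ∈ l, γ d = ∑ d ∈ l', γ d := by
  have hRp : ∀ Q ∈ R, Q ∈ S.image pt := fun Q hQ => mem_of_mem_erase (hR hQ)
  have hPR : P ∉ R := fun h' => (mem_erase.1 (hR h')).1 rfl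
  have hlP : ∀ d ∈ l, pt (hd G d) = P ∧ pt (hd G (opp d)) ≠ P := fun d hd' =>
    (h.mem_B hP).1 (hl hd')
  refine ⟨(B G S).filter fun d => d ∈ l ∨ pt (hd G d) ∈ R, filter_subset _ _, fun γ g1 g2 => ?_⟩
  let γ' : E × Bool → ZMod 2 := fun d => if pt (hd G d) = pt (hd G (opp d)) then 0 else γ d
  have a1 := sum_dbd (quo G pt) γ' R
  have a2 : ∑ Q ∈ R, dbd (quo G pt) γ' Q = 0 := by
    refine sum_eq_zero fun Q hQ => ?_
    rw [← g1 Q hQ, dbd, B, sum_filter, sum_filter]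
    refine sum_congr rfl fun d _ => ?_
    simp only [hd_quo, γ', h.mem_iff (hRp Q hQ)]
    by_cases c1 : pt (hd G d) = Q
    · by_cases c2 : pt (hd G (opp d)) = Q
      · simp [c1, c2]
      · simp [c1, c2, Ne.symm c2]
    · simp [c1]
  have a3 : ∑ e ∈ univ.filter (In (quo G pt) R), df γ' e = 0 := by
    refine sum_eq_zero fun e he => ?_
    have he' : In (quo G pt) R e := (mem_filter.1 he).2
    by_cases c : pt (G.en e false) = pt (G.en e true)
    · simp [df, γ', c]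
    · have := g2 (e, false) he'.1 ⟨hRp _ he'.1, hRp _ he'.2, c⟩
      simpa [df, γ', c, Ne.symm c] using this
  rw [a2, a3, add_zero] at a1
  have a4 : ∑ d ∈ B (quo G pt) R, γ' d =
      ∑ d ∈ (B G S).filter (fun d => pt (hd G d) ∈ R), γ d +
        ∑ d ∈ l.filter (fun d => hd G (opp d) ∈ S), γ d := by
    rw [← sum_filter_add_sum_filter_not _ (fun d => hd G (opp d) ∉ S)]
    congr 1
    · refine sum_congr ?_ fun d hd' => ?_
      · ext d
        simp only [mem_filter, ATJ.mem_B, hd_quo]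
        constructor
        · rintro ⟨⟨b1, -⟩, b3⟩
          exact ⟨⟨h.pt_mem.1 (hRp _ b1), b3⟩, b1⟩
        · rintro ⟨⟨-, b2⟩, b3⟩
          exact ⟨⟨b3, fun b4 => b2 (h.pt_mem.1 (hRp _ b4))⟩, b2⟩
      · simp only [mem_filter, ATJ.mem_B] at hd'
        have : pt (hd G d) ≠ pt (hd G (opp d)) := fun b =>
          hd'.1.2 (h.pt_mem.1 (hRp _ (b ▸ hd'.2)))
        simp [γ', this]
    · refine sum_bij' (fun d _ => opp d) (fun d _ => opp d) ?_ ?_ (by simp) (by simp) ?_
      · intro d hd'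
        simp only [mem_filter, ATJ.mem_B, hd_quo, not_not, opp_opp] at hd' ⊢
        exact ⟨(h1 d hd'.1.1 hd'.2).resolve_left hd'.1.2, h.pt_mem.1 (hRp _ hd'.1.1)⟩
      · intro d hd'
        simp only [mem_filter, ATJ.mem_B, hd_quo, not_not, opp_opp] at hd' ⊢
        have b := (hlP d hd'.1).1
        exact ⟨⟨h2 d hd'.1 hd'.2, b ▸ hPR⟩, h.pt_mem.1 (b ▸ hP)⟩
      · intro d hd'
        simp only [mem_filter, ATJ.mem_B, hd_quo, not_not] at hd'
        have b : pt (hd G d) ≠ pt (hd G (opp d)) := fun b => hd'.1.2 (b ▸ hd'.1.1)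
        have := g2 d hd'.1.1 (btw_iff.2 ⟨hRp _ hd'.1.1, h.pt_mem.2 hd'.2, b⟩)
        rw [df_eq, z2eq] at this
        simp [γ', b, this]
  rw [a4, eq_comm, z2eq] at a1
  rw [filter_or, sum_union, a1, ← sum_filter_add_sum_filter_not l (fun d => hd G (opp d) ∉ S)]
  · congr 1
    · refine sum_congr ?_ fun _ _ => rfl
      ext d
      simp only [mem_filter, ATJ.mem_B]
      constructor
      · rintro ⟨b1, b2⟩
        exact ⟨⟨h.pt_mem.1 ((hlP d b1).1 ▸ hP), b2⟩, b1⟩
      · rintro ⟨b1, b2⟩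
        exact ⟨b2, b1.2⟩
    · simp
  · rw [disjoint_left]
    intro d b1 b2
    exact hPR ((hlP d (mem_filter.1 b1).2).1 ▸ (mem_filter.1 b2).2)

end IsPart

lemma abs_hat_le {ν : (E → ZMod 2) → ℝ} (h : ∀ ω, 0 ≤ ν ω) (l : Finset (E × Bool)) :
    |hat ν l| ≤ ∑ ω, ν ω := by
  refine (abs_sum_le_sum_abs _ _).trans (le_of_eq (sum_congr rfl fun ω _ => ?_))
  rw [abs_mul, abs_chi, mul_one, abs_of_nonneg (h ω)]

lemma hat_congr {ν : (E → ZMod 2) → ℝ} {l l' : Finset (E × Bool)}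
    (h : ∀ ω, ν ω ≠ 0 → ∑ d ∈ l, ω d.1 = ∑ d ∈ l', ω d.1) : hat ν l = hat ν l' := by
  refine sum_congr rfl fun ω _ => ?_
  by_cases h0 : ν ω = 0
  · simp [h0]
  · rw [chi, chi, h ω h0]

/-- Every boundary state is carried by enough colours. -/
lemma count_ge {G : MG V E} {S : Finset V} {K : ℕ} (hS : (B G S).card ≤ K) {δ η : ℝ}
    (hδ : 0 < δ) (hη : 2 ^ K * η ≤ δ) {ι : Type} [Fintype ι] {y : E → ℝ}
    {ν : (E → ZMod 2) → ℝ} {a : ι → E × Bool → ZMod 2} (hν : Meas G S y ν)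
    (hI : Inv G S δ η ν a) (x : E × Bool → ZMod 2) :
    (1 - δ) * Fintype.card ι * ∑ ω ∈ univ.filter (fun ω => ∀ d ∈ B G S, ω d.1 = x d), ν ω ≤
      (univ.filter fun i => ∀ d ∈ B G S, a i d = x d).card := by
  classical
  have four : ∀ γ : E × Bool → ZMod 2, ∑ l ∈ (B G S).powerset, chi l x * chi l γ =
      2 ^ (B G S).card * if ∀ d ∈ B G S, γ d = x d then 1 else 0 := by
    intro γ
    simp only [← chi_add]
    rw [cnt_fourier]
    simp only [Pi.add_apply, z2eq, eq_comm (a := x _)]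
    split_ifs <;> simp
  by_cases hx : ∃ l ⊆ B G S, hat ν l = 1 ∧ chi l x ≠ 1
  · obtain ⟨l, hl, h1, h2⟩ := hx
    have h3 : ∑ ω, ν ω * (1 - chi l fun d => ω d.1) = 0 := by
      simp only [mul_sub, mul_one, sum_sub_distrib, hν.tot]
      exact sub_eq_zero.2 h1.symm
    replace h3 := (sum_eq_zero_iff_of_nonneg fun ω _ =>
      mul_nonneg (hν.pos ω) (sub_nonneg.2 (sg_le _))).1 h3
    rw [sum_eq_zero, mul_zero]
    · exact Nat.cast_nonneg _
    · intro ω hω
      refine (mul_eq_zero.1 (h3 ω (mem_univ _))).resolve_right fun h4 => h2 ?_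
      rw [← chi_congr fun d hd' => (mem_filter.1 hω).2 d (hl hd')]
      exact (sub_eq_zero.1 h4).symm
  push Not at hx
  have hN : (0 : ℝ) ≤ Fintype.card ι := Nat.cast_nonneg _
  have hp : (0 : ℝ) < 2 ^ (B G S).card := by positivity
  refine le_of_mul_le_mul_left ?_ hp
  have e1 : (2 : ℝ) ^ (B G S).card * (univ.filter fun i => ∀ d ∈ B G S, a i d = x d).card =
      ∑ l ∈ (B G S).powerset, chi l x * ∑ i, chi l (a i) := by
    simp only [mul_sum]
    rw [sum_comm, card_filter]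
    push_cast
    rw [mul_sum]
    exact sum_congr rfl fun i _ => (four _).symm
  have e2 : (2 : ℝ) ^ (B G S).card *
      ∑ ω ∈ univ.filter (fun ω => ∀ d ∈ B G S, ω d.1 = x d), ν ω =
      ∑ l ∈ (B G S).powerset, chi l x * hat ν l := by
    simp only [hat, mul_sum]
    rw [sum_comm, sum_filter]
    refine sum_congr rfl fun ω _ => ?_
    simp only [mul_left_comm _ (ν ω), ← mul_sum, four]
    split_ifs <;> simp [mul_comm]
  rw [mul_left_comm, e1, e2, mul_sum, ← sub_nonneg, ← sum_sub_distrib]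
  let m : ℝ := max η 0 * Fintype.card ι
  have hm : 0 ≤ m := mul_nonneg (le_max_right _ _) hN
  have h1 : ∀ l ∈ (B G S).powerset, (if l = ∅ then δ * Fintype.card ι else 0) - m ≤
      chi l x * ∑ i, chi l (a i) - (1 - δ) * Fintype.card ι * (chi l x * hat ν l) := by
    intro l hl
    split_ifs with h0
    · simp [h0, hν.tot]; linarith
    rcases hI l (mem_powerset.1 hl) with ⟨h2, h3⟩ | h2
    · simp [hx l (mem_powerset.1 hl) h2, h2, h3]; nlinarith
    · have h3 : η * Fintype.card ι ≤ m := mul_le_mul_of_nonneg_right (le_max_left _ _) hN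
      have h4 := neg_abs_le (chi l x * (∑ i, chi l (a i) - (1 - δ) * Fintype.card ι * hat ν l))
      rw [abs_mul, abs_chi] at h4
      linarith
  refine le_trans ?_ (sum_le_sum h1)
  rw [sum_sub_distrib, sum_ite_eq', if_pos (empty_mem_powerset _), sum_const, card_powerset,
    nsmul_eq_mul]
  have h2 : (2 : ℝ) ^ (B G S).card ≤ 2 ^ K := pow_le_pow_right₀ (by norm_num) hS
  have h3 : 2 ^ K * max η 0 ≤ δ := by
    rcases le_total η 0 with h | h
    · simp [h, hδ.le]
    · simpa [h] using hη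
  have h4 : (2 : ℝ) ^ (B G S).card * max η 0 ≤ δ :=
    (mul_le_mul_of_nonneg_right h2 (le_max_right _ _)).trans h3
  have h5 := mul_le_mul_of_nonneg_right h4 hN
  push_cast
  simp only [m]
  linarith

end Pool.Agent.ATJ
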